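import Pool.Agent.P.MP_29cb78_nt.C.Dens
import Pool.Agent.P.MP_29cb78_nt.C.Setup
import Pool.Agent.P.MP_29cb78_nt.C.Abel2
import Pool.Agent.P.MP_29cb78_nt.Euler

/-!
The Artin symbol of a negative element congruent to one is complex conjugation.
-/

namespace Pool.Agent.P.MP_29cb78_nt.D

open NumberField Ideal C
open NumberField.ComplexEmbedding (IsConj IsReal)
open scoped Classical nonZeroDivisors Pointwise ComplexConjugate

set_option linter.unusedSectionVars false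

noncomputable section

namespace Conj

/-- Uniqueness of Frobenius elements at a prime with trivial inertia. -/
theorem frob_eq {F E : Type} [Field F] [Field E] [Algebra F E] {Q : Ideal (𝓞 E)}
    (hQ : Q.inertia Gal(E/F) = ⊥) {N : ℕ} {σ τ : Gal(E/F)} (hσ : ∀ z : 𝓞 E, σ • z - z ^ N ∈ Q)
    (hτ : ∀ z : 𝓞 E, τ • z - z ^ N ∈ Q) : σ = τ := by
  have h : σ * τ⁻¹ ∈ Q.inertia Gal(E/F) := fun z => by
    have := sub_mem (hσ (τ⁻¹ • z)) (hτ (τ⁻¹ • z))
    simpa [mul_smul] using this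
  rw [hQ, Subgroup.mem_bot, mul_inv_eq_one] at h
  exact h

variable {Ω : Type} [Field Ω] [NumberField Ω] [IsGalois ℚ Ω]

/-- A prime whose Frobenius element is a given involution. -/
theorem exists_prime (c : Gal(Ω/ℚ)) (hc : c * c = 1) (h1 : c ≠ 1) (n m : ℕ) (hn : n ≠ 0)
    (hm : m ∣ n) {ζ : Ω} (hζ : IsPrimitiveRoot ζ m) :
    ∃ (W : Ideal (𝓞 Ω)) (p : ℕ), W.IsMaximal ∧ (n : 𝓞 Ω) ∉ W ∧ p.Prime ∧ (p : 𝓞 Ω) ∈ W ∧
      (∀ z : 𝓞 Ω, c • z - z ^ p ∈ W) ∧ c ζ = ζ ^ p := by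
  have : NeZero m := ⟨fun h => hn (by simpa [h] using hm)⟩
  let H : Subgroup Gal(Ω/ℚ) :=
    { carrier := {g | g = 1 ∨ g = c}
      one_mem' := Or.inl rfl
      mul_mem' := by
        rintro a b (rfl | rfl) (rfl | rfl) <;> simp [hc]
      inv_mem' := by
        rintro a (rfl | rfl)
        · simp
        · exact Or.inr (inv_eq_of_mul_eq_one_right hc) }
  obtain ⟨F, _, _, _, _, _, _, _, hF⟩ := exists_field H ℚ (fun g _ y => g.commutes y)
  have : IsGalois F Ω := IsGalois.tower_top_of_isGalois ℚ F Ω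
  by_contra hcon
  have h2 := gen (dens (euler diri)) F Ω ⊥ n hn fun Q hQ hnQ hp σ hσ => by
    have h3 : σ.restrictScalars ℚ ∈ H := hF ▸ fun y => σ.commutes y
    rcases h3 with h3 | h3
    · rw [Subgroup.mem_bot]
      ext x
      exact congrArg (fun g : Gal(Ω/ℚ) => g x) h3
    · refine absurd ⟨Q, _, hQ, hnQ, hp, ?_, fun z => h3 ▸ hσ z, ?_⟩ hcon
      · have := absNorm_mem (Q.under (𝓞 F))
        rwa [Ideal.mem_under, map_natCast] at this
      · rw [← h3]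
        refine Abel2.frob_zeta (k := F) hζ Q (fun h => hnQ ?_) hσ
        exact Q.mem_of_dvd (Nat.cast_dvd_cast hm) h
  have h4 : c ∈ fixSub ℚ F Ω := hF ▸ Or.inr rfl
  have h5 : toAut c h4 ∈ (⊥ : Subgroup Gal(Ω/F)) := h2 ▸ Subgroup.mem_top _
  refine h1 ?_
  ext x
  exact congrArg (fun g : Gal(Ω/F) => g x) (Subgroup.mem_bot.mp h5)

theorem pr_eq {L : Type} [Field L] [NumberField L] {P : Ideal (𝓞 L)} (hP : P.IsMaximal) {p : ℕ}
    (hp : p.Prime) (h : (p : 𝓞 L) ∈ P) : Gen.pr P = p := by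
  have h1 : (p : ℤ) ∈ P.under ℤ := by rwa [Ideal.mem_under, map_natCast]
  rw [← (Gen.liesOver P).over, mem_span_singleton, Int.natCast_dvd_natCast] at h1
  exact (Nat.prime_dvd_prime_iff_eq (Gen.pr_prime hP) hp).mp h1

variable {k K : Type} [Field k] [Field K] [NumberField k] [NumberField K] [Algebra k K]
  [IsGalois k K] [Algebra K Ω] [Algebra k Ω] [IsScalarTower k K Ω]

/-- The Artin symbol is a power of the Frobenius element over the rationals. -/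
theorem loc {Q : Ideal (𝓞 Ω)} (hQ : Q.IsMaximal) (h1 : Q.inertia Gal(Ω/ℚ) = ⊥)
    (h2 : (Q.under (𝓞 K)).inertia Gal(K/k) = ⊥) {τ : Gal(Ω/ℚ)} {p m : ℕ}
    (hτ : ∀ z : 𝓞 Ω, τ • z - z ^ p ∈ Q) (hm : absNorm (Q.under (𝓞 k)) = p ^ m) :
    τ ^ m ∈ fixSub ℚ k Ω ∧ ∀ a : Gal(K/k),
      (∀ z : 𝓞 K, a • z - z ^ absNorm (Q.under (𝓞 k)) ∈ Q.under (𝓞 K)) →
      ∀ x : K, algebraMap K Ω (a x) = (τ ^ m) (algebraMap K Ω x) := by
  obtain ⟨g, hg, hf⟩ := ArtEx.exists_frob (k0 := ℚ) (L := k) Q hQ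
  have h3 : g = τ ^ m := frob_eq h1 hf (hm ▸ Art1.frob_pow hτ m)
  subst h3
  refine ⟨hg, fun a ha x => ?_⟩
  have h4 := AlgEquiv.restrictNormal_commutes (toAut _ hg) K
  have h5 : a = (toAut _ hg).restrictNormal K := frob_eq h2 ha fun z => by
    have h6 := hf (algebraMap (𝓞 K) (𝓞 Ω) z)
    have h7 : (τ ^ m) • algebraMap (𝓞 K) (𝓞 Ω) z =
        algebraMap (𝓞 K) (𝓞 Ω) ((toAut _ hg).restrictNormal K • z) := by
      apply RingOfIntegers.ext
      exact (h4 z).symm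
    rw [h7, ← map_pow, ← map_sub] at h6
    exact h6
  rw [h5]
  exact h4 x

/-- Two real embeddings coincide. -/
theorem real_eq {ρ : k →+* ℝ} (hu : ∀ χ : k →+* ℝ, χ = ρ) {χ : k →+* ℂ} (h : IsReal χ) (y : k) :
    χ y = ρ y := by
  rw [← hu h.embedding, h.coe_embedding_apply]

/-- The Artin symbols of the primes above `p`. -/
theorem prime_step {ρ : k →+* ℝ} (hu : ∀ χ : k →+* ℝ, χ = ρ) {φ : Ω →+* ℂ} {c : Gal(Ω/ℚ)}
    (hc : IsConj φ c) (hφ : IsReal (φ.comp (algebraMap k Ω))) {n p : ℕ}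
    (h1 : ∀ R : Ideal (𝓞 Ω), R.IsPrime → (n : 𝓞 Ω) ∉ R → R.inertia Gal(Ω/ℚ) = ⊥)
    (h2 : ∀ R : Ideal (𝓞 K), R.IsPrime → (n : 𝓞 K) ∉ R → R.inertia Gal(K/k) = ⊥)
    {W : Ideal (𝓞 Ω)} (hW : W.IsMaximal) (hn : (n : 𝓞 Ω) ∉ W) (hp : p.Prime)
    (hpW : (p : 𝓞 Ω) ∈ W) (hcW : ∀ z : 𝓞 Ω, c • z - z ^ p ∈ W) {P : Ideal (𝓞 k)}
    (hP : P.IsMaximal) (hpP : (p : 𝓞 k) ∈ P) :
    (n : 𝓞 k) ∉ P ∧ ∃ m : ℕ, absNorm P = p ^ m ∧ ∀ a : Gal(K/k),
      (∀ Q : Ideal (𝓞 K), Q.IsMaximal → Q.under (𝓞 k) = P →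
        ∀ z : 𝓞 K, a • z - z ^ absNorm P ∈ Q) →
      ∀ x : K, algebraMap K Ω (a x) = (c ^ m) (algebraMap K Ω x) := by
  obtain ⟨Q, hQ, hQP⟩ := exists_maximal_ideal_liesOver_of_isIntegral (S := 𝓞 Ω) P
  obtain rfl : P = Q.under (𝓞 k) := hQP.over
  have hpQ : (p : 𝓞 Ω) ∈ Q := by rwa [Ideal.mem_under, map_natCast] at hpP
  have hun : W.under ℤ = Q.under ℤ := by
    rw [← (Gen.liesOver W).over, ← (Gen.liesOver Q).over, pr_eq hW hp hpW, pr_eq hQ hp hpQ]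
  obtain ⟨u, hu'⟩ := Algebra.IsInvariant.exists_smul_of_under_eq ℤ (𝓞 Ω) Gal(Ω/ℚ) W Q hun
  have hmem : ∀ z, z ∈ Q ↔ u⁻¹ • z ∈ W := fun z => by
    rw [hu', mem_pointwise_smul_iff_inv_smul_mem]
  have hnQ : (n : 𝓞 Ω) ∉ Q := fun h => hn (by
    have := (hmem _).mp h
    rwa [← MulSemiringAction.toRingHom_apply, map_natCast] at this)
  have hτ : ∀ z : 𝓞 Ω, (u * c * u⁻¹) • z - z ^ p ∈ Q := fun z => by
    rw [hmem, smul_sub, smul_pow', ← mul_smul, ← mul_assoc, ← mul_assoc, inv_mul_cancel, one_mul,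
      mul_smul]
    exact hcW _
  obtain ⟨m, -, hm⟩ := Gen.norm_eq hP
  rw [pr_eq hP hp hpP] at hm
  have hK : ∀ R : Ideal (𝓞 Ω), R.IsMaximal → (n : 𝓞 Ω) ∉ R →
      (R.under (𝓞 K)).inertia Gal(K/k) = ⊥ := fun R _ hR =>
    h2 _ inferInstance fun h => hR (by rwa [Ideal.mem_under, map_natCast] at h)
  have hcc := isConj_mul_self hc
  refine ⟨fun h => hnQ (by rwa [Ideal.mem_under, map_natCast] at h), m, hm, fun a ha x => ?_⟩
  obtain ⟨h3, h4⟩ := loc (K := K) hQ (h1 Q hQ.isPrime hnQ) (hK Q hQ hnQ) hτ hm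
  rcases m.even_or_odd' with ⟨j, rfl | rfl⟩
  · rw [h4 a (ha _ inferInstance (under_under Q)) x, conj_pow, pow_mul, pow_two, hcc, one_pow,
      mul_one, mul_inv_cancel]
  · rw [conj_pow, pow_succ, pow_mul, pow_two, hcc, one_pow, one_mul] at h3
    have h5 : IsReal ((φ.comp (u⁻¹ : Gal(Ω/ℚ)).toRingEquiv.toRingHom).comp (algebraMap k Ω)) := by
      rw [NumberField.ComplexEmbedding.isReal_iff]
      ext y
      change conj (φ (u⁻¹ (algebraMap k Ω y))) = φ (u⁻¹ (algebraMap k Ω y))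
      conv_rhs => rw [← h3 y]
      rw [← AlgEquiv.mul_apply, ← mul_assoc, ← mul_assoc, inv_mul_cancel, one_mul,
        AlgEquiv.mul_apply, hc.eq]
      rfl
    have h6 : u⁻¹ ∈ fixSub ℚ k Ω := fun y =>
      φ.injective ((real_eq hu h5 y).trans (real_eq hu hφ y).symm)
    have h7 : Q.under (𝓞 k) = W.under (𝓞 k) := by
      ext y
      rw [Ideal.mem_under, Ideal.mem_under, hmem, Art1.smul_algebraMap h6]
    rw [h7] at hm ha
    exact (loc (K := K) hW (h1 W hW.isPrime hn) (hK W hW hn) hcW hm).2 a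
      (ha _ inferInstance (under_under W)) x

end Conj

open Conj in
/-- The Artin symbol of a negative element congruent to one is complex conjugation. -/
theorem conj_art {k K : Type} [Field k] [Field K] [NumberField k] [NumberField K] [Algebra k K]
    [IsGalois k K] {ρ : k →+* ℝ} (hu : ∀ χ : k →+* ℝ, χ = ρ) (hodd : Odd (Module.finrank ℚ k))
    {f : Ideal (𝓞 k)} (hf : f ≠ ⊥) (art : (Ideal (𝓞 k))⁰ →* Gal(K/k))
    (hart : ∀ (P : (Ideal (𝓞 k))⁰) (Q : Ideal (𝓞 K)), Q.IsMaximal → Q.under (𝓞 k) = P →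
      ¬ f ≤ P → ∀ z : 𝓞 K, art P • z - z ^ Ideal.absNorm P.1 ∈ Q)
    (hray : ∀ (I : (Ideal (𝓞 k))⁰) (α : 𝓞 k), I.1 = span {α} → α - 1 ∈ f → 0 < ρ α → art I = 1)
    (I : (Ideal (𝓞 k))⁰) (β : 𝓞 k) (hI : I.1 = span {β}) (hβ : β - 1 ∈ f) (hneg : ρ β < 0)
    (ψ : K →+* ℂ) (hψ : IsReal (ψ.comp (algebraMap k K))) (x : K) :
    ψ (art I x) = conj (ψ x) := by
  set n := 3 * absNorm f with hn
  have hn0 : absNorm f ≠ 0 := fun h => hf (absNorm_eq_zero_iff.mp h)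
  have : NeZero n := ⟨by omega⟩
  let E := CyclotomicField n K
  obtain ⟨Ω, _, _, _, _, -⟩ := Setup.exists_closure E
  let _ : Algebra K Ω := ((algebraMap E Ω).comp (algebraMap K E)).toAlgebra
  let _ : Algebra k Ω := ((algebraMap K Ω).comp (algebraMap k K)).toAlgebra
  have : IsScalarTower k K Ω := IsScalarTower.of_algebraMap_eq fun _ => rfl
  have hζ := (IsCyclotomicExtension.zeta_spec n K E).map_of_injective (algebraMap E Ω).injective
  set ζ := algebraMap E Ω (IsCyclotomicExtension.zeta n K E)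
  let φ : Ω →+* ℂ := ComplexEmbedding.lift Ω ψ
  have hφ0 : φ.comp (algebraMap K Ω) = ψ := ComplexEmbedding.lift_comp_algebraMap Ω ψ
  have hφ : IsReal (φ.comp (algebraMap k Ω)) := by
    rwa [IsScalarTower.algebraMap_eq k K Ω, ← RingHom.comp_assoc, hφ0]
  obtain ⟨c, hc⟩ := exists_isConj (k0 := ℚ) φ
  have hcc := isConj_mul_self hc
  have hcζ : c ζ * ζ = 1 := by
    apply φ.injective
    rw [map_mul, hc.eq, map_one]
    have := (hζ.map_of_injective φ.injective).norm'_eq_one (NeZero.ne n)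
    rw [RCLike.star_def, Complex.conj_mul', this]
    simp
  have hc1 : c ≠ 1 := by
    rintro rfl
    rw [AlgEquiv.one_apply, ← pow_two, hζ.pow_eq_one_iff_dvd] at hcζ
    have := Nat.le_of_dvd two_pos hcζ
    omega
  obtain ⟨m1, hm1, h1⟩ := Dens.exists_unr (F := ℚ) (E := Ω)
  obtain ⟨m2, hm2, h2⟩ := Dens.exists_unr (F := k) (E := K)
  obtain ⟨W, p, hW, hnW, hp, hpW, hcW, hζp⟩ := exists_prime c hcc hc1 (n * (m1 * m2)) n
    (mul_ne_zero (NeZero.ne n) (mul_ne_zero hm1 hm2)) (dvd_mul_right _ _) hζ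
  have hnf : ∀ j : ℕ, n ∣ j → (j : 𝓞 k) ∈ f := fun j hj =>
    f.mem_of_dvd (Nat.cast_dvd_cast ((Dvd.intro_left 3 rfl).trans hj)) (absNorm_mem f)
  have hp1 : ((p + 1 : ℕ) : 𝓞 k) ∈ f := hnf _ (by rw [← hζ.pow_eq_one_iff_dvd, pow_succ, ← hζp, hcζ])
  have key : ∀ (J : Ideal (𝓞 k)) (hJ : J ∈ (Ideal (𝓞 k))⁰), (p : 𝓞 k) ∈ J → ∃ m : ℕ,
      absNorm J = p ^ m ∧
        ∀ x : K, algebraMap K Ω (art ⟨J, hJ⟩ x) = (c ^ m) (algebraMap K Ω x) := by
    intro J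
    induction J using UniqueFactorizationMonoid.induction_on_prime with
    | h₁ => exact fun hJ => absurd rfl (nonZeroDivisors.ne_zero hJ)
    | h₂ J hJ =>
      obtain rfl : J = 1 := by simpa using hJ
      refine fun hJ _ => ⟨0, by simp, fun x => ?_⟩
      rw [show (⟨1, hJ⟩ : (Ideal (𝓞 k))⁰) = 1 from rfl, map_one, pow_zero]
      rfl
    | h₃ J P hJ hP ih =>
      intro hPJ hpm
      have hJ' : J ∈ (Ideal (𝓞 k))⁰ := mem_nonZeroDivisors_of_ne_zero hJ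
      have hP' : P ∈ (Ideal (𝓞 k))⁰ := mem_nonZeroDivisors_of_ne_zero hP.ne_zero
      have hPm : P.IsMaximal := (isPrime_of_prime hP).isMaximal hP.ne_zero
      obtain ⟨m, hm, hx⟩ := ih hJ' (Ideal.mul_le_right hpm)
      obtain ⟨h3, m', hm', hx'⟩ := prime_step (K := K) hu hc hφ
        (fun R hR h => h1 R hR fun h' => h (R.mem_of_dvd (Nat.cast_dvd_cast
          (Dvd.dvd.mul_left (dvd_mul_right m1 m2) n)) h'))
        (fun R hR h => h2 R hR fun h' => h (R.mem_of_dvd (Nat.cast_dvd_cast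
          (Dvd.dvd.mul_left (dvd_mul_left m2 m1) n)) h')) hW hnW hp hpW hcW hPm (Ideal.mul_le_left hpm)
      refine ⟨m' + m, by rw [map_mul, hm, hm', pow_add], fun x => ?_⟩
      rw [show (⟨P * J, hPJ⟩ : (Ideal (𝓞 k))⁰) = ⟨P, hP'⟩ * ⟨J, hJ'⟩ from rfl, map_mul,
        AlgEquiv.mul_apply, hx' _ (fun Q hQ hQP => hart ⟨P, hP'⟩ Q hQ hQP fun h =>
          h3 (h (hnf _ (dvd_mul_right _ _)))), hx, pow_add, AlgEquiv.mul_apply]
  have hp0 : (p : 𝓞 k) ≠ 0 := Nat.cast_ne_zero.mpr hp.ne_zero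
  have hJ : span {(p : 𝓞 k)} ∈ (Ideal (𝓞 k))⁰ := mem_nonZeroDivisors_of_ne_zero (by simpa using hp0)
  obtain ⟨m, hm, hx⟩ := key _ hJ (mem_span_singleton_self _)
  rw [absNorm_span_natCast, RingOfIntegers.rank] at hm
  obtain rfl := Nat.pow_right_injective hp.two_le hm
  obtain ⟨j, hj⟩ := hodd
  rw [hj, pow_succ, pow_mul, pow_two, hcc, one_pow, one_mul] at hx
  have h3 := hray (⟨_, hJ⟩ * I) (-(p * β)) (by
    rw [Submonoid.coe_mul, hI, span_singleton_mul_span_singleton, span_singleton_neg]) (by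
    have := sub_mem (f.mul_mem_left (-p) hβ) hp1
    convert this using 1
    push_cast
    ring) (by
    have : (0 : ℝ) < p := by exact_mod_cast hp.pos
    simp only [RingOfIntegers.coe_eq_algebraMap, map_neg, map_mul, map_natCast] at hneg ⊢
    nlinarith)
  have h4 := hx (art I x)
  rw [← AlgEquiv.mul_apply, ← map_mul, h3, AlgEquiv.one_apply] at h4
  have h5 : algebraMap K Ω (art I x) = c (algebraMap K Ω x) := by
    rw [h4, ← AlgEquiv.mul_apply, hcc, AlgEquiv.one_apply]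
  rw [← hφ0, RingHom.comp_apply, RingHom.comp_apply, h5, hc.eq]
  rfl

end

end Pool.Agent.P.MP_29cb78_nt.D
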