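import Pool.Agent.P.MP_8b7eba_nt.R2.TGENP
import Pool.Agent.P.MP_8b7eba_nt.R2.TFROB
import Pool.Agent.P.MP_8b7eba_nt.R2.TGAL
import Pool.Agent.P.MP_29cb78_nt.D.Conj

/-!
Frobenius elements outside a finite union of normal subgroups, and the density theorem of
Frobenius in its existence form.
-/

namespace Pool.Agent.P.MP_29cb78_nt.D

open NumberField Ideal Set C
open scoped Classical Pointwise

noncomputable section

namespace Fdt

variable {F Ω : Type} [Field F] [Field Ω] [NumberField F] [NumberField Ω] [Algebra F Ω]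
  [IsGalois F Ω]

theorem ex_fr (P : Ideal (𝓞 F)) : ∃ σ : Gal(Ω/F), P.IsMaximal →
    ∃ Q : Ideal (𝓞 Ω), Q.IsMaximal ∧ Q.under (𝓞 F) = P ∧ IsFrob Q σ := by
  by_cases hP : P.IsMaximal
  · obtain ⟨Q, hQ, hQP⟩ := exists_maximal_ideal_liesOver_of_isIntegral (S := 𝓞 Ω) P
    have : Finite (𝓞 Ω ⧸ Q) := Ring.HasFiniteQuotients.finiteQuotient (Gen.ne_bot hQ)
    obtain ⟨σ, hσ⟩ := IsArithFrobAt.exists_of_isInvariant (𝓞 F) Gal(Ω/F) Q
    exact ⟨σ, fun _ => ⟨Q, hQ, hQP.over.symm, (Gen.isFrob_iff _ _).mpr hσ⟩⟩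
  · exact ⟨1, fun h => absurd h hP⟩

theorem dens_diff {W W' : Set (Ideal (𝓞 F))} (hW : ∀ P ∈ W, P.IsMaximal) (h : W' ⊆ W) {d d' : ℝ}
    (h1 : HasDens W d) (h2 : HasDens W' d') : HasDens (W \ W') (d - d') := by
  refine (h1.sub h2).congr' ?_
  filter_upwards [self_mem_nhdsWithin] with s hs
  rw [← sub_div]
  congr 1
  unfold psum
  rw [← (Gen.summ W hW hs).tsum_sub (Gen.summ W' (fun P hP => hW P (h hP)) hs)]
  refine tsum_congr fun P => ?_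
  by_cases a : P ∈ W'
  · simp [a, h a]
  · simp [a]

/-- A prime of degree one whose Frobenius element avoids finitely many normal subgroups. -/
theorem avoid {ι : Type} [Finite ι] (H : ι → Subgroup Gal(Ω/F)) (hH : ∀ i, (H i).Normal)
    {x : Gal(Ω/F)} (hx : ∀ i, x ∉ H i) {n : ℕ} (hn : n ≠ 0) :
    ∃ (Q : Ideal (𝓞 Ω)) (σ : Gal(Ω/F)), Q.IsMaximal ∧ (n : 𝓞 Ω) ∉ Q ∧
      (absNorm (Q.under (𝓞 F))).Prime ∧ IsFrob Q σ ∧ ∀ i, σ ∉ H i := by
  have := Fintype.ofFinite ι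
  obtain ⟨m, hm, hu⟩ := Dens.exists_unr (F := F) (E := Ω)
  choose fr hfr using ex_fr (F := F) (Ω := Ω)
  let W : Set Gal(Ω/F) → Set (Ideal (𝓞 F)) := fun A =>
    {P | P.IsMaximal ∧ ((n * m : ℕ) : 𝓞 F) ∉ P ∧ fr P ∈ A}
  have hmem : ∀ Q : Ideal (𝓞 Ω), ((n * m : ℕ) : 𝓞 F) ∉ Q.under (𝓞 F) →
      (n : 𝓞 Ω) ∉ Q ∧ (m : 𝓞 Ω) ∉ Q := fun Q h => by
    rw [Ideal.mem_under, map_natCast, Nat.cast_mul] at h
    exact ⟨fun h' => h (Q.mul_mem_right _ h'), fun h' => h (Q.mul_mem_left _ h')⟩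
  have base : ∀ H0 : Subgroup Gal(Ω/F), H0.Normal →
      HasDens (W H0) ((H0 : Set Gal(Ω/F)).ncard / Nat.card Gal(Ω/F)) := by
    intro H0 h0
    have h1 := dens (euler diri) F Ω H0 (n * m) h0 (mul_ne_zero hn hm)
    rw [show Nat.card H0 = (H0 : Set Gal(Ω/F)).ncard from Nat.card_coe_set_eq _] at h1
    convert h1 using 1
    ext P
    refine and_congr_right fun hP => and_congr_right fun hnP => ?_
    obtain ⟨Q, hQ, hQP, hf⟩ := hfr P hP
    refine ⟨fun h => ⟨Q, hQ, hQP, _, h, hf⟩, ?_⟩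
    rintro ⟨Q', hQ', hQP', σ, hσ, hf'⟩
    obtain ⟨u, rfl⟩ := Algebra.IsInvariant.exists_smul_of_under_eq (𝓞 F) (𝓞 Ω) Gal(Ω/F) Q' Q
      (hQP'.trans hQP.symm)
    have h2 := (Gen.isFrob_iff _ _).mpr (((Gen.isFrob_iff _ _).mp hf').conj u)
    rw [Conj.frob_eq (hu _ hQ.isPrime (hmem _ (hQP ▸ hnP)).2) hf h2]
    exact h0.conj_mem σ hσ u
  have step : ∀ (s : Finset ι) (H0 : Subgroup Gal(Ω/F)), H0.Normal →
      HasDens (W {y | y ∈ H0 ∧ ∀ i ∈ s, y ∉ H i})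
        ({y | y ∈ H0 ∧ ∀ i ∈ s, y ∉ H i}.ncard / Nat.card Gal(Ω/F)) := by
    intro s
    induction s using Finset.induction_on with
    | empty => simpa using base
    | insert a s _ ih =>
      intro H0 h0
      have := hH a
      have h1 : {y | y ∈ H0 ⊓ H a ∧ ∀ i ∈ s, y ∉ H i} ⊆ {y | y ∈ H0 ∧ ∀ i ∈ s, y ∉ H i} :=
        fun y hy => ⟨hy.1.1, hy.2⟩
      have h2 : {y | y ∈ H0 ∧ ∀ i ∈ insert a s, y ∉ H i} =
          {y | y ∈ H0 ∧ ∀ i ∈ s, y ∉ H i} \ {y | y ∈ H0 ⊓ H a ∧ ∀ i ∈ s, y ∉ H i} := by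
        ext y
        simp only [Finset.forall_mem_insert, mem_sdiff, mem_ofPred_eq, Subgroup.mem_inf]
        tauto
      have h4 : ∀ A A', W (A \ A') = W A \ W A' := fun A A' => by
        ext P
        simp only [W, mem_sdiff, mem_ofPred_eq]
        tauto
      rw [h2, ncard_sdiff h1, Nat.cast_sub (ncard_le_ncard h1), sub_div, h4]
      exact dens_diff (fun P hP => hP.1) (fun P hP => And.intro hP.1 ⟨hP.2.1, h1 hP.2.2⟩)
        (ih H0 h0) (ih (H0 ⊓ H a) inferInstance)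
  by_contra hcon
  have h0 : HasDens (∅ : Set (Ideal (𝓞 F))) 0 := by simp [HasDens, psum]
  have h1 := Gen.dens_le _ _ (fun P hP => hP.elim) (fun P hP => hP.1) (fun P hP hp => by
    obtain ⟨Q, hQ, hQP, hf⟩ := hfr P hP.1
    exact hcon ⟨Q, _, hQ, (hmem Q (hQP ▸ hP.2.1)).1, hQP ▸ hp, hf,
      fun i => hP.2.2.2 i (Finset.mem_univ i)⟩) (step Finset.univ ⊤ inferInstance) h0
  refine absurd h1 (not_le.mpr (div_pos ?_ ?_))
  · exact_mod_cast (ncard_pos).mpr ⟨x, And.intro (Subgroup.mem_top x) fun i _ => hx i⟩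
  · exact_mod_cast Nat.card_pos

end Fdt

open MP_8b7eba_nt.R2 in
/-- Frobenius elements in `U` outside finitely many open subgroups that are normalised by `U`. -/
theorem exn {ι : Type} [Finite ι] (U : Subgroup GQ) (H : ι → Subgroup GQ)
    (hU : IsOpen (U : Set GQ)) (hH : ∀ i, IsOpen (H i : Set GQ))
    (hn : ∀ i, ∀ u ∈ U, ∀ h ∈ U, h ∈ H i → u * h * u⁻¹ ∈ H i) {x : GQ} (hxU : x ∈ U)
    (hx : ∀ i, x ∉ H i) (B : ℕ) :
    ∃ (w : Pl) (φ : GQ), B < w.p ∧ φ ∈ U ∧ w.IsFrob 1 φ ∧ ∀ i, φ ∉ H i := by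
  have hPL := t_PL
  have hGAL := t_GAL
  have hFROB := t_FROB hPL hGAL
  obtain ⟨N, hN, hle⟩ := exists_ON_le (U := U ⊓ ⨅ i, H i)
    (by rw [Subgroup.coe_inf, Subgroup.coe_iInf]; exact hU.inter (isOpen_iInter_of_finite hH))
  have hNH : ∀ i, N ≤ H i := fun i => hle.trans (inf_le_right.trans (iInf_le _ i))
  obtain ⟨B', hB'⟩ := TGENP.sep hPL hGAL hN
  let L := IntermediateField.fixedField N
  have := numberField hN.2
  have : IsGalois ℚ L := (InfiniteGalois.normal_iff_isGalois L).1 (by rw [Basic.fs hN.2]; exact hN.1)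
  let G1 : Subgroup Gal(L/ℚ) :=
    { carrier := {g | ∀ y : L, Fix U y → g y = y}
      mul_mem' := fun {a b} ha hb y hy => by rw [AlgEquiv.mul_apply, hb y hy, ha y hy]
      one_mem' := fun _ _ => rfl
      inv_mem' := fun {a} ha y hy => by
        conv_lhs => rw [← ha y hy]
        exact a.symm_apply_apply y }
  let K := IntermediateField.fixedField G1
  have hK : ∀ (g : Gal(L/K)) (y : L), Fix U y → g y = y := fun g y hy =>
    g.commutes ⟨y, fun a => a.2 y hy⟩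
  have hinv : ∀ (a : Gal(L/K)) (τ : GQ), (∀ x : L, τ x = a x) → ∀ x : L, τ⁻¹ x = a⁻¹ x := by
    intro a τ h2 x
    have h3 := h2 (a⁻¹ x)
    rw [show a (a⁻¹ x) = x from a.apply_symm_apply x] at h3
    rw [← h3]
    exact τ.symm_apply_apply _
  let H1 : ι → Subgroup Gal(L/K) := fun i =>
    { carrier := {g | ∃ τ ∈ U ⊓ H i, ∀ x : L, τ x = g x}
      mul_mem' := fun {a b} ⟨τ, h1, h2⟩ ⟨τ', h3, h4⟩ =>
        ⟨τ * τ', mul_mem h1 h3, fun x => by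
          rw [AlgEquiv.mul_apply, h4, h2, AlgEquiv.mul_apply]⟩
      one_mem' := ⟨1, one_mem _, fun _ => rfl⟩
      inv_mem' := fun {a} ⟨τ, h1, h2⟩ => ⟨τ⁻¹, inv_mem h1, hinv a τ h2⟩ }
  have hlift : ∀ g : Gal(L/K), ∃ s ∈ U, ∀ x : L, s x = g x := fun g => by
    let s : GQ := (g.restrictScalars ℚ).liftNormal Om
    have hs : ∀ x : L, s x = g x := fun x => (g.restrictScalars ℚ).liftNormal_commutes Om x
    refine ⟨s, (hGAL U (closed_of_open hU)).1 s fun x hx => ?_, hs⟩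
    have hx' : x ∈ L := fix_iff.1 (hx.mono (hle.trans inf_le_left))
    rw [hs ⟨x, hx'⟩, hK g _ hx]
  have hnorm : ∀ i, (H1 i).Normal := fun i => ⟨fun g ⟨τ, h1, h2⟩ a => by
    obtain ⟨s, sU, hs⟩ := hlift a
    refine ⟨s * τ * s⁻¹, ⟨U.mul_mem (U.mul_mem sU h1.1) (U.inv_mem sU), hn i s sU τ h1.1 h1.2⟩,
      fun x => ?_⟩
    rw [AlgEquiv.mul_apply, AlgEquiv.mul_apply, hinv a s hs, h2, hs]
    rfl⟩
  have hint : ∀ x : L, IsIntegral ℤ (x : Om) → IsIntegral ℤ x := fun x hx =>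
    (isIntegral_algHom_iff (L.val.toRingHom.toIntAlgHom) Subtype.val_injective).1 hx
  have hker : ∀ (σ τ : GQ) (g : Gal(L/K)), (∀ x : L, σ x = g x) → (∀ x : L, τ x = g x) →
      τ⁻¹ * σ ∈ N := fun σ τ g h1 h2 => (hGAL N (closed_of_open hN.2)).1 _ fun x hx => by
    have hx' : x ∈ L := fix_iff.1 hx
    have h4 : σ x = τ x := (h1 ⟨x, hx'⟩).trans (h2 ⟨x, hx'⟩).symm
    rw [AlgEquiv.mul_apply, h4]
    exact τ.symm_apply_apply x
  let g0 : Gal(L/ℚ) := x.restrictNormal L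
  have hg0 : ∀ y : L, x y = g0 y := fun y => (x.restrictNormal_commutes L y).symm
  have hg1 : g0 ∈ G1 := fun y hy => Subtype.ext (by rw [← hg0, hy _ hxU])
  let g1 : Gal(L/K) := { g0.toRingEquiv with commutes' := fun c => c.2 ⟨g0, hg1⟩ }
  obtain ⟨Q, g, hQ, hnQ, hp, hg, hgH⟩ := Fdt.avoid H1 hnorm (x := g1) (fun i ⟨τ, h1, h2⟩ =>
    hx i (by simpa using mul_mem h1.2 (hNH i (hker x τ g1 hg0 h2))))
    (Nat.factorial_ne_zero (max B B'))
  set p := Ideal.absNorm (Q.under (𝓞 K)) with hpdef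
  have hpQ : (p : 𝓞 L) ∈ Q := by
    have h1 : (p : 𝓞 K) ∈ Q.under (𝓞 K) := Ideal.absNorm_mem _
    rw [Ideal.mem_under] at h1
    simpa using h1
  have hlt : max B B' < p := by
    by_contra hle
    obtain ⟨k, hk⟩ := Nat.dvd_factorial hp.pos (not_lt.1 hle)
    refine hnQ ?_
    rw [hk, Nat.cast_mul]
    exact Q.mul_mem_right _ hpQ
  obtain ⟨w, hw, hwQ⟩ := TGENP.abv L Q hQ hp hpQ
  rw [← hw, max_lt_iff] at hlt
  obtain ⟨f, φ, -, -, hφ, hf, -⟩ := hFROB w w.D w.loc_D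
  obtain rfl := hf rfl
  obtain ⟨s, sU, hs⟩ := hlift g
  have hn' : φ⁻¹ * s ∈ N := hB' w hlt.2 _ fun y hy hi => by
    obtain ⟨z, rfl⟩ : ∃ z : 𝓞 L, ((z : L) : Om) = y :=
      ⟨⟨⟨y, fix_iff.1 hy⟩, hint ⟨y, _⟩ hi⟩, rfl⟩
    have a : w.v (s (z : L) - ((z : L) : Om) ^ w.p) < 1 := by
      have := hwQ _ (hg z)
      rw [hs, hw]
      exact this
    have b := hφ.2 _ (hPL.2.2.2.1 w _ hi)
    rw [pow_one, Valuation.map_sub_swap] at b
    rw [← Pl.mem_D.1 hφ.1, map_sub, AlgEquiv.mul_apply, BasicP.apply_inv,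
      ← sub_add_sub_cancel _ (((z : L) : Om) ^ w.p)]
    exact w.v.map_add_lt a b
  refine ⟨w, φ, hlt.1, by simpa using U.mul_mem sU (U.inv_mem (hle hn').1), hφ, fun i h => ?_⟩
  exact hgH i ⟨s, ⟨sU, by simpa using mul_mem h (hNH i hn')⟩, hs⟩

open MP_8b7eba_nt.R2 in
/-- The density theorem of Frobenius. -/
theorem fdt (N : Subgroup GQ) (hN : ON N) (g : GQ) (B : ℕ) :
    ∃ (w : Pl) (φ : GQ), B < w.p ∧ w.IsFrob 1 φ ∧ (∃ i : ℕ, (g ^ i)⁻¹ * φ ∈ N) ∧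
      ∃ j : ℕ, (φ ^ j)⁻¹ * g ∈ N := by
  have := hN.1
  have := N.quotient_finite_of_isOpen hN.2
  have op : ∀ A : Subgroup (GQ ⧸ N), IsOpen (A.comap (QuotientGroup.mk' N) : Set GQ) := fun A =>
    open_of_le hN.2 fun n hn => by
      rw [Subgroup.mem_comap, QuotientGroup.mk'_apply, (QuotientGroup.eq_one_iff n).2 hn]
      exact A.one_mem
  obtain ⟨w, φ, hw, hφ, hf, hA⟩ := exn (ι := {A : Subgroup (GQ ⧸ N) // (g : GQ ⧸ N) ∉ A})
    ((Subgroup.zpowers (g : GQ ⧸ N)).comap (QuotientGroup.mk' N))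
    (fun A => A.1.comap (QuotientGroup.mk' N)) (op _) (fun A => op _) (fun A u hu h hh hA => by
      obtain ⟨i, hi⟩ := Subgroup.mem_comap.1 hu
      obtain ⟨j, hj⟩ := Subgroup.mem_comap.1 hh
      rw [Subgroup.mem_comap] at hA ⊢
      rw [map_mul, map_mul, map_inv, ← hi, ← hj, ← zpow_add, add_comm, zpow_add,
        mul_inv_cancel_right]
      rwa [← hj] at hA) (x := g) (Subgroup.mem_comap.2 (Subgroup.mem_zpowers _)) (fun A => A.2) B
  obtain ⟨i, hi⟩ := mem_powers_iff_mem_zpowers.2 (Subgroup.mem_comap.1 hφ)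
  have h1 : (g : GQ ⧸ N) ∈ Subgroup.zpowers (φ : GQ ⧸ N) := by
    by_contra h
    exact hA ⟨_, h⟩ (Subgroup.mem_comap.2 (Subgroup.mem_zpowers _))
  obtain ⟨j, hj⟩ := mem_powers_iff_mem_zpowers.2 h1
  exact ⟨w, φ, hw, hf, ⟨i, QuotientGroup.eq.1 hi⟩, j, QuotientGroup.eq.1 hj⟩

end

end Pool.Agent.P.MP_29cb78_nt.D
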