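import Pool.Agent.P.MP_29cb78_nt.D.UBasic
import Pool.Agent.P.MP_29cb78_nt.E.KZeta
import Pool.Agent.P.MP_29cb78_nt.E.KFib
import Pool.Agent.P.MP_29cb78_nt.E.KEmb

/-!
The derivative at zero of the zeta function of a narrow ray class, in terms of the invariants.
-/

namespace Pool.Agent.P.MP_29cb78_nt.D

open NumberField NumberField.InfinitePlace Ideal C E F
open scoped Classical

noncomputable section

namespace Fin1

variable {k : Type} [Field k] [NumberField k] {ρ : k →+* ℝ} {σ : k →+* ℂ}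

/-- Every nonreal embedding is part of a pair of embeddings. -/
theorem emb_of (h3 : Module.finrank ℚ k = 3) (hc : nrComplexPlaces k = 1)
    (hσ : ¬ ComplexEmbedding.IsReal σ) : ∃ ρ : k →+* ℝ, Emb ρ σ := by
  obtain ⟨ρ, τ, h⟩ := k_emb k h3 hc
  have hτ : ¬ ComplexEmbedding.IsReal τ := fun hτ => by
    have h1 : Function.Bijective (algebraMap ℚ k) := ⟨(algebraMap ℚ k).injective, fun x => by
      obtain ⟨c, hc⟩ := h.rat x (Complex.conj_eq_iff_im.1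
        (RingHom.congr_fun (ComplexEmbedding.isReal_iff.1 hτ) x))
      exact ⟨c, by rw [hc, eq_ratCast]⟩⟩
    rw [← Algebra.finrank_eq_one_iff_bijective_algebraMap, h3] at h1
    omega
  obtain ⟨v, uv⟩ := Fintype.card_eq_one_iff.1 hc
  have h1 : mk τ = mk σ :=
    congrArg Subtype.val ((uv ⟨mk τ, τ, hτ, rfl⟩).trans (uv ⟨mk σ, σ, hσ, rfl⟩).symm)
  rcases mk_eq_iff.1 h1 with rfl | rfl
  · exact ⟨ρ, h⟩
  · refine ⟨ρ, h.rank, h.rk, h.uniq, fun x => ?_, fun x hx => h.rat x ?_, fun B => ?_⟩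
    · rw [ComplexEmbedding.conjugate_coe_eq, Complex.norm_conj, h.norm]
    · simpa using hx
    · simpa only [ComplexEmbedding.conjugate_coe_eq, Complex.norm_conj] using h.fin B

theorem exists_r (ρ : k →+* ℝ) (σ : k →+* ℂ) : ∃ r : ℂ →+ ℝ, ∀ y, r (σ y) = ρ y := by
  obtain ⟨g, hg⟩ := σ.toRatAlgHom.toLinearMap.exists_leftInverse_of_injective
    (LinearMap.ker_eq_bot.2 σ.injective)
  exact ⟨ρ.toAddMonoidHom.comp g.toAddMonoidHom, fun y =>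
    congrArg ρ (LinearMap.congr_fun hg y)⟩

/-- The real embedding on units. -/
def ph (ρ : k →+* ℝ) : (𝓞 k)ˣ →* ℝ :=
  (ρ.comp (algebraMap (𝓞 k) k)).toMonoidHom.comp (Units.coeHom _)

omit [NumberField k] in
theorem ph_apply (η : (𝓞 k)ˣ) : ph ρ η = ρ (η : 𝓞 k) := rfl

/-- The positive units that are congruent to one form a cyclic group. -/
theorem exists_gen (hE : Emb ρ σ) {f : Ideal (𝓞 k)} (hf : f ≠ ⊥) :
    ∃ ε ∈ KFib.un f, 1 < ph ρ ε ∧ ∀ η ∈ KFib.un f, 0 < ph ρ η → ∃ j : ℤ, η = ε ^ j := by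
  obtain ⟨u, hu, h6⟩ := k_unit k ρ σ hE f hf
  have hfin : {η | η ∈ KFib.un f ∧ 1 < ph ρ η ∧ ph ρ η ≤ ph ρ u}.Finite := by
    refine ((hE.fin (ρ (u : 𝓞 k))).preimage (Units.val_injective (α := 𝓞 k)).injOn).subset ?_
    rintro η ⟨-, a1, a2⟩
    rw [ph_apply] at a1 a2
    have a3 : |ρ (η : 𝓞 k) * ‖σ (η : 𝓞 k)‖ ^ 2| = 1 := by
      rw [← hE.norm]; exact_mod_cast Units.norm k η
    rw [abs_of_nonneg (by positivity)] at a3
    have a4 : ‖σ (η : 𝓞 k)‖ ^ 2 ≤ 1 := by nlinarith [sq_nonneg ‖σ (η : 𝓞 k)‖]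
    exact ⟨by rwa [abs_of_pos (by linarith)],
      ((sq_le_one_iff₀ (norm_nonneg _)).1 a4).trans (by linarith)⟩
  obtain ⟨ε, ⟨e1, e2, e3⟩, hmin⟩ := Set.exists_min_image _ (ph ρ) hfin
    ⟨u, KFib.mem_un.2 hu, by rw [ph_apply]; linarith, le_rfl⟩
  refine ⟨ε, e1, e2, fun η hη hp => ?_⟩
  obtain ⟨j, h1, h2⟩ := exists_mem_Ico_zpow hp e2
  have h0 := one_pos.trans e2
  have h3 : 1 ≤ ph ρ (η / ε ^ j) := by rwa [map_div, map_zpow, one_le_div (zpow_pos h0 j)]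
  have h4 : ph ρ (η / ε ^ j) < ph ρ ε := by
    rwa [map_div, map_zpow, div_lt_iff₀ (zpow_pos h0 j), mul_comm, ← zpow_add_one₀ h0.ne']
  refine ⟨j, div_eq_one.1 (Units.ext (RingOfIntegers.ext (ρ.injective ?_)))⟩
  rcases h3.eq_or_lt with h | h
  · exact h.symm.trans (map_one ρ).symm
  · exact absurd (hmin _ ⟨div_mem hη (zpow_mem e1 j), h, h4.le.trans e3⟩) (not_le.2 h4)

omit [NumberField k] in
/-- The number of generators in the fundamental domain of a power of the generator. -/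
theorem count {f c : Ideal (𝓞 k)} {ν β₀ : 𝓞 k} {ε : (𝓞 k)ˣ} (hν : ν - 1 ∈ f) (hνc : ν ∈ c)
    (e1 : ε ∈ KFib.un f) (e2 : 1 < ph ρ ε)
    (e3 : ∀ η ∈ KFib.un f, 0 < ph ρ η → ∃ j : ℤ, η = ε ^ j) (m : ℕ) (hβ : β₀ - ν ∈ f * c)
    (hp : 0 < ρ β₀) :
    Nat.card {β : 𝓞 k // β - ν ∈ f * c ∧ 1 ≤ ρ β ∧ ρ β < ρ ((ε ^ m : (𝓞 k)ˣ) : 𝓞 k) ∧
      span {β} = span {β₀}} = m := by
  have h0 := one_pos.trans e2
  obtain ⟨n, n1, n2⟩ := exists_mem_Ico_zpow hp e2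
  have hc : β₀ ∈ c := by simpa using c.add_mem (mul_le_right hβ) hνc
  have hf : β₀ - 1 ∈ f := by simpa using f.add_mem (mul_le_left hβ) hν
  have hm : ∀ η : (𝓞 k)ˣ, ρ ((β₀ * η : 𝓞 k) : k) = ρ β₀ * ph ρ η := fun η => by
    rw [ph_apply, ← map_mul]; rfl
  have key : ∀ j : ℤ, (1 ≤ ρ β₀ * ph ρ ε ^ j ∧ ρ β₀ * ph ρ ε ^ j < ph ρ ε ^ (m : ℤ)) ↔
      j ∈ Finset.Ico (-n) (m - n) := fun j => by
    have a1 : ph ρ ε ^ (n + j) ≤ ρ β₀ * ph ρ ε ^ j := by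
      rw [zpow_add₀ h0.ne']
      exact mul_le_mul_of_nonneg_right n1 (zpow_pos h0 j).le
    have a2 : ρ β₀ * ph ρ ε ^ j < ph ρ ε ^ (n + 1 + j) := by
      rw [zpow_add₀ h0.ne']
      exact mul_lt_mul_of_pos_right n2 (zpow_pos h0 j)
    rw [Finset.mem_Ico]
    refine ⟨fun ⟨b1, b2⟩ => ?_, fun ⟨b1, b2⟩ => ⟨(one_le_zpow₀ e2.le (by omega)).trans a1,
      a2.trans_le (zpow_le_zpow_right₀ e2.le (by omega))⟩⟩
    have c1 := (one_lt_zpow_iff_right₀ e2).1 (b1.trans_lt a2)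
    have c2 := (zpow_lt_zpow_iff_right₀ e2).1 (a1.trans_lt b2)
    omega
  rw [← ph_apply, map_pow, ← zpow_natCast]
  have h1 : Nat.card (Finset.Ico (-n) (m - n)) = m := by
    rw [Nat.card_eq_finsetCard]
    simp
  have h3 : ∀ j : Finset.Ico (-n) (m - n), β₀ * (ε ^ j.1 : (𝓞 k)ˣ) - ν ∈ f * c ∧
      1 ≤ ρ (β₀ * (ε ^ j.1 : (𝓞 k)ˣ) : 𝓞 k) ∧
      ρ (β₀ * (ε ^ j.1 : (𝓞 k)ˣ) : 𝓞 k) < ph ρ ε ^ (m : ℤ) ∧
      span {β₀ * (ε ^ j.1 : (𝓞 k)ˣ)} = span {β₀} := fun j => by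
    rw [hm, map_zpow]
    refine ⟨?_, ((key j).2 j.2).1, ((key j).2 j.2).2,
      span_singleton_mul_right_unit (ε ^ j.1).isUnit _⟩
    convert (f * c).add_mem (mul_mem_mul (KFib.mem_un.1 (zpow_mem e1 j.1)) hc) hβ using 1
    ring
  refine (Nat.card_congr (Equiv.ofBijective (fun j => ⟨_, h3 j⟩)
    ⟨fun i j h => ?_, fun β => ?_⟩)).symm.trans h1
  · have h2 := congrArg (ph ρ) (Units.ext (mul_left_cancel₀ (ne_zero_of_pos hp)
      (congrArg Subtype.val h)))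
    rw [map_zpow, map_zpow] at h2
    exact Subtype.ext (zpow_right_injective₀ h0 e2.ne' h2)
  · obtain ⟨β, b1, b2, b3, b4⟩ := β
    obtain ⟨η, rfl⟩ := span_singleton_eq_span_singleton.1 b4.symm
    rw [hm] at b2 b3
    obtain ⟨j, rfl⟩ := e3 η (KFib.mem_un.2 (by
      convert f.sub_mem (mul_le_left ((f * c).sub_mem b1 hβ))
        (f.mul_mem_left ((η : 𝓞 k) - 1) hf) using 1
      ring)) ((mul_pos_iff_of_pos_left hp).1 (one_pos.trans_le b2))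
    rw [map_zpow] at b2 b3
    exact ⟨⟨j, (key j).1 ⟨b2, b3⟩⟩, rfl⟩

/-- The zeta function of the class as a sum over a fundamental domain. -/
theorem zeta (hE : Emb ρ σ) {f b c : Ideal (𝓞 k)} {ν : 𝓞 k} {R : ℝ} {r : ℂ →+ ℝ} (hc : c ≠ ⊥)
    (hr : ∀ x : k, r (σ x) = ρ x)
    (hN : ∀ I, NRay f I b ↔ ∃ β : 𝓞 k, β - ν ∈ f * c ∧ 0 < ρ β ∧ I * c = span {β})
    (hI : ∀ β : 𝓞 k, β - ν ∈ f * c → ∃ I, I * c = span {β}) {e : ℕ} (he : e ≠ 0)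
    (hfib : ∀ β₀ : 𝓞 k, β₀ - ν ∈ f * c → 0 < ρ β₀ → Nat.card {β : 𝓞 k // β - ν ∈ f * c ∧
      1 ≤ ρ β ∧ ρ β < R ∧ span {β} = span {β₀}} = e) {s : ℂ} (hs : 1 < s.re) :
    Zv (latt σ (f * c)) (σ ν) r R s * (absNorm c : ℂ) ^ s = e * rayZ f b s := by
  obtain ⟨d1, -, d3⟩ := diri k s hs
  choose π hπ using hI
  have uq : ∀ {I I' : Ideal (𝓞 k)}, I * c = I' * c → I = I' := mul_right_cancel₀ hc
  let B := {β : 𝓞 k // β - ν ∈ f * c ∧ 1 ≤ ρ β ∧ ρ β < R}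
  let p : B → {I // NRay f I b} := fun β =>
    ⟨π β β.2.1, (hN _).2 ⟨β, β.2.1, one_pos.trans_le β.2.2.1, hπ _ _⟩⟩
  have hp : ∀ I, Nat.card {β // p β = I} = e := fun I => by
    obtain ⟨β₀, b1, b2, b3⟩ := (hN _).1 I.2
    rw [← hfib β₀ b1 b2]
    refine Nat.card_congr ((Equiv.subtypeSubtypeEquivSubtypeExists _ _).trans
      (Equiv.subtypeEquivRight fun β => ⟨fun ⟨x, y⟩ => ⟨x.1, x.2.1, x.2.2, ?_⟩,
        fun x => ⟨⟨x.1, x.2.1, x.2.2.1⟩, Subtype.ext (uq ?_)⟩⟩))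
    · rw [← b3, ← y]; exact (hπ _ x.1).symm
    · exact ((hπ _ x.1).trans x.2.2.2).trans b3.symm
  have hm : ∀ β : 𝓞 k, σ β - σ ν ∈ latt σ (f * c) ↔ β - ν ∈ f * c := fun β => by
    refine ⟨fun ⟨x, hx, h⟩ => ?_, fun h => ⟨_, h, by simp⟩⟩
    have : algebraMap _ k x = algebraMap _ k (β - ν) := σ.injective (by simpa using h)
    rwa [← RingOfIntegers.coe_injective this]
  let E : B → {z : ℂ // z - σ ν ∈ latt σ (f * c) ∧ 1 ≤ r z ∧ r z < R} := fun β =>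
    ⟨σ β.1, (hm _).2 β.2.1, by rw [hr]; exact β.2.2⟩
  have hEb : Function.Bijective E := by
    refine ⟨fun x y h => Subtype.ext (RingOfIntegers.coe_injective
      (σ.injective (congrArg Subtype.val h))), fun ⟨z, ⟨x, hx, h⟩, h2⟩ => ?_⟩
    obtain rfl : z = σ ((x + ν : 𝓞 k) : k) := by rw [← sub_add_cancel z (σ ν), ← h]; simp
    exact ⟨⟨x + ν, by simpa using hx, by rwa [hr] at h2⟩, rfl⟩
  have hc' : (absNorm c : ℂ) ≠ 0 := by simpa [absNorm_eq_zero_iff] using hc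
  have hz : Zv (latt σ (f * c)) (σ ν) r R s =
      (∑' β : B, (absNorm (p β).1 : ℂ) ^ (-s)) * (absNorm c : ℂ) ^ (-s) := by
    rw [Zv, ← (Equiv.ofBijective E hEb).tsum_eq, ← tsum_mul_right]
    refine tsum_congr fun β => ?_
    change ((r (σ β.1) * ‖σ β.1‖ ^ 2 : ℝ) : ℂ) ^ (-s) = (absNorm (π β β.2.1) : ℂ) ^ (-s) * _
    rw [hr, KZeta.nrm hE _ (one_pos.trans_le β.2.2.1), ← hπ _ β.2.1, map_mul,
      ← Complex.natCast_mul_natCast_cpow, Complex.ofReal_natCast, Nat.cast_mul]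
  have h2 : (absNorm c : ℂ) ^ s ≠ 0 := by simp [hc']
  rw [hz, KZeta.fib p he hp (g := fun I => (absNorm I.1 : ℂ) ^ (-s)) (d1.subtype _), rayZ, d3,
    Lser, Complex.cpow_neg (absNorm c : ℂ) s]
  erw [tsum_subtype {I | NRay f I b} fun I => (absNorm I : ℂ) ^ (-s)]
  field_simp
  exact tsum_congr fun I => by simp [Set.indicator_apply]

theorem ad {f c : Ideal (𝓞 k)} {β : 𝓞 k} {u : (𝓞 k)ˣ} (hf : f ≠ ⊥) (hc : c ≠ ⊥) (hβ : β ∈ c)
    (hn : β ∉ f * c) (hu : u ∈ KFib.un f) (h6 : 6 < ph ρ u) : Ad ρ (f * c) u (absNorm f) β :=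
  ⟨mul_ne_zero hf hc, h6, fun h => hf (absNorm_eq_zero_iff.mp h),
    ⟨_, mul_mem_mul (KFib.mem_un.1 hu) hβ, by push_cast; rfl⟩,
    ⟨_, mul_mem_mul (absNorm_mem f) hβ, by push_cast; rfl⟩, fun h => hn (mem_coe.mp h)⟩

end Fin1

open Fin1 in
/-- The limit formula for narrow ray classes. -/
theorem ray_klf {k : Type} [Field k] [NumberField k] {ρ : k →+* ℝ} {σ : k →+* ℂ} {AL : Fam k}
    (hE : Emb ρ σ) (hI : Inv ρ σ AL) {f : Ideal (𝓞 k)} (hf : f ≠ ⊥) (hf1 : f ≠ ⊤) :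
    ∃ u0 u1 : (𝓞 k)ˣ, u0 ∈ KFib.un f ∧ u1 ∈ KFib.un f ∧ 6 < ph ρ u0 ∧ 6 < ph ρ u1 ∧
      ∀ b : Ideal (𝓞 k), b ≠ ⊥ → IsCoprime b f → ∃ (c : Ideal (𝓞 k)) (β : 𝓞 k),
        β - 1 ∈ f ∧ 0 < ρ β ∧ b * c = span {β} ∧
        Cont (rayZ f b) (((Real.log (‖AL (f * c) u1 (absNorm f) β‖ ^ 2) -
          Real.log (‖AL (f * c) u0 (absNorm f) β‖ ^ 2)) / (12 * (absNorm f : ℝ) ^ 3) : ℝ) : ℂ) := by
  obtain ⟨ε, e1, e2, e3⟩ := exists_gen hE hf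
  obtain ⟨m, hm⟩ := pow_unbounded_of_one_lt 6 e2
  have hm0 : m ≠ 0 := by rintro rfl; norm_num at hm
  have a0 : 6 < ph ρ (ε ^ m) := by rwa [map_pow]
  have a1 : 6 < ph ρ (ε ^ (m + 1)) := by
    rw [map_pow]
    exact hm.trans_le (pow_le_pow_right₀ e2.le m.le_succ)
  refine ⟨ε ^ m, ε ^ (m + 1), pow_mem e1 _, pow_mem e1 _, a0, a1, fun b hb hbf => ?_⟩
  obtain ⟨r, hr⟩ := exists_r ρ σ
  obtain ⟨c, ν, hc0, hν1, hνc, hνn, hray, hdiv⟩ := k_cls k ρ σ hE f b hf hf1 hb hbf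
  obtain ⟨β, b1, b2, b3⟩ := (hray b).1 ⟨1, 1, by
    rw [span_singleton_one, ← one_eq_top]; exact isCoprime_one_left, by simp, by simp, rfl⟩
  refine ⟨c, β, by simpa using f.add_mem (mul_le_left b1) hν1, b2, b3, ?_⟩
  have hcn : (absNorm c : ℂ) ≠ 0 := by exact_mod_cast absNorm_eq_zero_iff.not.2 hc0
  have key : ∀ j : ℕ, j ≠ 0 → 6 < ph ρ (ε ^ j) → Cont (fun s => j * rayZ f b s)
      ((Real.log (‖AL (f * c) (ε ^ j) (absNorm f) β‖ ^ 2) / (12 * (absNorm f : ℝ) ^ 3) : ℝ) : ℂ) := by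
    intro j hj h6
    have h1 := ad hf hc0 hνc hνn (pow_mem e1 j) h6
    rw [hI.per _ _ _ _ β h1 ⟨_, b1, by push_cast; rfl⟩]
    exact ((hI.klf _ _ _ _ r h1 hr).mul_entire
      (differentiable_id.const_cpow (Or.inl hcn))).congr
      (fun s hs => zeta hE hc0 hr hray hdiv hj (fun _ => count hν1 hνc e1 e2 e3 j) hs) (by simp)
  refine ((key _ m.succ_ne_zero a1).add ((key m hm0 a0).const_mul (-1))).congr
    (fun s _ => ?_) ?_
  · push_cast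
    ring
  · push_cast
    ring

end

end Pool.Agent.P.MP_29cb78_nt.D
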