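import Pool.Agent.P.MP_29cb78_nt.C.Abel2

/-!
From an abelian root to an element whose root of the right order is abelian.
-/

namespace Pool.Agent.P.MP_29cb78_nt.D

open NumberField NumberField.Units C
open scoped Classical

noncomputable section

namespace Tate

variable {Ω : Type} [Field Ω] [NumberField Ω]

theorem exists_prim : ∃ ζ : Ω, IsPrimitiveRoot ζ (torsionOrder Ω) := by
  obtain ⟨ζ, hζ⟩ := IsCyclic.exists_ofOrder_eq_natCard (α := torsion Ω)
  refine ⟨((ζ : (𝓞 Ω)ˣ) : Ω), ?_⟩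
  rw [IsPrimitiveRoot.coe_coe_iff, torsionOrder, ← hζ, ← Subgroup.orderOf_coe]
  exact IsPrimitiveRoot.orderOf _

omit [NumberField Ω] in
theorem pow_tors {y : Ω} {j : ℕ} (hj : j ≠ 0) (h : y ^ j = 1) : y ^ torsionOrder Ω = 1 := by
  have : NeZero (orderOf y) := ⟨fun h0 => hj (by simpa [h0] using orderOf_dvd_of_pow_eq_one h)⟩
  exact orderOf_dvd_iff_pow_eq_one.mp (dvd_torsionOrder_of_isPrimitiveRoot
    (IsPrimitiveRoot.orderOf y))

/-- The cyclotomic character. -/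
theorem exists_chi (s : Ω →+* Ω) : ∃ n : ℕ, ∀ (y : Ω) (j : ℕ), j ≠ 0 → y ^ j = 1 → s y = y ^ n := by
  have : NeZero (torsionOrder Ω) := ⟨torsionOrder_ne_zero Ω⟩
  obtain ⟨ζ, hζ⟩ := exists_prim (Ω := Ω)
  obtain ⟨n, -, hn⟩ := hζ.eq_pow_of_pow_eq_one (ξ := s ζ)
    (by rw [← map_pow, hζ.pow_eq_one, map_one])
  refine ⟨n, fun y j hj hy => ?_⟩
  obtain ⟨i, -, rfl⟩ := hζ.eq_pow_of_pow_eq_one (pow_tors hj hy)
  rw [map_pow, ← hn, ← pow_mul, ← pow_mul, mul_comm]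

end Tate

open Tate in
/-- If a power of `lam` lies in `K` and `lam` generates an abelian extension of `k`, then `lam ^ e`
is an element `u` of `K` times a root of unity, and the roots of order `e` of `u` generate abelian
extensions of `k`. -/
theorem tate {k K Ω : Type} [Field k] [Field K] [Field Ω] [NumberField k] [NumberField K]
    [NumberField Ω] [Algebra k K] [Algebra K Ω] [Algebra k Ω] [IsScalarTower k K Ω]
    [IsGalois k Ω] [IsAbelianGalois k K] {lam : Ω} (h0 : lam ≠ 0) {N : ℕ} (hN : N ≠ 0)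
    (hK : lam ^ N ∈ Set.range (algebraMap K Ω))
    (hcomm : ∀ s t : Gal(Ω/k), s (t lam) = t (s lam)) :
    ∃ (u : K) (ξ : Ω), ξ ^ torsionOrder Ω = 1 ∧ algebraMap K Ω u * ξ = lam ^ torsionOrder K ∧
      ∀ x : AlgebraicClosure K, x ^ torsionOrder K = algebraMap K (AlgebraicClosure K) u →
        IsAbelianGalois k (IntermediateField.adjoin K {x}) := by
  have : IsGalois K Ω := IsGalois.tower_top_of_isGalois k K Ω
  have hM := torsionOrder_ne_zero Ω
  have hfix : ∀ y : Ω, (∀ τ : Gal(Ω/K), τ y = y) → ∃ a : K, algebraMap K Ω a = y :=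
    fun y hy => (IsGalois.mem_range_algebraMap_iff_fixed y).mpr hy
  choose χ hχ using fun s : Gal(Ω/k) => exists_chi (s : Ω →+* Ω)
  replace hχ : ∀ (s : Gal(Ω/k)) (y : Ω) (j : ℕ), j ≠ 0 → y ^ j = 1 → s y = y ^ χ s := hχ
  have hc : ∀ τ : Gal(Ω/K), (τ lam / lam) ^ N = 1 := fun τ => by
    obtain ⟨a, ha⟩ := hK
    rw [div_pow, ← map_pow, ← ha, τ.commutes, div_self]
    rw [ha]
    exact pow_ne_zero _ h0
  have hne : ∀ s : Gal(Ω/k), s lam ≠ 0 := fun s => (map_ne_zero s).mpr h0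
  have hα : ∀ (s : Gal(Ω/k)) (τ : Gal(Ω/K)), τ (s lam / lam ^ χ s) = s lam / lam ^ χ s := by
    intro s τ
    have h1 : τ (s lam) = s (τ lam) := hcomm (τ.restrictScalars k) s
    have h2 := hχ s _ N hN (hc τ)
    have h3 : τ lam ≠ 0 := (map_ne_zero τ).mpr h0
    rw [map_div₀, div_pow, div_eq_iff (hne s)] at h2
    rw [map_div₀, map_pow, h1, h2]
    field_simp
  let A : AddSubgroup ℤ :=
    { carrier := {j | ∃ ξ : Ω, ξ ^ torsionOrder Ω = 1 ∧
        ∀ τ : Gal(Ω/K), τ (lam ^ j / ξ) = lam ^ j / ξ}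
      zero_mem' := ⟨1, one_pow _, fun τ => by simp⟩
      add_mem' := by
        rintro i j ⟨ξ, h1, h2⟩ ⟨η, h3, h4⟩
        refine ⟨ξ * η, by rw [mul_pow, h1, h3, one_mul], fun τ => ?_⟩
        rw [zpow_add₀ h0, mul_div_mul_comm, map_mul, h2, h4]
      neg_mem' := by
        rintro i ⟨ξ, h1, h2⟩
        refine ⟨ξ⁻¹, by rw [inv_pow, h1, inv_one], fun τ => ?_⟩
        rw [zpow_neg, ← inv_div_inv, inv_inv, inv_inv, ← inv_div, map_inv₀, h2] }
  obtain ⟨d, hd⟩ := Int.subgroup_cyclic A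
  have hdvd : ∀ j, j ∈ A ↔ d ∣ j := fun j => by
    rw [hd, AddSubgroup.mem_closure_singleton]
    exact ⟨fun ⟨n, hn⟩ => ⟨n, by rw [← hn, smul_eq_mul, mul_comm]⟩,
      fun ⟨n, hn⟩ => ⟨n, by rw [hn, smul_eq_mul, mul_comm]⟩⟩
  have h1 : d ∣ (torsionOrder Ω : ℤ) := (hdvd _).mp ⟨1, one_pow _, fun τ => by
    have := pow_tors hN (hc τ)
    rw [div_pow, div_eq_one_iff_eq (pow_ne_zero _ h0)] at this
    rw [div_one, zpow_natCast, map_pow, this]⟩
  have h2 : ∀ σ : Gal(Ω/K), d ∣ (χ (σ.restrictScalars k) : ℤ) - 1 := fun σ =>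
    (hdvd _).mp ⟨σ lam / lam, pow_tors hN (hc σ), fun τ => by
      have h3 : lam ^ ((χ (σ.restrictScalars k) : ℤ) - 1) / (σ lam / lam) =
          ((σ.restrictScalars k) lam / lam ^ χ (σ.restrictScalars k))⁻¹ := by
        rw [zpow_sub_one₀ h0, zpow_natCast, inv_div]
        change _ = _ / σ lam
        field_simp
      rw [h3, map_inv₀, hα]⟩
  obtain ⟨ζ, hζ⟩ := exists_prim (Ω := Ω)
  obtain ⟨q, hq⟩ : d.natAbs ∣ torsionOrder Ω := Int.natAbs_dvd_natAbs.mpr h1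
  have hη : IsPrimitiveRoot (ζ ^ q) d.natAbs :=
    hζ.pow (Nat.pos_of_ne_zero hM) (hq.trans (mul_comm _ _))
  have : NeZero d.natAbs := ⟨fun h => hM (by rw [hq, h, zero_mul])⟩
  obtain ⟨y, hy⟩ := hfix (ζ ^ q) fun τ => by
    have h3 := hχ (τ.restrictScalars k) _ _ (NeZero.ne _) hη.pow_eq_one
    have h4 := (hη.zpow_eq_one_iff_dvd _).mpr (Int.natAbs_dvd.mpr (h2 τ))
    rw [zpow_sub_one₀ (hη.ne_zero (NeZero.ne _)), zpow_natCast,
      mul_inv_eq_one₀ (hη.ne_zero (NeZero.ne _))] at h4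
    exact h3.trans h4
  have h3 : d.natAbs ∣ torsionOrder K := dvd_torsionOrder_of_isPrimitiveRoot
    (IsPrimitiveRoot.of_map_of_injective (hy ▸ hη) (algebraMap K Ω).injective)
  obtain ⟨ξ, hξ, hu⟩ := (hdvd (torsionOrder K)).mpr (Int.natAbs_dvd.mp (by exact_mod_cast h3))
  rw [zpow_natCast] at hu
  obtain ⟨u, hu⟩ := hfix _ hu
  have hξ0 : ξ ≠ 0 := fun h => by simp [h, hM] at hξ
  refine ⟨u, ξ, hξ, by rw [hu, div_mul_cancel₀ _ hξ0], ?_⟩
  choose α hα' using fun s => hfix _ (hα s)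
  let l : Gal(K/k) → Gal(Ω/k) := fun σ => σ.liftNormal Ω
  have hl : ∀ σ x, algebraMap K Ω (σ x) = l σ (algebraMap K Ω x) := fun σ x =>
    (σ.liftNormal_commutes Ω x).symm
  have hsym : ∀ σ τ : Gal(K/k), algebraMap K Ω (τ (α (l σ)) * α (l τ) ^ (χ (l σ) : ℤ)) =
      l τ (l σ lam) / lam ^ (χ (l σ) * χ (l τ)) := fun σ τ => by
    have := hne (l τ)
    rw [zpow_natCast, map_mul, map_pow, hl, hα', hα', map_div₀, map_pow, div_pow, ← pow_mul,
      mul_comm (χ (l τ))]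
    field_simp
  refine abel2 k K u (fun σ => χ (l σ)) (fun σ => α (l σ)) ?_ (fun σ y hy => ?_)
    (fun σ => ?_) fun σ τ => ?_
  · rintro rfl
    rw [map_zero] at hu
    exact div_ne_zero (pow_ne_zero _ h0) hξ0 hu.symm
  · apply (algebraMap K Ω).injective
    rw [hl, zpow_natCast, map_pow]
    exact hχ _ _ _ (torsionOrder_ne_zero K) (by rw [← map_pow, hy, map_one])
  · apply (algebraMap K Ω).injective
    rw [hl, zpow_natCast, map_mul, map_pow, map_pow, hu, hα', map_div₀, map_pow, hχ _ ξ _ hM hξ,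
      div_pow, div_pow, ← pow_mul, ← pow_mul, mul_comm (torsionOrder K)]
    field_simp
  · apply (algebraMap K Ω).injective
    rw [hsym, hsym, hcomm, mul_comm]

end

end Pool.Agent.P.MP_29cb78_nt.D
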