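import Pool.Agent.P.MP_29cb78_nt.D.Zl
import Pool.Agent.P.MP_29cb78_nt.D.Conj
import Pool.Agent.P.MP_29cb78_nt.D.Tate

/-! Assembly of the Stark unit of a complex cubic field. -/

namespace Pool.Agent.P.MP_29cb78_nt.D

open NumberField NumberField.InfinitePlace NumberField.Units E F
open scoped Classical nonZeroDivisors ComplexConjugate

noncomputable section

variable {k K : Type} [Field k] [Field K] [NumberField k] [NumberField K] [Algebra k K]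
  {ρ : k →+* ℝ} {σ : k →+* ℂ} {f : Ideal (𝓞 k)} {AL : Fam k} {φ : K →+* ℂ}

namespace Final

/-- The extension of `art` to all ideals. -/
def ext (art : (Ideal (𝓞 k))⁰ →* Gal(K/k)) (I : Ideal (𝓞 k)) : Gal(K/k) :=
  if h : I ∈ (Ideal (𝓞 k))⁰ then art ⟨I, h⟩ else 1

omit [NumberField k] [NumberField K] in
theorem ext_eq (art : (Ideal (𝓞 k))⁰ →* Gal(K/k)) (I : (Ideal (𝓞 k))⁰) : ext art I = art I :=
  dif_pos I.2

omit [NumberField k] in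
theorem cop_top (f : Ideal (𝓞 k)) : IsCoprime ⊤ f := by
  rw [← Ideal.one_eq_top]; exact isCoprime_one_left

omit [NumberField k] in
theorem cop_one {c : Ideal (𝓞 k)} {x : 𝓞 k} (hx : x ∈ c) (h : x - 1 ∈ f) : IsCoprime c f :=
  Ideal.isCoprime_iff_exists.2 ⟨x, hx, 1 - x, by simpa using f.neg_mem h, by ring⟩

theorem nray_top (hu : ∀ χ : k →+* ℝ, χ = ρ) {I : Ideal (𝓞 k)} :
    NRay f I ⊤ ↔ ∃ δ : 𝓞 k, δ - 1 ∈ f ∧ 0 < ρ δ ∧ Ideal.span {δ} = I := by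
  constructor
  · rintro ⟨x, y, h1, h2, h3, h4⟩
    have hy : y ≠ 0 := by rintro rfl; simpa using h3 ρ
    rw [Ideal.mul_top] at h4
    obtain ⟨δ, rfl⟩ := Ideal.mem_span_singleton.1
      (Ideal.mul_le_left (h4 ▸ Ideal.mem_span_singleton_self x))
    rw [← Ideal.span_singleton_mul_span_singleton] at h4
    obtain ⟨a, ha, g, hg, hs⟩ := Ideal.isCoprime_iff_exists.1 h1
    obtain ⟨z, rfl⟩ := Ideal.mem_span_singleton.1 ha
    refine ⟨δ, ?_, ?_, (mul_left_cancel₀ (by simpa using hy) h4).symm⟩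
    · convert f.add_mem (f.mul_mem_left z h2) (f.mul_mem_left (δ - 1) hg) using 1
      linear_combination (-(δ - 1)) * hs
    · have h5 := h3 ρ
      rw [show ρ ((y * δ : 𝓞 k) : k) = ρ y * ρ δ by rw [← map_mul]; rfl, mul_right_comm] at h5
      exact pos_of_mul_pos_left (mul_comm _ (ρ δ) ▸ h5) (mul_self_nonneg _)
  · rintro ⟨δ, h1, h2, rfl⟩
    exact ⟨δ, 1, by rw [Ideal.span_singleton_one]; exact cop_top f, h1,
      fun χ => by simpa [hu χ] using h2, by simp⟩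

omit [NumberField K] in
theorem artD (hu : ∀ χ : k →+* ℝ, χ = ρ) (hf : f ≠ ⊥) (art : (Ideal (𝓞 k))⁰ →* Gal(K/k))
    (hart : ∀ (P : (Ideal (𝓞 k))⁰) (Q : Ideal (𝓞 K)), Q.IsMaximal → Q.under (𝓞 k) = P →
      ¬ f ≤ P → ∀ z : 𝓞 K, art P • z - z ^ Ideal.absNorm P.1 ∈ Q)
    (hker : ∀ I J : (Ideal (𝓞 k))⁰, IsCoprime I.1 f → IsCoprime J.1 f →
      (art I = art J ↔ NRay f I J)) : ArtD ρ f (ext art) := by
  have nz : ∀ {I : Ideal (𝓞 k)}, I ≠ ⊥ → I ∈ (Ideal (𝓞 k))⁰ := mem_nonZeroDivisors_of_ne_zero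
  refine ⟨hf, fun I J hI hJ => ?_, fun W hW h z => ?_, fun I hI hc => ?_⟩
  · rw [ext_eq art ⟨I, nz hI⟩, ext_eq art ⟨J, nz hJ⟩, ← map_mul, ← ext_eq]
    rfl
  · have h0 : W.under (𝓞 k) ≠ ⊥ := C.Gen.ne_bot (Ideal.IsMaximal.under _ W)
    rw [ext_eq art ⟨_, nz h0⟩]
    exact hart ⟨_, nz h0⟩ W hW rfl h z
  · rw [ext_eq art ⟨I, nz hI⟩, ← nray_top hu, ← map_one art, ← Ideal.one_eq_top]
    exact hker ⟨I, nz hI⟩ 1 hc isCoprime_one_left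

variable [IsGalois k K] {ar : Ideal (𝓞 k) → Gal(K/k)}

/-- The invariant of the trivial class and its conjugates. -/
theorem base (hSH : U_SH) (hINK : U_INK) (hU : U_UNIT) (hE : Emb ρ σ) (hI : Inv ρ σ AL)
    (hA : ArtD ρ f ar) (hφ : ∀ y, φ (algebraMap k K y) = σ y) (hf' : f ≠ ⊤) {u : (𝓞 k)ˣ} {N : ℕ}
    (hu : (u : 𝓞 k) - 1 ∈ f ∧ 6 < ρ (u : 𝓞 k)) (hN : N ≠ 0) (hN' : (N : 𝓞 k) ∈ f) :
    Ad ρ f u N 1 ∧ ∃ a : K, φ a = AL f u N 1 ∧ a ≠ 0 ∧ IsIntegral ℤ a ∧ IsIntegral ℤ a⁻¹ ∧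
      (∀ (b c : Ideal (𝓞 k)) (β : 𝓞 k), β - 1 ∈ f → 0 < ρ β → b * c = Ideal.span {β} →
        φ (ar b a) = AL (f * c) u N β) ∧
      ∀ β : 𝓞 k, β - 1 ∈ f → ρ β < 0 → ar (Ideal.span {β}) a = a⁻¹ := by
  have ad : Ad ρ f u N 1 := by
    simpa using ad_mk (c := ⊤) (ν := 1) hA.ne hf' hu.1 hu.2 hN hN' trivial (by simp)
  have lv : Lev f f (1 : k) := fun y hy => ⟨y, hy, (mul_one _).symm⟩
  have lv' : Lev f f (-1 : k) := fun y hy => ⟨-y, f.neg_mem hy, by simp⟩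
  obtain ⟨a, ha⟩ := hINK k K ρ σ AL f ar φ hE hI hA hφ f u N 1 ad lv
  have int : ∀ x : K, IsIntegral ℤ (φ x) → IsIntegral ℤ x := fun x =>
    (isIntegral_algHom_iff φ.toIntAlgHom φ.injective).1
  have act : ∀ (b c : Ideal (𝓞 k)) (β : 𝓞 k), β - 1 ∈ f → 0 < ρ β → b * c = Ideal.span {β} →
      φ (ar b a) = AL (f * c) u N β := fun b c β h1 h2 h3 => by
    have h0 : b * c ≠ ⊥ := by rw [h3]; simpa using ne_zero_of_pos h2
    have hc : β ∈ c := Ideal.mul_le_right (h3 ▸ Ideal.mem_span_singleton_self β)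
    obtain ⟨b', c1, c2, c3⟩ := hSH k K K ρ σ AL f ar φ u N N hE hI hA hφ (by linarith [hu.2]) hN hN
      (ar b)
    have e : ar b' = ar b := AlgEquiv.ext fun y => (c3 y).symm
    have e' : ar (b' * c) = 1 := by
      rw [hA.mul _ _ c1.1 (right_ne_zero_of_mul h0), e,
        ← hA.mul _ _ (left_ne_zero_of_mul h0) (right_ne_zero_of_mul h0)]
      exact (hA.ker _ h0 (cop_one (h3 ▸ Ideal.mem_span_singleton_self β) h1)).2 ⟨β, h1, h2, h3.symm⟩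
    obtain ⟨δ, d1, d2, d3⟩ := (hA.ker _ (mul_ne_zero c1.1 (right_ne_zero_of_mul h0))
      ((cop_ideal c1 hN').mul_left (cop_one hc h1))).1 e'
    have hd : δ ∈ c := Ideal.mul_le_right (d3 ▸ Ideal.mem_span_singleton_self δ)
    have j : b' * (f * c) = Ideal.span {δ} * f := by rw [d3]; ring
    rw [c2 (f * c) (δ * 1) a (j ▸ (ad_span_mul (ne_zero_of_pos d2)).2 ad)
      (by rw [j, hI.hom _ _ _ _ _ ad d2, ha]), mul_one]
    refine hI.per _ _ _ _ _ (ad_mk hA.ne hf' hu.1 hu.2 hN hN' hc h1) ⟨δ - β, ?_, by simp⟩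
    rw [Ideal.mul_eq_inf_of_isCoprime (cop_one hc h1).symm]
    exact ⟨by simpa using f.sub_mem d1 h1, c.sub_mem hd hc⟩
  refine ⟨ad, a, ha, fun h => hI.ne _ _ _ _ ad (by rw [← ha, h, map_zero]),
    int _ (ha ▸ hU k K ρ σ AL f ar hE hI hA f u N 1 ad lv), int _ ?_, act, fun β h1 h2 => ?_⟩
  · rw [map_inv₀, ha, ← hI.neg _ _ _ _ ad]
    exact hU k K ρ σ AL f ar hE hI hA f u N (-1) (Ad.neg ad) lv'
  · have p : 0 < ρ ((-β : 𝓞 k) : k) := by simpa using h2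
    have q : ρ ((-β * -β : 𝓞 k) : k) = ρ ((-β : 𝓞 k) : k) * ρ ((-β : 𝓞 k) : k) := by
      rw [← map_mul]; rfl
    have ad' : Ad ρ f u N ((-β : 𝓞 k) : k) := Ad.congr (Ad.neg ad) ⟨-(β - 1), f.neg_mem h1, by
      simp; ring⟩
    apply φ.injective
    rw [act _ (Ideal.span {-β}) (-β * -β) (by
        convert f.mul_mem_left (β + 1) h1 using 1
        ring) (q ▸ mul_pos p p)
      (by rw [← Ideal.span_singleton_mul_span_singleton, Ideal.span_singleton_neg]),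
      mul_comm f, map_inv₀, ha, ← hI.neg _ _ _ _ ad]
    exact (hI.hom _ _ _ _ _ ad' p).trans
      (hI.per _ _ _ _ _ (Ad.neg ad) ⟨-(β - 1), f.neg_mem h1, by simp; ring⟩)

theorem is_abel (hSH : U_SH) (hE : Emb ρ σ) (hI : Inv ρ σ AL) (hA : ArtD ρ f ar)
    (hφ : ∀ y, φ (algebraMap k K y) = σ y) {u : (𝓞 k)ˣ} (hu : 6 < ρ (u : 𝓞 k)) :
    IsAbelianGalois k K := by
  have h : ∀ s : Gal(K/k), ∃ a, a ≠ ⊥ ∧ ar a = s := fun s => by
    obtain ⟨a, c1, -, c3⟩ := hSH k K K ρ σ AL f ar φ u 1 1 hE hI hA hφ (by linarith) one_ne_zero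
      one_ne_zero s
    exact ⟨a, c1.1, AlgEquiv.ext fun y => (c3 y).symm⟩
  have : IsMulCommutative Gal(K/k) := ⟨⟨fun s t => by
    obtain ⟨a, ha, rfl⟩ := h s
    obtain ⟨b, hb, rfl⟩ := h t
    rw [← hA.mul _ _ ha hb, mul_comm, hA.mul _ _ hb ha]⟩⟩
  exact ⟨⟩

omit [NumberField K] in
theorem ex_neg (ρ : k →+* ℝ) (hf : f ≠ ⊥) : ∃ β : 𝓞 k, β - 1 ∈ f ∧ ρ β < 0 := by
  have h : (1 : ℝ) ≤ Ideal.absNorm f := by
    exact_mod_cast Nat.pos_of_ne_zero (Ideal.absNorm_eq_zero_iff.not.2 hf)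
  refine ⟨1 - 2 * Ideal.absNorm f, by simpa using f.mul_mem_left 2 (Ideal.absNorm_mem f), ?_⟩
  have : ρ ((1 - 2 * Ideal.absNorm f : 𝓞 k) : k) = 1 - 2 * Ideal.absNorm f := by
    change (ρ.comp (algebraMap (𝓞 k) k)) _ = _
    rw [map_sub, map_mul, map_one, map_natCast, map_ofNat]
  linarith

end Final

open Final in
theorem stark (hINV : S_INV) (hOM : U_OM) (hALG : U_ALGV) (hSH : U_SH) (hCOMM : U_COMM)
    (hINK : U_INK) (hU : U_UNIT) [IsGalois k K] (h3 : Module.finrank ℚ k = 3)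
    (hc : nrComplexPlaces k = 1) (hf : f ≠ ⊥) (hf' : f ≠ ⊤) (art : (Ideal (𝓞 k))⁰ →* Gal(K/k))
    (hart : ∀ (P : (Ideal (𝓞 k))⁰) (Q : Ideal (𝓞 K)), Q.IsMaximal → Q.under (𝓞 k) = P →
      ¬ f ≤ P → ∀ z : 𝓞 K, art P • z - z ^ Ideal.absNorm P.1 ∈ Q)
    (hker : ∀ I J : (Ideal (𝓞 k))⁰, IsCoprime I.1 f → IsCoprime J.1 f →
      (art I = art J ↔ NRay f I J))
    (φ : K →+* ℂ) (hφ : ¬ ComplexEmbedding.IsReal (φ.comp (algebraMap k K))) :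
    ∃ u : (𝓞 K)ˣ,
      (∀ b : (Ideal (𝓞 k))⁰, IsCoprime b.1 f →
        Cont (rayZ f b) (-(1 / torsionOrder K * Real.log (‖φ (art b u)‖ ^ 2) : ℝ))) ∧
      (∀ ψ : K →+* ℂ, ComplexEmbedding.IsReal (ψ.comp (algebraMap k K)) → ‖ψ u‖ = 1) ∧
      ∀ x : AlgebraicClosure K, x ^ torsionOrder K = algebraMap K (AlgebraicClosure K) u →
        IsAbelianGalois k (IntermediateField.adjoin K {x}) := by
  obtain ⟨ρ, hE⟩ := emb_of h3 hc hφ
  set σ := φ.comp (algebraMap k K)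
  have hσ : ∀ y, φ (algebraMap k K y) = σ y := fun _ => rfl
  obtain ⟨AL, hI⟩ := hINV k ρ σ hE
  have hA := artD hE.uniq hf art hart hker
  obtain ⟨u₁, u₂, N, h1, h2, hN, hN', hz⟩ := zl hE hI hf hf'
  have := is_abel hSH hE hI hA hσ h1.2
  obtain ⟨ad₁, a₁, p1, p2, p3, p4, p5, p6⟩ := base hSH hINK hU hE hI hA hσ hf' h1 hN hN'
  obtain ⟨ad₂, a₂, q1, q2, q3, q4, q5, q6⟩ := base hSH hINK hU hE hI hA hσ hf' h2 hN hN'
  have hM : 12 * N ^ 3 ≠ 0 := by positivity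
  obtain ⟨l₁, hl₁⟩ := IsAlgClosed.exists_pow_nat_eq (AL f u₁ N 1) (Nat.pos_of_ne_zero hM)
  obtain ⟨l₂, hl₂⟩ := IsAlgClosed.exists_pow_nat_eq (AL f u₂ N 1) (Nat.pos_of_ne_zero hM)
  obtain ⟨Ω, _, _, _, _, _, _, ι, hι, hS⟩ := hOM k K φ {l₁, l₂} (Set.toFinite _) (by
    rintro z (rfl | rfl)
    · exact .of_pow (Nat.pos_of_ne_zero hM) (hl₁ ▸ hALG k ρ σ AL hE hI _ _ _ _ ad₁)
    · exact .of_pow (Nat.pos_of_ne_zero hM) (hl₂ ▸ hALG k ρ σ AL hE hI _ _ _ _ ad₂))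
  obtain ⟨m₁, rfl⟩ := hS l₁ (by simp)
  obtain ⟨m₂, rfl⟩ := hS l₂ (by simp)
  have hι' : ∀ y, ι (algebraMap k Ω y) = σ y := fun y => by
    rw [IsScalarTower.algebraMap_apply k K Ω, hι, hσ]
  have e₁ : m₁ ^ (12 * N ^ 3) = algebraMap K Ω a₁ := ι.injective (by rw [map_pow, hl₁, hι, p1])
  have e₂ : m₂ ^ (12 * N ^ 3) = algebraMap K Ω a₂ := ι.injective (by rw [map_pow, hl₂, hι, q1])
  have e₃ : (m₂ / m₁) ^ (12 * N ^ 3) = algebraMap K Ω (a₂ / a₁) := by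
    rw [div_pow, e₁, e₂, map_div₀]
  have hA0 : a₂ / a₁ ≠ 0 := div_ne_zero q2 p2
  obtain ⟨u, ξ, t1, t2, t3⟩ := tate (k := k) (K := K) (lam := m₂ / m₁) (fun h => by
    rw [h, zero_pow hM] at e₃
    exact (map_ne_zero _).2 hA0 e₃.symm) hM ⟨_, e₃.symm⟩ fun s t => by
      simp only [map_div₀, hCOMM k K Ω ρ σ AL f _ ι hE hI hA hι' f u₁ N 1 m₁ ad₁ hl₁ s t,
        hCOMM k K Ω ρ σ AL f _ ι hE hI hA hι' f u₂ N 1 m₂ ad₂ hl₂ s t]
  have hw := torsionOrder_ne_zero Ω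
  have he := torsionOrder_ne_zero K
  have key : u ^ (12 * N ^ 3 * torsionOrder Ω) = (a₂ / a₁) ^ (torsionOrder K * torsionOrder Ω) := by
    apply (algebraMap K Ω).injective
    rw [map_pow, map_pow, ← e₃, ← pow_mul, mul_left_comm, pow_mul (m₂ / m₁), ← t2, mul_pow,
      mul_comm _ (torsionOrder Ω), pow_mul ξ, t1, one_pow, mul_one]
  have hMw := mul_ne_zero hM hw
  have u0 : u ≠ 0 := fun h => by
    rw [h, zero_pow hMw] at key
    exact pow_ne_zero _ hA0 key.symm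
  have i1 : IsIntegral ℤ u := .of_pow (Nat.pos_of_ne_zero hMw) (by
    rw [key, div_eq_mul_inv]; exact (q3.mul p4).pow _)
  have i2 : IsIntegral ℤ u⁻¹ := .of_pow (Nat.pos_of_ne_zero hMw) (by
    rw [inv_pow, key, ← inv_pow, inv_div, div_eq_mul_inv]; exact (p3.mul q4).pow _)
  have nrm : ∀ χ : K →+* ℂ, ‖χ u‖ ^ (12 * N ^ 3) = ‖χ (a₂ / a₁)‖ ^ torsionOrder K := fun χ => by
    rw [← pow_left_inj₀ (by positivity) (by positivity) hw, ← pow_mul, ← pow_mul, ← norm_pow,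
      ← norm_pow, ← map_pow, ← map_pow, key]
  refine ⟨⟨⟨u, i1⟩, ⟨u⁻¹, i2⟩, Subtype.ext (mul_inv_cancel₀ u0), Subtype.ext (inv_mul_cancel₀ u0)⟩,
    fun b hb => ?_, fun ψ hψ => ?_, t3⟩
  · obtain ⟨c, β, b1, b2, b3, b4⟩ := hz b hb
    refine b4.congr (fun _ _ => rfl) ?_
    have n := congrArg Real.log (nrm (φ.comp (art b : K →+* K)))
    rw [← p5 b c β b1 b2 b3, ← q5 b c β b1 b2 b3, ext_eq, ← map_div₀, ← map_div₀,
      ← inv_div a₂ a₁, map_inv₀, map_inv₀, norm_inv, inv_pow, Real.log_inv, ← Complex.ofReal_neg]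
    congr 1
    change _ = -(1 / (torsionOrder K : ℝ) * Real.log (‖φ (art b u)‖ ^ 2))
    simp only [Real.log_pow, RingHom.comp_apply, RingHom.coe_coe] at n ⊢
    have : (N : ℝ) ≠ 0 := by exact_mod_cast hN
    have : (torsionOrder K : ℝ) ≠ 0 := by exact_mod_cast he
    push_cast at n ⊢
    field_simp
    linarith
  · obtain ⟨β, b1, b2⟩ := ex_neg ρ hf
    have h0 : Ideal.span {β} ∈ (Ideal (𝓞 k))⁰ := mem_nonZeroDivisors_of_ne_zero (by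
      simpa using show β ≠ 0 by rintro rfl; simp at b2)
    have cj := conj_art hE.uniq (h3 ▸ by decide) hf art hart (fun I α a1 a2 a3 => by
      rw [← ext_eq]
      exact (hA.ker _ (nonZeroDivisors.ne_zero I.2)
        (cop_one (a1 ▸ Ideal.mem_span_singleton_self α) a2)).2 ⟨α, a2, a3, a1.symm⟩)
      ⟨_, h0⟩ β rfl b1 b2 ψ hψ (a₂ / a₁)
    rw [← ext_eq, map_div₀, p6 β b1 b2, q6 β b1 b2, inv_div_inv, ← inv_div, map_inv₀] at cj
    have n : ‖ψ (a₂ / a₁)‖ = 1 := by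
      have h := congrArg norm cj
      rw [norm_inv, Complex.norm_conj] at h
      have h' : ‖ψ (a₂ / a₁)‖ ≠ 0 := norm_ne_zero_iff.2 ((map_ne_zero ψ).2 hA0)
      rw [← pow_eq_one_iff_of_nonneg (norm_nonneg _) two_ne_zero, sq]
      nth_rewrite 1 [← h]
      exact inv_mul_cancel₀ h'
    have := nrm ψ
    rwa [n, one_pow, pow_eq_one_iff_of_nonneg (norm_nonneg _) hM] at this

end

end Pool.Agent.P.MP_29cb78_nt.D
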