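import Pool.Agent.P.MP_29cb78_nt.C.Iface
import Pool.Agent.P.MP_29cb78_nt.ZClass
import Pool.Agent.P.MP_29cb78_nt.GaussInt
import Pool.Agent.P.MP_29cb78_nt.Mellin
import Pool.Agent.P.MP_29cb78_nt.Zeta
import Pool.Agent.P.MP_29cb78_nt.Diri
import Pool.Agent.P.MP_29cb78_nt.E.KIso
import Pool.Agent.P.MP_29cb78_nt.E.KPois

/-!
Sums over unit invariant unions of cosets in the ring of integers of a number field: the pole at
`1`.
-/

namespace Pool.Agent.P.MP_29cb78_nt.D

open NumberField NumberField.InfinitePlace NumberField.Units NumberField.mixedEmbedding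
open MeasureTheory Set Ideal Module Filter Topology
open scoped Classical Real Matrix

noncomputable section

namespace Rzg

open ZClass

lemma mel (S : ℝ → ENNReal) {A C s : ℝ} (hA : 0 ≤ A) (hC : 0 ≤ C) (hs1 : 1 < s) (hs2 : s < 2)
    (hup : ∀ y ∈ Ioc (0 : ℝ) 1, S y ≤ ENNReal.ofReal (A / y) + ENNReal.ofReal C)
    (hlo : ∀ y ∈ Ioc (0 : ℝ) 1, ENNReal.ofReal (A / y) ≤ S y + ENNReal.ofReal C) :
    ∫⁻ y in Ioi (0 : ℝ), S y * ENNReal.ofReal (y ^ (s - 1)) ≤
      ENNReal.ofReal (A / (s - 1)) + ENNReal.ofReal C +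
        ∫⁻ y in Ioi (0 : ℝ), S y * ENNReal.ofReal (y ^ ((2 : ℝ) - 1)) ∧
    ENNReal.ofReal (A / (s - 1)) ≤
      (∫⁻ y in Ioi (0 : ℝ), S y * ENNReal.ofReal (y ^ (s - 1))) + ENNReal.ofReal C := by
  have h1 : ∫⁻ y in Ioc (0 : ℝ) 1, ENNReal.ofReal (A / y) * ENNReal.ofReal (y ^ (s - 1)) =
      ENNReal.ofReal (A / (s - 1)) := by
    have hi : IntervalIntegrable (fun y : ℝ => A * y ^ (s - 2)) volume 0 1 :=
      (intervalIntegral.intervalIntegrable_rpow' (by linarith)).const_mul A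
    have hv : ∫ y in (0 : ℝ)..1, A * y ^ (s - 2) = A / (s - 1) := by
      rw [intervalIntegral.integral_const_mul, integral_rpow (Or.inl (by linarith)),
        Real.one_rpow, Real.zero_rpow (by linarith), sub_zero, show s - 2 + 1 = s - 1 by ring]
      ring
    rw [← hv, intervalIntegral.integral_of_le zero_le_one, ofReal_integral_eq_lintegral_ofReal hi.1]
    · refine setLIntegral_congr_fun measurableSet_Ioc fun y hy => ?_
      have hy0 := hy.1
      rw [← ENNReal.ofReal_mul (by positivity), show s - 1 = (s - 2) + 1 by ring,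
        Real.rpow_add hy0, Real.rpow_one]
      congr 1
      field_simp
    · filter_upwards [ae_restrict_mem measurableSet_Ioc] with y hy
      exact mul_nonneg hA (Real.rpow_nonneg hy.1.le _)
  have h2 : ∫⁻ y in Ioc (0 : ℝ) 1, ENNReal.ofReal C * ENNReal.ofReal (y ^ (s - 1)) ≤
      ENNReal.ofReal C := by
    refine (setLIntegral_mono' measurableSet_Ioc (g := fun _ => ENNReal.ofReal C)
      fun y hy => ?_).trans (by simp)
    refine mul_le_of_le_one_right' ?_
    rw [← ENNReal.ofReal_one]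
    exact ENNReal.ofReal_le_ofReal (Real.rpow_le_one hy.1.le hy.2 (by linarith))
  have hm : Measurable fun y : ℝ => ENNReal.ofReal C * ENNReal.ofReal (y ^ (s - 1)) := by fun_prop
  constructor
  · rw [← Ioc_union_Ioi_eq_Ioi (zero_le_one' ℝ),
      lintegral_union measurableSet_Ioi (Ioc_disjoint_Ioi le_rfl)]
    refine add_le_add ?_ ?_
    · refine (setLIntegral_mono' measurableSet_Ioc (g := fun y => ENNReal.ofReal (A / y) *
        ENNReal.ofReal (y ^ (s - 1)) + ENNReal.ofReal C * ENNReal.ofReal (y ^ (s - 1)))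
        fun y hy => ?_).trans ?_
      · rw [← add_mul]
        exact mul_le_mul_left (hup y hy) _
      · rw [lintegral_add_right _ hm, h1]
        exact add_le_add le_rfl h2
    · refine le_trans ?_ (lintegral_mono_set subset_union_right)
      refine setLIntegral_mono' measurableSet_Ioi fun y hy => ?_
      exact mul_le_mul_right (ENNReal.ofReal_le_ofReal
        (Real.rpow_le_rpow_of_exponent_le (le_of_lt hy) (by linarith))) _
  · rw [← h1]
    refine (setLIntegral_mono' measurableSet_Ioc (g := fun y => S y *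
      ENNReal.ofReal (y ^ (s - 1)) + ENNReal.ofReal C * ENNReal.ofReal (y ^ (s - 1)))
      fun y hy => ?_).trans ?_
    · rw [← add_mul]
      exact mul_le_mul_left (hlo y hy) _
    · rw [lintegral_add_right _ hm]
      exact add_le_add (lintegral_mono_set Ioc_subset_Ioi_self) h2

variable {L : Type} [Field L] [NumberField L]

/-- The scaling at a place. -/
def wt (c : Fin (rank L) → ℝ) (y : ℝ) (w : InfinitePlace L) : ℝ :=
  Real.exp (∑ i, c i * Real.log (w (fundSystem L i)) + Real.log y / (finrank ℚ L : ℕ))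

/-- The Gaussian. -/
def eg (x : 𝓞 L) (y : ℝ) (c : Fin (rank L) → ℝ) : ℝ :=
  Real.exp (-π * ∑ w : InfinitePlace L, (wt c y w * w (x : L)) ^ 2)

/-- The integral of one term. -/
def HH (s : ℝ) (x : 𝓞 L) : ENNReal :=
  ∫⁻ y in Ioi (0 : ℝ), (∫⁻ c in cube (Fin (rank L)), ENNReal.ofReal (eg x y c)) *
    ENNReal.ofReal (y ^ (s - 1))

/-- The archimedean constant. -/
def kap (L : Type) [Field L] [NumberField L] (s : ℝ) : ℝ :=
  torsionOrder L * (2 ^ nrComplexPlaces L / regulator L * gam L s)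

lemma kap_pos {s : ℝ} (hs : 0 < s) : 0 < kap L s := by
  have := Zeta.gam_pos (L := L) hs
  have := regulator_pos L
  have hw : (0 : ℝ) < torsionOrder L := by exact_mod_cast torsionOrder_pos L
  unfold kap
  positivity

lemma orbit (g : 𝓞 L) (hg : g ≠ 0) (ζ : torsion L) {s : ℝ} (hs : 0 < s) :
    ∑' k : Fin (rank L) → ℤ, HH s (g * (unit (ζ, k)).1) =
      ENNReal.ofReal (2 ^ nrComplexPlaces L / regulator L * gam L s) *
        ENNReal.ofReal ((absNorm (span {g}) : ℝ) ^ (-s)) := by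
  have hdet := det_eq (L := L)
  have hn : (0 : ℝ) < finrank ℚ L := Nat.cast_pos.2 finrank_pos
  have hreg := regulator_pos L
  set D := |(Matrix.of fun i w : InfinitePlace L =>
      if h : i = dirichletUnitTheorem.w₀ then (1 : ℝ)
      else Real.log (w (fundSystem L ((equivFinRank L).symm ⟨i, h⟩)))).det| with hD
  have hD0 : D ≠ 0 := fun h => by
    rw [h, zero_mul] at hdet
    exact (mul_pos hn hreg).ne hdet
  have hc : (finrank ℚ L : ℝ) / D = 2 ^ nrComplexPlaces L / regulator L := by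
    rw [div_eq_div_iff hD0 hreg.ne', ← hdet, mul_comm]
  have hgam := (Zeta.gam_pos (L := L) hs).le
  have h := gaussint (InfinitePlace L) (Fin (rank L)) mult
    (fun i w => Real.log (w (fundSystem L i))) dirichletUnitTheorem.w₀ (equivFinRank L).symm
    (fun w => w (g : L)) s (fun w => mult_pos) (fun i => sum_mult_mul_log _)
    (fun w => pos_iff.2 (RingOfIntegers.coe_ne_zero_iff.2 hg)) hs
    (fun h => hD0 (by rw [hD, h, abs_zero]))
  rw [sum_mult_eq, ← hD, hc, prod_gam _ hg, ← mul_assoc,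
    ENNReal.ofReal_mul (by positivity)] at h
  rw [← h]
  refine tsum_congr fun k => lintegral_congr fun y => ?_
  congr 1
  refine lintegral_congr fun c => ?_
  unfold eg wt
  congr 3
  refine Finset.sum_congr rfl fun w _ => ?_
  rw [place_unit, ← mul_assoc, ← Real.exp_add]
  simp only [add_mul, Finset.sum_add_distrib]
  congr 3
  ring

lemma tsum_inv (q : 𝓞 L → Prop) (hq : ∀ (x : 𝓞 L) (u : (𝓞 L)ˣ), q (x * u) ↔ q x) (h0 : ¬ q 0)
    {s : ℝ} (hs : 0 < s) :
    ∑' x : 𝓞 L, (if q x then HH s x else 0) = ENNReal.ofReal (kap L s) *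
      ∑' I : T (⊤ : Ideal (𝓞 L)),
        if q (gen I) then ENNReal.ofReal ((absNorm I.1 : ℝ) ^ (-s)) else 0 := by
  let Φ : T (⊤ : Ideal (𝓞 L)) × (torsion L × (Fin (rank L) → ℤ)) → 𝓞 L :=
    fun p => gen p.1 * unit p.2
  have hinj : Function.Injective Φ := by
    rintro ⟨I, u⟩ ⟨I', u'⟩ h1
    change gen I * unit u = gen I' * unit u' at h1
    obtain rfl : I = I' := Subtype.ext (by
      rw [← span_gen, ← span_gen, ← Ideal.span_singleton_mul_right_unit (unit u).isUnit, h1,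
        Ideal.span_singleton_mul_right_unit (unit u').isUnit])
    rw [unit_bij.1 (Units.ext (mul_left_cancel₀ (gen_ne I) h1))]
  rw [← hinj.tsum_eq, ENNReal.tsum_prod', ← ENNReal.tsum_mul_left]
  · refine tsum_congr fun I => ?_
    simp only [Φ, hq]
    split_ifs with h
    · rw [ENNReal.tsum_prod', tsum_congr fun ζ => orbit _ (gen_ne I) ζ hs, ENNReal.tsum_const,
        span_gen, ← mul_assoc, kap, ENNReal.ofReal_mul (Nat.cast_nonneg _),
        ENNReal.ofReal_natCast, torsionOrder, ENat.card_eq_coe_natCard]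
      rfl
    · simp
  · intro x hx
    have h1 : x ≠ 0 := by
      rintro rfl
      simp [h0] at hx
    let I : T (⊤ : Ideal (𝓞 L)) := ⟨span {x}, by simpa using h1, le_top, ⟨_, rfl⟩⟩
    obtain ⟨u, hu⟩ := Ideal.span_singleton_eq_span_singleton.1 (span_gen I)
    obtain ⟨p, rfl⟩ := unit_bij.2 u
    exact ⟨(I, p), hu⟩

lemma tsum_int (q : 𝓞 L → Prop) (s : ℝ) :
    ∑' x : 𝓞 L, (if q x then HH s x else 0) =
      ∫⁻ y in Ioi (0 : ℝ), (∫⁻ c in cube (Fin (rank L)),
        ∑' x : 𝓞 L, if q x then ENNReal.ofReal (eg x y c) else 0) *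
          ENNReal.ofReal (y ^ (s - 1)) := by
  have : Countable (𝓞 L) := (RingOfIntegers.basis L).equivFun.injective.countable
  rw [swap (fun x y c => if q x then ENNReal.ofReal (eg x y c) else 0)]
  · refine tsum_congr fun x => ?_
    split_ifs
    · rfl
    · simp
  · intro x
    split_ifs
    · unfold eg wt
      fun_prop
    · exact measurable_const

lemma small (J : Ideal (𝓞 L)) (hJ : J ≠ ⊥) : ∃ C : ℝ, ∀ y ∈ Ioc (0 : ℝ) 1,
    ∀ c ∈ cube (Fin (rank L)), ∀ x : 𝓞 L, (Summable fun n => eg (x + elt J hJ n) y c) ∧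
      |∑' n, eg (x + elt J hJ n) y c - |(mat J hJ).det|⁻¹ / y| ≤ C := by
  have : Nonempty (Fin (finrank ℚ L)) := ⟨⟨0, finrank_pos⟩⟩
  set lam : Fin (rank L) → Fin (finrank ℚ L) → ℝ :=
    fun i j => Real.log (pl L (en L j) (fundSystem L i)) with hlam
  have hl : ∀ i, ∑ j, lam i j = 0 := fun i => by
    rw [(en L).sum_comp (fun c => Real.log (pl L c (fundSystem L i))),
      sum_pl L fun w => Real.log (w (fundSystem L i)), sum_mult_mul_log]
  set M : ℝ := ∑ i, ∑ j, |mat J hJ i j| with hM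
  have hMle : ∀ i j, |mat J hJ i j| ≤ M := fun i j =>
    (Finset.single_le_sum (f := fun j => |mat J hJ i j|) (fun _ _ => abs_nonneg _)
      (Finset.mem_univ j)).trans (Finset.single_le_sum (f := fun i => ∑ j, |mat J hJ i j|)
        (fun _ _ => Finset.sum_nonneg fun _ _ => abs_nonneg _) (Finset.mem_univ i))
  obtain ⟨C, hC⟩ := E.k_est (Fin (finrank ℚ L)) (Real.exp (Mellin.Lb (-lam)) * M) (finrank ℚ L)
  have hdet := mat_det J hJ
  refine ⟨|(mat J hJ).det|⁻¹ * C, fun y hy c hc x => ?_⟩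
  have hy0 := hy.1
  set B := Mellin.Dm lam c y * mat J hJ with hB
  have hBd : B.det = y * (mat J hJ).det := by rw [hB, Matrix.det_mul, Mellin.det_Dm lam hl c hy0]
  have hB0 : B.det ≠ 0 := hBd ▸ mul_ne_zero hy0.ne' hdet
  set ξ : Fin (finrank ℚ L) → ℝ := (mat J hJ)⁻¹.mulVec
    fun j => (stdBasis L).repr (mixedEmbedding L (x : L)) (en L j) with hξ
  have hG : ∀ n, Theta.G B (ξ + Theta.cst n) = eg (x + elt J hJ n) y c := fun n => by
    rw [Theta.G, eg, ← sum_sq, ← (en L).sum_comp]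
    congr 2
    refine Finset.sum_congr rfl fun j _ => ?_
    rw [hB, ← Matrix.mulVec_mulVec, Mellin.Dm, Matrix.mulVec_diagonal, Matrix.mulVec_add, hξ,
      Matrix.mulVec_mulVec, Matrix.mul_nonsing_inv _ (Ne.isUnit hdet), Matrix.one_mulVec,
      Pi.add_apply, show Theta.cst n = fun i => (n i : ℝ) from rfl, mat_mulVec, Fintype.card_fin]
    simp [wt, hlam]
  have hd : (0 : ℝ) < finrank ℚ L := Nat.cast_pos.2 finrank_pos
  set t : ℝ := Real.exp (Real.log y / finrank ℚ L) with ht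
  have ht1 : t ∈ Ioc (0 : ℝ) 1 := ⟨Real.exp_pos _, Real.exp_le_one_iff.2
    (div_nonpos_of_nonpos_of_nonneg (Real.log_nonpos hy0.le hy.2) hd.le)⟩
  have htd : t ^ finrank ℚ L = y := by
    rw [ht, ← Real.exp_nat_mul, mul_div_cancel₀ _ hd.ne', Real.exp_log hy0]
  have h1 := hC t ht1 B hB0 fun i j => by
    rw [hB, Mellin.Dm, Matrix.diagonal_mul, abs_mul, abs_of_pos (Real.exp_pos _), Real.exp_add,
      Fintype.card_fin, ← ht, mul_right_comm]
    refine mul_le_mul_of_nonneg_right (mul_le_mul (Real.exp_le_exp.2 ?_) (hMle i j)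
      (abs_nonneg _) (Real.exp_pos _).le) ht1.1.le
    have := Mellin.Lb_le (-lam) hc i
    simp only [Pi.neg_apply, mul_neg, Finset.sum_neg_distrib] at this
    linarith
  have h2 := (E.k_pois _ B ξ hB0).1
  rw [funext hG, hBd, abs_mul, abs_of_pos hy0] at h2
  refine ⟨funext hG ▸ Theta.summable_G B hB0 ξ, ?_⟩
  rw [htd] at h1
  have h3 : 0 < |(mat J hJ).det| := abs_pos.2 hdet
  calc _ = |∑' n, eg (x + elt J hJ n) y c - (y * |(mat J hJ).det|)⁻¹| := by
        congr 2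
        field_simp
    _ ≤ (y * |(mat J hJ).det|)⁻¹ * (C * y) :=
        h2.trans (mul_le_mul_of_nonneg_left h1 (by positivity))
    _ = _ := by field_simp

lemma det_mat (J : Ideal (𝓞 L)) (hJ : J ≠ ⊥) :
    |(mat J hJ).det| = absNorm J * |(mat (⊤ : Ideal (𝓞 L)) top_ne_bot).det| := by
  let b : Basis (Fin (finrank ℚ L)) ℤ (𝓞 L) :=
    (bas (⊤ : Ideal (𝓞 L)) top_ne_bot).map (Submodule.topEquiv.restrictScalars ℤ)
  have h := Ideal.natAbs_det_basis_change b J (bas J hJ)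
  have e : mat J hJ = mat (⊤ : Ideal (𝓞 L)) top_ne_bot *
      (b.toMatrix ((↑) ∘ bas J hJ)).map (Int.castRingHom ℝ) := by
    ext j i
    have h1 := mat_mulVec (⊤ : Ideal (𝓞 L)) top_ne_bot (fun l => b.repr (bas J hJ i) l) j
    have h2 : elt (⊤ : Ideal (𝓞 L)) top_ne_bot (fun l => b.repr (bas J hJ i) l) = bas J hJ i := by
      have h3 := (bas (⊤ : Ideal (𝓞 L)) top_ne_bot).equivFun.symm_apply_apply
        ⟨bas J hJ i, trivial⟩
      exact congrArg Subtype.val h3
    rw [h2] at h1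
    rw [mat, Matrix.of_apply, ← h1]
    rfl
  rw [e, Matrix.det_mul, ← RingHom.mapMatrix_apply, ← RingHom.map_det, abs_mul, mul_comm, ← h,
    Basis.det_apply, Nat.cast_natAbs]
  simp

lemma cosets {A : Type} [Fintype A] (x : A → 𝓞 L) (J : Ideal (𝓞 L)) (hJ : J ≠ ⊥)
    (p : 𝓞 L → Prop) (hp : ∀ z, p z ↔ ∃ a, z - x a ∈ J) (hx : ∀ a b, x a - x b ∈ J → a = b)
    (f : 𝓞 L → ENNReal) :
    ∑' z, (if p z then f z else 0) = ∑ a, ∑' n, f (x a + elt J hJ n) := by
  have hm : ∀ n, elt J hJ n ∈ J := fun n => ((bas J hJ).equivFun.symm n).2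
  let Φ : A × (Fin (finrank ℚ L) → ℤ) → 𝓞 L := fun u => x u.1 + elt J hJ u.2
  have hinj : Function.Injective Φ := by
    rintro ⟨a, n⟩ ⟨b, m⟩ h
    change x a + elt J hJ n = x b + elt J hJ m at h
    obtain rfl : a = b := hx a b (by
      rw [show x a - x b = elt J hJ m - elt J hJ n by linear_combination h]
      exact J.sub_mem (hm m) (hm n))
    rw [(bas J hJ).equivFun.symm.injective (Subtype.ext (add_left_cancel h))]
  rw [← hinj.tsum_eq, ENNReal.tsum_prod', tsum_fintype]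
  · refine Finset.sum_congr rfl fun a _ => tsum_congr fun n => if_pos ((hp _).2 ⟨a, ?_⟩)
    simpa [Φ] using hm n
  · intro z hz
    obtain ⟨a, ha⟩ := (hp z).1 (by
      by_contra h
      simp [h] at hz)
    refine ⟨(a, (bas J hJ).equivFun ⟨_, ha⟩), ?_⟩
    simp only [Φ, elt, LinearEquiv.symm_apply_apply, add_sub_cancel]

lemma pole (hD : DIRI) {A : Type} [Fintype A] (x : A → 𝓞 L) (J : Ideal (𝓞 L)) (hJ : J ≠ ⊥)
    (p : 𝓞 L → Prop) (hp : ∀ z, p z ↔ ∃ a, z - x a ∈ J) (hx : ∀ a b, x a - x b ∈ J → a = b)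
    (hu : ∀ (z : 𝓞 L) (u : (𝓞 L)ˣ), p (z * u) ↔ p z) :
    ∃ C : ℝ, ∀ s : ℝ, 1 < s → s < 2 →
      |kap L s * (∑' I : T (⊤ : Ideal (𝓞 L)), if p (gen I) then Zeta.tm s I.1 else 0) -
        Fintype.card A * |(mat J hJ).det|⁻¹ / (s - 1)| ≤ C := by
  obtain ⟨C, hC⟩ := small J hJ
  obtain ⟨q, hqd⟩ : ∃ q : 𝓞 L → Prop, ∀ z, q z ↔ p z ∧ z ≠ 0 := ⟨_, fun _ => Iff.rfl⟩
  have hq : ∀ (z : 𝓞 L) (u : (𝓞 L)ˣ), q (z * u) ↔ q z := fun z u => by
    simp only [hqd, hu, ne_eq, Units.mul_left_eq_zero]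
  set Z : ℝ → ℝ := fun s => ∑' I : T (⊤ : Ideal (𝓞 L)), if p (gen I) then Zeta.tm s I.1 else 0
    with hZ
  have hnn : ∀ (s : ℝ) (I : T (⊤ : Ideal (𝓞 L))), 0 ≤ if p (gen I) then Zeta.tm s I.1 else 0 :=
    fun s I => by
      split_ifs
      exacts [Zeta.tm_nonneg s _, le_rfl]
  have hZ0 : ∀ s, 0 ≤ Z s := fun s => tsum_nonneg (hnn s)
  set S : ℝ → ENNReal := fun y => ∫⁻ c in cube (Fin (rank L)),
    ∑' z : 𝓞 L, if q z then ENNReal.ofReal (eg z y c) else 0 with hS
  have hT : ∀ s : ℝ, 1 < s → ∫⁻ y in Ioi (0 : ℝ), S y * ENNReal.ofReal (y ^ (s - 1)) =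
      ENNReal.ofReal (kap L s * Z s) := fun s hs => by
    have hs0 : 0 < s := by linarith
    refine ((tsum_int q s).symm.trans (tsum_inv q hq (fun h => ((hqd 0).1 h).2 rfl) hs0)).trans ?_
    rw [ENNReal.ofReal_mul (kap_pos hs0).le, hZ, ENNReal.ofReal_tsum_of_nonneg (hnn s)]
    · congr 1
      refine tsum_congr fun I => ?_
      simp only [hqd, gen_ne I, ne_eq, not_false_eq_true, and_true]
      split_ifs
      · rfl
      · simp
    · refine Summable.of_nonneg_of_le (hnn s) (fun I => ?_)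
        ((Zeta.summable_tm hD hs).subtype _)
      split_ifs
      exacts [le_rfl, Zeta.tm_nonneg s _]
  set a : ℝ := Fintype.card A * |(mat J hJ).det|⁻¹ with ha
  have ha0 : 0 ≤ a := by positivity
  set C' : ℝ := Fintype.card A * |C| + 1 with hC'
  have hC'0 : 0 ≤ C' := by positivity
  have key : ∀ y ∈ Ioc (0 : ℝ) 1, ∀ c ∈ cube (Fin (rank L)), ∃ r : ℝ, 0 ≤ r ∧
      |r - a / y| ≤ Fintype.card A * |C| ∧
      ∑' z : 𝓞 L, (if p z then ENNReal.ofReal (eg z y c) else 0) = ENNReal.ofReal r := by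
    intro y hy c hc
    have h0 : ∀ b, 0 ≤ ∑' n, eg (x b + elt J hJ n) y c := fun b =>
      tsum_nonneg fun n => (Real.exp_pos _).le
    refine ⟨∑ b, ∑' n, eg (x b + elt J hJ n) y c, Finset.sum_nonneg fun b _ => h0 b, ?_, ?_⟩
    · have e : a / y = ∑ _b : A, |(mat J hJ).det|⁻¹ / y := by
        rw [Finset.sum_const, Finset.card_univ, nsmul_eq_mul, ha, mul_div_assoc]
      rw [e, ← Finset.sum_sub_distrib]
      refine (Finset.abs_sum_le_sum_abs _ _).trans ((Finset.sum_le_card_nsmul _ _ |C|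
        fun b _ => (hC y hy c hc (x b)).2.trans (le_abs_self C)).trans ?_)
      simp
    · rw [cosets x J hJ p hp hx, ENNReal.ofReal_sum_of_nonneg fun b _ => h0 b]
      exact Finset.sum_congr rfl fun b _ => (ENNReal.ofReal_tsum_of_nonneg
        (fun n => (Real.exp_pos _).le) (hC y hy c hc (x b)).1).symm
  have hup : ∀ y ∈ Ioc (0 : ℝ) 1, S y ≤ ENNReal.ofReal (a / y) + ENNReal.ofReal C' := by
    intro y hy
    refine (setLIntegral_mono' Mellin.measurableSet_cube (g := fun _ =>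
      ENNReal.ofReal (a / y) + ENNReal.ofReal C') fun c hc => ?_).trans
      (by rw [setLIntegral_const, Mellin.volume_cube, mul_one])
    obtain ⟨r, -, h1, h2⟩ := key y hy c hc
    refine (ENNReal.tsum_le_tsum (g := fun z => if p z then ENNReal.ofReal (eg z y c) else 0)
      fun z => ?_).trans ?_
    · by_cases h : q z
      · rw [if_pos h, if_pos ((hqd z).1 h).1]
      · rw [if_neg h]
        exact zero_le
    · rw [h2, ← ENNReal.ofReal_add (div_nonneg ha0 hy.1.le) hC'0]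
      exact ENNReal.ofReal_le_ofReal (by linarith [(abs_le.1 h1).2])
  have hlo : ∀ y ∈ Ioc (0 : ℝ) 1, ENNReal.ofReal (a / y) ≤ S y + ENNReal.ofReal C' := by
    intro y hy
    have e : ∀ t : ENNReal, t = ∫⁻ _c in cube (Fin (rank L)), t := fun t => by
      rw [setLIntegral_const, Mellin.volume_cube, mul_one]
    rw [e (ENNReal.ofReal (a / y)), e (ENNReal.ofReal C'), hS,
      ← lintegral_add_right _ measurable_const]
    refine setLIntegral_mono' Mellin.measurableSet_cube fun c hc => ?_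
    obtain ⟨r, h0, h1, h2⟩ := key y hy c hc
    have h3 : ENNReal.ofReal r ≤
        (∑' z : 𝓞 L, if q z then ENNReal.ofReal (eg z y c) else 0) + 1 := by
      rw [← h2, ← tsum_ite_eq (0 : 𝓞 L) (fun _ => (1 : ENNReal)), ← ENNReal.tsum_add]
      refine ENNReal.tsum_le_tsum fun z => ?_
      by_cases hz : z = 0
      · subst hz
        rw [if_pos rfl]
        refine le_trans ?_ le_add_self
        split_ifs <;> simp [eg]
      · simp [hqd, hz]
    calc _ ≤ ENNReal.ofReal (r + Fintype.card A * |C|) :=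
          ENNReal.ofReal_le_ofReal (by linarith [(abs_le.1 h1).1])
      _ ≤ _ := by
          rw [ENNReal.ofReal_add h0 (by positivity), hC',
            ENNReal.ofReal_add (by positivity) zero_le_one, ENNReal.ofReal_one, add_comm _ 1,
            ← add_assoc]
          exact add_le_add h3 le_rfl
  have hk2 : 0 ≤ kap L 2 * Z 2 := mul_nonneg (kap_pos two_pos).le (hZ0 2)
  refine ⟨C' + kap L 2 * Z 2, fun s hs1 hs2 => ?_⟩
  obtain ⟨h1, h2⟩ := mel S ha0 hC'0 hs1 hs2 hup hlo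
  have hks : 0 ≤ kap L s * Z s := mul_nonneg (kap_pos (by linarith)).le (hZ0 s)
  have has : 0 ≤ a / (s - 1) := div_nonneg ha0 (by linarith)
  rw [hT s hs1, hT 2 one_lt_two, ← ENNReal.ofReal_add has hC'0,
    ← ENNReal.ofReal_add (by positivity) hk2, ENNReal.ofReal_le_ofReal_iff (by positivity)] at h1
  rw [hT s hs1, ← ENNReal.ofReal_add hks hC'0,
    ENNReal.ofReal_le_ofReal_iff (by positivity)] at h2
  exact abs_le.2 ⟨by linarith, by linarith⟩

lemma res_mul {e h : ℝ → ℝ} {R : ℝ} (hd : DifferentiableAt ℝ h 1)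
    (he : ∃ C : ℝ, ∀ s : ℝ, 1 < s → s < 2 → |e s - R / (s - 1)| ≤ C) :
    ∃ C : ℝ, ∀ᶠ s : ℝ in 𝓝[>] 1, |h s * e s - h 1 * R / (s - 1)| ≤ C := by
  obtain ⟨C, hC⟩ := he
  obtain ⟨D, hD⟩ := hd.isBigO_sub.bound
  have hb : ∀ᶠ s : ℝ in 𝓝 1, |h s| < |h 1| + 1 :=
    hd.continuousAt.abs.eventually_lt continuousAt_const (by simp)
  refine ⟨(|h 1| + 1) * C + |R| * D, ?_⟩
  filter_upwards [Ioo_mem_nhdsGT (show (1 : ℝ) < 2 by norm_num), nhdsWithin_le_nhds hD,
    nhdsWithin_le_nhds hb] with s h1 h2 h3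
  have hs : 0 < s - 1 := sub_pos.2 h1.1
  rw [show h s * e s - h 1 * R / (s - 1) =
    h s * (e s - R / (s - 1)) + R * ((h s - h 1) / (s - 1)) by ring]
  refine (abs_add_le _ _).trans (add_le_add ?_ ?_)
  · rw [abs_mul]
    exact mul_le_mul h3.le (hC s h1.1 h1.2) (abs_nonneg _) (by positivity)
  · rw [abs_mul]
    refine mul_le_mul_of_nonneg_left ?_ (abs_nonneg R)
    rw [abs_div, div_le_iff₀ (abs_pos.2 hs.ne')]
    simpa using h2

lemma kap_diff : DifferentiableAt ℝ (kap L) 1 := by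
  unfold kap gam
  refine DifferentiableAt.const_mul (DifferentiableAt.const_mul
    (DifferentiableAt.fun_finsetProd fun w _ => DifferentiableAt.mul
      (DifferentiableAt.const_mul ?_ _) ?_) _) _
  · have hw : (0 : ℝ) < w.mult := Nat.cast_pos.2 mult_pos
    refine DifferentiableAt.comp (g := Real.Gamma) 1
      (Real.differentiableAt_Gamma fun m => ?_) (by fun_prop)
    have : (0 : ℝ) ≤ m := Nat.cast_nonneg m
    intro h
    linarith
  · exact (differentiableAt_const _).rpow (by fun_prop) Real.pi_pos.ne'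

omit [NumberField L] in
lemma ray_iff {N : ℕ} {c I : Ideal (𝓞 L)} (hI : I ≠ ⊥) (hc : c ≠ ⊥) {z : 𝓞 L}
    (hz : span {z} = I * c) :
    (C.Cop N I ∧ C.RayEq N (I * c) 1) ↔ ∃ u : (𝓞 L)ˣ, z - u ∈ span {(N : 𝓞 L)} := by
  constructor
  · rintro ⟨-, α, β, hα, hβ, h1, h2, h3⟩
    rw [mul_one, ← hz, Ideal.span_singleton_mul_span_singleton] at h3
    obtain ⟨u, hu⟩ := Ideal.span_singleton_eq_span_singleton.1 h3.symm
    refine ⟨u, ?_⟩
    rw [show z - u = (β - 1) * u - (α - 1) * z by linear_combination -hu]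
    exact Ideal.sub_mem _ (Ideal.mul_mem_right _ _ h2) (Ideal.mul_mem_right _ _ h1)
  · rintro ⟨u, hu⟩
    have hz0 : z ≠ 0 := by
      rintro rfl
      exact mul_ne_zero hI hc (hz.symm.trans (Ideal.span_singleton_zero))
    have h1 : z * (u⁻¹).1 - 1 ∈ span {(N : 𝓞 L)} := by
      rw [show z * (u⁻¹).1 - 1 = (z - u) * (u⁻¹).1 by rw [sub_mul, Units.mul_inv]]
      exact Ideal.mul_mem_right _ _ hu
    refine ⟨⟨hI, ?_⟩, 1, z * (u⁻¹).1, one_ne_zero, by simpa using hz0, by simp, h1, ?_⟩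
    · rw [Ideal.isCoprime_iff_exists]
      have h2 : z ∈ I * c := by
        rw [← hz]
        exact Ideal.mem_span_singleton_self z
      exact ⟨z * (u⁻¹).1, I.mul_mem_right _ (Ideal.mul_le_inf h2).1, -(z * (u⁻¹).1 - 1),
        Submodule.neg_mem _ h1, by ring⟩
    · rw [Ideal.span_singleton_one, ← Ideal.one_eq_top, one_mul, mul_one,
        Ideal.span_singleton_mul_right_unit (u⁻¹).isUnit, hz]

lemma princ {N : ℕ} {I : Ideal (𝓞 L)} (h : C.RayEq N I 1) : ∃ z, span {z} = I := by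
  obtain ⟨α, β, hα, -, -, -, h3⟩ := h
  rw [mul_one] at h3
  obtain ⟨z, rfl⟩ := Ideal.mem_span_singleton.1
    (Ideal.mul_le_inf (h3.ge (Ideal.mem_span_singleton_self β))).1
  rw [← Ideal.span_singleton_mul_span_singleton] at h3
  exact ⟨z, (mul_left_cancel₀ (by simpa using hα) h3).symm⟩

end Rzg

open Rzg ZClass in
/-- The pole of the zeta function of a ray class. -/
theorem rzg (L : Type) [Field L] [NumberField L] {N : ℕ} (hN : N ≠ 0) :
    ∃ ρ : ℝ, ∀ c : Ideal (𝓞 L), C.Cop N c → ∃ B : ℝ, ∀ᶠ s : ℝ in 𝓝[>] 1,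
      ‖C.rz N c s - ((ρ / (s - 1) : ℝ) : ℂ)‖ ≤ B := by
  set n : Ideal (𝓞 L) := span {(N : 𝓞 L)} with hn
  have hn0 : n ≠ ⊥ := by simpa [hn] using hN
  have : Finite (𝓞 L ⧸ n) := Ideal.finiteQuotientOfFreeOfNeBot n hn0
  let A : Type := Set.range fun u : (𝓞 L)ˣ => Ideal.Quotient.mk n u
  let : Fintype A := Fintype.ofFinite A
  set D := |(mat (⊤ : Ideal (𝓞 L)) top_ne_bot).det| with hD
  refine ⟨(kap L 1)⁻¹ * (Fintype.card A * ((absNorm n : ℝ) * D)⁻¹), fun c hc => ?_⟩
  obtain ⟨e, he, f, hf, hef⟩ := Ideal.isCoprime_iff_exists.1 hc.2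
  choose u hu using fun a : A => a.2
  have hJ : c * n ≠ ⊥ := mul_ne_zero hc.1 hn0
  have hmem : ∀ z, z ∈ c * n ↔ z ∈ c ∧ z ∈ n := fun z => by
    rw [Ideal.mul_eq_inf_of_isCoprime hc.2, Submodule.mem_inf]
  have hx : ∀ a : A, e * u a - u a ∈ n := fun a => by
    rw [show e * u a - u a = -(f * u a) by linear_combination (u a : 𝓞 L) * hef]
    exact n.neg_mem (n.mul_mem_right _ hf)
  obtain ⟨p, hpd⟩ : ∃ p : 𝓞 L → Prop, ∀ z, p z ↔ z ∈ c ∧ ∃ v : (𝓞 L)ˣ, z - v ∈ n :=
    ⟨_, fun _ => Iff.rfl⟩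
  have h1 := pole diri (fun a : A => e * (u a).1) (c * n) hJ p (fun z => ?_) (fun a b h => ?_)
    (fun z v => ?_)
  rotate_left
  · rw [hpd]
    constructor
    · rintro ⟨h1, v, h2⟩
      refine ⟨⟨_, v, rfl⟩, (hmem _).2 ⟨c.sub_mem h1 (c.mul_mem_right _ he), ?_⟩⟩
      have h3 := Ideal.Quotient.eq.1 (hu ⟨_, v, rfl⟩)
      convert n.sub_mem (n.sub_mem h2 h3) (hx ⟨_, v, rfl⟩) using 1
      ring
    · rintro ⟨a, h⟩
      obtain ⟨h1, h2⟩ := (hmem _).1 h
      exact ⟨by simpa using c.add_mem h1 (c.mul_mem_right (u a : 𝓞 L) he), u a,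
        by simpa using n.add_mem h2 (hx a)⟩
  · refine Subtype.ext ((hu a).symm.trans (Eq.trans (Ideal.Quotient.eq.2 ?_) (hu b)))
    convert n.add_mem (n.sub_mem ((hmem _).1 h).2 (hx a)) (hx b) using 1
    ring
  · rw [hpd, hpd, Ideal.mul_unit_mem_iff_mem _ v.isUnit]
    refine and_congr_right fun _ => ⟨fun ⟨w, h⟩ => ⟨w * v⁻¹, ?_⟩, fun ⟨w, h⟩ => ⟨w * v, ?_⟩⟩
    · convert n.mul_mem_right (v⁻¹).1 h using 1
      rw [sub_mul, Units.mul_inv_cancel_right, Units.val_mul]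
    · convert n.mul_mem_right v.1 h using 1
      rw [sub_mul, Units.val_mul]
  have hcN : (0 : ℝ) < absNorm c :=
    Nat.cast_pos.2 (Nat.pos_of_ne_zero (absNorm_eq_zero_iff.not.2 hc.1))
  obtain ⟨B, hB⟩ := res_mul (h := fun s => (absNorm c : ℝ) ^ s * (kap L s)⁻¹)
    (((differentiableAt_const _).rpow differentiableAt_id hcN.ne').mul
      (kap_diff.inv (kap_pos one_pos).ne')) h1
  refine ⟨B, ?_⟩
  filter_upwards [hB, self_mem_nhdsWithin] with s h2 (hs : 1 < s)
  have hk := (kap_pos (L := L) (show 0 < s by linarith)).ne'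
  have e1 : C.rz N c s = (((absNorm c : ℝ) ^ s *
      ∑' I : T (⊤ : Ideal (𝓞 L)), if p (gen I) then Zeta.tm s I.1 else 0 : ℝ) : ℂ) := by
    rw [← tsum_mul_left, Complex.ofReal_tsum, C.rz, Lser]
    have hs' : ∀ I : Function.support fun I : Ideal (𝓞 L) =>
        (if C.Cop N I ∧ C.RayEq N (I * c) 1 then (1 : ℂ) else 0) * (absNorm I : ℂ) ^ (-(s : ℂ)),
        C.Cop N I.1 ∧ C.RayEq N (I.1 * c) 1 := fun I => by
      by_contra h
      exact I.2 (by simp only [if_neg h, zero_mul])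
    refine (tsum_eq_tsum_of_ne_zero_bij (fun I => (⟨I.1 * c, mul_ne_zero (hs' I).1.1 hc.1, le_top,
      ⟨(princ (hs' I).2).imp fun z hz => hz.symm⟩⟩ : T ⊤)) (fun I I' h => ?_) (fun I hI => ?_)
      fun I => ?_).symm
    · exact Subtype.ext (mul_right_cancel₀ hc.1 (congrArg Subtype.val h))
    · have h3 : p (gen I) := by
        by_contra h
        simp [h] at hI
      obtain ⟨h4, h5⟩ := (hpd _).1 h3
      obtain ⟨I', hI'⟩ := Ideal.dvd_iff_le.2 ((Ideal.span_singleton_le_iff_mem c).2 h4)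
      rw [mul_comm] at hI'
      have h6 : I' ≠ ⊥ := by
        rintro rfl
        exact gen_ne I (by simpa using hI')
      refine ⟨⟨I', ?_⟩, Subtype.ext (hI'.symm.trans (span_gen I))⟩
      rw [Function.mem_support, if_pos ((ray_iff h6 hc.1 hI').2 h5), one_mul]
      exact Complex.cpow_ne_zero_iff.2 (Or.inl (by exact_mod_cast absNorm_eq_zero_iff.not.2 h6))
    · have h3 := span_gen (⟨I.1 * c, mul_ne_zero (hs' I).1.1 hc.1, le_top,
        ⟨(princ (hs' I).2).imp fun z hz => hz.symm⟩⟩ : T ⊤)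
      rw [if_pos (hs' I), if_pos ((hpd _).2 ⟨(Ideal.mul_le_inf (h3.le
        (Ideal.mem_span_singleton_self _))).2, (ray_iff (hs' I).1.1 hc.1 h3).1 (hs' I)⟩), one_mul,
        Zeta.tm_mul, Zeta.tm, Zeta.tm, mul_left_comm, ← Real.rpow_add hcN, add_neg_cancel,
        Real.rpow_zero, mul_one, Complex.ofReal_cpow (Nat.cast_nonneg _)]
      simp
  rw [e1, ← Complex.ofReal_sub, Complex.norm_real, Real.norm_eq_abs]
  convert h2 using 3
  · field_simp
  · rw [det_mat, ← hD, map_mul, Real.rpow_one]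
    push_cast
    field_simp

end

end Pool.Agent.P.MP_29cb78_nt.D
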