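import Pool.Agent.P.MP_29cb78_nt.D.Rzg
import Pool.Agent.P.MP_29cb78_nt.C.Si
import Pool.Agent.P.MP_29cb78_nt.C.Ray
import Pool.Agent.P.MP_29cb78_nt.Euler

/-!
The second inequality for ray class characters of an arbitrary number field.
-/

namespace Pool.Agent.P.MP_29cb78_nt.D

open NumberField Set Ideal Filter Topology IsDedekindDomain C C.Si
open scoped Classical

noncomputable section

/-- Bounds for the series of ray class characters near `1`. -/
theorem lbound {F : Type} [Field F] [NumberField F] {n : ℕ} (hn : n ≠ 0) (ψ : Ideal (𝓞 F) →* ℂ) (hψ : Ray n ψ)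
    (h1 : ∀ I, Cop n I → ‖ψ I‖ = 1) :
    ∃ K : ℝ, 0 < K ∧ ∀ᶠ s : ℝ in 𝓝[>] 1, ‖Lser (res n ψ) s‖ ≤ K * (1 / (s - 1)) ∧
      ((∃ I, Cop n I ∧ ψ I ≠ 1) → ‖Lser (res n ψ) s‖ ≤ K) := by
  obtain ⟨C, iF, r, r', hr, hr', h⟩ := decomp (F := F) diri ray hn
  obtain ⟨hL, h0⟩ := h ψ hψ
  obtain ⟨ρ, hρ⟩ := rzg F hn
  choose B hB using fun c => hρ (r' c) (hr' c)
  have hall := eventually_all.mpr hB
  have hK : 0 ≤ ∑ c, |B c| := Finset.sum_nonneg fun c _ => abs_nonneg _
  refine ⟨∑ c, |B c| + ‖∑ c, ψ (r c)‖ * |ρ| + 1, by positivity, ?_⟩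
  filter_upwards [hall, ev_Ioo] with s hs ⟨hs1, hs2⟩
  have hsplit : Lser (res n ψ) s = ∑ c, ψ (r c) * (rz n (r' c) s - ((ρ / (s - 1) : ℝ) : ℂ)) +
      (∑ c, ψ (r c)) * ((ρ / (s - 1) : ℝ) : ℂ) := by
    rw [hL s (by simpa using hs1), Finset.sum_mul, ← Finset.sum_add_distrib]
    exact Finset.sum_congr rfl fun c _ => by ring
  have hb : ‖∑ c, ψ (r c) * (rz n (r' c) s - ((ρ / (s - 1) : ℝ) : ℂ))‖ ≤ ∑ c, |B c| := by
    refine (norm_sum_le _ _).trans (Finset.sum_le_sum fun c _ => ?_)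
    rw [norm_mul, h1 _ (hr c), one_mul]
    exact (hs c).trans (le_abs_self _)
  have hs0 : 0 < s - 1 := by linarith
  have hi : 1 ≤ 1 / (s - 1) := by
    rw [le_div_iff₀ hs0]; linarith
  have hx : 0 ≤ ‖∑ c, ψ (r c)‖ * |ρ| := by positivity
  constructor
  · rw [hsplit]
    refine (norm_add_le _ _).trans ?_
    rw [norm_mul, Complex.norm_real, Real.norm_eq_abs, abs_div, abs_of_pos hs0,
      div_eq_mul_one_div |ρ|]
    nlinarith [mul_le_mul_of_nonneg_left hi hK]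
  · intro hI
    rw [hsplit, h0 hI, zero_mul, add_zero]
    simp only [norm_zero, zero_mul]
    linarith

/-- The second inequality for a family of ray class characters of a number field. -/
theorem sig (F E : Type) [Field F] [NumberField F] [Fintype E] (n : ℕ)
    (ψ : E → Ideal (𝓞 F) →* ℂ) (e0 : E) (hn : n ≠ 0) (hray : ∀ e, Ray n (ψ e))
    (hnorm : ∀ e I, Cop n I → ‖ψ e I‖ = 1) (hne : ∀ e, e ≠ e0 → ∃ I, Cop n I ∧ ψ e I ≠ 1)
    (hpos : ∀ I, Cop n I → 0 ≤ (∑ e, ψ e I).re) :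
    DensLe {P : Ideal (𝓞 F) | P.IsMaximal ∧ (n : 𝓞 F) ∉ P ∧ ∀ e, ψ e P = 1}
      (1 / Fintype.card E) := by
  intro ε hε
  have hE := euler diri
  choose K hK0 hK using fun e => lbound hn (ψ e) (hray e) (hnorm e)
  have hc : (0 : ℝ) < Fintype.card E := by
    have : Nonempty E := ⟨e0⟩
    exact_mod_cast Fintype.card_pos
  have hpos' : ∀ I, 0 ≤ (∑ e, res n (ψ e) I).re := fun I => by
    by_cases hI : Cop n I
    · simpa only [res_apply, if_pos hI] using hpos I hI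
    · simp [res_apply, hI]
  filter_upwards [eventually_all.mpr hK, ev_Ioo, log_tendsto.eventually_gt_atTop 0,
    log_tendsto.eventually_ge_atTop ((∑ e, Real.log (K e)) / (Fintype.card E * ε))]
    with s hs ⟨hs1, _⟩ hl0 hl
  obtain ⟨hnz, hg⟩ := glob hE (fun e => res n (ψ e)) (fun e => res_bound (hnorm e)) hpos'
    {P : Ideal (𝓞 F) | P.IsMaximal ∧ (n : 𝓞 F) ∉ P ∧ ∀ e, ψ e P = 1}
    (fun P hP => ⟨hP.1, fun e => by rw [res_apply, if_pos (cop_max hP.1 hP.2.1), hP.2.2 e]⟩) hs1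
  have hs0 : 0 < 1 / (s - 1) := one_div_pos.mpr (by linarith)
  have hsum : ∑ e, Real.log ‖Lser (res n (ψ e)) s‖ ≤
      ∑ e, (Real.log (K e) + if e = e0 then Real.log (1 / (s - 1)) else 0) := by
    refine Finset.sum_le_sum fun e _ => ?_
    have hp : 0 < ‖Lser (res n (ψ e)) s‖ := norm_pos_iff.mpr (hnz e)
    split_ifs with he
    · rw [← Real.log_mul (hK0 e).ne' hs0.ne']
      exact Real.log_le_log hp (hs e).1
    · rw [add_zero]
      exact Real.log_le_log hp ((hs e).2 (hne e he))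
  rw [Finset.sum_add_distrib, Finset.sum_ite_eq' Finset.univ e0, if_pos (Finset.mem_univ _)]
    at hsum
  rw [div_le_iff₀ (by positivity)] at hl
  rw [div_le_iff₀ hl0]
  refine le_of_mul_le_mul_left ?_ hc
  have : (Fintype.card E : ℝ) * ((1 / Fintype.card E + ε) * Real.log (1 / (s - 1))) =
      Real.log (1 / (s - 1)) + Real.log (1 / (s - 1)) * (Fintype.card E * ε) := by
    field_simp
  rw [this]
  linarith

/-- A ray class character of prime order. -/
theorem sig_prime (F : Type) [Field F] [NumberField F] (n r : ℕ) (ψ : Ideal (𝓞 F) →* ℂ)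
    (hn : n ≠ 0) (hr : r.Prime) (hray : Ray n ψ) (hpow : ∀ I, Cop n I → ψ I ^ r = 1)
    (hne : ∃ I, Cop n I ∧ ψ I ≠ 1) :
    DensLe {P : Ideal (𝓞 F) | P.IsMaximal ∧ (n : 𝓞 F) ∉ P ∧ ψ P = 1} (1 / r) := by
  have : NeZero r := ⟨hr.ne_zero⟩
  have h := sig F (Fin r) n (fun e => ψ ^ (e : ℕ)) 0 hn
    (fun e α h0 h1 => by rw [MonoidHom.pow_apply, hray α h0 h1, one_pow])
    (fun e I hI => by
      rw [MonoidHom.pow_apply, norm_pow, Complex.norm_eq_one_of_pow_eq_one (hpow I hI) hr.ne_zero,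
        one_pow])
    (fun e he => by
      obtain ⟨I, hI, h1⟩ := hne
      refine ⟨I, hI, fun h2 => h1 ?_⟩
      rw [MonoidHom.pow_apply] at h2
      have h3 : Nat.Coprime e r := (Nat.coprime_of_lt_prime (by simpa using he) e.2 hr).symm
      exact (pow_eq_one_iff_of_coprime h3).1 ⟨h2, hpow I hI⟩)
    (fun I hI => by
      simp only [MonoidHom.pow_apply]
      rw [← Finset.sum_range fun e => ψ I ^ e]
      by_cases h1 : ψ I = 1
      · simp [h1]
      · rw [geom_sum_eq h1, hpow I hI]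
        simp)
  rw [Fintype.card_fin] at h
  convert h using 5 with P
  exact ⟨fun h1 e => by rw [MonoidHom.pow_apply, h1, one_pow],
    fun h1 => by simpa using h1 ⟨1, hr.one_lt⟩⟩

end

end Pool.Agent.P.MP_29cb78_nt.D
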