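import Pool.Agent.P.MP_29cb78_nt.D.UIface

/-!
Irreducibility of cyclotomic polynomials of large prime order, and Galois closures.
-/

namespace Pool.Agent.P.MP_29cb78_nt.D

open NumberField Ideal IsDedekindDomain C E F

theorem cyc0 : U_CYC := by
  intro K _ _
  refine ⟨(discr K).natAbs, fun r hr hR => ?_⟩
  have : Fact r.Prime := ⟨hr⟩
  have : NeZero r := ⟨hr.ne_zero⟩
  let L := CyclotomicField r K
  have : NumberField L := IsCyclotomicExtension.numberField {r} K L
  have hζ := IsCyclotomicExtension.zeta_spec r K L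
  set ζ := IsCyclotomicExtension.zeta r K L
  let A := IntermediateField.adjoin ℚ {ζ}
  have : IsCyclotomicExtension {r} ℚ A := hζ.intermediateField_adjoin_isCyclotomicExtension ℚ
  have : IsGalois ℚ A := IsCyclotomicExtension.isGalois {r} ℚ A
  let f := IsScalarTower.toAlgHom ℚ K L
  have e := f.equivFieldRange
  have hc : IsCoprime (discr A) (discr f.fieldRange) := by
    rw [← discr_eq_discr_of_algEquiv K e, IsCyclotomicExtension.Rat.discr_prime r A]
    refine IsCoprime.mul_left ((isCoprime_one_left.neg_left).pow_left) (IsCoprime.pow_left ?_)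
    rw [Int.isCoprime_iff_nat_coprime, Int.natAbs_natCast, hr.coprime_iff_not_dvd]
    exact Nat.not_dvd_of_pos_of_lt (Int.natAbs_pos.2 (discr_ne_zero K)) hR
  have h1 := (linearDisjoint_of_isGalois_isCoprime_discr L A f.fieldRange hc).finrank_sup
  have h2 : Module.finrank ℚ (A ⊔ f.fieldRange : IntermediateField ℚ L) ≤ Module.finrank ℚ L :=
    Submodule.finrank_le (A ⊔ f.fieldRange).toSubalgebra.toSubmodule
  rw [h1, ← e.toLinearEquiv.finrank_eq, ← Module.finrank_mul_finrank ℚ K L, mul_comm,
    IsCyclotomicExtension.finrank A (Polynomial.cyclotomic.irreducible_rat hr.pos),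
    (hζ.powerBasis K).finrank, ← (hζ.powerBasis K).natDegree_minpoly, hζ.powerBasis_gen K] at h2
  have h3 := Nat.le_of_mul_le_mul_left h2 Module.finrank_pos
  have hi : IsIntegral K ζ := Algebra.IsIntegral.isIntegral ζ
  rw [Polynomial.eq_of_monic_of_dvd_of_natDegree_le (minpoly.monic hi)
    (Polynomial.cyclotomic.monic r K) (minpoly.dvd K ζ (IsCyclotomicExtension.aeval_zeta r K L))
    (by rwa [Polynomial.natDegree_cyclotomic])]
  exact minpoly.irreducible hi

theorem om : U_OM := by
  intro k K _ _ _ _ _ φ S hS hA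
  classical
  obtain ⟨θ, hθ⟩ := Field.exists_primitive_element ℚ K
  let T : Finset ℂ := insert (φ θ) hS.toFinset
  have hT : ∀ z ∈ T, IsIntegral ℚ z := fun z hz => by
    rcases Finset.mem_insert.1 hz with rfl | hz
    · exact (Algebra.IsIntegral.isIntegral (R := ℚ) θ).map φ.toRatAlgHom
    · exact (hA z (hS.mem_toFinset.1 hz)).isIntegral
  let p : Polynomial ℚ := ∏ z ∈ T, minpoly ℚ z
  have hp : p ≠ 0 := Finset.prod_ne_zero_iff.2 fun z hz => minpoly.ne_zero (hT z hz)
  let Ω := IntermediateField.adjoin ℚ (p.rootSet ℂ)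
  have : p.IsSplittingField ℚ Ω :=
    IntermediateField.adjoin_rootSet_isSplittingField (IsAlgClosed.splits _)
  have : FiniteDimensional ℚ Ω := Polynomial.IsSplittingField.finiteDimensional Ω p
  have : Normal ℚ Ω := Normal.of_isSplittingField p
  have : IsGalois ℚ Ω := {}
  have : NumberField Ω := {}
  have hm : ∀ z ∈ T, z ∈ Ω := fun z hz => IntermediateField.subset_adjoin ℚ _
    (Polynomial.mem_rootSet.2 ⟨hp, Polynomial.aeval_eq_zero_of_dvd_aeval_eq_zero
      (Finset.dvd_prod_of_mem _ hz) (minpoly.aeval ℚ z)⟩)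
  have hK : ∀ y, φ y ∈ Ω := fun y => by
    have h : IntermediateField.adjoin ℚ {θ} ≤ Ω.comap φ.toRatAlgHom :=
      IntermediateField.adjoin_simple_le_iff.2 (hm _ (Finset.mem_insert_self _ _))
    exact h (hθ ▸ IntermediateField.mem_top)
  let : Algebra K Ω := (φ.codRestrict Ω hK).toAlgebra
  let : Algebra k Ω := ((algebraMap K Ω).comp (algebraMap k K)).toAlgebra
  have : IsScalarTower k K Ω := IsScalarTower.of_algebraMap_eq' rfl
  have : IsGalois k Ω := IsGalois.tower_top_of_isGalois ℚ k Ω
  exact ⟨Ω, inferInstance, inferInstance, inferInstance, inferInstance, inferInstance,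
    inferInstance, algebraMap Ω ℂ, fun _ => rfl,
    fun z hz => ⟨⟨z, hm z (Finset.mem_insert_of_mem (hS.mem_toFinset.2 hz))⟩, rfl⟩⟩

end Pool.Agent.P.MP_29cb78_nt.D
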