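import Pool.Agent.P.MP_29cb78_nt.D.UBasic

/-!
Finiteness of the set of invariants of a given level, and an algebraicity criterion.
-/

namespace Pool.Agent.P.MP_29cb78_nt.D

open NumberField Ideal IsDedekindDomain C E F
open scoped Classical nonZeroDivisors

noncomputable section

namespace UFinAux

variable {k : Type} [Field k] [NumberField k] {ρ : k →+* ℝ} {AL : Fam k}

theorem fixed (hI : Inv0 ρ AL) (J : Ideal (𝓞 k)) (u : (𝓞 k)ˣ) (N : ℕ) :
    {z : ℂ | ∃ x, Ad ρ J u N x ∧ z = AL J u N x}.Finite := by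
  by_cases h0 : N = 0 ∨ J = ⊥
  · refine Set.Finite.subset Set.finite_empty ?_
    rintro z ⟨x, h, -⟩
    rcases h0 with h0 | h0
    · exact h.N_ne h0
    · exact h.J_ne h0
  push Not at h0
  have hN : (N : 𝓞 k) ≠ 0 := by exact_mod_cast h0.1
  have hNk : (N : k) ≠ 0 := by exact_mod_cast h0.1
  have hne : span {(N : 𝓞 k)} * J ≠ ⊥ := mul_ne_zero (by simpa using h0.1) h0.2
  have : Finite (𝓞 k ⧸ (span {(N : 𝓞 k)} * J)) := Ideal.finiteQuotientOfFreeOfNeBot _ hne
  obtain ⟨s, hs⟩ := (Ideal.Quotient.mk_surjective (I := span {(N : 𝓞 k)} * J)).hasRightInverse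
  refine (Set.finite_range fun q => AL J u N (((s q : 𝓞 k) : k) / N)).subset ?_
  rintro z ⟨x, h, rfl⟩
  obtain ⟨a, -, ha⟩ := h.tors
  refine ⟨Ideal.Quotient.mk _ a, hI.per J u N x _ h ((mem_span_mul hN).mp ?_)⟩
  have h1 := mem_coe.mpr (Ideal.Quotient.eq.mp (hs (Ideal.Quotient.mk _ a)))
  refine h1.congr ?_
  generalize s (Ideal.Quotient.mk _ a) = b
  have e1 : ((b - a : 𝓞 k) : k) = (b : k) - (a : k) := rfl
  have e2 : ((N : 𝓞 k) : k) = N := rfl
  rw [e1, e2, ha]
  field_simp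

omit [NumberField k] in
theorem pos_gen (ρ : k →+* ℝ) {a : 𝓞 k} (ha : a ≠ 0) :
    ∃ b : 𝓞 k, 0 < ρ b ∧ span {b} = span {a} := by
  have h : ρ a ≠ 0 := by
    rw [map_ne_zero]
    exact_mod_cast ha
  rcases lt_or_gt_of_ne h with h | h
  · refine ⟨-a, ?_, span_singleton_neg a⟩
    push_cast
    rw [map_neg]
    linarith
  · exact ⟨a, h, rfl⟩

end UFinAux

open UFinAux

theorem fin0 : U_FIN := by
  intro k _ _ ρ AL u N hI
  obtain ⟨R, hR⟩ := (ClassGroup.mk0_surjective (R := 𝓞 k)).hasRightInverse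
  refine (Set.finite_iUnion fun c => fixed hI (R c : Ideal (𝓞 k)) u N).subset ?_
  rintro z ⟨J, x, h, rfl⟩
  let J0 : (Ideal (𝓞 k))⁰ := ⟨J, mem_nonZeroDivisors_iff_ne_zero.mpr h.J_ne⟩
  obtain ⟨a, b, ha, hb, hab⟩ := ClassGroup.mk0_eq_mk0_iff.mp (hR (ClassGroup.mk0 J0)).symm
  obtain ⟨a', ha', ea⟩ := pos_gen ρ ha
  obtain ⟨b', hb', eb⟩ := pos_gen ρ hb
  rw [← ea, ← eb] at hab
  have hbk : ((b' : 𝓞 k) : k) ≠ 0 := by exact_mod_cast ne_zero_of_pos hb'
  have e : (b' : k) * (a' * x / b') = a' * x := by field_simp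
  have h1 : Ad ρ (span {a'} * J) u N (a' * x) := (ad_span_mul (ne_zero_of_pos ha')).mpr h
  have hab' : span {a'} * J = span {b'} * (R (ClassGroup.mk0 J0) : Ideal (𝓞 k)) := hab
  have h2 : Ad ρ (R (ClassGroup.mk0 J0) : Ideal (𝓞 k)) u N (a' * x / b') := by
    rw [← ad_span_mul (ne_zero_of_pos hb'), e, ← hab']
    exact h1
  refine Set.mem_iUnion.mpr ⟨ClassGroup.mk0 J0, a' * x / b', h2, ?_⟩
  rw [← hI.hom _ u N _ b' h2 hb', e, ← hab', hI.hom J u N x a' h ha']

theorem alg0 : U_ALG := by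
  intro k _ _ σ P z hP hO
  by_contra hz
  let _ : Algebra k ℂ := σ.toAlgebra
  have hk : ¬ IsAlgebraic k z := fun h => hz (h.restrictScalars ℚ)
  let ev : Polynomial (𝓞 k) →+* ℂ := Polynomial.eval₂RingHom (σ.comp (algebraMap (𝓞 k) k)) z
  have hinj : Function.Injective ev := by
    rw [injective_iff_map_eq_zero]
    intro p hp
    by_contra h0
    refine hk ⟨p.map (algebraMap (𝓞 k) k), ?_, ?_⟩
    · exact (Polynomial.map_ne_zero_iff (FaithfulSMul.algebraMap_injective _ _)).mpr h0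
    · rw [Polynomial.aeval_def, Polynomial.eval₂_map]
      exact hp
  have hbij : Function.Bijective ev.rangeRestrict :=
    ⟨fun a b h => hinj (congrArg Subtype.val h), ev.rangeRestrict_surjective⟩
  let M : Ideal (Polynomial (𝓞 k)) := P.comap Polynomial.constantCoeff
  have hM : M.map ev.rangeRestrict ≠ ⊤ := by
    intro h
    have h1 : M = ⊤ := by
      rw [← Ideal.comap_map_of_bijective ev.rangeRestrict hbij (I := M), h, comap_top]
    exact hP (by simpa [M, Ideal.eq_top_iff_one] using h1)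
  obtain ⟨O, -, hsub⟩ := Ideal.image_subset_nonunits_valuationSubring _ hM
  have key : ∀ p ∈ M, O.valuation (ev p) < 1 := fun p hp =>
    O.mem_nonunits_iff.mp (hsub ⟨ev.rangeRestrict p, Ideal.mem_map_of_mem _ hp, rfl⟩)
  have h1 : Over σ O P := fun y hy => by
    have := key (Polynomial.C y) (by simpa [M] using hy)
    simpa [ev] using this
  have h2 := key Polynomial.X (by simp [M])
  have h3 : ev Polynomial.X = z := by simp [ev]
  rw [h3, hO O h1] at h2
  exact lt_irrefl _ h2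

end

end Pool.Agent.P.MP_29cb78_nt.D
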