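import Pool.Agent.P.MP_29cb78_nt.D.UIface

/-!
Frobenius elements outside two proper normal subgroups.
-/

namespace Pool.Agent.P.MP_29cb78_nt.D

open NumberField Ideal C Filter Topology Gen
open scoped Classical Pointwise

noncomputable section

namespace Ex2

variable {L : Type} [Field L] [NumberField L]

theorem psum_add_le (A B A' B' : Set (Ideal (𝓞 L))) (hA : ∀ P ∈ A, P.IsMaximal)
    (hB : ∀ P ∈ B, P.IsMaximal) (hA' : ∀ P ∈ A', P.IsMaximal) (hB' : ∀ P ∈ B', P.IsMaximal)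
    (h1 : A ⊆ A' ∪ B') (h2 : B ⊆ A' ∩ B') {s : ℝ} (hs : 1 < s) :
    psum A s + psum B s ≤ psum A' s + psum B' s := by
  unfold psum
  rw [← (summ A hA hs).tsum_add (summ B hB hs), ← (summ A' hA' hs).tsum_add (summ B' hB' hs)]
  refine ((summ A hA hs).add (summ B hB hs)).tsum_le_tsum (fun P => ?_)
    ((summ A' hA' hs).add (summ B' hB' hs))
  have a1 := term_nonneg A' s P
  have a2 := term_nonneg B' s P
  by_cases hb : P ∈ B
  · rw [if_pos hb, if_pos (h2 hb).1, if_pos (h2 hb).2]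
    split_ifs
    · exact le_rfl
    · have : 0 ≤ (absNorm P : ℝ) ^ (-s) := by positivity
      linarith
  · rw [if_neg hb, add_zero]
    by_cases ha : P ∈ A
    · rcases h1 ha with h' | h'
      · rw [if_pos ha, if_pos h']; linarith
      · rw [if_pos ha, if_pos h']; linarith
    · rw [if_neg ha]; linarith

theorem dens_deg_one {A : Set (Ideal (𝓞 L))} (hA : ∀ P ∈ A, P.IsMaximal) {d : ℝ}
    (h : HasDens A d) : HasDens {P | P ∈ A ∧ (absNorm P).Prime} d :=
  Dens.dens_congr hA (fun P hP => hA P hP.1) 1 one_ne_zero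
    (fun _ h1 _ => ⟨fun h2 => And.intro h2 h1, fun h2 => h2.1⟩) h

theorem card_le_half {G : Type} [Group G] [Finite G] {H : Subgroup G} (h : H ≠ ⊤) :
    (Nat.card H : ℝ) / Nat.card G ≤ 1 / 2 := by
  have h1 := H.card_mul_index
  have h2 : H.index ≠ 1 := fun h' => h (Subgroup.index_eq_one.mp h')
  have h3 : H.index ≠ 0 := Subgroup.index_ne_zero_of_finite
  have h4 : (2 : ℝ) ≤ H.index := by exact_mod_cast (by omega : 2 ≤ H.index)
  have h5 : (0 : ℝ) < Nat.card H := by exact_mod_cast Nat.card_pos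
  rw [← h1, Nat.cast_mul, div_le_div_iff₀ (by positivity) (by norm_num)]
  nlinarith

end Ex2

open Ex2 in
theorem ex2 : U_EX2 := by
  intro F Ω _ _ _ _ _ _ H1 H2 n _ _ h1 h2 hn
  by_contra hcon
  push Not at hcon
  have d0 := dens_deg_one (fun P hP => hP.1) (dens0 F Ω ⊤ n inferInstance hn)
  have d3 := dens0 F Ω (H1 ⊓ H2) n inferInstance hn
  have d1 := dens0 F Ω H1 n inferInstance hn
  have d2 := dens0 F Ω H2 n inferInstance hn
  have hle := le_of_tendsto_of_tendsto (d0.add d3) (d1.add d2) (by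
    filter_upwards [self_mem_nhdsWithin, tendsto_log.eventually_gt_atTop 0] with s hs hl
    rw [← add_div, ← add_div]
    refine div_le_div_of_nonneg_right (psum_add_le _ _ _ _ (fun P hP => hP.1.1) (fun P hP => hP.1)
      (fun P hP => hP.1) (fun P hP => hP.1) ?_ ?_ hs) hl.le
    · rintro P ⟨⟨hP, hnP, Q, hQ, rfl, σ, -, hσ⟩, hp⟩
      have hnQ : (n : 𝓞 Ω) ∉ Q := fun h => hnP (by rw [Ideal.mem_under]; simpa using h)
      by_cases hs1 : σ ∈ H1
      · exact Or.inl ⟨hP, hnP, Q, hQ, rfl, σ, hs1, hσ⟩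
      · exact Or.inr ⟨hP, hnP, Q, hQ, rfl, σ, hcon Q hQ hnQ hp σ hσ hs1, hσ⟩
    · rintro P ⟨hP, hnP, Q, hQ, rfl, σ, hs, hσ⟩
      exact ⟨⟨hP, hnP, Q, hQ, rfl, σ, hs.1, hσ⟩, hP, hnP, Q, hQ, rfl, σ, hs.2, hσ⟩)
  have hc : (0 : ℝ) < Nat.card Gal(Ω/F) := by exact_mod_cast Nat.card_pos
  have h3 : (0 : ℝ) < Nat.card (H1 ⊓ H2 : Subgroup Gal(Ω/F)) / Nat.card Gal(Ω/F) :=
    div_pos (by exact_mod_cast Nat.card_pos) hc
  rw [Subgroup.card_top, div_self hc.ne'] at hle
  linarith [card_le_half h1, card_le_half h2]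

theorem gen2 : U_GEN2 := by
  intro F Ω _ _ _ _ _ _ H0 H n h0 h1 hn hH
  by_contra hne
  obtain ⟨W, hW, hnW, hp, s, hs, hs0, hs1⟩ := ex2 F Ω H0 H.normalCore n h0 inferInstance h1
    (fun h => hne (top_unique (h ▸ H.normalCore_le))) hn
  refine hs1 fun τ => ?_
  have hu : (τ • W).under (𝓞 F) = W.under (𝓞 F) := Ideal.under_smul (𝓞 F) W τ
  have hm : (τ • W).IsMaximal := by rw [Ideal.pointwise_smul_eq_comap]; infer_instance
  refine hH (τ • W) hm (fun h => hnW ?_) (hu ▸ hp) _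
    ((isFrob_iff _ _).mpr (((isFrob_iff _ _).mp hs).conj τ)) fun h => hs0 ?_
  · have h2 : (n : 𝓞 F) ∈ W.under (𝓞 F) := by
      rw [← hu, Ideal.mem_under]
      simpa using h
    rw [Ideal.mem_under] at h2
    simpa using h2
  · simpa [mul_assoc] using h0.conj_mem _ h τ⁻¹

end

end Pool.Agent.P.MP_29cb78_nt.D
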