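import Pool.Agent.P.MP_29cb78_nt.D.UFrob
import Pool.Agent.P.MP_29cb78_nt.D.UDens
import Pool.Agent.P.MP_29cb78_nt.D.UCyc
import Pool.Agent.P.MP_29cb78_nt.D.Conj

/-!
The Galois action on the invariants and on their roots.
-/

namespace Pool.Agent.P.MP_29cb78_nt.D

open NumberField Ideal C E F
open scoped Classical Pointwise

noncomputable section

namespace UFrame

/-- A submonoid of a finite group is a subgroup. -/
def sub {G : Type} [Group G] [Finite G] (p : G → Prop) (h1 : p 1)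
    (hm : ∀ a b, p a → p b → p (a * b)) : Subgroup G where
  carrier := {a | p a}
  one_mem' := h1
  mul_mem' := fun {a b} => hm a b
  inv_mem' := fun {a} ha => by
    have h : ∀ n : ℕ, p (a ^ n) := fun n => by
      induction n with
      | zero => rwa [pow_zero]
      | succ n ih => rw [pow_succ]; exact hm _ _ ih ha
    have h2 : a⁻¹ = a ^ (orderOf a - 1) := by
      rw [inv_eq_iff_mul_eq_one, ← pow_succ', Nat.sub_add_cancel (orderOf_pos a),
        pow_orderOf_eq_one]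
    exact h2 ▸ h _

variable {k : Type} [Field k] [NumberField k] {ρ : k →+* ℝ} {σ : k →+* ℂ}

omit [NumberField k] in
theorem idx {Ω : Type} [Field Ω] [NumberField Ω] [Algebra k Ω] [IsGalois k Ω]
    [FiniteDimensional k Ω] {d : k} (hd : ρ d < 0) {w : Ω} (hw : w ^ 2 = algebraMap k Ω d) :
    (MulAction.stabilizer Gal(Ω/k) w).index = 2 := by
  have h1 : ∀ s : Gal(Ω/k), s w = w ∨ s w = -w := fun s =>
    sq_eq_sq_iff_eq_or_eq_neg.mp (by rw [← map_pow, hw, s.commutes])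
  have h2 : ¬ ∀ s : Gal(Ω/k), s w = w := fun h => by
    obtain ⟨c, rfl⟩ := (IsGalois.mem_range_algebraMap_iff_fixed w).mpr h
    rw [← map_pow, (algebraMap k Ω).injective.eq_iff] at hw
    rw [← hw, map_pow] at hd
    exact absurd hd (not_lt.mpr (sq_nonneg _))
  obtain ⟨a, ha⟩ := not_forall.mp h2
  have ha' := (h1 a).resolve_left ha
  have h3 : -w ≠ w := ha' ▸ ha
  refine Subgroup.index_eq_two_iff.mpr ⟨a, fun b => ?_⟩
  change Xor (b (a w) = w) (b w = w)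
  rw [ha', map_neg]
  rcases h1 b with h | h <;> simp [h, h3]

theorem sqrt (σ : k →+* ℂ) (d : k) : ∃ y : ℂ, y ^ 2 = σ d ∧ IsAlgebraic ℚ y := by
  obtain ⟨y, hy⟩ := IsAlgClosed.exists_pow_nat_eq (σ d) two_pos
  refine ⟨y, hy, IsAlgebraic.of_pow two_pos ?_⟩
  rw [hy]
  exact (Algebra.IsAlgebraic.isAlgebraic d).algHom σ.toRatAlgHom

/-- The good primes are those whose Frobenius element is outside a subgroup of index two. -/
theorem good (hG : U_GOOD) (he : Emb ρ σ) {u : (𝓞 k)ˣ} (hu : 1 < ρ (u : 𝓞 k)) :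
    ∃ (d : 𝓞 k) (n : ℕ), n ≠ 0 ∧ ∀ (Ω : Type) [Field Ω] [NumberField Ω] [Algebra k Ω]
      [IsGalois k Ω], (∃ w : Ω, w ^ 2 = algebraMap k Ω d) → ∃ H0 : Subgroup Gal(Ω/k),
        H0.index = 2 ∧ ∀ W : Ideal (𝓞 Ω), W.IsMaximal → (n : 𝓞 Ω) ∉ W →
          (absNorm (W.under (𝓞 k))).Prime → ∀ s, IsFrob W s → s ∉ H0 →
            Good u (W.under (𝓞 k)) (absNorm (W.under (𝓞 k))) := by
  obtain ⟨d, n, hd, hn, h⟩ := hG k ρ σ u he hu
  exact ⟨d, n, hn, fun Ω _ _ _ _ ⟨w, hw⟩ => ⟨_, idx hd hw, h Ω w hw⟩⟩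

theorem ne_top {G : Type} [Group G] {H : Subgroup G} (h : H.index = 2) : H ≠ ⊤ := by
  rintro rfl
  simp at h

theorem not_mem {R : Type} [CommRing R] {W : Ideal R} {a b : ℕ} (h : ((a * b : ℕ) : R) ∉ W) :
    (a : R) ∉ W ∧ (b : R) ∉ W := by
  rw [Nat.cast_mul] at h
  exact ⟨fun h' => h (W.mul_mem_right _ h'), fun h' => h (W.mul_mem_left _ h')⟩

end UFrame

open UFrame

theorem algv (hG : U_GOOD) (hA : U_ALG) : U_ALGV := by
  intro k _ _ ρ σ AL he hI J u N x h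
  obtain ⟨d, n, hn, hg⟩ := good hG he (u := u) (by linarith [h.big])
  obtain ⟨y, hy, hy'⟩ := sqrt σ d
  obtain ⟨Ω, _, _, _, _, _, _, ι, hι, hS⟩ := om k k σ {y} (Set.finite_singleton y)
    (by rintro _ rfl; exact hy')
  rename_i a1 a2 t _
  obtain rfl : a1 = a2 := Algebra.algebra_ext _ _ fun r =>
    @IsScalarTower.algebraMap_apply k k Ω _ _ _ _ a2 a1 t r
  obtain ⟨w, hw⟩ := hS y rfl
  obtain ⟨H0, h0, h1⟩ := hg Ω ⟨w, ι.injective (by rw [map_pow, hw, hy, hι])⟩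
  by_contra hc
  refine ne_top h0 (gen dens0 k Ω H0 n hn fun W hW hnW hp s hs => ?_)
  by_contra hs'
  exact hc (hA k σ (W.under (𝓞 k)) _ (IsMaximal.ne_top inferInstance) fun O hO =>
    hI.unit J u N x _ _ O h (h1 W hW hnW hp s hs hs') hO)

theorem frame0 (hG : U_GOOD) (hF : U_FIN) : U_FRAME0 := by
  intro k K _ _ _ _ _ _ ρ σ AL f art u he hI hA hu
  obtain ⟨d, n1, hn1, hg⟩ := good hG he hu
  refine ⟨d, fun N n Ω _ _ _ _ _ _ ι hN hn hι hc hw => ?_⟩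
  obtain ⟨H0, h0, h1⟩ := hg Ω hw
  obtain ⟨n2, hn2, h2⟩ := frob0 hF k Ω ρ σ AL ι u N hI hι hN hc
  obtain ⟨n3, hn3, h3⟩ := Dens.exists_unr (F := k) (E := K)
  have hn4 : absNorm f ≠ 0 := fun h => hA.ne (absNorm_eq_zero_iff.mp h)
  have hfr : ∀ W : Ideal (𝓞 Ω), W.IsMaximal → ((n1 * (n2 * (n3 * absNorm f)) : ℕ) : 𝓞 Ω) ∉ W →
      (absNorm (W.under (𝓞 k))).Prime → ∀ s, IsFrob W s → s ∉ H0 →
        Sh ρ AL art ι u N s (W.under (𝓞 k)) := by
    intro W hW hnW hp s hs hs'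
    obtain ⟨a1, a⟩ := not_mem hnW
    obtain ⟨a2, a⟩ := not_mem a
    obtain ⟨a3, a4⟩ := not_mem a
    refine ⟨h2 W hW a2 (h1 W hW a1 hp s hs hs') s hs, fun y => ?_⟩
    have h4 := AlgEquiv.restrictNormal_commutes s K
    have h5 := hA.frob (W.under (𝓞 K)) inferInstance fun h => a4 (by
      have := h (absNorm_mem f)
      rwa [under_under, Ideal.mem_under, map_natCast] at this)
    unfold IsFrob at h5
    rw [under_under] at h5
    rw [Conj.frob_eq (h3 _ inferInstance (by rwa [Ideal.mem_under, map_natCast])) h5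
      (τ := s.restrictNormal K) fun z => ?_, h4]
    have h6 := hs (algebraMap (𝓞 K) (𝓞 Ω) z)
    have h7 : s • algebraMap (𝓞 K) (𝓞 Ω) z =
        algebraMap (𝓞 K) (𝓞 Ω) (s.restrictNormal K • z) := by
      apply RingOfIntegers.ext
      exact (h4 z).symm
    rw [h7, ← map_pow, ← map_sub] at h6
    exact h6
  have hn5 : n1 * (n2 * (n3 * absNorm f)) ≠ 0 := by positivity
  refine ⟨H0, _, h0, hn5, hc, fun W hW hnW => h1 W hW (not_mem hnW).1, hfr, fun s => ?_⟩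
  have h4 := gen2 k Ω H0 (sub (fun s => ∃ a, Cop (n * N) a ∧ Sh ρ AL art ι u N s a)
    ⟨⊤, ⟨top_ne_bot, by rw [← one_eq_top]; exact isCoprime_one_left⟩, Sh.one hA⟩
    fun s t ⟨a, a1, a2⟩ ⟨b, b1, b2⟩ => ⟨a * b, cop_mul a1 b1,
      Sh.mul hA a2 b2 a1.1 b1.1 (cop_of_dvd (dvd_mul_left N n) b1).2⟩)
    (n1 * (n2 * (n3 * absNorm f)) * (n * N)) (Subgroup.normal_of_index_eq_two h0) (ne_top h0)
    (by positivity) fun W hW hnW hp s hs hs' => ⟨_, cop_max inferInstance (by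
      rw [Ideal.mem_under, map_natCast]
      exact (not_mem hnW).2), hfr W hW (not_mem hnW).1 hp s hs hs'⟩
  obtain ⟨a, a1, a2⟩ : ∃ a, Cop (n * N) a ∧ Sh ρ AL art ι u N s a :=
    (Subgroup.eq_top_iff' _).mp h4 s
  exact ⟨a, cop_of_dvd (dvd_mul_right n N) a1, a2⟩

/-- A Galois extension that contains the invariants, their roots, a square root and finitely
many further algebraic numbers. -/
theorem big (hG : U_GOOD) (hF : U_FIN) (hA : U_ALG) {k K : Type} [Field k] [Field K]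
    [NumberField k] [NumberField K] [Algebra k K] {ρ : k →+* ℝ} {σ : k →+* ℂ} {AL : Fam k}
    {φ : K →+* ℂ} (u : (𝓞 k)ˣ) (N : ℕ) {M : ℕ} (hM : 0 < M) (d : k) {S : Set ℂ} (he : Emb ρ σ)
    (hI : Inv ρ σ AL) (hφ : ∀ y, φ (algebraMap k K y) = σ y) (hS : S.Finite)
    (hS' : ∀ z ∈ S, IsAlgebraic ℚ z) :
    ∃ (Ω : Type) (_ : Field Ω) (_ : NumberField Ω) (_ : Algebra k Ω) (_ : Algebra K Ω)
      (_ : IsScalarTower k K Ω) (_ : IsGalois k Ω) (ι : Ω →+* ℂ),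
      (∀ y, ι (algebraMap K Ω y) = φ y) ∧ (∀ y, ι (algebraMap k Ω y) = σ y) ∧
      (∀ z ∈ S, ∃ y, ι y = z) ∧ (∃ w : Ω, w ^ 2 = algebraMap k Ω d) ∧
      ∀ J x (l : ℂ), Ad ρ J u N x → l ^ M = AL J u N x → ∃ z, ι z = l := by
  obtain ⟨y, hy, hy'⟩ := sqrt σ d
  have hT : {l : ℂ | ∃ J x, Ad ρ J u N x ∧ l ^ M = AL J u N x}.Finite := by
    refine ((hF k ρ AL u N hI.toInv0).biUnion fun a _ =>
      (Polynomial.nthRoots M a).toFinset.finite_toSet).subset ?_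
    rintro z ⟨J, x, hA, hz⟩
    simp only [Set.mem_iUnion, Finset.mem_coe, Multiset.mem_toFinset, Polynomial.mem_nthRoots hM]
    exact ⟨_, ⟨J, x, hA, rfl⟩, hz⟩
  obtain ⟨Ω, _, _, _, _, _, _, ι, hι, h⟩ := om k K φ _ ((hS.union hT).insert y) (by
    rintro _ (rfl | h | ⟨J, x, h, hl⟩)
    · exact hy'
    · exact hS' _ h
    · exact IsAlgebraic.of_pow hM (hl ▸ algv hG hA k ρ σ AL he hI J u N x h))
  have hσ : ∀ y, ι (algebraMap k Ω y) = σ y := fun y => by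
    rw [IsScalarTower.algebraMap_apply k K Ω, hι, hφ]
  obtain ⟨w, hw⟩ := h y (Or.inl rfl)
  exact ⟨Ω, inferInstance, inferInstance, inferInstance, inferInstance, inferInstance,
    inferInstance, ι, hι, hσ, fun z hz => h z (Or.inr (Or.inl hz)),
    ⟨w, ι.injective (by rw [map_pow, hw, hy, hσ])⟩,
    fun J x l h1 h2 => h l (Or.inr (Or.inr ⟨J, x, h1, h2⟩))⟩

theorem frame (hG : U_GOOD) (hF : U_FIN) (hA : U_ALG) : U_FRAME := by
  intro k K _ _ _ _ _ _ ρ σ AL f art φ u N n S he hI hD hφ hu hN hn hS hS'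
  obtain ⟨d, hd⟩ := frame0 hG hF k K ρ σ AL f art u he hI hD hu
  obtain ⟨Ω, _, _, _, _, _, _, ι, h1, h2, h3, h4, h5⟩ :=
    big hG hF hA u N one_pos d he hI hφ hS hS'
  obtain ⟨H0, n', h⟩ := hd N n Ω ι hN hn h2 (fun J x h => h5 J x _ h (pow_one _)) h4
  exact ⟨Ω, inferInstance, inferInstance, inferInstance, inferInstance, inferInstance,
    inferInstance, ι, H0, n', h1, h, h3⟩

theorem sh (hG : U_GOOD) (hF : U_FIN) (hA : U_ALG) : U_SH := by
  intro k K Ω _ _ _ _ _ _ _ _ _ _ _ _ ρ σ AL f art ι u N n he hI hD hι hu hN hn s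
  obtain ⟨d, hd⟩ := frame0 hG hF k K ρ σ AL f art u he hI hD hu
  obtain ⟨Ω', _, _, _, _, _, _, ι', h1, h2, -, h4, h5⟩ :=
    big hG hF hA u N one_pos d he hI hι Set.finite_empty fun _ h => h.elim
  let _ : Algebra K Ω' := ((algebraMap Ω Ω').comp (algebraMap K Ω)).toAlgebra
  have : IsScalarTower k K Ω' := IsScalarTower.of_algebraMap_eq fun y => by
    rw [IsScalarTower.algebraMap_apply k Ω Ω', IsScalarTower.algebraMap_apply k K Ω]
    rfl
  obtain ⟨H0, n', h⟩ := hd N n Ω' ι' hN hn h2 (fun J x h => h5 J x _ h (pow_one _)) h4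
  obtain ⟨a, a1, a2, a3⟩ := h.all (s.liftNormal Ω')
  refine ⟨a, a1, fun J x z hz hz' => ?_, fun y => (algebraMap Ω Ω').injective ?_⟩
  · rw [← h1, ← s.liftNormal_commutes Ω']
    exact a2 J x _ hz ((h1 z).trans hz')
  · rw [← s.liftNormal_commutes Ω']
    exact a3 y

theorem ink (hG : U_GOOD) (hF : U_FIN) (hA : U_ALG) : U_INK := by
  intro k K _ _ _ _ _ _ ρ σ AL f art φ he hI hD hφ J u N x h hL
  obtain ⟨Ω, _, _, _, _, _, _, ι, H0, n', h1, h2, -⟩ := frame hG hF hA k K ρ σ AL f art φ u N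
    (absNorm f) ∅ he hI hD hφ (by linarith [h.big]) h.N_ne
    (fun h => hD.ne (absNorm_eq_zero_iff.mp h)) Set.finite_empty fun _ h => h.elim
  obtain ⟨z, hz⟩ := h2.cts J x h
  have : IsGalois K Ω := IsGalois.tower_top_of_isGalois k K Ω
  obtain ⟨a, rfl⟩ := (IsGalois.mem_range_algebraMap_iff_fixed (F := K) z).mpr fun s => by
    obtain ⟨a, a1, a2⟩ := h2.all (s.restrictScalars k)
    obtain ⟨δ, d1, d2, rfl⟩ := a2.ray hD a1.1 (cop_ideal a1 (absNorm_mem f)) s.commutes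
    apply ι.injective
    refine (a2.1.principal hI.toInv0 d2 h hz).trans ((hI.per J u N x _ h ?_).trans hz.symm)
    refine (hL _ d1).congr ?_
    push_cast
    ring
  exact ⟨a, (h1 a).symm.trans hz⟩

/-- The Galois action on the roots of the invariants is commutative. -/
theorem comm0 (hG : U_GOOD) (hF : U_FIN) (hA : U_ALG) {k Ω : Type} [Field k] [Field Ω]
    [NumberField k] [NumberField Ω] [Algebra k Ω] [IsGalois k Ω] {ρ : k →+* ℝ} {σ : k →+* ℂ}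
    {AL : Fam k} {ι : Ω →+* ℂ} (he : Emb ρ σ) (hI : Inv ρ σ AL)
    (hι : ∀ y, ι (algebraMap k Ω y) = σ y) {J u N x} {l : Ω} (h : Ad ρ J u N x)
    (hl : ι l ^ (12 * N ^ 3) = AL J u N x) (s t : Gal(Ω/k)) : s (t l) = t (s l) := by
  have hN := h.N_ne
  have hM : 0 < 12 * N ^ 3 := by positivity
  obtain ⟨d, n1, hn1, hg⟩ := good hG he (u := u) (by linarith [h.big])
  obtain ⟨Ω', _, _, _, _, _, _, ι', h1, h2, -, h4, h5⟩ :=
    big hG hF hA u N hM d he hI hι Set.finite_empty fun _ h => h.elim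
  obtain ⟨H0, h0, h3⟩ := hg Ω' h4
  obtain ⟨n2, hn2, h6⟩ := frobr hF k Ω' ρ σ AL ι' u N hI h2 hN h5
  let T : Set Ω' := {z | ∃ J x, Ad ρ J u N x ∧ ι' z ^ (12 * N ^ 3) = AL J u N x}
  have h7 := gen2 k Ω' H0 (sub (fun s => ∀ z ∈ T, s z ∈ T ∧ ∀ τ : Gal(Ω'/k), (τ * s * τ⁻¹) z = s z)
    (fun z hz => ⟨hz, fun τ => by rw [mul_one, mul_inv_cancel]⟩)
    fun a b ha hb z hz => ⟨(ha _ (hb z hz).1).1, fun τ => by
      rw [← conj_mul, AlgEquiv.mul_apply, (hb z hz).2, (ha _ (hb z hz).1).2, AlgEquiv.mul_apply]⟩)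
    (n1 * (n2 * N)) (Subgroup.normal_of_index_eq_two h0) (ne_top h0) (by positivity)
    fun W hW hnW hp s hs hs' z ⟨J, x, hx, hz⟩ => by
      obtain ⟨a1, a⟩ := not_mem hnW
      obtain ⟨a2, a3⟩ := not_mem a
      obtain ⟨P', hP'⟩ := dvd_span_singleton.mpr (absNorm_mem (W.under (𝓞 k)))
      have hp0 : 0 < ρ ((absNorm (W.under (𝓞 k)) : 𝓞 k) : k) := by simpa using hp.pos
      have b1 := (ad_span_mul (ne_zero_of_pos hp0)).mpr hx
      have b2 := hI.hom J u N x _ hx hp0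
      rw [hP', mul_assoc] at b1 b2
      have b3 := b1.of_mul (cop_max inferInstance (by rwa [Ideal.mem_under, map_natCast])).2
      obtain ⟨y, hy⟩ := IsAlgClosed.exists_pow_nat_eq (AL _ u N _) hM
      obtain ⟨z', rfl⟩ := h5 _ _ y b3 hy
      obtain ⟨ξ, c1, c2⟩ := h6 _ _ _ z z' (h3 W hW a1 hp s hs hs')
        (by rwa [Ideal.mem_under, map_natCast]) b1 (hz.trans b2.symm) hy
      rw [c2 W hW rfl s hs]
      refine ⟨⟨_, _, b3, by rw [map_mul, mul_pow, ← map_pow, c1, map_one, one_mul, hy]⟩,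
        fun τ => c2 (τ • W) ?_ (Ideal.under_smul (𝓞 k) W τ) _
          ((Gen.isFrob_iff _ _).mpr (((Gen.isFrob_iff _ _).mp hs).conj τ))⟩
      rw [Ideal.pointwise_smul_eq_comap]
      infer_instance
  have h8 : ∀ s : Gal(Ω'/k), ∀ z ∈ T, s z ∈ T ∧ ∀ τ : Gal(Ω'/k), (τ * s * τ⁻¹) z = s z :=
    (Subgroup.eq_top_iff' _).mp h7
  have h9 : algebraMap Ω Ω' l ∈ T := ⟨J, x, h, by rw [h1, hl]⟩
  have h10 := (h8 (s.liftNormal Ω') _ (h8 (t.liftNormal Ω') _ h9).1).2 (t.liftNormal Ω')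
  rw [← AlgEquiv.mul_apply, inv_mul_cancel_right, AlgEquiv.mul_apply] at h10
  simp only [AlgEquiv.liftNormal_commutes] at h10
  exact (algebraMap Ω Ω').injective h10.symm

theorem comm (hG : U_GOOD) (hF : U_FIN) (hA : U_ALG) : U_COMM := by
  intro k K Ω _ _ _ _ _ _ _ _ _ _ _ _ ρ σ AL f art ι he hI _ hι J u N x l h hl
  exact comm0 hG hF hA he hI hι h hl

end

end Pool.Agent.P.MP_29cb78_nt.D
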