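import Pool.Agent.P.MP_29cb78_nt.D.UIface

/-! Primes of degree one whose Frobenius moves a certain square root are good. -/

namespace Pool.Agent.P.MP_29cb78_nt.D

open NumberField Ideal IsDedekindDomain C E F

namespace UGood

theorem dvd_of_mem {R : Type} [CommRing R] {P : Ideal R} (hP : P ≠ ⊤) {p : ℕ} (hp : p.Prime)
    (h : (p : R) ∈ P) {m : ℤ} (hm : (m : R) ∈ P) : (p : ℤ) ∣ m := by
  by_contra hn
  obtain ⟨a, b, hab⟩ := ((Nat.prime_iff_prime_int.1 hp).irreducible.coprime_iff_not_dvd).2 hn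
  apply hP
  rw [Ideal.eq_top_iff_one]
  have : (1 : R) = a * p + b * m := by exact_mod_cast congrArg (Int.cast : ℤ → R) hab.symm
  rw [this]
  exact add_mem (P.mul_mem_left _ h) (P.mul_mem_left _ hm)

theorem charP {R : Type} [CommRing R] {P : Ideal R} (hP : P ≠ ⊤) {p : ℕ} (hp : p.Prime)
    (h : (p : R) ∈ P) : CharP (R ⧸ P) p := by
  have := Ideal.Quotient.nontrivial_iff.2 hP
  rw [CharP.charP_iff_prime_eq_zero hp, ← map_natCast (Ideal.Quotient.mk P),
    Ideal.Quotient.eq_zero_iff_mem]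
  exact h

theorem exists_int {R : Type} [CommRing R] {P : Ideal R} (hP : P.IsMaximal) {p : ℕ}
    (hp : p.Prime) (h : (p : R) ∈ P) {x : R} (hx : x ^ p - x ∈ P) : ∃ c : ℤ, x - c ∈ P := by
  let := Ideal.Quotient.field P
  have := charP hP.ne_top hp h
  have := Fact.mk hp
  have h1 : (Ideal.Quotient.mk P x) ^ p = Ideal.Quotient.mk P x := by
    rw [← map_pow, Ideal.Quotient.eq]
    exact hx
  obtain ⟨c, hc⟩ := (mem_bot_iff_intCast p (R ⧸ P)).1
    ((Subfield.mem_bot_iff_pow_eq_self (R ⧸ P) p).2 h1)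
  refine ⟨c, ?_⟩
  rw [← Ideal.Quotient.eq, map_intCast, hc]

theorem sub_pow {R : Type} [CommRing R] {P : Ideal R} (hP : P ≠ ⊤) {p : ℕ} (hp : p.Prime)
    (h : (p : R) ∈ P) (x : R) (c : ℤ) : (x - c) ^ p - (x ^ p - c) ∈ P := by
  have := charP hP hp h
  have := Fact.mk hp
  rw [← Ideal.Quotient.eq, map_pow, map_sub, map_sub, map_pow, sub_pow_char, map_intCast,
    ← frobenius_def p (c : R ⧸ P), map_intCast]

variable {k : Type} [Field k] [NumberField k]

theorem cubic (h3 : Module.finrank ℚ k = 3) (u : 𝓞 k) : ∃ t e m : ℤ,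
    u ^ 3 - t * u ^ 2 + e * u - m = 0 ∧
      ∀ c : ℤ, Algebra.norm ℤ ((c : 𝓞 k) - u) = c ^ 3 - t * c ^ 2 + e * c - m := by
  set χ := (Algebra.lmul ℤ (𝓞 k) u).charpoly with hχ
  have hd : χ.natDegree = 3 := by
    rw [hχ, LinearMap.charpoly_natDegree, RingOfIntegers.rank, h3]
  have hm : χ.coeff 3 = 1 := hd ▸ (LinearMap.charpoly_monic _).coeff_natDegree
  refine ⟨-χ.coeff 2, χ.coeff 1, -χ.coeff 0, ?_, fun c => ?_⟩
  · have := Algebra.aeval_self_charpoly_lmul (R := ℤ) u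
    rw [← hχ, Polynomial.aeval_eq_sum_range, hd] at this
    simp only [Finset.sum_range_succ, Finset.sum_range_zero, hm, zsmul_eq_mul] at this
    push_cast at this ⊢
    linear_combination this
  · have := LinearMap.eval_charpoly (Algebra.lmul ℤ (𝓞 k) u) c
    rw [← hχ, Polynomial.eval_eq_sum_range, hd] at this
    simp only [Finset.sum_range_succ, Finset.sum_range_zero, hm] at this
    rw [Algebra.norm_apply, ← eq_intCast (algebraMap ℤ (𝓞 k)) c]
    change LinearMap.det (Algebra.lmul ℤ (𝓞 k) _) = _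
    rw [map_sub, AlgHom.commutes, ← this]
    ring

theorem gcd_eq {u : 𝓞 k} (hun : IsUnit u) {t e m : ℤ}
    (hu : u ^ 3 - t * u ^ 2 + e * u - m = 0)
    (hN : ∀ c : ℤ, Algebra.norm ℤ ((c : 𝓞 k) - u) = c ^ 3 - t * c ^ 2 + e * c - m)
    {P : Ideal (𝓞 k)} (hP : P.IsMaximal) {p : ℕ} (hp : p.Prime) (hn : absNorm P = p) {c : ℤ}
    (hc : u - c ∈ P) (hf : u ^ p - u ∈ P)
    (hG : ∀ g : ℤ, ¬ (p : ℤ) ∣ g ^ 2 - (t - c) * g + (e - c * (t - c))) :
    span {(p : 𝓞 k), u ^ (p - 1) - 1} = P := by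
  have hpP : (p : 𝓞 k) ∈ P := by
    rw [← hn]
    exact absNorm_mem P
  have e1 : u ^ p - u = u * (u ^ (p - 1) - 1) := by
    rw [mul_sub, ← pow_succ', Nat.sub_add_cancel hp.one_le, mul_one]
  have hF : ∀ Q : Ideal (𝓞 k), Q ≠ ⊤ → (p : 𝓞 k) ∈ Q → ∀ g : ℤ, u - g ∈ Q →
      (p : ℤ) ∣ g ^ 3 - t * g ^ 2 + e * g - m := by
    intro Q hQ hpQ g hg
    refine dvd_of_mem hQ hp hpQ ?_
    have : ((g ^ 3 - t * g ^ 2 + e * g - m : ℤ) : 𝓞 k) =
        -(u ^ 2 + u * g + g ^ 2 - t * (u + g) + e) * (u - g) := by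
      push_cast
      linear_combination hu
    rw [this]
    exact Q.mul_mem_left _ hg
  have hle : span {(p : 𝓞 k), u ^ (p - 1) - 1} ≤ P := by
    rw [span_le, Set.insert_subset_iff, Set.singleton_subset_iff]
    exact ⟨hpP, (P.unit_mul_mem_iff_mem hun).1 (by rwa [← e1])⟩
  obtain ⟨J, hJ⟩ := Ideal.dvd_iff_le.2 hle
  by_contra hne
  have hJt : J ≠ ⊤ := fun h => hne (by rw [hJ, h, mul_top])
  obtain ⟨Q, hQ, hJQ⟩ := Ideal.exists_le_maximal J hJt
  have hI : span {(p : 𝓞 k), u ^ (p - 1) - 1} ≤ P * Q := hJ.le.trans (Ideal.mul_mono_right hJQ)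
  have h1 : (p : 𝓞 k) ∈ P * Q := hI (subset_span (by simp))
  have h2 : u ^ p - u ∈ P * Q := by
    rw [e1]
    exact (P * Q).mul_mem_left _ (hI (subset_span (by simp)))
  have hpQ : (p : 𝓞 k) ∈ Q := Ideal.mul_le_right h1
  obtain ⟨g, hg⟩ := exists_int hQ hp hpQ (Ideal.mul_le_right h2)
  have d1 := hF P hP.ne_top hpP c hc
  have d2 := hF Q hQ.ne_top hpQ g hg
  have d3 : (p : ℤ) ∣ (g - c) * (g ^ 2 - (t - c) * g + (e - c * (t - c))) := by
    have := dvd_sub d2 d1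
    refine (dvd_iff_dvd_of_dvd_sub ?_).1 this
    exact ⟨0, by ring⟩
  obtain ⟨a, ha⟩ := ((Nat.prime_iff_prime_int.1 hp).dvd_or_dvd d3).resolve_right (hG g)
  have hcQ : u - c ∈ Q := by
    have : u - c = (u - g) + a * p := by
      have := congrArg (Int.cast : ℤ → 𝓞 k) ha
      push_cast at this
      linear_combination this
    rw [this]
    exact add_mem hg (Q.mul_mem_left _ hpQ)
  have hPQ : P * Q ≠ ⊤ := fun h => hP.ne_top (top_le_iff.1 (h.ge.trans Ideal.mul_le_left))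
  have h3 : (u - c) ^ p ∈ P * Q := by
    have : (u - c) ^ p = (u - c) ^ (p - 2) * ((u - c) * (u - c)) := by
      rw [← sq, ← pow_add, Nat.sub_add_cancel hp.two_le]
    rw [this]
    exact (P * Q).mul_mem_left _ (Ideal.mul_mem_mul hc hcQ)
  have h4 : (c : 𝓞 k) - u ∈ P * Q := by
    have := sub_mem (add_mem (sub_pow hPQ hp h1 u c) h2) h3
    rwa [show (u - c) ^ p - (u ^ p - c) + (u ^ p - u) - (u - c) ^ p = c - u by ring]
      at this
  have h5 : ((c + p : ℤ) : 𝓞 k) - u ∈ P * Q := by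
    have := add_mem h4 h1
    rwa [show (c : 𝓞 k) - u + p = ((c + p : ℤ) : 𝓞 k) - u by push_cast; ring] at this
  have h6 : (p : ℤ) * p ∣ (absNorm (P * Q) : ℤ) := by
    rw [map_mul, hn, Nat.cast_mul]
    refine mul_dvd_mul_left _ (dvd_of_mem hQ.ne_top hp hpQ ?_)
    exact_mod_cast absNorm_mem Q
  have d4 := h6.trans (absNorm_dvd_norm_of_mem h4)
  have d5 := h6.trans (absNorm_dvd_norm_of_mem h5)
  rw [hN] at d4 d5
  have hp0 : (p : ℤ) ≠ 0 := by exact_mod_cast hp.ne_zero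
  refine hG c ((mul_dvd_mul_iff_left hp0).1 ?_)
  refine (dvd_iff_dvd_of_dvd_sub ?_).1 (dvd_sub d5 d4)
  exact ⟨3 * c + p - t, by ring⟩

theorem neg {ρ : k →+* ℝ} {σ : k →+* ℂ} (h : Emb ρ σ) (u : (𝓞 k)ˣ) (h1 : 1 < ρ (u : 𝓞 k))
    {t e m : ℤ} (hu : (u : 𝓞 k) ^ 3 - t * (u : 𝓞 k) ^ 2 + e * (u : 𝓞 k) - m = 0) :
    ρ (((t - u) ^ 2 - 4 * (e - u * (t - u)) : 𝓞 k) : k) < 0 := by
  have hy : (σ (u : 𝓞 k)).im ≠ 0 := by
    intro h0
    obtain ⟨q, hq⟩ := h.rat _ h0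
    have hi : IsIntegral ℤ q := by
      have := (u : 𝓞 k).isIntegral_coe
      rw [← isIntegral_algebraMap_iff (algebraMap ℚ k).injective, eq_ratCast, ← hq]
      exact this
    obtain ⟨z, hz⟩ := IsIntegrallyClosed.isIntegral_iff.1 hi
    have e1 : (u : 𝓞 k) = algebraMap ℤ (𝓞 k) z := by
      apply RingOfIntegers.ext
      rw [hq, ← hz]
      simp
    have hz1 : IsUnit z := (isUnit_map_iff (algebraMap ℤ (𝓞 k)) z).1 (e1 ▸ u.isUnit)
    rw [hq, ← hz] at h1
    rcases Int.isUnit_iff.1 hz1 with rfl | rfl <;> norm_num at h1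
  have hk := congrArg (algebraMap (𝓞 k) k) hu
  simp only [map_sub, map_add, map_mul, map_pow, map_intCast, map_zero] at hk
  have ha := congrArg ρ hk
  have hb := congrArg σ hk
  simp only [map_sub, map_add, map_mul, map_pow, map_intCast, map_zero] at ha hb
  change ρ (algebraMap (𝓞 k) k _) < 0
  simp only [map_sub, map_mul, map_pow, map_intCast, map_ofNat]
  change (σ (algebraMap (𝓞 k) k u)).im ≠ 0 at hy
  generalize ρ (algebraMap (𝓞 k) k u) = a at ha
  generalize σ (algebraMap (𝓞 k) k u) = b at hb hy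
  have ha' : (a : ℂ) ^ 3 - t * (a : ℂ) ^ 2 + e * a - m = 0 := by exact_mod_cast ha
  have hab : b - a ≠ 0 := fun h0 => hy (by simpa using congrArg Complex.im h0)
  have hq : b * b - (t - a) * b + (e - a * (t - a)) = 0 :=
    mul_left_cancel₀ hab (by linear_combination hb - ha')
  have hre := congrArg Complex.re hq
  have him := congrArg Complex.im hq
  simp at hre him
  have h2 : (t : ℝ) - a = 2 * b.re := mul_right_cancel₀ hy (by linear_combination -him)
  have h3 : 0 < b.im * b.im := mul_self_pos.2 hy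
  rw [h2] at hre ⊢
  nlinarith

end UGood

open UGood in
theorem good0 : U_GOOD := by
  intro k _ _ ρ σ u hE h1
  obtain ⟨t, e, m, hu, hN⟩ := cubic hE.rank (u : 𝓞 k)
  have hd := neg hE u h1 hu
  set d : 𝓞 k := (t - u) ^ 2 - 4 * (e - u * (t - u)) with hdd
  have hd0 : d ≠ 0 := fun h => by simp [h] at hd
  refine ⟨d, 6 * absNorm (span {d}), hd, mul_ne_zero (by norm_num) ?_, ?_⟩
  · rw [Ne, absNorm_eq_zero_iff, span_singleton_eq_bot]
    exact hd0
  intro Ω _ _ _ w hw W hW hn hp s hs hsw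
  set P := W.under (𝓞 k) with hPd
  set p := absNorm P with hpd
  have hP : P.IsMaximal := Ideal.IsMaximal.under (𝓞 k) W
  have hpP : (p : 𝓞 k) ∈ P := absNorm_mem P
  have hmem : ∀ x : 𝓞 k, x ∈ P ↔ algebraMap (𝓞 k) (𝓞 Ω) x ∈ W := fun x => Iff.rfl
  have hpW : (p : 𝓞 Ω) ∈ W := by simpa using (hmem _).1 hpP
  have h2 : (2 : 𝓞 Ω) ∉ W := fun h => hn (by
    rw [show ((6 * absNorm (span {d}) : ℕ) : 𝓞 Ω) = (3 * absNorm (span {d})) * 2 by
      push_cast; ring]
    exact W.mul_mem_left _ h)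
  have h3 : (3 : 𝓞 Ω) ∉ W := fun h => hn (by
    rw [show ((6 * absNorm (span {d}) : ℕ) : 𝓞 Ω) = (2 * absNorm (span {d})) * 3 by
      push_cast; ring]
    exact W.mul_mem_left _ h)
  have hdP : d ∉ P := fun h => hn (by
    have h' : ((absNorm (span {d}) : ℕ) : 𝓞 k) ∈ P :=
      (span_singleton_le_iff_mem P).2 h (absNorm_mem _)
    rw [Nat.cast_mul]
    exact W.mul_mem_left _ (by simpa using (hmem _).1 h'))
  have hf : (u : 𝓞 k) ^ p - u ∈ P := by
    have := hs (algebraMap (𝓞 k) (𝓞 Ω) u)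
    rw [Art1.smul_algebraMap (L := k) fun y => s.commutes y] at this
    rw [hmem, map_sub, map_pow, ← neg_mem_iff, neg_sub]
    exact this
  obtain ⟨c, hc⟩ := exists_int hP hp hpP hf
  refine ⟨hp, hp.five_le_of_ne_two_of_ne_three (fun h => h2 ?_) (fun h => h3 ?_), rfl, p - 1,
    (Nat.sub_pos_of_lt hp.one_lt).ne', gcd_eq u.isUnit hu hN hP hp rfl hc hf fun g ⟨a, ha⟩ => ?_⟩
  · simpa [h] using hpW
  · simpa [h] using hpW
  have hint : IsIntegral ℤ w := by
    refine IsIntegral.of_pow (n := 2) (by norm_num) ?_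
    rw [hw]
    exact d.isIntegral_coe.algebraMap
  let v : 𝓞 Ω := ⟨w, hint⟩
  have hv : v ^ 2 = algebraMap (𝓞 k) (𝓞 Ω) d := RingOfIntegers.ext hw
  have hsv : s • v = -v := by
    apply RingOfIntegers.ext
    change s w = -w
    have : (s w) ^ 2 = w ^ 2 := by rw [← map_pow, hw, AlgEquiv.commutes]
    exact (sq_eq_sq_iff_eq_or_eq_neg.1 this).resolve_left hsw
  have hda : d - ((2 * g - (t - c) : ℤ) : 𝓞 k) ^ 2 ∈ P := by
    have h := congrArg (Int.cast : ℤ → 𝓞 k) ha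
    push_cast at h
    have : d - ((2 * g - (t - c) : ℤ) : 𝓞 k) ^ 2 =
        (2 * t - 3 * (u + c)) * ((u : 𝓞 k) - c) - 4 * a * p := by
      rw [hdd]
      push_cast
      linear_combination (-4) * h
    rw [this]
    exact sub_mem (P.mul_mem_left _ hc) (P.mul_mem_left _ hpP)
  obtain ⟨z, hz⟩ : ∃ z : ℤ, v - z ∈ W := by
    rw [hmem, map_sub, map_pow, map_intCast, ← hv, sq_sub_sq] at hda
    rcases hW.isPrime.mem_or_mem hda with h | h
    · exact ⟨-(2 * g - (t - c)), by rwa [Int.cast_neg, sub_neg_eq_add]⟩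
    · exact ⟨_, h⟩
  have h4 := hs v
  rw [hsv] at h4
  have h5 := UGood.sub_pow hW.ne_top hp hpW v z
  have h6 := W.pow_mem_of_mem hz p hp.pos
  have h7 : 2 * v ∈ W := by
    have := sub_mem (add_mem (sub_mem h5 h6) hz) h4
    rwa [show (v - z) ^ p - (v ^ p - z) - (v - z) ^ p + (v - z) - (-v - v ^ p) = 2 * v by ring]
      at this
  refine hdP ((hmem d).2 ?_)
  rw [← hv]
  exact W.pow_mem_of_mem ((hW.isPrime.mem_or_mem h7).resolve_left h2) 2 two_pos

end Pool.Agent.P.MP_29cb78_nt.D
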