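import Pool.Agent.P.MP_29cb78_nt.D.UIface

/-!
A prime with prescribed Frobenius element and prescribed power residue properties.
-/

namespace Pool.Agent.P.MP_29cb78_nt.D

open NumberField Ideal IsDedekindDomain C E F
open scoped Classical nonZeroDivisors

namespace UKf

section field

variable {k K Ω : Type} [Field k] [Field K] [Field Ω] [Algebra k K] [Algebra k Ω] [Algebra K Ω]

theorem root {r : ℕ} [NeZero r] {ζ x : Ω} (hζ : IsPrimitiveRoot ζ r) (hx : x ≠ 0) {y : k}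
    (hy : x ^ r = algebraMap k Ω y) (s : Gal(Ω/k)) : ∃ a : ℕ, s x = ζ ^ a * x := by
  have h : (s x / x) ^ r = 1 := by
    rw [div_pow, ← map_pow, hy, s.commutes, ← hy, div_self (pow_ne_zero _ hx)]
  obtain ⟨a, -, ha⟩ := hζ.eq_pow_of_pow_eq_one h
  exact ⟨a, by rw [ha, div_mul_cancel₀ _ hx]⟩

theorem pow_act {s : Gal(Ω/k)} {z x : Ω} (hz : s z = z) (hx : s x = z * x) (m : ℕ) :
    (s ^ m) x = z ^ m * x := by
  induction m with
  | zero => simp
  | succ m ih => rw [pow_succ', AlgEquiv.mul_apply, ih, map_mul, map_pow, hz, hx]; ring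

theorem pow_fix {s : Gal(Ω/k)} {x : Ω} (hx : s x = x) (m : ℕ) : (s ^ m) x = x := by
  have := pow_act (s := s) (z := 1) (x := x) (map_one s) (by rw [hx, one_mul]) m
  rwa [one_pow, one_mul] at this

theorem res_pow {s : Gal(Ω/k)} {j : Gal(K/k)}
    (h : ∀ y, s (algebraMap K Ω y) = algebraMap K Ω (j y)) (m : ℕ) (y : K) :
    (s ^ m) (algebraMap K Ω y) = algebraMap K Ω ((j ^ m) y) := by
  induction m with
  | zero => simp
  | succ m ih => rw [pow_succ', pow_succ', AlgEquiv.mul_apply, AlgEquiv.mul_apply, ih, h]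

theorem pow_cases {G : Type} [Group G] {j : G} (hj : j * j = 1) (m : ℕ) :
    j ^ m = 1 ∨ j ^ m = j := by
  induction m with
  | zero => exact Or.inl (pow_zero j)
  | succ m ih =>
    rcases ih with h | h
    · exact Or.inr (by rw [pow_succ, h, one_mul])
    · exact Or.inl (by rw [pow_succ, h, hj])

variable [NumberField k] [NumberField K] [NumberField Ω] [IsScalarTower k K Ω] [IsGalois k Ω]

omit [NumberField k] [NumberField Ω] in
theorem exA {r : ℕ} (hr : r.Prime) (h2 : 2 < r) (hirr : Irreducible (Polynomial.cyclotomic r K))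
    {ζ e : Ω} (hζ : IsPrimitiveRoot ζ r) (he : e ≠ 0) {y : k} (hy : e ^ r = algebraMap k Ω y)
    (j : Gal(K/k)) (hj : j * j = 1) :
    ∃ g : Gal(Ω/k), g ζ = ζ ∧ g e = e ∧ ∀ y, g (algebraMap K Ω y) = algebraMap K Ω (j y) := by
  have : NeZero r := ⟨hr.ne_zero⟩
  have : IsGalois K Ω := IsGalois.tower_top_of_isGalois k K Ω
  have : NeZero (r : K) := ⟨Nat.cast_ne_zero.mpr hr.ne_zero⟩
  set s0 : Gal(Ω/k) := j.liftNormal Ω with hs0
  have h0 : ∀ y, s0 (algebraMap K Ω y) = algebraMap K Ω (j y) := j.liftNormal_commutes Ω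
  have hζ' : IsPrimitiveRoot (s0 ζ) r := hζ.map_of_injective s0.injective
  obtain ⟨t, ht⟩ := minpoly.exists_algEquiv_of_root (K := K) (x := s0 ζ) (y := ζ)
    (Algebra.IsAlgebraic.isAlgebraic ζ) (by
      rw [← hζ.minpoly_eq_cyclotomic_of_irreducible hirr,
        hζ'.minpoly_eq_cyclotomic_of_irreducible hirr]
      exact minpoly.aeval K _)
  set s1 : Gal(Ω/k) := t.restrictScalars k * s0 with hs1
  have h1 : s1 ζ = ζ := ht
  have h3 : ∀ y, s1 (algebraMap K Ω y) = algebraMap K Ω (j y) := fun y => by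
    rw [hs1, AlgEquiv.mul_apply, h0]
    exact t.commutes _
  obtain ⟨a, ha⟩ := root hζ he hy s1
  refine ⟨s1 ^ r, pow_fix h1 r, ?_, fun y => ?_⟩
  · rw [pow_act (by rw [map_pow, h1]) ha, ← pow_mul, mul_comm a r, pow_mul, hζ.pow_eq_one,
      one_pow, one_mul]
  · obtain ⟨b, hb⟩ := hr.odd_of_ne_two (by omega)
    rw [res_pow h3, hb, pow_succ, pow_mul, pow_two, hj, one_pow, one_mul]

theorem val_dvd {η π : 𝓞 k} {q : Ideal (𝓞 k)} {h r i d : ℕ} (hη : IsUnit η) (hq : q.IsMaximal)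
    (hπ : span {π} = q ^ h) {N : k} (hN : N ^ r * ((η : k) ^ i) ^ d = (π : k) ^ d) :
    r ∣ h * d := by
  let v : HeightOneSpectrum (𝓞 k) := ⟨q, hq.isPrime, Gen.ne_bot hq⟩
  have h1 := congrArg (FractionalIdeal.spanSingleton (𝓞 k)⁰) hN
  have h2 : FractionalIdeal.spanSingleton (𝓞 k)⁰ (η : k) = 1 := by
    rw [show (η : k) = algebraMap (𝓞 k) k η from rfl, ← FractionalIdeal.coeIdeal_span_singleton,
      Ideal.span_singleton_eq_top.mpr hη, FractionalIdeal.coeIdeal_top]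
  have h3 : FractionalIdeal.spanSingleton (𝓞 k)⁰ (π : k) =
      (v.asIdeal : FractionalIdeal (𝓞 k)⁰ k) ^ h := by
    rw [show (π : k) = algebraMap (𝓞 k) k π from rfl, ← FractionalIdeal.coeIdeal_span_singleton,
      hπ, FractionalIdeal.coeIdeal_pow]
  rw [← FractionalIdeal.spanSingleton_mul_spanSingleton, ← FractionalIdeal.spanSingleton_pow,
    ← FractionalIdeal.spanSingleton_pow, ← FractionalIdeal.spanSingleton_pow,
    ← FractionalIdeal.spanSingleton_pow, h2, h3, one_pow, one_pow, mul_one, ← pow_mul] at h1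
  have h4 := congrArg (FractionalIdeal.count k v) h1
  rw [FractionalIdeal.count_pow, FractionalIdeal.count_pow_self] at h4
  exact Int.natCast_dvd_natCast.mp ⟨_, h4.symm⟩

theorem exB [IsGalois k K] {r : ℕ} (hr : r.Prime) (hK : Module.finrank k K < r) {η π : 𝓞 k}
    {q : Ideal (𝓞 k)} {h : ℕ} (hη : IsUnit η) (hq : q.IsMaximal) (h0 : h ≠ 0) (hh : h < r)
    (hπ : span {π} = q ^ h) {ζ e p : Ω} (hζ : IsPrimitiveRoot ζ r) (he : e ≠ 0) (hp : p ≠ 0)
    (hy : e ^ r = algebraMap k Ω η) (hz : p ^ r = algebraMap k Ω π) :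
    ∃ t : Gal(Ω/k), t ζ = ζ ∧ t e = e ∧ (∀ y, t (algebraMap K Ω y) = algebraMap K Ω y) ∧
      t p ≠ p := by
  have : NeZero r := ⟨hr.ne_zero⟩
  have : Fact r.Prime := ⟨hr⟩
  by_contra hcon
  push Not at hcon
  let f : Gal(Ω/k) →* Gal(K/k) × (ZMod r)ˣ :=
    (AlgEquiv.restrictNormalHom K).prod (hζ.autToPow k)
  have hker : ∀ s, s ∈ f.ker ↔
      s ζ = ζ ∧ ∀ y, s (algebraMap K Ω y) = algebraMap K Ω y := fun s => by
    rw [MonoidHom.mem_ker, MonoidHom.prod_apply, Prod.mk_eq_one]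
    constructor
    · rintro ⟨h1, h2⟩
      refine ⟨?_, fun y => ?_⟩
      · rw [← hζ.autToPow_spec k s, h2, Units.val_one, ZMod.val_one, pow_one]
      · rw [← AlgEquiv.restrictNormal_commutes]
        exact congrArg (fun a : Gal(K/k) => algebraMap K Ω (a y)) h1
    · rintro ⟨h1, h2⟩
      refine ⟨AlgEquiv.ext fun y => (algebraMap K Ω).injective ?_, Units.ext ?_⟩
      · exact (AlgEquiv.restrictNormal_commutes s K y).trans (h2 y)
      · have h3 := hζ.autToPow_spec k s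
        rw [h1] at h3
        have h4 := hζ.pow_inj (ZMod.val_lt _) hr.one_lt (h3.trans (pow_one ζ).symm)
        exact ZMod.val_injective r (by rw [h4, Units.val_one, ZMod.val_one])
  obtain ⟨i, hi⟩ : ∃ i : ℕ, ∀ s ∈ f.ker, s (p / e ^ i) = p / e ^ i := by
    by_cases hall : ∀ s ∈ f.ker, s e = e
    · exact ⟨0, fun s hs => by
        rw [pow_zero, div_one]
        exact hcon s ((hker s).mp hs).1 (hall s hs) ((hker s).mp hs).2⟩
    · push Not at hall
      obtain ⟨s0, hs0, hne⟩ := hall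
      obtain ⟨a, ha⟩ := root hζ he hy s0
      have hz1 : IsPrimitiveRoot (ζ ^ a) r := hζ.pow_of_coprime a (by
        refine ((Nat.Prime.coprime_iff_not_dvd hr).mpr fun hd => hne ?_).symm
        rw [ha, (hζ.pow_eq_one_iff_dvd a).mpr hd, one_mul])
      have hfix : s0 (ζ ^ a) = ζ ^ a := by rw [map_pow, ((hker s0).mp hs0).1]
      obtain ⟨i, hi⟩ := root hz1 hp hz s0
      refine ⟨i, fun s hs => ?_⟩
      obtain ⟨m, hm⟩ := root hz1 he hy s
      have h1 : (s0 ^ m) e = (ζ ^ a) ^ m * e := pow_act hfix ha m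
      have h2 : (s0 ^ m) p = ((ζ ^ a) ^ i) ^ m * p := pow_act (by rw [map_pow, hfix]) hi m
      have hmem : (s0 ^ m)⁻¹ * s ∈ f.ker := mul_mem (inv_mem (pow_mem hs0 m)) hs
      have h3 := hcon _ ((hker _).mp hmem).1 (by
        rw [AlgEquiv.mul_apply, hm, ← h1, ← AlgEquiv.mul_apply, inv_mul_cancel,
          AlgEquiv.one_apply]) ((hker _).mp hmem).2
      have h4 : s p = (s0 ^ m) p := by
        have := congrArg (s0 ^ m) h3
        rwa [← AlgEquiv.mul_apply, mul_inv_cancel_left] at this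
      have hζ0 : ζ ≠ 0 := hζ.ne_zero hr.ne_zero
      rw [map_div₀, map_pow, h4, h2, hm]
      field_simp
      ring
  let L := IntermediateField.fixedField f.ker
  let β : L := ⟨p / e ^ i, (IntermediateField.mem_fixedField_iff _ _).mpr hi⟩
  have hd : Module.finrank k L ∣ Module.finrank k K * (r - 1) := by
    rw [IntermediateField.finrank_eq_fixingSubgroup_index, IntermediateField.fixingSubgroup_fixedField,
      Subgroup.index_ker, ← IsGalois.card_aut_eq_finrank, ← ZMod.card_units r,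
      ← Nat.card_eq_fintype_card, ← Nat.card_prod]
    exact Subgroup.card_subgroup_dvd_card _
  have hβ : β ^ r * algebraMap k L ((η : k) ^ i) = algebraMap k L π := by
    apply (algebraMap L Ω).injective
    rw [map_mul, map_pow, ← IsScalarTower.algebraMap_apply, ← IsScalarTower.algebraMap_apply,
      map_pow, ← hy, ← hz]
    change (p / e ^ i) ^ r * _ = _
    rw [← pow_mul, mul_comm r i, pow_mul, ← mul_pow, div_mul_cancel₀ _ (pow_ne_zero _ he)]
  have hN := congrArg (Algebra.norm k) hβ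
  rw [map_mul, map_pow, Algebra.norm_algebraMap, Algebra.norm_algebraMap] at hN
  have h5 := val_dvd hη hq hπ hN
  rcases (Nat.Prime.dvd_mul hr).mp h5 with h6 | h6
  · exact absurd (Nat.le_of_dvd (Nat.pos_of_ne_zero h0) h6) (by omega)
  · rcases (Nat.Prime.dvd_mul hr).mp (h6.trans hd) with h7 | h7
    · exact absurd (Nat.le_of_dvd Module.finrank_pos h7) (by omega)
    · have := hr.two_le
      exact absurd (Nat.le_of_dvd (by omega) h7) (by omega)

end field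

theorem mem_of_root {R : Type} [CommRing R] [IsDomain R] {W : Ideal R} {r : ℕ} {z : R}
    (hz : z ^ r = 1) (h1 : z ≠ 1) (hW : z - 1 ∈ W) : (r : R) ∈ W := by
  have h2 : ∑ i ∈ Finset.range r, z ^ i = 0 := by
    have := geom_sum_mul z r
    rw [hz, sub_self] at this
    exact (mul_eq_zero.mp this).resolve_right (sub_ne_zero.mpr h1)
  have h3 : Ideal.Quotient.mk W z = 1 := by
    rw [← map_one (Ideal.Quotient.mk W)]
    exact Ideal.Quotient.eq.mpr hW
  have h4 := congrArg (Ideal.Quotient.mk W) h2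
  simp only [map_sum, map_pow, h3, one_pow, Finset.sum_const, Finset.card_range, nsmul_eq_mul,
    mul_one, map_zero] at h4
  rw [← Ideal.Quotient.eq_zero_iff_mem, map_natCast]
  exact h4

theorem pow_sub_mem {R : Type} [CommRing R] {W : Ideal R} (hW : W.IsPrime) {p r : ℕ} {x : R}
    (hp : p ≠ 0) (hr : r ≠ 0) (hu : IsUnit (x ^ r)) (h : x - x ^ p ∈ W) :
    x ^ (p - 1) - 1 ∈ W := by
  obtain ⟨m, rfl⟩ := Nat.exists_eq_succ_of_ne_zero hp
  have h1 : x * (x ^ m - 1) ∈ W := by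
    have := W.neg_mem h
    rwa [show -(x - x ^ (m + 1)) = x * (x ^ m - 1) by ring] at this
  refine (hW.mem_or_mem h1).resolve_left fun hx => hW.ne_top ?_
  exact W.eq_top_of_isUnit_mem hx ((isUnit_pow_iff hr).mp hu)

section arith

variable {k K Ω : Type} [Field k] [Field K] [Field Ω] [Algebra k K] [Algebra k Ω] [Algebra K Ω]
  [NumberField k] [NumberField K] [NumberField Ω] [IsScalarTower k K Ω]

omit [NumberField k] [NumberField Ω] in
theorem lift_int {r : ℕ} (hr : r ≠ 0) {x : Ω} {y : 𝓞 k} (h : x ^ r = algebraMap k Ω y) :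
    ∃ x0 : 𝓞 Ω, (x0 : Ω) = x ∧ x0 ^ r = algebraMap (𝓞 k) (𝓞 Ω) y := by
  have h1 : IsIntegral ℤ (x ^ r) := by
    rw [h]
    exact (algebraMap (𝓞 k) (𝓞 Ω) y).isIntegral_coe
  exact ⟨⟨x, IsIntegral.of_pow (Nat.pos_of_ne_zero hr) h1⟩, rfl, RingOfIntegers.ext h⟩

omit [NumberField k] [NumberField Ω] in
theorem arith {r P : ℕ} (hr : r.Prime) (hP : P.Prime) {η π : 𝓞 k} (hη : IsUnit η) {ζ e p : Ω}
    (hζ : IsPrimitiveRoot ζ r) (hp : p ≠ 0) (hy : e ^ r = algebraMap k Ω η)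
    (hz : p ^ r = algebraMap k Ω π) (s : Gal(Ω/k)) (h1 : s ζ = ζ) (h2 : s e = e) (h3 : s p ≠ p)
    {W : Ideal (𝓞 Ω)} (hW : W.IsMaximal) (hrW : (r : 𝓞 Ω) ∉ W)
    (hs : ∀ z : 𝓞 Ω, s • z - z ^ P ∈ W) :
    r ∣ P - 1 ∧ η ^ ((P - 1) / r) - 1 ∈ W.under (𝓞 k) ∧ π ^ ((P - 1) / r) - 1 ∉ W.under (𝓞 k) := by
  have : NeZero r := ⟨hr.ne_zero⟩
  obtain ⟨ζ0, rfl, hζ0⟩ := lift_int (k := k) (y := 1) hr.ne_zero
    (hζ.pow_eq_one.trans (by simp))
  rw [map_one] at hζ0
  obtain ⟨e0, rfl, he0⟩ := lift_int hr.ne_zero hy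
  obtain ⟨p0, rfl, hp0⟩ := lift_int hr.ne_zero hz
  have hsζ : s • ζ0 = ζ0 := RingOfIntegers.ext h1
  have hse : s • e0 = e0 := RingOfIntegers.ext h2
  have hd : r ∣ P - 1 := by
    have h4 := pow_sub_mem hW.isPrime hP.ne_zero hr.ne_zero (hζ0 ▸ isUnit_one) (by
      have := hs ζ0
      rwa [hsζ] at this)
    have h5 : ζ0 ^ (P - 1) = 1 := by
      by_contra h5
      exact hrW (mem_of_root (by rw [← pow_mul, mul_comm, pow_mul, hζ0, one_pow]) h5 h4)
    refine hζ.dvd_of_pow_eq_one _ ?_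
    have := congrArg (algebraMap (𝓞 Ω) Ω) h5
    rwa [map_pow, map_one] at this
  have hm : r * ((P - 1) / r) = P - 1 := Nat.mul_div_cancel' hd
  refine ⟨hd, ?_, fun hπ => ?_⟩
  · rw [Ideal.mem_under, map_sub, map_pow, map_one, ← he0, ← pow_mul, hm]
    exact pow_sub_mem hW.isPrime hP.ne_zero hr.ne_zero (he0 ▸ hη.map _) (by
      have := hs e0
      rwa [hse] at this)
  · rw [Ideal.mem_under, map_sub, map_pow, map_one, ← hp0, ← pow_mul, hm] at hπ
    obtain ⟨a, ha⟩ := root hζ hp hz s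
    have hsp : s • p0 = ζ0 ^ a * p0 := RingOfIntegers.ext ha
    have h4 := hs p0
    have h5 : P = P - 1 + 1 := by have := hP.pos; omega
    have h6 : (ζ0 ^ a - 1) * p0 ∈ W := by
      have h7 := W.add_mem h4 (W.mul_mem_right p0 hπ)
      rw [hsp] at h7
      have h8 : p0 ^ P = p0 ^ (P - 1) * p0 := by rw [← pow_succ, ← h5]
      rwa [h8, show ζ0 ^ a * p0 - p0 ^ (P - 1) * p0 + (p0 ^ (P - 1) - 1) * p0 =
        (ζ0 ^ a - 1) * p0 by ring] at h7
    rcases hW.isPrime.mem_or_mem h6 with h7 | h7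
    · refine hrW (mem_of_root (by rw [← pow_mul, mul_comm, pow_mul, hζ0, one_pow]) ?_ h7)
      intro h8
      rw [h8, one_mul] at hsp
      exact h3 (congrArg (algebraMap (𝓞 Ω) Ω) hsp)
    · have h8 : p0 ^ (P - 1) ∈ W := W.pow_mem_of_mem h7 _ (by have := hP.two_le; omega)
      have h9 := W.sub_mem h8 hπ
      rw [sub_sub_cancel] at h9
      exact hW.ne_top ((Ideal.eq_top_iff_one W).mpr h9)

omit [NumberField K] [IsScalarTower k K Ω] in
theorem exW (hE : U_EX2) [IsGalois k Ω] (g : Gal(Ω/k)) (j : Gal(K/k)) (hj : j * j = 1)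
    (hg : ∀ y, g (algebraMap K Ω y) = algebraMap K Ω (j y)) {p : Ω} (hp : g p ≠ p) {n : ℕ}
    (hn : n ≠ 0) : ∃ W : Ideal (𝓞 Ω), W.IsMaximal ∧ (n : 𝓞 Ω) ∉ W ∧
      (absNorm (W.under (𝓞 k))).Prime ∧ ∃ m : ℕ, IsFrob W (g ^ m) ∧ (g ^ m) p ≠ p ∧
        ∀ y, (g ^ m) (algebraMap K Ω y) = algebraMap K Ω (j y) := by
  let M := IntermediateField.fixedField (Subgroup.zpowers g)
  have hM : ∀ s : Gal(Ω/M), ∃ m : ℕ, g ^ m = s.restrictScalars k := fun s => by
    have h1 : s.restrictScalars k ∈ M.fixingSubgroup :=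
      (IntermediateField.mem_fixingSubgroup_iff _ _).mpr fun x hx => s.commutes ⟨x, hx⟩
    rw [IntermediateField.fixingSubgroup_fixedField, ← mem_powers_iff_mem_zpowers] at h1
    exact h1
  have hM' : ∀ s : Gal(Ω/M), ∃ m : ℕ, ∀ x, s x = (g ^ m) x := fun s => by
    obtain ⟨m, hm⟩ := hM s
    exact ⟨m, fun x => by rw [hm]; rfl⟩
  have hcomm : ∀ s t : Gal(Ω/M), s * t = t * s := fun s t => by
    obtain ⟨a, ha⟩ := hM' s
    obtain ⟨b, hb⟩ := hM' t
    ext x
    rw [AlgEquiv.mul_apply, AlgEquiv.mul_apply, ha, hb, hb, ha, ← AlgEquiv.mul_apply,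
      ← AlgEquiv.mul_apply, pow_mul_comm]
  have hnorm : ∀ H : Subgroup Gal(Ω/M), H.Normal := fun H =>
    ⟨fun a ha b => by rwa [hcomm b a, mul_inv_cancel_right]⟩
  let g' : Gal(Ω/M) := { g.toRingEquiv with
    commutes' := fun y => (IntermediateField.mem_fixedField_iff _ _).mp y.2 g
      (Subgroup.mem_zpowers g) }
  have h2 : MulAction.stabilizer Gal(Ω/M) p ≠ ⊤ := fun h => hp (by
    have : g' ∈ MulAction.stabilizer Gal(Ω/M) p := h ▸ Subgroup.mem_top g'
    exact this)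
  obtain ⟨H1, h1, hH1⟩ : ∃ H1 : Subgroup Gal(Ω/M), H1 ≠ ⊤ ∧
      ∀ s ∉ H1, ∀ y, s (algebraMap K Ω y) = algebraMap K Ω (j y) := by
    by_cases hj1 : j = 1
    · refine ⟨_, h2, fun s _ y => ?_⟩
      obtain ⟨m, hm⟩ := hM' s
      rw [hm, res_pow hg, hj1, one_pow]
    · refine ⟨fixSub M K Ω, fun h => hj1 ?_, fun s hs y => ?_⟩
      · have h3 : g' ∈ fixSub M K Ω := h ▸ Subgroup.mem_top g'
        exact AlgEquiv.ext fun y => (algebraMap K Ω).injective ((hg y).symm.trans (h3 y))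
      · obtain ⟨m, hm⟩ := hM' s
        rcases pow_cases hj m with h3 | h3
        · exact absurd (fun y => by rw [hm, res_pow hg, h3]; rfl) hs
        · rw [hm, res_pow hg, h3]
  obtain ⟨W, hW, hnW, hpr, s, hs, hs1, hs2⟩ := hE M Ω H1 _ n (hnorm _) (hnorm _) h1 h2 hn
  have hN : absNorm (W.under (𝓞 k)) = absNorm (W.under (𝓞 M)) := by
    rw [← Dens.norm_under (F := k) hpr, Ideal.under_under]
  obtain ⟨m, hm⟩ := hM' s
  refine ⟨W, hW, hnW, hN ▸ hpr, m, fun z => ?_, fun h => hs2 ((hm p).trans h),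
    fun y => (hm _).symm.trans (hH1 s hs1 y)⟩
  have h3 : (g ^ m) • z = s • z := RingOfIntegers.ext (hm z).symm
  rw [hN, h3]
  exact hs z

end arith

end UKf

theorem kf : U_EX2 → U_OM → U_CYC → U_KF := by
  intro hE hO hC k K _ _ _ _ _ _ j η π q h n R hj hη hq h0 hπ hn
  obtain ⟨R', hR'⟩ := hC K
  obtain ⟨r, hrb, hr⟩ := Nat.exists_infinite_primes (R + R' + h + Module.finrank k K + 3)
  have hπ0 : π ≠ 0 := fun h1 => by
    rw [h1, Ideal.span_singleton_zero] at hπ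
    exact pow_ne_zero h (Gen.ne_bot hq) hπ.symm
  obtain ⟨φ⟩ : Nonempty (K →+* ℂ) := inferInstance
  have halg : ∀ (z : ℂ) (y : K), z ^ r = φ y → IsAlgebraic ℚ z := fun z y hz =>
    IsAlgebraic.of_pow hr.pos
      (hz ▸ (Algebra.IsAlgebraic.isAlgebraic (R := ℚ) y).algHom φ.toRatAlgHom)
  obtain ⟨e1, he1⟩ := IsAlgClosed.exists_pow_nat_eq (φ (algebraMap k K η)) hr.pos
  obtain ⟨p1, hp1⟩ := IsAlgClosed.exists_pow_nat_eq (φ (algebraMap k K π)) hr.pos
  have hζ1 := Complex.isPrimitiveRoot_exp r hr.ne_zero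
  obtain ⟨Ω, _, _, _, _, _, _, ι, hι, hS⟩ := hO k K φ {_, e1, p1} (Set.toFinite _) (by
    rintro z (rfl | rfl | rfl)
    · exact halg _ 1 (hζ1.pow_eq_one.trans (map_one φ).symm)
    · exact halg _ _ he1
    · exact halg _ _ hp1)
  obtain ⟨ζ, hζ⟩ := hS _ (Or.inl rfl)
  obtain ⟨e, he⟩ := hS e1 (Or.inr (Or.inl rfl))
  obtain ⟨p, hp⟩ := hS p1 (Or.inr (Or.inr rfl))
  have hζ' : IsPrimitiveRoot ζ r := IsPrimitiveRoot.of_map_of_injective (hζ ▸ hζ1) ι.injective
  have hy : e ^ r = algebraMap k Ω η := ι.injective (by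
    rw [map_pow, he, he1, IsScalarTower.algebraMap_apply k K Ω, hι])
  have hz : p ^ r = algebraMap k Ω π := ι.injective (by
    rw [map_pow, hp, hp1, IsScalarTower.algebraMap_apply k K Ω, hι])
  have hne : ∀ (x : Ω) (y : 𝓞 k), y ≠ 0 → x ^ r = algebraMap k Ω y → x ≠ 0 := fun x y hy0 hx h1 => by
    rw [h1, zero_pow hr.ne_zero, eq_comm, map_eq_zero] at hx
    exact hy0 (RingOfIntegers.coe_eq_zero_iff.mp hx)
  have he0 := hne e η hη.ne_zero hy
  have hp0 := hne p π hπ0 hz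
  obtain ⟨g, g1, g2, g3, g4⟩ : ∃ g : Gal(Ω/k), g ζ = ζ ∧ g e = e ∧
      (∀ y, g (algebraMap K Ω y) = algebraMap K Ω (j y)) ∧ g p ≠ p := by
    obtain ⟨g0, a1, a2, a3⟩ := UKf.exA hr (by omega) (hR' r hr (by omega)) hζ' he0 hy j hj
    by_cases hg : g0 p = p
    · obtain ⟨t, b1, b2, b3, b4⟩ :=
        UKf.exB (K := K) hr (by omega) hη hq h0 (by omega) hπ hζ' he0 hp0 hy hz
      refine ⟨t * g0, ?_, ?_, fun y => ?_, ?_⟩
      · rw [AlgEquiv.mul_apply, a1, b1]
      · rw [AlgEquiv.mul_apply, a2, b2]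
      · rw [AlgEquiv.mul_apply, a3, b3]
      · rwa [AlgEquiv.mul_apply, hg]
    · exact ⟨g0, a1, a2, a3, hg⟩
  obtain ⟨W, hW, hnW, hpr, m, hs, hsp, hsj⟩ :=
    UKf.exW hE g j hj g3 g4 (mul_ne_zero hn hr.ne_zero)
  rw [Nat.cast_mul] at hnW
  obtain ⟨c1, c2, c3⟩ := UKf.arith hr hpr hη hζ' hp0 hy hz (g ^ m) (UKf.pow_fix g1 m)
    (UKf.pow_fix g2 m) hsp hW (fun h1 => hnW (W.mul_mem_left _ h1)) hs
  refine ⟨r, W.under (𝓞 K), hr, by omega, inferInstance, fun h1 => hnW ?_, ?_⟩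
  · rw [Ideal.mem_under, map_natCast] at h1
    exact W.mul_mem_right _ h1
  · unfold IsFrob
    rw [Ideal.under_under]
    refine ⟨hpr, fun z => ?_, c1, c2, c3⟩
    have h1 : algebraMap (𝓞 K) (𝓞 Ω) (j • z) = (g ^ m) • algebraMap (𝓞 K) (𝓞 Ω) z :=
      RingOfIntegers.ext (hsj z).symm
    rw [Ideal.mem_under, map_sub, map_pow, h1]
    exact hs _

end Pool.Agent.P.MP_29cb78_nt.D
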