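import Pool.Agent.P.MP_29cb78_nt.D.UIface

/-!
The ray class character attached to a power residue symbol.
-/

namespace Pool.Agent.P.MP_29cb78_nt.D

open NumberField Ideal IsDedekindDomain C E F
open scoped Classical nonZeroDivisors

noncomputable section

namespace UPsiAux

theorem char0 (G : Type) [CommGroup G] [Finite G] [IsCyclic G] {r : ℕ} (hr : r ≠ 0)
    (hd : r ∣ Nat.card G) :
    ∃ c : G →* ℂˣ, (∀ x, c x ^ r = 1) ∧ ∀ x, c x = 1 ↔ x ^ (Nat.card G / r) = 1 := by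
  obtain ⟨g, hg⟩ := IsCyclic.exists_generator (α := G)
  have ho : orderOf g = Nat.card G := orderOf_eq_card_of_forall_mem_zpowers hg
  have hζ := Complex.isPrimitiveRoot_exp r hr
  let z : ℂˣ := (hζ.isUnit hr).unit
  have hz : orderOf z = r := by
    rw [← orderOf_units]
    exact hζ.eq_orderOf.symm
  obtain ⟨m, hm⟩ := hd
  have hm0 : m ≠ 0 := by
    rintro rfl
    exact (Nat.card_pos (α := G)).ne' (by simpa using hm)
  have hdv : orderOf z ∣ orderOf g := ⟨m, by rw [hz, ho, hm]⟩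
  have hc := monoidHomOfForallMemZpowers_apply_gen hg hdv
  refine ⟨monoidHomOfForallMemZpowers hg hdv, fun x => ?_, fun x => ?_⟩
  · obtain ⟨j, rfl⟩ := (mem_powers_iff_mem_zpowers.mpr (hg x) :)
    rw [map_pow, hc, ← pow_mul, mul_comm, pow_mul, ← hz, pow_orderOf_eq_one, one_pow]
  · obtain ⟨j, rfl⟩ := (mem_powers_iff_mem_zpowers.mpr (hg x) :)
    rw [map_pow, hc, ← pow_mul, ← orderOf_dvd_iff_pow_eq_one, ← orderOf_dvd_iff_pow_eq_one, hz,
      ho, hm, Nat.mul_div_cancel_left _ (Nat.pos_of_ne_zero hr),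
      Nat.mul_dvd_mul_iff_right (Nat.pos_of_ne_zero hm0)]

theorem char1 (L : Type) [Field L] [Finite L] {r : ℕ} (hr : r ≠ 0) (hd : r ∣ Nat.card L - 1) :
    ∃ c : L →* ℂ, (∀ x, x ≠ 0 → c x ^ r = 1) ∧
      ∀ x, x ≠ 0 → (c x = 1 ↔ x ^ ((Nat.card L - 1) / r) = 1) := by
  rw [← Nat.card_units] at hd ⊢
  obtain ⟨c, h1, h2⟩ := char0 Lˣ hr hd
  refine ⟨(MulChar.ofUnitHom c).toMonoidHom, fun x hx => ?_, fun x hx => ?_⟩
  · lift x to Lˣ using Ne.isUnit hx
    change (MulChar.ofUnitHom c (x : L)) ^ r = 1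
    rw [MulChar.ofUnitHom_coe, ← Units.val_pow_eq_pow_val, h1, Units.val_one]
  · lift x to Lˣ using Ne.isUnit hx
    change MulChar.ofUnitHom c (x : L) = 1 ↔ _
    rw [MulChar.ofUnitHom_coe, Units.val_eq_one, h2, ← Units.val_pow_eq_pow_val, Units.val_eq_one]

variable {k : Type} [Field k] [NumberField k]

theorem exists_gen (k : Type) [Field k] [NumberField k] :
    ∃ (h : ℕ) (g : Ideal (𝓞 k) → 𝓞 k), h ≠ 0 ∧ ∀ I, span {g I} = I ^ h := by
  have h0 : Nat.card (ClassGroup (𝓞 k)) ≠ 0 := Nat.card_pos.ne'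
  have key : ∀ I : Ideal (𝓞 k), ∃ a, span {a} = I ^ Nat.card (ClassGroup (𝓞 k)) := by
    intro I
    by_cases hI : I = ⊥
    · exact ⟨0, by rw [hI, span_singleton_eq_bot.mpr rfl]; exact (zero_pow h0).symm⟩
    · have h1 : I ∈ (Ideal (𝓞 k))⁰ := mem_nonZeroDivisors_iff_ne_zero.mpr hI
      have h2 : ClassGroup.mk0 ⟨_, pow_mem h1 (Nat.card (ClassGroup (𝓞 k)))⟩ = 1 := by
        rw [← pow_card_eq_one' (x := ClassGroup.mk0 ⟨I, h1⟩), ← map_pow]
        rfl
      obtain ⟨a, ha⟩ := (ClassGroup.mk0_eq_one_iff _).mp h2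
      exact ⟨a, ha.symm⟩
  choose g hg using key
  exact ⟨_, g, h0, hg⟩

theorem exists_fund (hk : Units.rank k = 1) :
    ∃ η : (𝓞 k)ˣ, ∀ u : (𝓞 k)ˣ, ∃ (t : (𝓞 k)ˣ) (m : ℤ),
      t ^ Units.torsionOrder k = 1 ∧ u = t * η ^ m := by
  have : Unique (Fin (Units.rank k)) := by
    rw [hk]
    infer_instance
  refine ⟨Units.fundSystem k default, fun u => ?_⟩
  obtain ⟨⟨t, e⟩, h, -⟩ := Units.exist_unique_eq_mul_prod k u
  refine ⟨t, e default, ?_, by simpa using h⟩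
  have := pow_card_eq_one' (x := t)
  exact congrArg Subtype.val this

end UPsiAux

open UPsiAux

theorem psi0 : U_PSI := by
  intro k _ _ q hk hq
  obtain ⟨h, g, h0, hg⟩ := exists_gen k
  obtain ⟨η, hη⟩ := exists_fund hk
  refine ⟨η, g q, h, Units.torsionOrder k, η.isUnit, h0, hg q, ?_⟩
  intro r Q hr hR hp hπ hd h1 h2
  have hQ : Q.IsMaximal := Dens.max_of_prime hp
  let _ : Field (𝓞 k ⧸ Q) := Ideal.Quotient.field Q
  have : Finite (𝓞 k ⧸ Q) := Ideal.finiteQuotientOfFreeOfNeBot Q (Gen.ne_bot hQ)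
  have hc : absNorm Q = Nat.card (𝓞 k ⧸ Q) := by rw [absNorm_apply, Submodule.cardQuot_apply]
  rw [hc] at hd h1 h2
  obtain ⟨c, c1, c2⟩ := char1 (𝓞 k ⧸ Q) hr.ne_zero hd
  have hmk : ∀ (a : 𝓞 k) (n : ℕ), a ^ n - 1 ∈ Q ↔ Ideal.Quotient.mk Q a ^ n = 1 := fun a n => by
    rw [← Ideal.Quotient.eq, map_pow, map_one]
  let d : 𝓞 k →* ℂ := c.comp (Ideal.Quotient.mk Q).toMonoidHom
  have hd' : ∀ a, d a = c (Ideal.Quotient.mk Q a) := fun _ => rfl
  have hne : ∀ u : (𝓞 k)ˣ, Ideal.Quotient.mk Q (u : 𝓞 k) ≠ 0 := fun u =>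
    (u.isUnit.map _).ne_zero
  have hu : ∀ u : (𝓞 k)ˣ, d u = 1 := by
    intro u
    obtain ⟨t, m, ht, rfl⟩ := hη u
    have e1 : Units.map d η = 1 := Units.ext ((c2 _ (hne η)).mpr ((hmk _ _).mp h1))
    have e2 : Units.map d t = 1 := by
      have a1 : Units.map d t ^ r = 1 := Units.ext (by
        rw [Units.val_pow_eq_pow_val]
        exact c1 _ (hne t))
      have a2 : Units.map d t ^ Units.torsionOrder k = 1 := by rw [← map_pow, ht, map_one]
      have a3 : Nat.Coprime r (Units.torsionOrder k) :=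
        (Nat.coprime_of_lt_prime (Units.torsionOrder_ne_zero k) hR hr)
      have a4 := Nat.dvd_gcd (orderOf_dvd_of_pow_eq_one a1) (orderOf_dvd_of_pow_eq_one a2)
      rwa [a3.gcd_eq_one, Nat.dvd_one, orderOf_eq_one_iff] at a4
    have e3 : Units.map d (t * η ^ m) = 1 := by rw [map_mul, map_zpow, e1, e2, one_zpow, one_mul]
    exact congrArg Units.val e3
  have hass : ∀ a b : 𝓞 k, span {a} = span {b} → d a = d b := by
    intro a b hab
    obtain ⟨u, rfl⟩ := span_singleton_eq_span_singleton.mp hab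
    rw [map_mul, hu, mul_one]
  let ψ : Ideal (𝓞 k) →* ℂ :=
    { toFun := fun I => d (g I)
      map_one' := by
        rw [← map_one d]
        exact hass _ _ (by rw [hg, one_pow, span_singleton_one, one_eq_top])
      map_mul' := fun I J => by
        rw [← map_mul]
        exact hass _ _ (by rw [← span_singleton_mul_span_singleton, hg, hg, hg, mul_pow]) }
  have hψ : ∀ I, ψ I = d (g I) := fun _ => rfl
  refine ⟨ψ, (powMonoidHom h).comp c, fun α => ?_, fun I hI => ?_, fun e => h2 ?_⟩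
  · rw [hψ, hass _ (α ^ h) (by rw [hg, span_singleton_pow]), map_pow]
    rfl
  · refine c1 _ fun e => hQ.ne_top ?_
    have e1 : I ^ h ≤ Q := by
      rw [← hg, span_singleton_le_iff_mem]
      exact Ideal.Quotient.eq_zero_iff_mem.mp e
    have e2 := isCoprime_iff_sup_eq.mp (hI.pow_left (m := h))
    rwa [sup_eq_right.mpr e1] at e2
  · exact (hmk _ _).mpr ((c2 _ fun e => hπ (Ideal.Quotient.eq_zero_iff_mem.mp e)).mp e)

end

end Pool.Agent.P.MP_29cb78_nt.D
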