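import Pool.Agent.P.MP_29cb78_nt.D.UIface

/-!
The primitive points above a point, and grouping a product by the values of a character.
-/

namespace Pool.Agent.P.MP_29cb78_nt.D

open NumberField Ideal IsDedekindDomain C E F
open scoped Classical

noncomputable section

namespace PtsA

variable {k : Type} [Field k]

theorem mem_coe {J : Ideal (𝓞 k)} {j : 𝓞 k} (h : j ∈ J) : Mem J (j : k) := ⟨j, h, rfl⟩

theorem mem_add {J : Ideal (𝓞 k)} {x y : k} (hx : Mem J x) (hy : Mem J y) : Mem J (x + y) := by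
  obtain ⟨a, ha, rfl⟩ := hx
  obtain ⟨b, hb, rfl⟩ := hy
  exact ⟨a + b, J.add_mem ha hb, by simp⟩

theorem mem_mul {J : Ideal (𝓞 k)} (c : 𝓞 k) {x : k} (hx : Mem J x) : Mem J ((c : k) * x) := by
  obtain ⟨a, ha, rfl⟩ := hx
  exact ⟨c * a, J.mul_mem_left c ha, by simp⟩

theorem mem_mul_mul {Q J : Ideal (𝓞 k)} {c : 𝓞 k} (hc : c ∈ Q) {x : k} (hx : Mem J x) :
    Mem (Q * J) ((c : k) * x) := by
  obtain ⟨a, ha, rfl⟩ := hx
  exact ⟨c * a, mul_mem_mul hc ha, by simp⟩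

theorem mem_mono {J J' : Ideal (𝓞 k)} (h : J ≤ J') {x : k} (hx : Mem J x) : Mem J' x := by
  obtain ⟨a, ha, rfl⟩ := hx
  exact ⟨a, h ha, rfl⟩

theorem mem_neg {J : Ideal (𝓞 k)} {x : k} (hx : Mem J x) : Mem J (-x) := by
  obtain ⟨a, ha, rfl⟩ := hx
  exact ⟨-a, J.neg_mem ha, by simp⟩

theorem mem_of_eq {J : Ideal (𝓞 k)} {x y : k} (hx : Mem J x) (h : x = y) : Mem J y := h ▸ hx

theorem of_mem_coe {J : Ideal (𝓞 k)} {j : 𝓞 k} (h : Mem J (j : k)) : j ∈ J := by
  obtain ⟨a, ha, e⟩ := h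
  have : a = j := RingOfIntegers.coe_injective e
  exact this ▸ ha

theorem ad_neg {ρ : k →+* ℝ} {J : Ideal (𝓞 k)} {u : (𝓞 k)ˣ} {N : ℕ} {x : k}
    (h : Ad ρ J u N x) : Ad ρ J u N (-x) :=
  ⟨h.J_ne, h.big, h.N_ne, mem_of_eq (mem_neg h.fix) (by ring),
    mem_of_eq (mem_neg h.tors) (by ring),
    fun hm => h.not_mem (mem_of_eq (mem_neg hm) (by ring))⟩

theorem ad_mul {ρ : k →+* ℝ} {J : Ideal (𝓞 k)} {u u' : (𝓞 k)ˣ} {N : ℕ} {x : k}
    (h : Ad ρ J u N x) (h' : Ad ρ J u' N x) : Ad ρ J (u * u') N x := by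
  refine ⟨h.J_ne, ?_, h.N_ne, ?_, h.tors, h.not_mem⟩
  · have h1 := h.big
    have h2 := h'.big
    have e : ρ (((u * u' : (𝓞 k)ˣ) : 𝓞 k) : k) = ρ (u : 𝓞 k) * ρ (u' : 𝓞 k) := by simp
    rw [e]
    nlinarith
  · refine mem_of_eq (mem_add (mem_mul (u : 𝓞 k) h'.fix) h.fix) ?_
    simp only [Units.val_mul, map_mul, RingOfIntegers.coe_eq_algebraMap]
    ring

theorem ad_pow {ρ : k →+* ℝ} {AL : Fam k} (hI : Inv0 ρ AL) {J : Ideal (𝓞 k)} {u : (𝓞 k)ˣ}
    {N : ℕ} {x : k} (h : Ad ρ J u N x) (m : ℕ) :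
    Ad ρ J (u ^ (m + 1)) N x ∧ AL J (u ^ (m + 1)) N x = AL J u N x ^ (m + 1) := by
  induction m with
  | zero => simpa using h
  | succ m ih =>
    rw [pow_succ u (m + 1), pow_succ _ (m + 1)]
    exact ⟨ad_mul ih.1 h, by rw [hI.chain J _ _ N x ih.1 h, ih.2]⟩

theorem ad_scale {ρ : k →+* ℝ} {J : Ideal (𝓞 k)} {u : (𝓞 k)ˣ} {N : ℕ} {x : k}
    (h : Ad ρ J u N x) {p : ℕ} (hp : p ≠ 0) : Ad ρ J u (N * p) x := by
  refine ⟨h.J_ne, h.big, mul_ne_zero h.N_ne hp, h.fix, ?_, h.not_mem⟩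
  refine mem_of_eq (mem_mul (p : 𝓞 k) h.tors) ?_
  simp only [RingOfIntegers.coe_eq_algebraMap, map_natCast, Nat.cast_mul]
  ring

theorem level {ρ : k →+* ℝ} {AL : Fam k} (hI : Inv0 ρ AL) {J : Ideal (𝓞 k)} {u : (𝓞 k)ˣ}
    {N : ℕ} {x : k} (h : Ad ρ J u N x) {m p : ℕ} (hm : m ≠ 0) (hp : p ≠ 0) :
    Ad ρ J (u ^ m) (N * p) x ∧ AL J (u ^ m) (N * p) x = AL J u N x ^ (p ^ 3 * m) := by
  obtain ⟨m, rfl⟩ := Nat.exists_eq_succ_of_ne_zero hm
  obtain ⟨h1, h2⟩ := ad_pow hI h m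
  refine ⟨ad_scale h1 hp, ?_⟩
  rw [hI.scale J _ N p x h1 hp, h2, ← pow_mul, mul_comm]

variable [NumberField k]

theorem exists_gen {Q J : Ideal (𝓞 k)} (hQ : Q.IsMaximal) (hJ : J ≠ ⊥) :
    ∃ t ∈ J, (∀ c : 𝓞 k, c * t ∈ Q * J → c ∈ Q) ∧ ∀ y ∈ J, ∃ c : 𝓞 k, y - c * t ∈ Q * J := by
  have hlt : ¬ J ≤ Q * J := by
    intro hle
    have h1 : J * Q ∣ J * 1 := by
      rw [mul_one, mul_comm]
      exact dvd_iff_le.2 hle
    have h2 : Q ∣ 1 := (mul_dvd_mul_iff_left hJ).1 h1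
    exact hQ.ne_top (by simpa using isUnit_iff.1 (isUnit_of_dvd_one h2))
  obtain ⟨t, ht, htn⟩ := SetLike.not_le_iff_exists.1 hlt
  refine ⟨t, ht, fun c hc => ?_, fun y hy => ?_⟩
  · by_contra hcn
    obtain ⟨a, q, hq, e⟩ := hQ.exists_inv hcn
    apply htn
    have e' : t = a * (c * t) + q * t := by rw [← mul_assoc, ← add_mul, e, one_mul]
    rw [e']
    exact (Q * J).add_mem ((Q * J).mul_mem_left a hc) (mul_mem_mul hq ht)
  · have hle : span {t} ⊔ Q * J ≤ J :=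
      sup_le ((span_singleton_le_iff_mem J).2 ht) Ideal.mul_le_right
    obtain ⟨I, hI⟩ := dvd_iff_le.2 hle
    have h1 : J * I ∣ J * Q := by
      rw [← hI, mul_comm J Q]
      exact dvd_iff_le.2 le_sup_right
    have h2 : Q ≤ I := dvd_iff_le.1 ((mul_dvd_mul_iff_left hJ).1 h1)
    have h3 : I = ⊤ := by
      by_contra hne
      have h4 := hQ.eq_of_le hne h2
      apply htn
      rw [mul_comm, h4, ← hI]
      exact mem_sup_left (mem_span_singleton_self t)
    rw [h3, mul_top] at hI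
    rw [← hI] at hy
    obtain ⟨a, ha, b, hb, rfl⟩ := Submodule.mem_sup.1 hy
    obtain ⟨c, rfl⟩ := mem_span_singleton'.1 ha
    exact ⟨c, by simpa using hb⟩

omit [NumberField k] in
theorem exists_lift {Q : Ideal (𝓞 k)} (hQ : Q.IsMaximal) :
    ∃ l : Option (𝓞 k ⧸ Q)ˣ → 𝓞 k, l none = 0 ∧
      (∀ h, Ideal.Quotient.mk Q (l (some h)) = h) ∧ (∀ a b, l a - l b ∈ Q → a = b) ∧
      ∀ c : 𝓞 k, ∃ a, c - l a ∈ Q := by
  choose lf hlf using Ideal.Quotient.mk_surjective (I := Q)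
  have : Nontrivial (𝓞 k ⧸ Q) := Ideal.Quotient.nontrivial_iff.2 hQ.ne_top
  refine ⟨fun a => a.elim 0 fun h => lf h, rfl, fun h => hlf _, fun a b hab => ?_, fun c => ?_⟩
  · rw [← Ideal.Quotient.eq] at hab
    rcases a with _ | a <;> rcases b with _ | b
    · rfl
    · simp only [Option.elim, map_zero, hlf] at hab
      exact absurd hab.symm b.ne_zero
    · simp only [Option.elim, map_zero, hlf] at hab
      exact absurd hab a.ne_zero
    · simp only [Option.elim, hlf] at hab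
      rw [Units.ext hab]
  · by_cases hc : c ∈ Q
    · exact ⟨none, by simpa using hc⟩
    · obtain ⟨a, q, hq, e⟩ := hQ.exists_inv hc
      have hu : Ideal.Quotient.mk Q c * Ideal.Quotient.mk Q a = 1 := by
        rw [← map_mul, ← map_one (Ideal.Quotient.mk Q), Ideal.Quotient.eq, ← e]
        simpa [mul_comm] using Q.neg_mem hq
      refine ⟨some (Units.mkOfMulEqOne _ _ hu), ?_⟩
      rw [← Ideal.Quotient.eq]
      simp [hlf]

end PtsA

open PtsA in
theorem pts : U_PTS := by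
  intro k _ _ ρ AL J u N m x κ Q _ hI hA hκ hp _ hρ hκx hm hu
  have hQ : Q.IsMaximal := Dens.max_of_prime hp
  have hκQ : κ ∈ Q := hκ ▸ mem_span_singleton_self κ
  have hQ0 : Q ≠ ⊥ := by
    rintro rfl
    rw [absNorm_bot] at hp
    exact hp.ne_zero rfl
  have hpQ : ((absNorm Q : ℕ) : 𝓞 k) ∈ Q := absNorm_mem Q
  obtain ⟨t, ht, ht1, ht2⟩ := exists_gen hQ hA.J_ne
  obtain ⟨l, hl0, hl1, hl2, hl3⟩ := exists_lift hQ
  have hA0 : Ad ρ (Q * J) u N (κ * x) := by
    refine ⟨mul_ne_zero hQ0 hA.J_ne, hA.big, hA.N_ne,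
      mem_of_eq (mem_mul_mul hκQ hA.fix) (by ring), mem_of_eq (mem_mul_mul hκQ hA.tors) (by ring),
      fun hm => hA.not_mem (mem_of_eq (mem_add (mem_mono Ideal.mul_le_right hm) (mem_neg hκx)) (by ring))⟩
  have hv0 : AL (Q * J) u N (κ * x) = (AL J u N x)⁻¹ := by
    have h1 := hI.hom J u N (-x) (-κ) (ad_neg hA) (by simpa using hρ)
    rw [span_singleton_neg, hκ, hI.neg J u N x hA] at h1
    rw [← h1]
    congr 1
    simp
  obtain ⟨hA1, hv1⟩ := level hI hA hm hp.ne_zero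
  obtain ⟨hA2, hv2⟩ := level hI hA0 hm hp.ne_zero
  set P : Option (𝓞 k ⧸ Q)ˣ → k := fun a => κ * x + (l a * t : 𝓞 k) with hP
  have hPJ : ∀ a, Mem J (P a - x) := fun a =>
    mem_of_eq (mem_add hκx (mem_coe (J.mul_mem_left (l a) ht))) (by simp only [hP]; ring)
  have hPA : ∀ a, Ad ρ (Q * J) (u ^ m) (N * absNorm Q) (P a) := fun a => by
    refine ⟨hA2.J_ne, hA2.big, hA2.N_ne, ?_, ?_,
      fun hm => hA.not_mem (mem_of_eq (mem_add (mem_mono Ideal.mul_le_right hm) (mem_neg (hPJ a)))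
        (by ring))⟩
    · refine mem_of_eq (mem_add hA2.fix (mem_mul_mul hu (mem_coe (J.mul_mem_left (l a) ht)))) ?_
      simp only [hP, RingOfIntegers.coe_eq_algebraMap, map_sub, map_pow, map_one,
        Units.val_pow_eq_pow_val]
      ring
    · refine mem_of_eq (mem_add hA2.tors (mem_mul_mul (Q.mul_mem_left (N : 𝓞 k) hpQ)
        (mem_coe (J.mul_mem_left (l a) ht)))) ?_
      simp only [hP, RingOfIntegers.coe_eq_algebraMap, map_mul, map_natCast, Nat.cast_mul]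
      ring
  have hinj : ∀ a b, Mem (Q * J) ((P a - x) - (P b - x)) → a = b := fun a b h => by
    refine hl2 a b (ht1 _ (of_mem_coe (mem_of_eq h ?_)))
    simp only [hP, RingOfIntegers.coe_eq_algebraMap, map_mul, map_sub]
    ring
  have hT : CReps (Q * J) J (Finset.univ.image fun a => P a - x) := by
    refine ⟨fun τ hτ => ?_, fun τ hτ τ' hτ' h => ?_, fun y hy => ?_⟩
    · obtain ⟨a, -, rfl⟩ := Finset.mem_image.1 hτ
      exact hPJ a
    · obtain ⟨a, -, rfl⟩ := Finset.mem_image.1 hτ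
      obtain ⟨b, -, rfl⟩ := Finset.mem_image.1 hτ'
      rw [hinj a b h]
    · obtain ⟨z, hz, e⟩ := mem_add hy (mem_neg hκx)
      obtain ⟨c, hc⟩ := ht2 z hz
      obtain ⟨a, ha⟩ := hl3 c
      refine ⟨P a - x, Finset.mem_image.2 ⟨a, Finset.mem_univ _, rfl⟩, ?_⟩
      refine mem_of_eq (mem_add (mem_coe hc) (mem_mul_mul ha (mem_coe ht))) ?_
      simp only [hP, RingOfIntegers.coe_eq_algebraMap, map_mul, map_sub] at e ⊢
      rw [e]
      ring
  obtain ⟨n, hn, hd⟩ := hI.dist (Q * J) J (u ^ m) (N * absNorm Q) x _ Ideal.mul_le_right hT hA1 (by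
    intro τ hτ
    obtain ⟨a, -, rfl⟩ := Finset.mem_image.1 hτ
    rw [add_sub_cancel]
    exact hPA a)
  refine ⟨fun h => P (some h), fun h => hPA _, fun δ h h' hδ e => ?_, n, hn, ?_⟩
  · have h1 : δ * l (some h) - l (some h') ∈ Q := by
      rw [← Ideal.Quotient.eq, map_mul, hl1, hl1, e]
    refine mem_of_eq (mem_add (mem_mul_mul hκQ hδ) (mem_mul_mul h1 (mem_coe ht))) ?_
    simp only [hP, RingOfIntegers.coe_eq_algebraMap, map_mul, map_sub]
    ring
  · rw [Finset.prod_image (fun a _ b _ h => hinj a b (by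
      rw [show P a - x = P b - x from h, sub_self]
      exact mem_of_eq (mem_coe (Q * J).zero_mem) (by simp))), Fintype.prod_option] at hd
    simp only [add_sub_cancel] at hd
    have hP0 : P none = κ * x := by simp [hP, hl0]
    rw [hP0, hv2, hv0, hv1, mul_pow] at hd
    have ha : AL J u N x ≠ 0 := hI.ne J u N x hA
    have hb : (AL J u N x ^ (absNorm Q ^ 3 * m)) ^ n ≠ 0 := pow_ne_zero _ (pow_ne_zero _ ha)
    rw [inv_pow, inv_pow, inv_mul_eq_iff_eq_mul₀ hb] at hd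
    rw [hd, ← mul_pow, ← pow_add]
    congr 2
    ring

theorem grp : U_GRP := by
  intro G Ω _ _ _ g β c r hr hβ hg hc hne
  set U : Subgroup G := Subgroup.zpowers g with hU
  have hinv : ∀ s ∈ U, ∀ h, β (s * h) = β h ∧ c (s * h) = c h := by
    intro s hs
    obtain ⟨i, rfl⟩ := (mem_powers_iff_mem_zpowers.2 hs : s ∈ Submonoid.powers g)
    intro h
    refine ⟨?_, by simp [hg]⟩
    induction i with
    | zero => simp
    | succ i ih =>
      show β (g ^ (i + 1) * h) = β h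
      rw [pow_succ', mul_assoc, hβ]
      exact ih (U.pow_mem (Subgroup.mem_zpowers g) i)
  have hcl : ∀ h h' : G, (h : G ⧸ U) = h' → β h = β h' ∧ c h = c h' := by
    intro h h' e
    have := hinv _ (QuotientGroup.eq.1 e) h
    rw [show h⁻¹ * h' * h = h' by rw [mul_comm, mul_inv_cancel_left]] at this
    exact ⟨this.1.symm, this.2.symm⟩
  refine ⟨fun z => ∏ cl : G ⧸ U with c cl.out = z, β cl.out,
    fun z => Finset.prod_ne_zero_iff.2 fun _ _ => hne _, ?_, fun s d hs z => ?_⟩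
  · rw [Finset.prod_fiberwise_of_maps_to (fun cl _ =>
      (Polynomial.mem_nthRootsFinset (Nat.pos_of_ne_zero hr) _).2 (hc _)),
      ← Finset.prod_fiberwise_of_maps_to (s := Finset.univ) (t := Finset.univ)
        (g := fun h : G => (h : G ⧸ U)) (fun _ _ => Finset.mem_univ _), ← Finset.prod_pow]
    refine Finset.prod_congr rfl fun cl _ => ?_
    rw [Finset.prod_congr rfl (g := fun _ => β cl.out) (fun h hh =>
      (hcl h cl.out (by rw [QuotientGroup.out_eq']; exact (Finset.mem_filter.1 hh).2)).1),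
      Finset.prod_const]
    congr 1
    have h1 := MonoidHom.card_fiber_eq_of_mem_range (QuotientGroup.mk' U) (x := cl) (y := 1)
      (QuotientGroup.mk'_surjective U cl) ⟨1, map_one _⟩
    simp only [QuotientGroup.mk'_apply] at h1
    rw [h1, ← Nat.card_zpowers, Nat.card_eq_fintype_card, Fintype.card_subtype]
    congr 1
    ext h
    simp [hU]
  · have hd : c d ≠ 0 := fun h0 => by
      have := hc d
      rw [h0, zero_pow hr] at this
      exact zero_ne_one this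
    have hk : ∀ cl : G ⧸ U, (((d * cl.out : G) : G ⧸ U)) = (((d : G ⧸ U) * cl).out : G) := by
      intro cl
      rw [QuotientGroup.out_eq', QuotientGroup.mk_mul, QuotientGroup.out_eq']
    rw [map_prod]
    refine Finset.prod_equiv (Equiv.mulLeft (d : G ⧸ U)) (fun cl => ?_) fun cl _ => ?_
    · simp only [Finset.mem_filter, Finset.mem_univ, true_and, Equiv.coe_mulLeft]
      rw [← (hcl _ _ (hk cl)).2, map_mul, mul_right_inj' hd]
    · rw [hs, (hcl _ _ (hk cl)).1]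
      rfl

end

end Pool.Agent.P.MP_29cb78_nt.D
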