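import Pool.Agent.P.MP_29cb78_nt.D.UIface

/-!
Valuations of norms, and products over the orbit of a character that is inert at a prime.
-/

namespace Pool.Agent.P.MP_29cb78_nt.D

open NumberField Ideal IsDedekindDomain C E F
open scoped Classical

noncomputable section

namespace URd

theorem count_dvd {K L : Type} [Field K] [Field L] [NumberField K] [NumberField L] [Algebra K L]
    (v : HeightOneSpectrum (𝓞 K)) (r : ℕ)
    (h : ∀ P : Ideal (𝓞 L), P.IsMaximal → P.under (𝓞 K) = v.asIdeal → r ∣ P.inertiaDeg (𝓞 K))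
    (I : Ideal (𝓞 L)) (hI : I ≠ 0) :
    r ∣ (Associates.mk v.asIdeal).count (Associates.mk (relNorm (𝓞 K) I)).factors := by
  have hv := v.associates_irreducible
  induction I using UniqueFactorizationMonoid.induction_on_prime with
  | h₁ => exact absurd rfl hI
  | h₂ x hx =>
    rw [isUnit_iff.mp hx, ← one_eq_top, map_one, Associates.mk_one, Associates.factors_one,
      Associates.count_zero hv]
    exact dvd_zero r
  | h₃ a P ha hP ih =>
    have hPm : P.IsMaximal := (isPrime_of_prime hP).isMaximal hP.ne_zero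
    have hp0 : P.under (𝓞 K) ≠ ⊥ := Gen.ne_bot inferInstance
    have ha0 : relNorm (𝓞 K) a ≠ 0 := fun h0 => ha (relNorm_eq_bot_iff.mp h0)
    have hP0 : relNorm (𝓞 K) P ≠ 0 := fun h0 => hP.ne_zero (relNorm_eq_bot_iff.mp h0)
    rw [map_mul, ← Associates.mk_mul_mk, Associates.count_mul (Associates.mk_ne_zero.mpr hP0)
      (Associates.mk_ne_zero.mpr ha0) hv]
    refine dvd_add ?_ (ih ha)
    rw [relNorm_eq_pow_of_isMaximal P (P.under (𝓞 K)), Associates.mk_pow,
      Associates.count_pow (Associates.mk_ne_zero.mpr hp0) hv]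
    by_cases he : P.under (𝓞 K) = v.asIdeal
    · exact (h P hPm he).mul_right _
    · have hq : Irreducible (Associates.mk (P.under (𝓞 K))) :=
        Associates.irreducible_mk.mpr (prime_of_isPrime hp0 inferInstance).irreducible
      rw [Associates.count_eq_zero_of_ne hv hq fun h' =>
        he (associated_iff_eq.mp (Associates.mk_eq_mk_iff_associated.mp h')).symm, mul_zero]
      exact dvd_zero r

theorem int_dvd {K L : Type} [Field K] [Field L] [NumberField K] [NumberField L] [Algebra K L]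
    (v : HeightOneSpectrum (𝓞 K)) (r : ℕ)
    (h : ∀ P : Ideal (𝓞 L), P.IsMaximal → P.under (𝓞 K) = v.asIdeal → r ∣ P.inertiaDeg (𝓞 K))
    (y : 𝓞 L) (hy : y ≠ 0) :
    (r : ℤ) ∣ WithZero.log (v.valuation K (Algebra.norm K (algebraMap (𝓞 L) L y))) := by
  have h0 : Algebra.intNorm (𝓞 K) (𝓞 L) y ≠ 0 := fun h0 => hy (Algebra.intNorm_eq_zero.mp h0)
  rw [← Algebra.algebraMap_intNorm (A := 𝓞 K) (K := K) (L := L) y]
  erw [HeightOneSpectrum.valuation_of_algebraMap]
  rw [v.intValuation_if_neg h0, WithZero.log_exp, dvd_neg, ← relNorm_singleton]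
  exact_mod_cast count_dvd v r h _ (by simpa using hy)

end URd

theorem nrm : U_NRM := by
  intro K L _ _ _ _ _ v r h y hy
  obtain ⟨a, b, hb, rfl⟩ := IsFractionRing.div_surjective (A := 𝓞 L) y
  have hb0 : b ≠ 0 := nonZeroDivisors.ne_zero hb
  have ha0 : a ≠ 0 := by
    rintro rfl
    simp at hy
  have hn : ∀ c : 𝓞 L, c ≠ 0 → v.valuation K (Algebra.norm K (algebraMap (𝓞 L) L c)) ≠ 0 := by
    intro c hc
    rw [Valuation.ne_zero_iff, Algebra.norm_ne_zero_iff]
    simpa using hc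
  rw [div_eq_mul_inv, map_mul, Algebra.norm_inv, map_mul, map_inv₀,
    WithZero.log_mul (hn a ha0) (inv_ne_zero (hn b hb0)), WithZero.log_inv]
  exact dvd_add (URd.int_dvd v r h a ha0) (dvd_neg.mpr (URd.int_dvd v r h b hb0))

namespace URd

variable {k K L Ω : Type} [Field k] [Field K] [Field L] [Field Ω] [NumberField k] [NumberField K]
  [NumberField L] [NumberField Ω]

set_option linter.deprecated false in
theorem deg_le [Algebra k K] (P : Ideal (𝓞 K)) (hP : P.IsMaximal) :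
    P.inertiaDeg (𝓞 k) ≤ Module.finrank k K := by
  have : NoZeroSMulDivisors (𝓞 k) (𝓞 K) := ⟨fun h => smul_eq_zero.mp h⟩
  rw [← inertiaDeg'_eq_inertiaDeg (P.under (𝓞 k)) P]
  exact inertiaDeg_le_finrank (𝓞 K) k K P (Gen.ne_bot inferInstance)

theorem dvd_deg [Algebra k K] [Algebra k L] [Algebra k Ω] [Algebra K L] [Algebra K Ω]
    [Algebra L Ω] [IsScalarTower k K L] [IsScalarTower k L Ω] [IsScalarTower K L Ω]
    [IsGalois k Ω] (r : ℕ) (χ : Gal(Ω/k) →* ℂ) (v : HeightOneSpectrum (𝓞 K)) (hr : r.Prime)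
    (hd : Module.finrank k K < r)
    (h : ∀ W : Ideal (𝓞 Ω), W.IsMaximal → W.under (𝓞 K) = v.asIdeal →
      ∀ (s : Gal(Ω/k)) (m : ℕ), χ s = 1 →
        (∀ z : 𝓞 Ω, s • z - z ^ absNorm (W.under (𝓞 k)) ^ m ∈ W) → r ∣ m)
    (hL : ∀ s ∈ fixSub k L Ω, χ s = 1) (P : Ideal (𝓞 L)) (hP : P.IsMaximal)
    (hPv : P.under (𝓞 K) = v.asIdeal) : r ∣ P.inertiaDeg (𝓞 K) := by
  obtain ⟨W, hW, hWP⟩ : ∃ W : Ideal (𝓞 Ω), W.IsMaximal ∧ W.LiesOver P :=
    exists_maximal_ideal_liesOver_of_isIntegral P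
  have hWP' : W.under (𝓞 L) = P := (over_def W P).symm
  obtain ⟨s, hs, hf⟩ := ArtEx.exists_frob (k0 := k) (L := L) W hW
  have h1 : W.under (𝓞 K) = v.asIdeal := by rw [← hPv, ← hWP', under_under]
  have h2 : W.under (𝓞 k) = P.under (𝓞 k) := by rw [← hWP', under_under]
  have h3 : r ∣ P.inertiaDeg (𝓞 k) := by
    refine h W hW h1 s _ (hL s hs) fun z => ?_
    rw [h2, absNorm_pow_inertiaDeg (P.under (𝓞 k)) P, ← hWP']
    exact hf z
  rw [inertiaDeg_tower (R := 𝓞 k) (P.under (𝓞 K)) P] at h3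
  refine ((Nat.Prime.dvd_mul hr).mp h3).resolve_left fun h4 => ?_
  have h5 := Nat.le_of_dvd (inertiaDeg_pos _ _) h4
  have h6 := deg_le (k := k) (P.under (𝓞 K)) inferInstance
  omega

end URd

theorem rd : U_RD := by
  intro k K Ω _ _ _ _ _ _ _ _ _ _ _ r χ v Y hr hd hχ h hY hs
  have : IsGalois K Ω := IsGalois.tower_top_of_isGalois k K Ω
  let ψ : Gal(Ω/K) →* ℂ :=
    { toFun := fun g => χ (g.restrictScalars k)
      map_one' := map_one χ
      map_mul' := fun a b => map_mul χ (a.restrictScalars k) (b.restrictScalars k) }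
  have hψ : ∀ (g : Gal(Ω/K)) (z : ℂ), g (Y z) = Y (ψ g * z) := fun g z =>
    hs (g.restrictScalars k) g.commutes z
  let L := IntermediateField.fixedField ψ.ker
  have hker : ∀ g : Gal(Ω/K), (∀ y : L, g y = y) ↔ ψ g = 1 := fun g => by
    rw [← MonoidHom.mem_ker, ← IntermediateField.fixingSubgroup_fixedField ψ.ker,
      IntermediateField.mem_fixingSubgroup_iff]
    exact ⟨fun hg x hx => hg ⟨x, hx⟩, fun hg y => hg y y.2⟩
  have hL : ∀ s ∈ fixSub k L Ω, χ s = 1 := fun s hs' =>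
    (hker { s.toRingEquiv with commutes' := fun y => hs' (algebraMap K L y) }).mp hs'
  have : IsScalarTower k L Ω := IsScalarTower.of_algebraMap_eq fun _ => rfl
  have hdeg := URd.dvd_deg (L := L) r χ v hr hd h hL
  have hy : Y 1 ∈ L := fun g => by
    have h1 := hψ g 1
    rw [MonoidHom.mem_ker.mp g.2, one_mul] at h1
    exact h1
  have hy0 : (⟨Y 1, hy⟩ : L) ≠ 0 := fun h0 => hY 1 (congrArg Subtype.val h0)
  refine ⟨Algebra.norm K (⟨Y 1, hy⟩ : L), ?_, nrm K L v r hdeg _ hy0⟩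
  have hlift : ∀ (g : Gal(L/K)) (y : L), g.liftNormal Ω y = (g y : L) := fun g y =>
    g.liftNormal_commutes Ω y
  have hinj : Function.Injective fun g : Gal(L/K) => ψ (g.liftNormal Ω) := by
    intro a b hab
    have h1 : ψ ((a.liftNormal Ω)⁻¹ * b.liftNormal Ω) = 1 := by
      have hab' : ψ (a.liftNormal Ω) = ψ (b.liftNormal Ω) := hab
      rw [map_mul, ← hab', ← map_mul, inv_mul_cancel, map_one]
    ext y
    have h2 := congrArg (a.liftNormal Ω) ((hker _).mpr h1 y)
    rw [← AlgEquiv.mul_apply, mul_inv_cancel_left, hlift, hlift] at h2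
    exact h2.symm
  have hmem : ∀ g : Gal(L/K), ψ (g.liftNormal Ω) ∈ Polynomial.nthRootsFinset r (1 : ℂ) :=
    fun g => (Polynomial.mem_nthRootsFinset hr.pos 1).mpr (hχ _)
  have hcard : (Polynomial.nthRootsFinset r (1 : ℂ)).card ≤
      (Finset.univ : Finset Gal(L/K)).card := by
    have hv := v.isMaximal
    obtain ⟨P, hP, hPv⟩ : ∃ P : Ideal (𝓞 L), P.IsMaximal ∧ P.LiesOver v.asIdeal :=
      exists_maximal_ideal_liesOver_of_isIntegral v.asIdeal
    rw [(Complex.isPrimitiveRoot_exp r hr.ne_zero).card_nthRootsFinset, Finset.card_univ,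
      ← Nat.card_eq_fintype_card, IsGalois.card_aut_eq_finrank]
    exact (Nat.le_of_dvd (inertiaDeg_pos _ _) (hdeg P hP (over_def P v.asIdeal).symm)).trans
      (URd.deg_le P hP)
  rw [IsScalarTower.algebraMap_apply K L Ω, Algebra.norm_eq_prod_automorphisms, map_prod]
  refine Finset.prod_bij (fun g _ => ψ (g.liftNormal Ω)) (fun g _ => hmem g)
    (fun a _ b _ hab => hinj hab) (fun z hz => ?_) fun g _ => ?_
  · obtain ⟨g, hg, he⟩ := Finset.surj_on_of_inj_on_of_card_le
      (fun (g : Gal(L/K)) (_ : g ∈ Finset.univ) => ψ (g.liftNormal Ω)) (fun g _ => hmem g)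
      (fun a b _ _ hab => hinj hab) hcard z hz
    exact ⟨g, hg, he.symm⟩
  · have h1 := hψ (g.liftNormal Ω) 1
    rw [mul_one] at h1
    rw [← h1]
    exact (hlift g ⟨Y 1, hy⟩).symm

end

end Pool.Agent.P.MP_29cb78_nt.D
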