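import Pool.Agent.P.MP_29cb78_nt.D.UIface

/-!
Elementary properties of admissible data and of shifts.
-/

namespace Pool.Agent.P.MP_29cb78_nt

open NumberField Ideal IsDedekindDomain C E F D
open scoped Classical

noncomputable section

variable {k : Type} [Field k] {ρ : k →+* ℝ} {I J : Ideal (𝓞 k)} {u : (𝓞 k)ˣ} {N : ℕ} {x y : k}

namespace F

theorem mem_coe {a : 𝓞 k} : Mem J a ↔ a ∈ J :=
  ⟨fun ⟨_, hj, h⟩ => RingOfIntegers.ext h ▸ hj, fun h => ⟨a, h, rfl⟩⟩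

theorem Mem.zero : Mem J 0 := ⟨0, J.zero_mem, rfl⟩

theorem Mem.add (hx : Mem J x) (hy : Mem J y) : Mem J (x + y) := by
  obtain ⟨a, ha, rfl⟩ := hx
  obtain ⟨b, hb, rfl⟩ := hy
  exact ⟨a + b, J.add_mem ha hb, rfl⟩

theorem Mem.neg (hx : Mem J x) : Mem J (-x) := by
  obtain ⟨a, ha, rfl⟩ := hx
  exact ⟨-a, J.neg_mem ha, rfl⟩

theorem Mem.sub (hx : Mem J x) (hy : Mem J y) : Mem J (x - y) := by
  rw [sub_eq_add_neg]
  exact hx.add hy.neg

theorem Mem.smul (hx : Mem J x) (c : 𝓞 k) : Mem J (c * x) := by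
  obtain ⟨a, ha, rfl⟩ := hx
  exact ⟨c * a, J.mul_mem_left c ha, rfl⟩

theorem Mem.mono (hx : Mem I x) (h : I ≤ J) : Mem J x := by
  obtain ⟨a, ha, rfl⟩ := hx
  exact ⟨a, h ha, rfl⟩

theorem Mem.mul_mem (hx : Mem J x) {c : 𝓞 k} (hc : c ∈ I) : Mem (I * J) (c * x) := by
  obtain ⟨a, ha, rfl⟩ := hx
  exact ⟨c * a, Ideal.mul_mem_mul hc ha, rfl⟩

theorem Mem.congr (hx : Mem J x) (h : y = x) : Mem J y := h ▸ hx

theorem mem_span_mul {α : 𝓞 k} (hα : α ≠ 0) : Mem (span {α} * J) (α * x) ↔ Mem J x := by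
  refine ⟨fun ⟨a, ha, h⟩ => ?_, fun h => h.mul_mem (mem_span_singleton_self α)⟩
  obtain ⟨b, hb, rfl⟩ := mem_span_singleton_mul.mp ha
  refine ⟨b, hb, mul_left_cancel₀ (a := (α : k)) (by exact_mod_cast hα) ?_⟩
  rw [← h]
  rfl

theorem Mem.of_cop (hI : IsCoprime I (span {(N : 𝓞 k)})) (h1 : Mem J y)
    (h2 : Mem (I * J) (N * y)) : Mem (I * J) y := by
  obtain ⟨a, ha, b, hb, hab⟩ := isCoprime_iff_exists.mp hI
  obtain ⟨c, rfl⟩ := mem_span_singleton'.mp hb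
  refine ((h1.mul_mem ha).add (h2.smul c)).congr ?_
  have : ((a + c * N : 𝓞 k) : k) = 1 := by rw [hab]; rfl
  push_cast at this
  linear_combination (-y) * this

theorem Ad.congr (h : Ad ρ J u N x) (hy : Mem J (y - x)) : Ad ρ J u N y := by
  refine ⟨h.J_ne, h.big, h.N_ne, ?_, ?_, fun h' => h.not_mem ((h'.sub hy).congr (by ring))⟩
  · refine (h.fix.add (hy.smul ((u : 𝓞 k) - 1))).congr ?_
    push_cast
    ring
  · refine (h.tors.add (hy.smul (N : 𝓞 k))).congr ?_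
    push_cast
    ring

theorem Ad.neg (h : Ad ρ J u N x) : Ad ρ J u N (-x) :=
  ⟨h.J_ne, h.big, h.N_ne, h.fix.neg.congr (by ring), h.tors.neg.congr (by ring),
    fun h' => h.not_mem (h'.neg.congr (by ring))⟩

theorem ad_span_mul {α : 𝓞 k} (hα : α ≠ 0) :
    Ad ρ (span {α} * J) u N (α * x) ↔ Ad ρ J u N x := by
  constructor
  · intro h
    refine ⟨fun h0 => h.J_ne (by rw [h0, mul_bot]), h.big, h.N_ne,
      (mem_span_mul hα).mp (h.fix.congr (by ring)), (mem_span_mul hα).mp (h.tors.congr (by ring)),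
      fun h' => h.not_mem ((mem_span_mul hα).mpr h')⟩
  · intro h
    exact ⟨mul_ne_zero (by simpa using hα) h.J_ne, h.big, h.N_ne,
      ((mem_span_mul hα).mpr h.fix).congr (by ring), ((mem_span_mul hα).mpr h.tors).congr (by ring),
      fun h' => h.not_mem ((mem_span_mul hα).mp h')⟩

theorem Ad.of_mul (h : Ad ρ (I * J) u N x) (hI : IsCoprime I (span {(N : 𝓞 k)})) :
    Ad ρ J u N x :=
  ⟨fun h0 => h.J_ne (by rw [h0, mul_bot]), h.big, h.N_ne, h.fix.mono mul_le_right,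
    h.tors.mono mul_le_right, fun h' => h.not_mem (h'.of_cop hI h.tors)⟩

/-- Every admissible point modulo `J` lifts to an admissible point modulo `I * J`. -/
theorem Ad.lift (h : Ad ρ J u N x) (h0 : I ≠ ⊥) (hI : IsCoprime I (span {(N : 𝓞 k)})) :
    ∃ c ∈ I, Mem J (c * x - x) ∧ Ad ρ (I * J) u N (c * x) := by
  obtain ⟨a, ha, b, hb, hab⟩ := isCoprime_iff_exists.mp hI
  obtain ⟨c, rfl⟩ := mem_span_singleton'.mp hb
  have h1 : Mem J (a * x - x) := by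
    refine (h.tors.smul c).neg.congr ?_
    have : ((a + c * N : 𝓞 k) : k) = 1 := by rw [hab]; rfl
    push_cast at this
    linear_combination x * this
  refine ⟨a, ha, h1, mul_ne_zero h0 h.J_ne, h.big, h.N_ne, (h.fix.mul_mem ha).congr (by ring),
    (h.tors.mul_mem ha).congr (by ring), fun h' => h.not_mem ?_⟩
  exact ((h'.mono mul_le_right).sub h1).congr (by ring)

theorem Ad.scale (h : Ad ρ J u N x) {N' : ℕ} (hN : N' ≠ 0) : Ad ρ J u (N * N') x :=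
  ⟨h.J_ne, h.big, mul_ne_zero h.N_ne hN, h.fix, (h.tors.smul (N' : 𝓞 k)).congr (by
    push_cast; ring), h.not_mem⟩

theorem Ad.pow (h : Ad ρ J u N x) {m : ℕ} (hm : m ≠ 0) : Ad ρ J (u ^ m) N x := by
  refine ⟨h.J_ne, ?_, h.N_ne, ?_, h.tors, h.not_mem⟩
  · have h1 := h.big
    have h2 : ρ ((u ^ m : (𝓞 k)ˣ) : 𝓞 k) = ρ (u : 𝓞 k) ^ m := by
      rw [← map_pow]
      congr 1
    rw [h2]
    exact h1.trans_le (le_self_pow₀ (by linarith) hm)
  · obtain ⟨c, hc⟩ := sub_one_dvd_pow_sub_one (u : 𝓞 k) m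
    refine (h.fix.smul c).congr ?_
    have h3 := congrArg (fun z : 𝓞 k => (z : k)) hc
    push_cast at h3 ⊢
    rw [h3]
    ring

theorem Inv0.pow {AL : Fam k} (hI : Inv0 ρ AL) (h : Ad ρ J u N x) {m : ℕ} (hm : m ≠ 0) :
    AL J (u ^ m) N x = AL J u N x ^ m := by
  induction m, Nat.one_le_iff_ne_zero.mpr hm using Nat.le_induction with
  | base => rw [pow_one, pow_one]
  | succ m h1 ih =>
    rw [pow_succ, hI.chain J _ _ N x (h.pow (by omega)) h, ih (by omega), pow_succ]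

theorem ne_zero_of_pos {α : 𝓞 k} (h : 0 < ρ α) : α ≠ 0 := by
  rintro rfl
  simp at h

end F

namespace D

variable {K Ω : Type} [Field K] [Field Ω] [NumberField k] [Algebra k K] [Algebra k Ω]
  [Algebra K Ω] {AL : Fam k} {ι : Ω →+* ℂ} {f a b : Ideal (𝓞 k)}
  {art : Ideal (𝓞 k) → Gal(K/k)} {s t : Gal(Ω/k)}

theorem ArtD.top (h : ArtD ρ f art) : art ⊤ = 1 := by
  have := h.mul ⊤ ⊤ top_ne_bot top_ne_bot
  rw [top_mul] at this
  exact mul_eq_left.mp this.symm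

omit [NumberField k] in
theorem Sh0.one : Sh0 ρ AL ι u N 1 ⊤ := fun J x z _ hz => by
  rw [top_mul] at hz
  exact hz

omit [NumberField k] in
theorem Sh0.mul (hs : Sh0 ρ AL ι u N s a) (ht : Sh0 ρ AL ι u N t b)
    (hb : IsCoprime b (span {(N : 𝓞 k)})) : Sh0 ρ AL ι u N (s * t) (a * b) := by
  intro J x z h hz
  rw [mul_comm a b, mul_assoc] at h hz
  exact hs J x _ (h.of_mul hb) (ht _ x z h hz)

theorem Sh.one (h : ArtD ρ f art) : Sh ρ AL art ι u N 1 ⊤ :=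
  ⟨Sh0.one, fun y => by rw [h.top]; rfl⟩

theorem Sh.mul (h : ArtD ρ f art) (hs : Sh ρ AL art ι u N s a) (ht : Sh ρ AL art ι u N t b)
    (ha0 : a ≠ ⊥) (hb0 : b ≠ ⊥) (hb : IsCoprime b (span {(N : 𝓞 k)})) :
    Sh ρ AL art ι u N (s * t) (a * b) :=
  ⟨hs.1.mul ht.1 hb, fun y => by
    rw [AlgEquiv.mul_apply, ht.2, hs.2, h.mul a b ha0 hb0, AlgEquiv.mul_apply]⟩

omit [NumberField k] in
/-- The shift by a principal ideal is the multiplication by a positive generator. -/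
theorem Sh0.principal (hI : Inv0 ρ AL) {δ : 𝓞 k} (hδ : 0 < ρ δ)
    (hs : Sh0 ρ AL ι u N s (span {δ})) (h : Ad ρ J u N x) {z : Ω} (hz : ι z = AL J u N x) :
    ι (s z) = AL J u N (δ * x) :=
  hs J _ z ((ad_span_mul (ne_zero_of_pos hδ)).mpr h) (hz.trans (hI.hom J u N x δ h hδ).symm)

omit [NumberField k] in
theorem cop_of_dvd {m n : ℕ} (h : m ∣ n) (ha : Cop n a) : Cop m a :=
  ⟨ha.1, ha.2.of_isCoprime_of_dvd_right (by
    obtain ⟨c, rfl⟩ := h
    exact ⟨span {(c : 𝓞 k)}, by rw [span_singleton_mul_span_singleton, Nat.cast_mul]⟩)⟩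

theorem cop_ideal {n : ℕ} (ha : Cop n a) (hn : (n : 𝓞 k) ∈ f) : IsCoprime a f :=
  ha.2.of_isCoprime_of_dvd_right (dvd_span_singleton.mpr hn)

omit [NumberField k] in
theorem cop_mul {n : ℕ} (ha : Cop n a) (hb : Cop n b) : Cop n (a * b) :=
  ⟨mul_ne_zero ha.1 hb.1, ha.2.mul_left hb.2⟩

theorem cop_max {n : ℕ} (hP : a.IsMaximal) (hn : (n : 𝓞 k) ∉ a) : Cop n a := by
  refine ⟨Gen.ne_bot hP, ?_⟩
  rw [isCoprime_iff_sup_eq]
  exact hP.out.2 _ (lt_of_le_of_ne le_sup_left fun h => hn (by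
    rw [h]; exact mem_sup_right (mem_span_singleton_self _)))

/-- An automorphism that fixes `K` acts as the shift by a principal ideal of the narrow ray. -/
theorem Sh.ray (h : ArtD ρ f art) (hs : Sh ρ AL art ι u N s a) (ha0 : a ≠ ⊥) (ha : IsCoprime a f)
    (hK : s ∈ fixSub k K Ω) : ∃ δ : 𝓞 k, δ - 1 ∈ f ∧ 0 < ρ δ ∧ span {δ} = a := by
  refine (h.ker a ha0 ha).mp (AlgEquiv.ext fun y => (algebraMap K Ω).injective ?_)
  rw [← hs.2, hK y]
  rfl

end D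

end

end Pool.Agent.P.MP_29cb78_nt
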