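import Pool.Agent.P.MP_29cb78_nt.D.UDens
import Pool.Agent.P.MP_29cb78_nt.D.UBasic
import Pool.Agent.P.MP_29cb78_nt.D.Sig

/-!
A Galois character of odd prime order that agrees with a ray class character at half of the
primes is inert where the ray class character is not trivial.
-/

namespace Pool.Agent.P.MP_29cb78_nt.D

open NumberField Ideal C Filter Topology Gen
open scoped Classical Pointwise

noncomputable section

namespace UTheta

theorem dens_le_add {L : Type} [Field L] [NumberField L] {A B D : Set (Ideal (𝓞 L))}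
    (hB : ∀ P ∈ B, P.IsMaximal) (hD : ∀ P ∈ D, P.IsMaximal) (h : A ⊆ B ∪ D) {a b d : ℝ}
    (ha : HasDens A a) (hb : HasDens B b) (hd : DensLe D d) : a ≤ b + d := by
  refine le_of_forall_pos_le_add fun ε hε => ?_
  rw [add_assoc]
  refine le_of_tendsto_of_tendsto ha (hb.add_const (d + ε)) ?_
  filter_upwards [self_mem_nhdsWithin, tendsto_log.eventually_gt_atTop 0, hd ε hε] with s hs hl h1
  refine le_trans (div_le_div_of_nonneg_right (psum_le A B D hB hD h hs) hl.le) ?_
  rw [add_div]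
  exact add_le_add le_rfl h1

variable {k E : Type} [Field k] [Field E] [NumberField k] [NumberField E] [Algebra k E]
  [IsGalois k E]

theorem norm_cong {p : ℕ} (hp : p ≠ 0) {α : 𝓞 E} (h : α - 1 ∈ span {(p : 𝓞 E)}) :
    Algebra.intNorm (𝓞 k) (𝓞 E) α - 1 ∈ span {(p : 𝓞 k)} := by
  have h1 : algebraMap (𝓞 k) (𝓞 E) (Algebra.intNorm (𝓞 k) (𝓞 E) α) = ∏ g : Gal(E/k), g • α := by
    apply IsFractionRing.injective (𝓞 E) E
    have := Algebra.algebraMap_intNorm (A := 𝓞 k) (K := k) (L := E) α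
    rw [← IsScalarTower.algebraMap_apply, IsScalarTower.algebraMap_apply (𝓞 k) k E, this,
      Algebra.norm_eq_prod_automorphisms, map_prod]
    rfl
  have h2 : ∏ g : Gal(E/k), g • α - 1 ∈ span {(p : 𝓞 E)} := by
    rw [← Ideal.Quotient.eq, map_prod, map_one]
    refine Finset.prod_eq_one fun g _ => ?_
    rw [← map_one (Ideal.Quotient.mk (span {(p : 𝓞 E)})), Ideal.Quotient.eq]
    obtain ⟨c, hc⟩ := mem_span_singleton'.mp h
    refine mem_span_singleton'.mpr ⟨g • c, ?_⟩
    have := congrArg (fun z => g • z) hc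
    have h0 : g • (p : 𝓞 E) = p := map_natCast (MulSemiringAction.toRingHom _ (𝓞 E) g) p
    simpa [smul_sub, h0] using this
  obtain ⟨c, hc⟩ := mem_span_singleton'.mp h2
  set y : k := ((Algebra.intNorm (𝓞 k) (𝓞 E) α - 1 : 𝓞 k) : k) / p with hy
  have hp' : (p : k) ≠ 0 := Nat.cast_ne_zero.mpr hp
  have hpE : (p : E) ≠ 0 := Nat.cast_ne_zero.mpr hp
  have h3 : algebraMap k E y = c := by
    rw [hy, map_div₀, map_natCast, div_eq_iff hpE]
    have := congrArg (algebraMap (𝓞 E) E) hc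
    rw [← h1, map_mul, map_natCast, ← map_one (algebraMap (𝓞 k) (𝓞 E)), ← map_sub,
      ← IsScalarTower.algebraMap_apply] at this
    exact this.symm
  have h4 : IsIntegral ℤ y := by
    rw [← isIntegral_algebraMap_iff (algebraMap k E).injective, h3]
    exact c.isIntegral_coe
  refine mem_span_singleton'.mpr ⟨⟨y, h4⟩, RingOfIntegers.ext ?_⟩
  change y * p = _
  rw [hy, div_mul_cancel₀ _ hp']

theorem cop_norm {p : ℕ} (hp : p ≠ 0) {I : Ideal (𝓞 E)} (h : Cop p I) :
    Cop p (relNorm (𝓞 k) I) := by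
  refine ⟨fun h0 => h.1 (relNorm_eq_bot_iff.mp h0), ?_⟩
  obtain ⟨a, ha, b, hb, hab⟩ := isCoprime_iff_exists.mp h.2
  refine isCoprime_iff_exists.mpr ⟨_, intNorm_mem_spanNorm (𝓞 k) ha,
    -(Algebra.intNorm (𝓞 k) (𝓞 E) a - 1), neg_mem (norm_cong hp ?_), by ring⟩
  rw [← hab]
  simpa using hb

end UTheta

open UTheta in
theorem theta : U_THETA := by
  intro k Ω _ _ _ _ _ _ r p n χ ψ H0 hr h2r hp hn hH0 hχ hray hpow hfr W hW hpW hψ s m hs hsm
  let E := IntermediateField.fixedField χ.ker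
  have hfix : ∀ g : Gal(Ω/k), g ∈ fixSub k E Ω ↔ χ g = 1 := fun g => by
    rw [← MonoidHom.mem_ker, ← IntermediateField.fixingSubgroup_fixedField χ.ker,
      IntermediateField.mem_fixingSubgroup_iff]
    exact ⟨fun hg x hx => hg ⟨x, hx⟩, fun hg y => hg y y.2⟩
  let θ : Ideal (𝓞 E) →* ℂ := ψ.comp (relNorm (𝓞 k) : Ideal (𝓞 E) →*₀ Ideal (𝓞 k))
  have hθ : ∀ I, θ I = ψ (relNorm (𝓞 k) I) := fun _ => rfl
  have hmax : ∀ P : Ideal (𝓞 E), P.IsMaximal →
      θ P = ψ (P.under (𝓞 k)) ^ P.inertiaDeg (𝓞 k) := fun P hP => by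
    rw [hθ, relNorm_eq_pow_of_isMaximal P (P.under (𝓞 k)), map_pow]
  have htriv : ∀ I, Cop p I → θ I = 1 := by
    by_contra hne
    push Not at hne
    have d1 := sig_prime E p r θ hp hr
      (fun α h0 h1 => by
        rw [hθ, relNorm_singleton]
        exact hray _ (by simpa using h0) (norm_cong hp h1))
      (fun I hI => hpow _ (cop_norm hp hI)) hne
    let res : Gal(Ω/E) →* Gal(Ω/k) :=
      { toFun := fun g => g.restrictScalars k, map_one' := rfl, map_mul' := fun _ _ => rfl }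
    have : H0.Normal := Subgroup.normal_of_index_eq_two hH0
    have hH : H0.comap res ≠ ⊤ := by
      intro htop
      obtain ⟨g, hg⟩ : ∃ g, g ∉ H0 := by
        by_contra h
        push Not at h
        rw [(Subgroup.eq_top_iff' H0).mpr h, Subgroup.index_top] at hH0
        omega
      have h1 : g ^ r ∈ fixSub k E Ω := (hfix _).mpr (by rw [map_pow, hχ])
      have h2 : g ^ r ∈ H0 := (htop ▸ Subgroup.mem_top (toAut _ h1) : toAut _ h1 ∈ H0.comap res)
      obtain ⟨i, hi⟩ := hr.odd_of_ne_two (by omega)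
      rw [hi, pow_succ, pow_mul, H0.mul_mem_cancel_left
        (H0.pow_mem (Subgroup.sq_mem_of_index_two hH0 g) i)] at h2
      exact hg h2
    have d0 := Ex2.dens_deg_one (fun P hP => hP.1)
      (dens0 E Ω ⊤ (n * p) inferInstance (mul_ne_zero hn hp))
    have d2 := dens0 E Ω (H0.comap res) (n * p) inferInstance (mul_ne_zero hn hp)
    have h3 := dens_le_add (fun P hP => hP.1) (fun P hP => hP.1) (by
      rintro P ⟨⟨hP, hnP, Q, hQ, rfl, g, -, hg⟩, hpr⟩
      by_cases h : g ∈ H0.comap res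
      · exact Or.inl ⟨hP, hnP, Q, hQ, rfl, g, h, hg⟩
      refine Or.inr ⟨hP, fun h' => hnP (by rw [Nat.cast_mul]; exact mul_mem_left _ _ h'), ?_⟩
      have hu : (Q.under (𝓞 E)).under (𝓞 k) = Q.under (𝓞 k) := Ideal.under_under Q
      have hN : absNorm (Q.under (𝓞 k)) = absNorm (Q.under (𝓞 E)) := by
        rw [← hu, Dens.norm_under hpr]
      rw [hmax _ hP, hu, hfr Q hQ (fun h' => hnP ?_) (hN ▸ hpr) (res g) (fun z => ?_) h,
        (hfix (res g)).mp fun y => g.commutes y, one_pow]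
      · rw [Ideal.mem_under, map_natCast, Nat.cast_mul]
        exact mul_mem_right _ _ h'
      · rw [hN]
        exact hg z) d0 d2 d1
    have hc : (0 : ℝ) < Nat.card Gal(Ω/E) := by exact_mod_cast Nat.card_pos
    rw [Subgroup.card_top, div_self hc.ne'] at h3
    have h4 := Ex2.card_le_half hH
    have h5 : (1 : ℝ) / r < 1 / 2 := one_div_lt_one_div_of_lt (by norm_num) (by exact_mod_cast h2r)
    linarith
  have hP : (W.under (𝓞 E)).IsMaximal := inferInstance
  have hu : (W.under (𝓞 E)).under (𝓞 k) = W.under (𝓞 k) := Ideal.under_under W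
  have h1 := htriv _ (cop_max hP fun h => hpW (by rwa [Ideal.mem_under, map_natCast] at h))
  rw [hmax _ hP, hu] at h1
  have h2 := hpow _ (cop_max (a := W.under (𝓞 k)) inferInstance
    fun h => hpW (by rwa [Ideal.mem_under, map_natCast] at h))
  have h3 : r ∣ (W.under (𝓞 E)).inertiaDeg (𝓞 k) := by
    by_contra h
    exact hψ ((pow_eq_one_iff_of_coprime ((hr.coprime_iff_not_dvd).mpr h)).mp ⟨h2, h1⟩)
  have h4 : 2 ≤ absNorm (W.under (𝓞 k)) := Dens.two_le inferInstance
  have h5 := Art1.norm_sub_one_dvd (W.under (𝓞 E)) hP (absNorm (W.under (𝓞 k)) ^ m)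
    (by positivity) fun y => by
      have := hsm (algebraMap (𝓞 E) (𝓞 Ω) y)
      rw [Art1.smul_algebraMap ((hfix s).mpr hs), ← map_pow, ← map_sub] at this
      exact this
  have : (W.under (𝓞 E)).LiesOver (W.under (𝓞 k)) := ⟨hu.symm⟩
  rw [← absNorm_pow_inertiaDeg (W.under (𝓞 k)) (W.under (𝓞 E))] at h5
  exact h3.trans (Art1.dvd_of_pow_sub_one h4 h5)

end

end Pool.Agent.P.MP_29cb78_nt.D
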