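import Pool.Agent.P.MP_29cb78_nt.D.UUnit
import Pool.Agent.P.MP_29cb78_nt.D.UFrame
import Pool.Agent.P.MP_29cb78_nt.D.UTheta
import Pool.Agent.P.MP_29cb78_nt.D.UCyc
import Pool.Agent.P.MP_29cb78_nt.D.UFin
import Pool.Agent.P.MP_29cb78_nt.D.UGood
import Pool.Agent.P.MP_29cb78_nt.D.UKf
import Pool.Agent.P.MP_29cb78_nt.D.UPsi
import Pool.Agent.P.MP_29cb78_nt.D.UPts
import Pool.Agent.P.MP_29cb78_nt.D.URd

/-!
The Galois action on the invariants and the unit property hold.
-/

namespace Pool.Agent.P.MP_29cb78_nt.D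

theorem sh_all : U_SH := sh good0 fin0 alg0

theorem ink_all : U_INK := ink good0 fin0 alg0

theorem comm_all : U_COMM := comm good0 fin0 alg0

theorem algv_all : U_ALGV := algv good0 alg0

theorem frame_all : U_FRAME := frame good0 fin0 alg0

theorem unit_all : U_UNIT :=
  unit0 frame_all ink_all (kf ex2 om cyc0) psi0 theta rd pts grp

end Pool.Agent.P.MP_29cb78_nt.D
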