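import Pool.Agent.P.MP_29cb78_nt.D.Final
import Pool.Agent.P.MP_29cb78_nt.D.UAll

/-!
The Stark unit of a narrow ray class field of a complex cubic field, from the invariants alone.
-/

namespace Pool.Agent.P.MP_29cb78_nt.D

open NumberField NumberField.InfinitePlace NumberField.Units E F
open scoped nonZeroDivisors

theorem final (hS : S_INV) (k K : Type) [Field k] [Field K] [NumberField k] [NumberField K]
    [Algebra k K] [IsGalois k K] (h3 : Module.finrank ℚ k = 3) (hc : nrComplexPlaces k = 1)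
    (f : Ideal (𝓞 k)) (hf : f ≠ ⊥) (hf1 : f ≠ ⊤) (art : (Ideal (𝓞 k))⁰ →* Gal(K/k))
    (hart : ∀ (P : (Ideal (𝓞 k))⁰) (Q : Ideal (𝓞 K)), Q.IsMaximal → Q.under (𝓞 k) = P →
      ¬ f ≤ P → ∀ z : 𝓞 K, art P • z - z ^ Ideal.absNorm P.1 ∈ Q)
    (hker : ∀ I J : (Ideal (𝓞 k))⁰, IsCoprime I.1 f → IsCoprime J.1 f →
      (art I = art J ↔ NRay f I J))
    (φ : K →+* ℂ) (hφ : ¬ ComplexEmbedding.IsReal (φ.comp (algebraMap k K))) :
    ∃ u : (𝓞 K)ˣ,
      (∀ b : (Ideal (𝓞 k))⁰, IsCoprime b.1 f → Cont (rayZ f b)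
        (-(1 / torsionOrder K * Real.log (‖φ (art b u)‖ ^ 2) : ℝ))) ∧
      (∀ ψ : K →+* ℂ, ComplexEmbedding.IsReal (ψ.comp (algebraMap k K)) → ‖ψ u‖ = 1) ∧
      ∀ x : AlgebraicClosure K, x ^ torsionOrder K = algebraMap K (AlgebraicClosure K) u →
        IsAbelianGalois k (IntermediateField.adjoin K {x}) :=
  stark hS om algv_all sh_all comm_all ink_all unit_all h3 hc hf hf1 art hart hker φ hφ

end Pool.Agent.P.MP_29cb78_nt.D
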