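import Pool.Agent.P.MP_29cb78_nt.D.UIface
import Pool.Agent.P.MP_29cb78_nt.D.Fdt

/-!
Frobenius elements outside two proper normal subgroups.
-/

namespace Pool.Agent.P.MP_29cb78_nt.D

open NumberField Ideal C
open scoped Pointwise

theorem two_sub {G : Type} [Group G] {H1 H2 : Subgroup G} (h1 : H1 ≠ ⊤) (h2 : H2 ≠ ⊤) :
    ∃ x, x ∉ H1 ∧ x ∉ H2 := by
  obtain ⟨a, -, ha⟩ := SetLike.exists_of_lt (lt_top_iff_ne_top.mpr h1)
  obtain ⟨b, -, hb⟩ := SetLike.exists_of_lt (lt_top_iff_ne_top.mpr h2)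
  by_cases a2 : a ∈ H2
  · by_cases b1 : b ∈ H1
    · exact ⟨a * b, fun h => ha ((H1.mul_mem_cancel_right b1).mp h),
        fun h => hb ((H2.mul_mem_cancel_left a2).mp h)⟩
    · exact ⟨b, b1, hb⟩
  · exact ⟨a, ha, a2⟩

theorem u_ex2 : U_EX2 := by
  intro F Ω _ _ _ _ _ _ H1 H2 n n1 n2 h1 h2 hn
  obtain ⟨x, x1, x2⟩ := two_sub h1 h2
  obtain ⟨Q, s, a, b, c, d, e⟩ := Fdt.avoid (ι := Bool) (fun i => cond i H1 H2)
    (by rintro (_ | _) <;> assumption) (x := x) (by rintro (_ | _) <;> assumption) hn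
  exact ⟨Q, a, b, c, s, d, e true, e false⟩

theorem u_gen2 : U_GEN2 := by
  intro F Ω _ _ _ _ _ _ H0 H n n0 h0 hn h
  by_contra hH
  obtain ⟨Q, hQ, hnQ, hp, s, hs, s0, s1⟩ := u_ex2 F Ω H0 H.normalCore n n0 inferInstance h0
    (fun e => hH (top_unique (e ▸ H.normalCore_le))) hn
  refine s1 fun τ => ?_
  have hu : (τ • Q).under (𝓞 F) = Q.under (𝓞 F) := Ideal.under_smul (𝓞 F) Q τ
  have hm : (τ • Q).IsMaximal := by rw [Ideal.pointwise_smul_eq_comap]; infer_instance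
  refine h (τ • Q) hm (fun h => hnQ ?_) (hu ▸ hp) _
    ((Gen.isFrob_iff _ _).mpr (((Gen.isFrob_iff _ _).mp hs).conj τ)) fun h => s0 ?_
  · have h1 : (n : 𝓞 F) ∈ (τ • Q).under (𝓞 F) := by rwa [Ideal.mem_under, map_natCast]
    rwa [hu, Ideal.mem_under, map_natCast] at h1
  · simpa [mul_assoc] using n0.conj_mem _ h τ⁻¹

end Pool.Agent.P.MP_29cb78_nt.D
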