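import Pool.Agent.P.MP_29cb78_nt.D.UBasic

/-!
Frobenius elements at good primes act on the invariants and on their roots.
-/

namespace Pool.Agent.P.MP_29cb78_nt.D

open NumberField Ideal C E F
open scoped Classical

noncomputable section

namespace UFrob

variable {k Ω : Type} [Field k] [Field Ω] [NumberField k] [NumberField Ω] [Algebra k Ω]

omit [NumberField Ω] in
/-- A valuation ring of the complex numbers above a prime. -/
theorem exists_val (ι : Ω →+* ℂ) {W : Ideal (𝓞 Ω)} (hW : W ≠ ⊤) :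
    ∃ O : ValuationSubring ℂ, (∀ y : 𝓞 Ω, O.valuation (ι y) ≤ 1) ∧
      ∀ y ∈ W, O.valuation (ι (y : 𝓞 Ω)) < 1 := by
  let φ : 𝓞 Ω →+* ℂ := ι.comp (algebraMap _ _)
  have hb : Function.Bijective φ.rangeRestrict :=
    ⟨fun a b h => RingOfIntegers.ext (ι.injective (congrArg Subtype.val h)),
      φ.rangeRestrict_surjective⟩
  obtain ⟨O, h1, h2⟩ := (W.map φ.rangeRestrict).image_subset_nonunits_valuationSubring
    fun h => hW (by rw [← W.comap_map_of_bijective _ hb, h, comap_top])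
  exact ⟨O, fun y => (O.valuation_le_one_iff _).mpr (h1 ⟨y, rfl⟩),
    fun y hy => h2 ⟨_, mem_map_of_mem _ hy, rfl⟩⟩

theorem one_pow' {O : ValuationSubring ℂ} {E : ℂ} (h : O.valuation (E - 1) < 1) (m : ℕ) :
    O.valuation (E ^ m - 1) < 1 := by
  have h1 : O.valuation E = 1 := by simpa using O.valuation.map_one_add_of_lt h
  induction m with
  | zero => simp
  | succ m ih =>
    rw [show E ^ (m + 1) - 1 = E ^ m * (E - 1) + (E ^ m - 1) by ring]
    exact O.valuation.map_add_lt (by rwa [map_mul, map_pow, h1, one_pow, one_mul]) ih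

/-- Congruences between elements of a finite set are equalities, away from finitely many
primes. -/
theorem sep {σ : k →+* ℂ} {ι : Ω →+* ℂ} (hι : ∀ y, ι (algebraMap k Ω y) = σ y) {T : Set Ω}
    (hT : T.Finite) : ∃ n : ℕ, n ≠ 0 ∧ ∀ W : Ideal (𝓞 Ω), W.IsMaximal → (n : 𝓞 Ω) ∉ W →
      ∀ s : Gal(Ω/k), IsFrob W s → ∀ z ∈ T, ∀ z' ∈ T, ∀ E : ℂ,
        (∀ O : ValuationSubring ℂ, Over σ O (W.under (𝓞 k)) → O.valuation (E - 1) < 1) →
        ι z' = ι z ^ absNorm (W.under (𝓞 k)) * E → s z = z' := by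
  have : Algebra.IsAlgebraic ℤ Ω :=
    (IsFractionRing.comap_isAlgebraic_iff (A := ℤ) (K := ℚ)).mpr inferInstance
  have hD : (T ∪ (fun x : Gal(Ω/k) × Ω × Ω => (x.1 x.2.1 - x.2.2)⁻¹) ''
      (Set.univ ×ˢ T ×ˢ T)).Finite := hT.union ((Set.finite_univ.prod (hT.prod hT)).image _)
  obtain ⟨y, hy0, hy⟩ := Algebra.IsAlgebraic.exists_integral_multiples ℤ hD.toFinset
  have hn : ∀ z ∈ hD.toFinset, IsIntegral ℤ ((y.natAbs : Ω) * z) := fun z hz => by
    have := hy z hz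
    rw [zsmul_eq_mul] at this
    rcases Int.natAbs_eq y with h | h
    · rwa [h, Int.cast_natCast] at this
    · rw [h, Int.cast_neg, Int.cast_natCast, neg_mul] at this
      simpa using this.neg
  refine ⟨y.natAbs, Int.natAbs_ne_zero.mpr hy0, fun W hW hnW s hs z hz z' hz' E hE he => ?_⟩
  set n := y.natAbs
  set p := absNorm (W.under (𝓞 k))
  obtain ⟨O, h1, h2⟩ := exists_val ι hW.ne_top
  have h3 : O.valuation (n : ℂ) = 1 := by
    obtain ⟨t, w, hw, ht⟩ := hW.exists_inv hnW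
    have h4 := congrArg (fun a : 𝓞 Ω => ι a) ht
    simp only [map_add, map_mul, map_natCast, map_one] at h4
    have h5 := O.valuation.map_one_sub_of_lt (h2 w hw)
    rw [← h4, RingOfIntegers.coe_eq_algebraMap, add_sub_cancel_right, map_mul] at h5
    have h6 := h1 n
    simp only [map_natCast] at h6
    exact le_antisymm h6 (h5.ge.trans (mul_le_of_le_one_left' (h1 t)))
  have h4 : ∀ a ∈ hD.toFinset, O.valuation (ι a) ≤ 1 := fun a ha => by
    have : O.valuation (ι (n * a)) ≤ 1 := h1 ⟨_, hn a ha⟩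
    rwa [map_mul, map_mul, map_natCast, h3, one_mul] at this
  have hzD : z ∈ hD.toFinset := hD.mem_toFinset.mpr (Or.inl hz)
  have hzp : O.valuation (ι z ^ p) ≤ 1 := by
    rw [map_pow]
    exact pow_le_one' (h4 z hzD) p
  have h5 : O.valuation (ι (s (n * z)) - ι (n * z) ^ p) < 1 := by
    have := h2 _ (hs ⟨_, hn z hzD⟩)
    rwa [RingOfIntegers.coe_eq_algebraMap, map_sub, map_pow, map_sub, map_pow] at this
  have h6 : O.valuation (ι (s n) - ι n ^ p) < 1 := by
    have := h2 _ (hs n)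
    rwa [RingOfIntegers.coe_eq_algebraMap, map_sub, map_pow, map_sub, map_pow] at this
  simp only [map_mul, map_natCast] at h5 h6
  have h7 := hE O fun y hy => hι y ▸ h2 (algebraMap (𝓞 k) (𝓞 Ω) y) hy
  have h8 : O.valuation (ι (s z - z')) < 1 := by
    rw [show O.valuation (ι (s z - z')) = O.valuation (n * ι (s z - z')) by
      rw [map_mul, h3, one_mul], map_sub, he,
      show (n : ℂ) * (ι (s z) - ι z ^ p * E) = (n * ι (s z) - (n * ι z) ^ p) -
        (ι z ^ p * (n - n ^ p) + n * (ι z ^ p * (E - 1))) by ring]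
    refine O.valuation.map_sub_lt h5 (O.valuation.map_add_lt ?_ ?_)
    · rw [map_mul]
      exact (mul_le_of_le_one_left' hzp).trans_lt h6
    · rw [map_mul, map_mul, h3, one_mul]
      exact (mul_le_of_le_one_left' hzp).trans_lt h7
  by_contra hne
  have h9 := h4 _ (hD.mem_toFinset.mpr (Or.inr ⟨(s, z, z'), ⟨trivial, hz, hz'⟩, rfl⟩))
  have h10 : O.valuation (ι (s z - z')) ≠ 0 := 
    (map_ne_zero _).mpr ((map_ne_zero _).mpr (sub_ne_zero.mpr hne))
  rw [map_inv₀, map_inv₀, inv_le_one₀ (zero_lt_iff.mpr h10)] at h9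
  exact absurd h8 (not_lt.mpr h9)

theorem not_dvd {P : Ideal (𝓞 k)} {N n : ℕ} (h : ((N * n : ℕ) : 𝓞 k) ∉ P) :
    ¬ absNorm P ∣ N ∧ (N : 𝓞 k) ∉ P ∧ (n : 𝓞 k) ∉ P := by
  rw [Nat.cast_mul] at h
  exact ⟨fun h' => h (P.mul_mem_right _ (P.mem_of_dvd (Nat.cast_dvd_cast h') (absNorm_mem P))),
    fun h' => h (P.mul_mem_right _ h'), fun h' => h (P.mul_mem_left _ h')⟩

end UFrob

open UFrob

theorem frob0 (hF : U_FIN) : U_FROB := by
  intro k Ω _ _ _ _ _ ρ σ AL ι u N hI hι hN hc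
  obtain ⟨n, hn, h⟩ := sep hι ((hF k ρ AL u N hI.toInv0).preimage ι.injective.injOn)
  refine ⟨N * n, mul_ne_zero hN hn, fun W hW hnW hG s hs J x z hA hz => ?_⟩
  obtain ⟨h1, h2, h3⟩ := not_dvd (P := W.under (𝓞 k)) (N := N) (n := n)
    (by rwa [Ideal.mem_under, map_natCast])
  have hA' := hA.of_mul (cop_max inferInstance h2).2
  obtain ⟨E, hE, he⟩ := hI.cong J u N x _ _ hA hG h1
  obtain ⟨z', hz'⟩ := hc J x hA'
  rw [← hz', h W hW (by rwa [Ideal.mem_under, map_natCast] at h3) s hs z ⟨_, _, hA, hz⟩ z'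
    ⟨_, _, hA', hz'⟩ _ (fun O hO => one_pow' (hE O hO) _) (by rw [hz', hz, he])]

theorem frobr (hF : U_FIN) : U_FROBR := by
  intro k Ω _ _ _ _ _ ρ σ AL ι u N hI hι hN hc
  have hM : 0 < 12 * N ^ 3 := by positivity
  have hT : {z : Ω | ∃ J x, Ad ρ J u N x ∧ ι z ^ (12 * N ^ 3) = AL J u N x}.Finite := by
    refine (((hF k ρ AL u N hI.toInv0).biUnion fun a _ =>
      (Polynomial.nthRoots (12 * N ^ 3) a).toFinset.finite_toSet).preimage
        ι.injective.injOn).subset ?_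
    rintro z ⟨J, x, hA, hz⟩
    simp only [Set.mem_preimage, Set.mem_iUnion, Finset.mem_coe, Multiset.mem_toFinset,
      Polynomial.mem_nthRoots hM]
    exact ⟨_, ⟨J, x, hA, rfl⟩, hz⟩
  obtain ⟨n, hn, h⟩ := sep hι hT
  refine ⟨N * n, mul_ne_zero hN hn, fun P J x l l' hG hnP hA hl hl' => ?_⟩
  obtain ⟨h1, h2, h3⟩ := not_dvd hnP
  have hA' := hA.of_mul (cop_max (Dens.max_of_prime hG.prime) h2).2
  obtain ⟨E, hE, he⟩ := hI.cong J u N x _ _ hA hG h1
  have h4 : (ι l ^ absNorm P * E) ^ (12 * N ^ 3) = AL J u N x := by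
    rw [he, mul_pow, ← pow_mul, mul_comm (absNorm P), pow_mul, hl]
  obtain ⟨z, hz⟩ := hc J x _ hA' h4
  have h0 : l' ≠ 0 := by
    rintro rfl
    rw [map_zero, zero_pow hM.ne'] at hl'
    exact hI.ne J u N x hA' hl'.symm
  refine ⟨z / l', ?_, fun W hW hWP s hs => ?_⟩
  · apply ι.injective
    rw [map_pow, map_div₀, div_pow, hz, h4, hl', div_self (hI.ne J u N x hA'), map_one]
  · subst hWP
    rw [div_mul_cancel₀ _ h0]
    exact h W hW (by rwa [Ideal.mem_under, map_natCast] at h3) s hs l ⟨_, _, hA, hl⟩ z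
      ⟨_, _, hA', by rw [hz, h4]⟩ E hE hz

end

end Pool.Agent.P.MP_29cb78_nt.D
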