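import Pool.Agent.P.MP_29cb78_nt.F.Top
import Pool.Agent.P.MP_29cb78_nt.C.Dens
import Pool.Agent.P.MP_29cb78_nt.Euler

/-!
Statements of the steps that lead from the invariants to the Galois action and to the unit
property at all primes.
-/

namespace Pool.Agent.P.MP_29cb78_nt.D

open NumberField Ideal IsDedekindDomain C E F
open scoped Classical

noncomputable section

theorem dens0 : DENS := dens (euler diri)

/-- The type of the families of invariants. -/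
abbrev Fam (k : Type) [Field k] : Type := Ideal (𝓞 k) → (𝓞 k)ˣ → ℕ → k → ℂ

section defs

variable {k K Ω : Type} [Field k] [Field K] [Field Ω] [NumberField k] [Algebra k K] [Algebra k Ω]
  [Algebra K Ω]

/-- `art` is an Artin map away from `f` whose kernel is the narrow ray modulo `f`. -/
structure ArtD (ρ : k →+* ℝ) (f : Ideal (𝓞 k)) (art : Ideal (𝓞 k) → Gal(K/k)) : Prop where
  ne : f ≠ ⊥
  mul : ∀ I J, I ≠ ⊥ → J ≠ ⊥ → art (I * J) = art I * art J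
  frob : ∀ W : Ideal (𝓞 K), W.IsMaximal → ¬ f ≤ W.under (𝓞 k) → IsFrob W (art (W.under (𝓞 k)))
  ker : ∀ I, I ≠ ⊥ → IsCoprime I f →
    (art I = 1 ↔ ∃ δ : 𝓞 k, δ - 1 ∈ f ∧ 0 < ρ δ ∧ span {δ} = I)

/-- The ideal `f` kills `x` modulo `J`. -/
def Lev (f J : Ideal (𝓞 k)) (x : k) : Prop := ∀ y ∈ f, Mem J ((y : 𝓞 k) * x)

/-- The automorphism `s` acts on the invariants as the shift by the ideal `a`. -/
def Sh0 (ρ : k →+* ℝ) (AL : Fam k) (ι : Ω →+* ℂ) (u : (𝓞 k)ˣ) (N : ℕ) (s : Gal(Ω/k))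
    (a : Ideal (𝓞 k)) : Prop :=
  ∀ J x z, Ad ρ (a * J) u N x → ι z = AL (a * J) u N x → ι (s z) = AL J u N x

/-- The automorphism `s` acts on the invariants as the shift by `a` and on `K` as `art a`. -/
def Sh (ρ : k →+* ℝ) (AL : Fam k) (art : Ideal (𝓞 k) → Gal(K/k)) (ι : Ω →+* ℂ) (u : (𝓞 k)ˣ)
    (N : ℕ) (s : Gal(Ω/k)) (a : Ideal (𝓞 k)) : Prop :=
  Sh0 ρ AL ι u N s a ∧ ∀ y : K, s (algebraMap K Ω y) = algebraMap K Ω (art a y)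

/-- A Galois extension that contains the invariants of level `(u, N)`, with its action. -/
structure Frame (ρ : k →+* ℝ) (AL : Fam k) (art : Ideal (𝓞 k) → Gal(K/k))
    (ι : Ω →+* ℂ) (u : (𝓞 k)ˣ) (N n : ℕ) (H0 : Subgroup Gal(Ω/k)) (n' : ℕ) : Prop where
  idx : H0.index = 2
  ne : n' ≠ 0
  cts : ∀ J x, Ad ρ J u N x → ∃ z, ι z = AL J u N x
  good : ∀ W : Ideal (𝓞 Ω), W.IsMaximal → (n' : 𝓞 Ω) ∉ W → (absNorm (W.under (𝓞 k))).Prime →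
    ∀ s, IsFrob W s → s ∉ H0 → Good u (W.under (𝓞 k)) (absNorm (W.under (𝓞 k)))
  frob : ∀ W : Ideal (𝓞 Ω), W.IsMaximal → (n' : 𝓞 Ω) ∉ W → (absNorm (W.under (𝓞 k))).Prime →
    ∀ s, IsFrob W s → s ∉ H0 → Sh ρ AL art ι u N s (W.under (𝓞 k))
  all : ∀ s, ∃ a, Cop n a ∧ Sh ρ AL art ι u N s a

end defs

/-- A Frobenius element of degree one outside two proper normal subgroups. -/
def U_EX2 : Prop :=
  ∀ (F Ω : Type) [Field F] [Field Ω] [NumberField F] [NumberField Ω] [Algebra F Ω] [IsGalois F Ω]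
    (H1 H2 : Subgroup Gal(Ω/F)) (n : ℕ), H1.Normal → H2.Normal → H1 ≠ ⊤ → H2 ≠ ⊤ → n ≠ 0 →
    ∃ W : Ideal (𝓞 Ω), W.IsMaximal ∧ (n : 𝓞 Ω) ∉ W ∧ (absNorm (W.under (𝓞 F))).Prime ∧
      ∃ s : Gal(Ω/F), IsFrob W s ∧ s ∉ H1 ∧ s ∉ H2

/-- The Frobenius elements of degree one outside a proper normal subgroup generate. -/
def U_GEN2 : Prop :=
  ∀ (F Ω : Type) [Field F] [Field Ω] [NumberField F] [NumberField Ω] [Algebra F Ω] [IsGalois F Ω]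
    (H0 H : Subgroup Gal(Ω/F)) (n : ℕ), H0.Normal → H0 ≠ ⊤ → n ≠ 0 →
    (∀ W : Ideal (𝓞 Ω), W.IsMaximal → (n : 𝓞 Ω) ∉ W → (absNorm (W.under (𝓞 F))).Prime →
      ∀ s : Gal(Ω/F), IsFrob W s → s ∉ H0 → s ∈ H) → H = ⊤

/-- Primes of degree one whose Frobenius moves a certain square root are good. -/
def U_GOOD : Prop :=
  ∀ (k : Type) [Field k] [NumberField k] (ρ : k →+* ℝ) (σ : k →+* ℂ) (u : (𝓞 k)ˣ), Emb ρ σ →
    1 < ρ (u : 𝓞 k) → ∃ (d : 𝓞 k) (n : ℕ), ρ d < 0 ∧ n ≠ 0 ∧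
      ∀ (Ω : Type) [Field Ω] [NumberField Ω] [Algebra k Ω] (w : Ω), w ^ 2 = algebraMap k Ω d →
        ∀ W : Ideal (𝓞 Ω), W.IsMaximal → (n : 𝓞 Ω) ∉ W → (absNorm (W.under (𝓞 k))).Prime →
          ∀ s : Gal(Ω/k), IsFrob W s → s w ≠ w →
            Good u (W.under (𝓞 k)) (absNorm (W.under (𝓞 k)))

/-- There are finitely many invariants of a given level. -/
def U_FIN : Prop :=
  ∀ (k : Type) [Field k] [NumberField k] (ρ : k →+* ℝ) (AL : Fam k) (u : (𝓞 k)ˣ) (N : ℕ),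
    Inv0 ρ AL → {z : ℂ | ∃ J x, Ad ρ J u N x ∧ z = AL J u N x}.Finite

/-- A number that is a unit in all valuation rings above a prime is algebraic. -/
def U_ALG : Prop :=
  ∀ (k : Type) [Field k] [NumberField k] (σ : k →+* ℂ) (P : Ideal (𝓞 k)) (z : ℂ), P ≠ ⊤ →
    (∀ O : ValuationSubring ℂ, Over σ O P → O.valuation z = 1) → IsAlgebraic ℚ z

/-- A Galois extension that contains finitely many given algebraic numbers. -/
def U_OM : Prop :=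
  ∀ (k K : Type) [Field k] [Field K] [NumberField k] [NumberField K] [Algebra k K]
    (φ : K →+* ℂ) (S : Set ℂ), S.Finite → (∀ z ∈ S, IsAlgebraic ℚ z) →
    ∃ (Ω : Type) (_ : Field Ω) (_ : NumberField Ω) (_ : Algebra k Ω) (_ : Algebra K Ω)
      (_ : IsScalarTower k K Ω) (_ : IsGalois k Ω) (ι : Ω →+* ℂ),
      (∀ y, ι (algebraMap K Ω y) = φ y) ∧ ∀ z ∈ S, ∃ y, ι y = z

/-- Frobenius elements at good primes act as shifts. -/
def U_FROB : Prop :=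
  ∀ (k Ω : Type) [Field k] [Field Ω] [NumberField k] [NumberField Ω] [Algebra k Ω]
    (ρ : k →+* ℝ) (σ : k →+* ℂ) (AL : Fam k) (ι : Ω →+* ℂ) (u : (𝓞 k)ˣ) (N : ℕ), Inv ρ σ AL →
    (∀ y, ι (algebraMap k Ω y) = σ y) → N ≠ 0 → (∀ J x, Ad ρ J u N x → ∃ z, ι z = AL J u N x) →
    ∃ n : ℕ, n ≠ 0 ∧ ∀ W : Ideal (𝓞 Ω), W.IsMaximal → (n : 𝓞 Ω) ∉ W →
      Good u (W.under (𝓞 k)) (absNorm (W.under (𝓞 k))) → ∀ s : Gal(Ω/k), IsFrob W s →
        Sh0 ρ AL ι u N s (W.under (𝓞 k))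

/-- The action of Frobenius elements at good primes on the roots of the invariants. -/
def U_FROBR : Prop :=
  ∀ (k Ω : Type) [Field k] [Field Ω] [NumberField k] [NumberField Ω] [Algebra k Ω]
    (ρ : k →+* ℝ) (σ : k →+* ℂ) (AL : Fam k) (ι : Ω →+* ℂ) (u : (𝓞 k)ˣ) (N : ℕ), Inv ρ σ AL →
    (∀ y, ι (algebraMap k Ω y) = σ y) → N ≠ 0 →
    (∀ J x (l : ℂ), Ad ρ J u N x → l ^ (12 * N ^ 3) = AL J u N x → ∃ z, ι z = l) →
    ∃ n : ℕ, n ≠ 0 ∧ ∀ (P J : Ideal (𝓞 k)) (x : k) (l l' : Ω), Good u P (absNorm P) →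
      (n : 𝓞 k) ∉ P → Ad ρ (P * J) u N x → ι l ^ (12 * N ^ 3) = AL (P * J) u N x →
      ι l' ^ (12 * N ^ 3) = AL J u N x → ∃ ξ : Ω, ξ ^ (12 * N ^ 3) = 1 ∧
        ∀ W : Ideal (𝓞 Ω), W.IsMaximal → W.under (𝓞 k) = P → ∀ s : Gal(Ω/k), IsFrob W s →
          s l = ξ * l'

/-- The invariants are algebraic. -/
def U_ALGV : Prop :=
  ∀ (k : Type) [Field k] [NumberField k] (ρ : k →+* ℝ) (σ : k →+* ℂ) (AL : Fam k), Emb ρ σ →
    Inv ρ σ AL → ∀ J u N x, Ad ρ J u N x → IsAlgebraic ℚ (AL J u N x)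

/-- A Galois extension that contains the invariants and a certain square root is a frame. -/
def U_FRAME0 : Prop :=
  ∀ (k K : Type) [Field k] [Field K] [NumberField k] [NumberField K] [Algebra k K] [IsGalois k K]
    (ρ : k →+* ℝ) (σ : k →+* ℂ) (AL : Fam k) (f : Ideal (𝓞 k)) (art : Ideal (𝓞 k) → Gal(K/k))
    (u : (𝓞 k)ˣ), Emb ρ σ → Inv ρ σ AL → ArtD ρ f art → 1 < ρ (u : 𝓞 k) →
    ∃ d : 𝓞 k, ∀ (N n : ℕ) (Ω : Type) [Field Ω] [NumberField Ω] [Algebra k Ω] [Algebra K Ω]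
      [IsScalarTower k K Ω] [IsGalois k Ω] (ι : Ω →+* ℂ), N ≠ 0 → n ≠ 0 →
      (∀ y, ι (algebraMap k Ω y) = σ y) → (∀ J x, Ad ρ J u N x → ∃ z, ι z = AL J u N x) →
      (∃ w : Ω, w ^ 2 = algebraMap k Ω d) → ∃ H0 n', Frame ρ AL art ι u N n H0 n'

/-- Frames exist, and can be made to contain finitely many further algebraic numbers. -/
def U_FRAME : Prop :=
  ∀ (k K : Type) [Field k] [Field K] [NumberField k] [NumberField K] [Algebra k K] [IsGalois k K]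
    (ρ : k →+* ℝ) (σ : k →+* ℂ) (AL : Fam k) (f : Ideal (𝓞 k)) (art : Ideal (𝓞 k) → Gal(K/k))
    (φ : K →+* ℂ) (u : (𝓞 k)ˣ) (N n : ℕ) (S : Set ℂ), Emb ρ σ → Inv ρ σ AL → ArtD ρ f art →
    (∀ y, φ (algebraMap k K y) = σ y) → 1 < ρ (u : 𝓞 k) → N ≠ 0 → n ≠ 0 → S.Finite →
    (∀ z ∈ S, IsAlgebraic ℚ z) →
    ∃ (Ω : Type) (_ : Field Ω) (_ : NumberField Ω) (_ : Algebra k Ω) (_ : Algebra K Ω)
      (_ : IsScalarTower k K Ω) (_ : IsGalois k Ω) (ι : Ω →+* ℂ) (H0 : Subgroup Gal(Ω/k))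
      (n' : ℕ), (∀ y, ι (algebraMap K Ω y) = φ y) ∧ Frame ρ AL art ι u N n H0 n' ∧
        ∀ z ∈ S, ∃ y, ι y = z

/-- Every automorphism of a Galois extension acts on the invariants as a shift. -/
def U_SH : Prop :=
  ∀ (k K Ω : Type) [Field k] [Field K] [Field Ω] [NumberField k] [NumberField K] [NumberField Ω]
    [Algebra k K] [Algebra k Ω] [Algebra K Ω] [IsScalarTower k K Ω] [IsGalois k K] [IsGalois k Ω]
    (ρ : k →+* ℝ) (σ : k →+* ℂ) (AL : Fam k) (f : Ideal (𝓞 k)) (art : Ideal (𝓞 k) → Gal(K/k))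
    (ι : Ω →+* ℂ) (u : (𝓞 k)ˣ) (N n : ℕ), Emb ρ σ → Inv ρ σ AL → ArtD ρ f art →
    (∀ y, ι (algebraMap k Ω y) = σ y) → 1 < ρ (u : 𝓞 k) → N ≠ 0 → n ≠ 0 →
    ∀ s : Gal(Ω/k), ∃ a, Cop n a ∧ Sh ρ AL art ι u N s a

/-- The Galois action on the roots of the invariants is commutative. -/
def U_COMM : Prop :=
  ∀ (k K Ω : Type) [Field k] [Field K] [Field Ω] [NumberField k] [NumberField K] [NumberField Ω]
    [Algebra k K] [Algebra k Ω] [Algebra K Ω] [IsScalarTower k K Ω] [IsGalois k K] [IsGalois k Ω]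
    (ρ : k →+* ℝ) (σ : k →+* ℂ) (AL : Fam k) (f : Ideal (𝓞 k)) (art : Ideal (𝓞 k) → Gal(K/k))
    (ι : Ω →+* ℂ), Emb ρ σ → Inv ρ σ AL → ArtD ρ f art → (∀ y, ι (algebraMap k Ω y) = σ y) →
    ∀ J u N x (l : Ω), Ad ρ J u N x → ι l ^ (12 * N ^ 3) = AL J u N x →
      ∀ s t : Gal(Ω/k), s (t l) = t (s l)

/-- The invariants of conductor dividing `f` lie in `K`. -/
def U_INK : Prop :=
  ∀ (k K : Type) [Field k] [Field K] [NumberField k] [NumberField K] [Algebra k K] [IsGalois k K]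
    (ρ : k →+* ℝ) (σ : k →+* ℂ) (AL : Fam k) (f : Ideal (𝓞 k)) (art : Ideal (𝓞 k) → Gal(K/k))
    (φ : K →+* ℂ), Emb ρ σ → Inv ρ σ AL → ArtD ρ f art → (∀ y, φ (algebraMap k K y) = σ y) →
    ∀ J u N x, Ad ρ J u N x → Lev f J x → ∃ a : K, φ a = AL J u N x

/-- Cyclotomic polynomials of large prime order stay irreducible. -/
def U_CYC : Prop :=
  ∀ (K : Type) [Field K] [NumberField K], ∃ R : ℕ, ∀ r : ℕ, r.Prime → R < r →
    Irreducible (Polynomial.cyclotomic r K)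

/-- A prime with prescribed Frobenius and prescribed power residue properties. -/
def U_KF : Prop :=
  ∀ (k K : Type) [Field k] [Field K] [NumberField k] [NumberField K] [Algebra k K] [IsGalois k K]
    (j : Gal(K/k)) (η π : 𝓞 k) (q : Ideal (𝓞 k)) (h n R : ℕ), j * j = 1 → IsUnit η →
    q.IsMaximal → h ≠ 0 → span {π} = q ^ h → n ≠ 0 →
    ∃ (r : ℕ) (W : Ideal (𝓞 K)), r.Prime ∧ R < r ∧ W.IsMaximal ∧ (n : 𝓞 K) ∉ W ∧
      (absNorm (W.under (𝓞 k))).Prime ∧ IsFrob W j ∧ r ∣ absNorm (W.under (𝓞 k)) - 1 ∧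
      η ^ ((absNorm (W.under (𝓞 k)) - 1) / r) - 1 ∈ W.under (𝓞 k) ∧
      π ^ ((absNorm (W.under (𝓞 k)) - 1) / r) - 1 ∉ W.under (𝓞 k)

/-- The ray class character attached to a power residue symbol. -/
def U_PSI : Prop :=
  ∀ (k : Type) [Field k] [NumberField k] (q : Ideal (𝓞 k)), Units.rank k = 1 → q.IsMaximal →
    ∃ (η π : 𝓞 k) (h R : ℕ), IsUnit η ∧ h ≠ 0 ∧ span {π} = q ^ h ∧
      ∀ (r : ℕ) (Q : Ideal (𝓞 k)), r.Prime → R < r → (absNorm Q).Prime → π ∉ Q →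
        r ∣ absNorm Q - 1 → η ^ ((absNorm Q - 1) / r) - 1 ∈ Q →
        π ^ ((absNorm Q - 1) / r) - 1 ∉ Q →
        ∃ (ψ : Ideal (𝓞 k) →* ℂ) (c : 𝓞 k ⧸ Q →* ℂ),
          (∀ α : 𝓞 k, ψ (span {α}) = c (Ideal.Quotient.mk Q α)) ∧
          (∀ I, IsCoprime I Q → ψ I ^ r = 1) ∧ ψ q ≠ 1

/-- A Galois character that agrees with a ray class character at half of the primes. -/
def U_THETA : Prop :=
  ∀ (k Ω : Type) [Field k] [Field Ω] [NumberField k] [NumberField Ω] [Algebra k Ω] [IsGalois k Ω]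
    (r p n : ℕ) (χ : Gal(Ω/k) →* ℂ) (ψ : Ideal (𝓞 k) →* ℂ) (H0 : Subgroup Gal(Ω/k)),
    r.Prime → 2 < r → p ≠ 0 → n ≠ 0 → H0.index = 2 → (∀ s, χ s ^ r = 1) → Ray p ψ →
    (∀ I, Cop p I → ψ I ^ r = 1) →
    (∀ W : Ideal (𝓞 Ω), W.IsMaximal → (n : 𝓞 Ω) ∉ W → (absNorm (W.under (𝓞 k))).Prime →
      ∀ s, IsFrob W s → s ∉ H0 → ψ (W.under (𝓞 k)) = χ s) →
    ∀ W : Ideal (𝓞 Ω), W.IsMaximal → (p : 𝓞 Ω) ∉ W → ψ (W.under (𝓞 k)) ≠ 1 →
      ∀ (s : Gal(Ω/k)) (m : ℕ), χ s = 1 →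
        (∀ z : 𝓞 Ω, s • z - z ^ absNorm (W.under (𝓞 k)) ^ m ∈ W) → r ∣ m

/-- Valuations of norms are divisible by the residue degrees. -/
def U_NRM : Prop :=
  ∀ (K L : Type) [Field K] [Field L] [NumberField K] [NumberField L] [Algebra K L]
    (v : HeightOneSpectrum (𝓞 K)) (r : ℕ),
    (∀ P : Ideal (𝓞 L), P.IsMaximal → P.under (𝓞 K) = v.asIdeal → r ∣ P.inertiaDeg (𝓞 K)) →
    ∀ y : L, y ≠ 0 → (r : ℤ) ∣ WithZero.log (v.valuation K (Algebra.norm K y))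

/-- A product over the orbit of a character that is inert at a prime. -/
def U_RD : Prop :=
  ∀ (k K Ω : Type) [Field k] [Field K] [Field Ω] [NumberField k] [NumberField K] [NumberField Ω]
    [Algebra k K] [Algebra k Ω] [Algebra K Ω] [IsScalarTower k K Ω] [IsGalois k Ω]
    (r : ℕ) (χ : Gal(Ω/k) →* ℂ) (v : HeightOneSpectrum (𝓞 K)) (Y : ℂ → Ω), r.Prime →
    Module.finrank k K < r → (∀ s, χ s ^ r = 1) →
    (∀ W : Ideal (𝓞 Ω), W.IsMaximal → W.under (𝓞 K) = v.asIdeal →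
      ∀ (s : Gal(Ω/k)) (m : ℕ), χ s = 1 →
        (∀ z : 𝓞 Ω, s • z - z ^ absNorm (W.under (𝓞 k)) ^ m ∈ W) → r ∣ m) →
    (∀ z, Y z ≠ 0) → (∀ s ∈ fixSub k K Ω, ∀ z, s (Y z) = Y (χ s * z)) →
    ∃ b : K, algebraMap K Ω b = ∏ z ∈ Polynomial.nthRootsFinset r (1 : ℂ), Y z ∧
      (r : ℤ) ∣ WithZero.log (v.valuation K b)

/-- The primitive points above a point, and the product of their invariants. -/
def U_PTS : Prop :=
  ∀ (k : Type) [Field k] [NumberField k] (ρ : k →+* ℝ) (AL : Fam k) (J : Ideal (𝓞 k))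
    (u : (𝓞 k)ˣ) (N m : ℕ) (x : k) (κ : 𝓞 k) (Q : Ideal (𝓞 k)) [Fintype (𝓞 k ⧸ Q)ˣ],
    Inv0 ρ AL → Ad ρ J u N x → span {κ} = Q → (absNorm Q).Prime → (N : 𝓞 k) ∉ Q → ρ κ < 0 →
    Mem J (((κ : k) - 1) * x) → m ≠ 0 → (u : 𝓞 k) ^ m - 1 ∈ Q →
    ∃ pt : (𝓞 k ⧸ Q)ˣ → k, (∀ h, Ad ρ (Q * J) (u ^ m) (N * absNorm Q) (pt h)) ∧
      (∀ (δ : 𝓞 k) (h h' : (𝓞 k ⧸ Q)ˣ), Mem J (((δ : k) - 1) * x) →
        (h' : 𝓞 k ⧸ Q) = Ideal.Quotient.mk Q δ * h → Mem (Q * J) (δ * pt h - pt h')) ∧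
      ∃ n : ℕ, n ≠ 0 ∧ (∏ h, AL (Q * J) (u ^ m) (N * absNorm Q) (pt h)) ^ n =
        (AL J u N x ^ (2 * absNorm Q ^ 3 * m)) ^ n

/-- Grouping a product over a finite group by the values of a character. -/
def U_GRP : Prop :=
  ∀ (G Ω : Type) [CommGroup G] [Fintype G] [Field Ω] (g : G) (β : G → Ω) (c : G →* ℂ) (r : ℕ),
    r ≠ 0 → (∀ h, β (g * h) = β h) → c g = 1 → (∀ h, c h ^ r = 1) → (∀ h, β h ≠ 0) →
    ∃ Y : ℂ → Ω, (∀ z, Y z ≠ 0) ∧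
      (∏ z ∈ Polynomial.nthRootsFinset r (1 : ℂ), Y z) ^ orderOf g = ∏ h, β h ∧
      ∀ (s : Ω →* Ω) (d : G), (∀ h, s (β h) = β (d * h)) → ∀ z, s (Y z) = Y (c d * z)

/-- The invariants of conductor dividing `f` are algebraic integers. -/
def U_UNIT : Prop :=
  ∀ (k K : Type) [Field k] [Field K] [NumberField k] [NumberField K] [Algebra k K] [IsGalois k K]
    (ρ : k →+* ℝ) (σ : k →+* ℂ) (AL : Fam k) (f : Ideal (𝓞 k)) (art : Ideal (𝓞 k) → Gal(K/k)),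
    Emb ρ σ → Inv ρ σ AL → ArtD ρ f art →
    ∀ J u N x, Ad ρ J u N x → Lev f J x → IsIntegral ℤ (AL J u N x)

end

end Pool.Agent.P.MP_29cb78_nt.D
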