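import Pool.Agent.P.MP_29cb78_nt.D.UBasic
import Pool.Agent.P.MP_29cb78_nt.D.Conj

/-!
The invariants are units at all primes.
-/

namespace Pool.Agent.P.MP_29cb78_nt.D

open NumberField Ideal IsDedekindDomain C E F
open scoped Classical

noncomputable section

namespace UUnit

variable {k K Ω : Type} [Field k] [Field K] [Field Ω] [NumberField k] [NumberField K]
  [NumberField Ω] [Algebra k K] [Algebra k Ω] [Algebra K Ω] [IsScalarTower k K Ω]
  {ρ : k →+* ℝ} {AL : Fam k} {f : Ideal (𝓞 k)} {art : Ideal (𝓞 k) → Gal(K/k)}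

omit [NumberField K] in
/-- An element of the ray of `f` that is negative at the real place. -/
theorem exists_neg (hA : ArtD ρ f art) : ∃ ν : 𝓞 k, ν - 1 ∈ f ∧ ρ ν < 0 ∧
    IsCoprime (span {ν}) f ∧ art (span {ν}) * art (span {ν}) = 1 := by
  have h0 : absNorm f ≠ 0 := fun h => hA.ne (absNorm_eq_zero_iff.mp h)
  have h1 : (1 - 2 * absNorm f : 𝓞 k) - 1 ∈ f := by
    rw [sub_sub_cancel_left]
    exact neg_mem (mul_mem_left _ _ (absNorm_mem f))
  have h2 : ρ (1 - 2 * absNorm f : 𝓞 k) < 0 := by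
    have : (1 : ℝ) ≤ absNorm f := by exact_mod_cast Nat.one_le_iff_ne_zero.mpr h0
    push_cast
    simp only [map_sub, map_one, map_mul, map_natCast, map_ofNat]
    linarith
  generalize (1 - 2 * absNorm f : 𝓞 k) = ν at h1 h2
  have h3 : IsCoprime (span {ν}) f := isCoprime_iff_exists.mpr
    ⟨ν, mem_span_singleton_self ν, -(ν - 1), neg_mem h1, by ring⟩
  have h4 : span {ν} ≠ ⊥ := by
    rw [Ne, span_singleton_eq_bot]
    rintro rfl
    simp at h2
  refine ⟨ν, h1, h2, h3, ?_⟩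
  rw [← hA.mul _ _ h4 h4, hA.ker _ (mul_ne_zero h4 h4) (h3.mul_left h3)]
  refine ⟨ν * ν, ?_, ?_, (span_singleton_mul_span_singleton ν ν).symm⟩
  · have : ν * ν - 1 = (ν + 1) * (ν - 1) := by ring
    rw [this]
    exact mul_mem_left _ _ h1
  · push_cast
    rw [map_mul]
    exact mul_pos_of_neg_of_neg h2 h2

omit [NumberField K] in
/-- An ideal with the same symbol has a negative generator in the ray. -/
theorem exists_gen (hA : ArtD ρ f art) {ν : 𝓞 k} (h1 : ν - 1 ∈ f) (h2 : ρ ν < 0)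
    (h3 : IsCoprime (span {ν}) f) (h4 : art (span {ν}) * art (span {ν}) = 1) {Q : Ideal (𝓞 k)}
    (hQ : Q ≠ ⊥) (hQf : IsCoprime Q f) (h : art Q = art (span {ν})) :
    ∃ κ : 𝓞 k, κ - 1 ∈ f ∧ ρ κ < 0 ∧ span {κ} = Q := by
  have h0 : span {ν} ≠ ⊥ := by
    rw [Ne, span_singleton_eq_bot]
    rintro rfl
    simp at h2
  obtain ⟨δ, hδ1, hδ2, hδ3⟩ := (hA.ker _ (mul_ne_zero h0 hQ) (h3.mul_left hQf)).mp
    (by rw [hA.mul _ _ h0 hQ, h, h4])
  obtain ⟨κ, -, rfl⟩ := mem_span_singleton_mul.mp (hδ3 ▸ mem_span_singleton_self δ)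
  refine ⟨κ, ?_, ?_, mul_left_cancel₀ h0 (by rw [← hδ3, span_singleton_mul_span_singleton])⟩
  · have : κ - 1 = ν * κ - 1 - κ * (ν - 1) := by ring
    rw [this]
    exact sub_mem hδ1 (mul_mem_left _ _ h1)
  · push_cast at hδ2
    rw [map_mul] at hδ2
    exact neg_of_mul_pos_right hδ2 h2.le

variable [IsGalois k Ω] {ι : Ω →+* ℂ} {u : (𝓞 k)ˣ} {N n n' : ℕ} {H0 : Subgroup Gal(Ω/k)}

/-- The product over the values of the character has valuation divisible by its order. -/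
theorem core (hTH : U_THETA) (hRD : U_RD) (hA : ArtD ρ f art) (hF : Frame ρ AL art ι u N n H0 n')
    {r p : ℕ} (hr : r.Prime) (h2 : 2 < r) (hK : Module.finrank k K < r) (hn : n ≠ 0) (hN : N ∣ n)
    (hp : p ∣ n) {ψ : Ideal (𝓞 k) →* ℂ} (hray : Ray p ψ) (hpow : ∀ I, Cop p I → ψ I ^ r = 1)
    (v : HeightOneSpectrum (𝓞 K)) (hpv : (p : 𝓞 K) ∉ v.asIdeal)
    (hψ : ψ (v.asIdeal.under (𝓞 k)) ≠ 1) {Y : ℂ → Ω} (hY : ∀ z, Y z ≠ 0)
    (hact : ∀ s ∈ fixSub k K Ω, ∀ a, Cop n a → Sh ρ AL art ι u N s a →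
      ∀ z, s (Y z) = Y (ψ a * z)) :
    ∃ b : K, algebraMap K Ω b = ∏ z ∈ Polynomial.nthRootsFinset r (1 : ℂ), Y z ∧
      (r : ℤ) ∣ WithZero.log (v.valuation K b) := by
  choose A hA1 hA2 using hF.all
  by_cases hc : ∀ c, Cop n c → Sh ρ AL art ι u N 1 c → ψ c = 1
  · have hmul : ∀ s t a b, Cop n a → Cop n b → Sh ρ AL art ι u N s a → Sh ρ AL art ι u N t b →
        Sh ρ AL art ι u N (s * t) (a * b) := fun s t a b ha hb hs ht =>
      Sh.mul hA hs ht ha.1 hb.1 (cop_of_dvd hN hb).2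
    have hwd : ∀ s a, Cop n a → Sh ρ AL art ι u N s a → ψ a = ψ (A s) := fun s a ha hs => by
      have h1 := hmul s s⁻¹ a _ ha (hA1 _) hs (hA2 _)
      have h2 := hmul s s⁻¹ _ _ (hA1 s) (hA1 _) (hA2 s) (hA2 _)
      rw [mul_inv_cancel] at h1 h2
      have h3 := hc _ (cop_mul ha (hA1 _)) h1
      have h4 := hc _ (cop_mul (hA1 s) (hA1 _)) h2
      rw [map_mul] at h3 h4
      exact mul_right_cancel₀ (right_ne_zero_of_mul_eq_one h3) (h3.trans h4.symm)
    let χ : Gal(Ω/k) →* ℂ :=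
      { toFun := fun s => ψ (A s)
        map_one' := hc _ (hA1 1) (hA2 1)
        map_mul' := fun s t => by
          rw [← hwd _ _ (cop_mul (hA1 s) (hA1 t)) (hmul _ _ _ _ (hA1 s) (hA1 t) (hA2 s) (hA2 t)),
            map_mul] }
    have hχ : ∀ s, χ s ^ r = 1 := fun s => hpow _ (cop_of_dvd hp (hA1 s))
    refine hRD k K Ω r χ v Y hr hK hχ (fun W hW hWv => ?_) hY
      fun s hs => hact s hs _ (hA1 s) (hA2 s)
    have hu : W.under (𝓞 k) = v.asIdeal.under (𝓞 k) := by rw [← hWv, Ideal.under_under]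
    refine hTH k Ω r p (n' * n) χ ψ H0 hr h2 (ne_zero_of_dvd_ne_zero hn hp) (mul_ne_zero hF.ne hn)
      hF.idx hχ hray hpow (fun W' hW' hn' hpr s hs hs0 => ?_) W hW (fun h => hpv ?_) (hu ▸ hψ)
    · rw [Nat.cast_mul] at hn'
      refine hwd s _ (cop_max inferInstance fun h => hn' (mul_mem_left _ _ ?_))
        (hF.frob W' hW' (fun h => hn' (mul_mem_right _ _ h)) hpr s hs hs0)
      rwa [Ideal.mem_under, map_natCast] at h
    · rwa [← hWv, Ideal.mem_under, map_natCast]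
  · push Not at hc
    obtain ⟨c, hc1, hc2, hc3⟩ := hc
    have : Fact r.Prime := ⟨hr⟩
    have : NeZero r := ⟨hr.ne_zero⟩
    have hζ : IsPrimitiveRoot (ψ c) r := by
      rw [← orderOf_eq_prime (hpow c (cop_of_dvd hp hc1)) hc3]
      exact IsPrimitiveRoot.orderOf _
    have h1 : ∀ i : ℕ, Y (ψ c ^ i) = Y 1 := fun i => by
      induction i with
      | zero => rw [pow_zero]
      | succ i ih => rw [pow_succ', ← hact 1 (one_mem _) c hc1 hc2, ih, AlgEquiv.one_apply]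
    have h3 : ∀ z : ℂ, z ^ r = 1 → Y z = Y 1 := fun z hz => by
      obtain ⟨i, -, rfl⟩ := hζ.eq_pow_of_pow_eq_one hz
      exact h1 i
    have : IsGalois K Ω := IsGalois.tower_top_of_isGalois k K Ω
    obtain ⟨y, hy⟩ : Y 1 ∈ Set.range (algebraMap K Ω) := by
      rw [IsGalois.mem_range_algebraMap_iff_fixed]
      intro g
      have := hact (g.restrictScalars k) (fun y => g.commutes y) _ (hA1 _) (hA2 _) 1
      rw [mul_one, h3 _ (hpow _ (cop_of_dvd hp (hA1 _)))] at this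
      exact this
    refine ⟨y ^ r, ?_, ?_⟩
    · rw [map_pow, hy, Finset.prod_congr rfl fun z hz =>
        h3 z ((Polynomial.mem_nthRootsFinset hr.pos 1).mp hz), Finset.prod_const,
        hζ.card_nthRootsFinset]
    · rw [map_pow, WithZero.log_pow, nsmul_eq_mul]
      exact dvd_mul_right _ _

end UUnit

open UUnit in
theorem unit0 (hFR : U_FRAME) (hINK : U_INK) (hKF : U_KF) (hPSI : U_PSI) (hTH : U_THETA)
    (hRD : U_RD) (hPTS : U_PTS) (hGRP : U_GRP) : U_UNIT := by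
  intro k K _ _ _ _ _ _ ρ σ AL f art hE hI hA J u N x hx hL
  obtain ⟨φ, hφ⟩ : ∃ φ : K →+* ℂ, ∀ y, φ (algebraMap k K y) = σ y := by
    let := σ.toAlgebra
    exact ⟨(IsAlgClosed.lift : K →ₐ[k] ℂ), fun y => (IsAlgClosed.lift : K →ₐ[k] ℂ).commutes y⟩
  obtain ⟨a, ha⟩ := hINK k K ρ σ AL f art φ hE hI hA hφ J u N x hx hL
  have ha0 : a ≠ 0 := by
    rintro rfl
    exact hI.ne J u N x hx (by rw [← ha, map_zero])
  suffices h : ∀ v : HeightOneSpectrum (𝓞 K), v.valuation K a ≤ 1 by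
    obtain ⟨b, rfl⟩ := HeightOneSpectrum.mem_integers_of_valuation_le_one K a h
    rw [← ha]
    exact b.isIntegral_coe.map φ.toIntAlgHom
  intro v
  have hv0 : ∀ y : K, y ≠ 0 → v.valuation K y ≠ 0 := fun y hy => (Valuation.ne_zero_iff _).mpr hy
  suffices h : ∃ r : ℕ, (WithZero.log (v.valuation K a)).natAbs < r ∧
      (r : ℤ) ∣ WithZero.log (v.valuation K a) by
    obtain ⟨r, h1, h2⟩ := h
    have h3 := Int.eq_zero_of_dvd_of_natAbs_lt_natAbs h2 (by simpa using h1)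
    rw [← WithZero.exp_log (hv0 a ha0), h3, WithZero.exp_zero]
  have hvm := v.isMaximal
  have hq : (v.asIdeal.under (𝓞 k)).IsMaximal := inferInstance
  obtain ⟨η, π, h, R0, hη, hh, hπ, hpsi⟩ := hPSI k _ hE.rk hq
  obtain ⟨ν, hν1, hν2, hν3, hν4⟩ := exists_neg hA
  obtain ⟨m0, hm0, hunr⟩ := Dens.exists_unr (F := k) (E := K)
  have hf0 : absNorm f ≠ 0 := fun h => hA.ne (absNorm_eq_zero_iff.mp h)
  have hq0 : absNorm (v.asIdeal.under (𝓞 k)) ≠ 0 :=
    fun h => Gen.ne_bot hq (absNorm_eq_zero_iff.mp h)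
  obtain ⟨r, W, hr, hR, hW, hnW, hp, hfr, hrp, hηr, hπr⟩ := hKF k K _ η π _ h
    (m0 * (absNorm f * (N * absNorm (v.asIdeal.under (𝓞 k)))))
    (max (max (WithZero.log (v.valuation K a)).natAbs R0) (max (Module.finrank k K) 2)) hν4 hη hq
    hh hπ (mul_ne_zero hm0 (mul_ne_zero hf0 (mul_ne_zero hx.N_ne hq0)))
  simp only [max_lt_iff] at hR
  refine ⟨r, hR.1.1, ?_⟩
  have hQ : (W.under (𝓞 k)).IsMaximal := inferInstance
  have hnQ : ∀ d : ℕ, d ∣ m0 * (absNorm f * (N * absNorm (v.asIdeal.under (𝓞 k)))) →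
      (d : 𝓞 k) ∉ W.under (𝓞 k) := fun d hd hd' => hnW (by
    rw [Ideal.mem_under, map_natCast] at hd'
    exact W.mem_of_dvd (Nat.cast_dvd_cast hd) hd')
  have hfQ := hnQ (absNorm f) ((dvd_mul_right _ _).mul_left _)
  have hNQ := hnQ N (((dvd_mul_right _ _).mul_left _).mul_left _)
  have hqQ := hnQ _ (((dvd_mul_left _ _).mul_left _).mul_left _)
  have hart : art (W.under (𝓞 k)) = art (span {ν}) := Conj.frob_eq
    (hunr W hW.isPrime fun h' => hnQ m0 (dvd_mul_right _ _)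
      (by rwa [Ideal.mem_under, map_natCast]))
    (hA.frob W hW fun h' => hfQ (h' (absNorm_mem f))) hfr
  obtain ⟨κ, hκ1, hκ2, hκ3⟩ := exists_gen hA hν1 hν2 hν3 hν4 (Gen.ne_bot hQ)
    (cop_ideal (cop_max hQ hfQ) (absNorm_mem f)) hart
  clear hart hfr hnQ hnW
  generalize W.under (𝓞 k) = Q at *
  obtain ⟨ψ, c, hψc, hψr, hψq⟩ := hpsi r Q hr hR.1.2 hp (fun h' => by
    have h1 : v.asIdeal.under (𝓞 k) ^ h ≤ Q := hπ ▸ (span_singleton_le_iff_mem _).mpr h'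
    exact hqQ (hQ.isPrime.le_of_pow_le h1 (absNorm_mem _))) hrp hηr hπr
  have : Finite (𝓞 k ⧸ Q) := Ideal.finiteQuotientOfFreeOfNeBot Q (Gen.ne_bot hQ)
  let : Fintype (𝓞 k ⧸ Q)ˣ := Fintype.ofFinite _
  let : Field (𝓞 k ⧸ Q) := Ideal.Quotient.field Q
  set g : (𝓞 k ⧸ Q)ˣ := Units.map (Ideal.Quotient.mk Q).toMonoidHom u with hg
  have hm : orderOf g ≠ 0 := (orderOf_pos g).ne'
  obtain ⟨pt, hpt1, hpt2, n1, hn1, hpt3⟩ := hPTS k ρ AL J u N (orderOf g) x κ Q hI.toInv0 hx hκ3 hp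
    hNQ hκ2 (by simpa using hL _ hκ1) hm (by
      rw [← Ideal.Quotient.eq, map_pow, map_one]
      exact congrArg Units.val (pow_orderOf_eq_one g))
  have hNp : N * absNorm Q ≠ 0 := mul_ne_zero hx.N_ne hp.ne_zero
  obtain ⟨Ω, _, _, _, _, _, _, ι, H0, n', hι, hF, -⟩ := hFR k K ρ σ AL f art φ (u ^ orderOf g)
    (N * absNorm Q) (absNorm f * (N * absNorm Q)) ∅ hE hI hA hφ
    (by linarith [(hx.pow hm).big]) hNp (mul_ne_zero hf0 hNp) Set.finite_empty (by simp)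
  choose β hβ using fun h => hF.cts _ _ (hpt1 h)
  have hsh : ∀ (s : Gal(Ω/k)) (δ : 𝓞 k) (d : (𝓞 k ⧸ Q)ˣ), 0 < ρ δ →
      Sh0 ρ AL ι (u ^ orderOf g) (N * absNorm Q) s (span {δ}) → Mem J (((δ : k) - 1) * x) →
      (d : 𝓞 k ⧸ Q) = Ideal.Quotient.mk Q δ → ∀ h, s (β h) = β (d * h) := by
    intro s δ d h1 h2 h3 h4 h
    apply ι.injective
    rw [h2.principal hI.toInv0 h1 (hpt1 h) (hβ h), hβ]
    exact hI.per _ _ _ _ _ (hpt1 _) (hpt2 δ h (d * h) h3 (by rw [Units.val_mul, h4]))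
  have hcop : ∀ α : 𝓞 k, α ∉ Q → IsCoprime (span {α}) Q := fun α hα => by
    rw [isCoprime_iff_sup_eq, sup_comm]
    exact hQ.out.2 _ (lt_of_le_of_ne le_sup_left fun h => hα (by
      rw [h]; exact mem_sup_right (mem_span_singleton_self _)))
  obtain ⟨Y, hY0, hY1, hY2⟩ := hGRP (𝓞 k ⧸ Q)ˣ Ω g β (c.comp (Units.coeHom _)) r hr.ne_zero
    (fun h => (hsh 1 u g (by linarith [hx.big])
      (by rw [span_singleton_eq_top.mpr u.isUnit]; exact Sh0.one) hx.fix rfl h).symm)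
    (by
      change c (Ideal.Quotient.mk Q u) = 1
      rw [← hψc, span_singleton_eq_top.mpr u.isUnit, ← one_eq_top, map_one])
    (fun h => by
      obtain ⟨α, hα⟩ := Ideal.Quotient.mk_surjective (h : 𝓞 k ⧸ Q)
      change c h ^ r = 1
      rw [← hα, ← hψc]
      exact hψr _ (hcop α fun h' => h.ne_zero (hα ▸ Ideal.Quotient.eq_zero_iff_mem.mpr h')))
    (fun h h0 => hI.ne _ _ _ _ (hpt1 h) (by rw [← hβ, h0, map_zero]))
  obtain ⟨b, hb1, hb2⟩ := core (p := absNorm Q) (ψ := ψ) hTH hRD hA hF hr hR.2.2 hR.2.1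
    (mul_ne_zero hf0 hNp) (dvd_mul_left _ _) ((dvd_mul_left _ _).mul_left _)
    (fun α _ h1 => by
      have h2 : α - 1 ∈ Q := (span_singleton_le_iff_mem _).mpr (absNorm_mem Q) h1
      rw [hψc, Ideal.Quotient.eq.mpr h2, map_one, map_one])
    (fun I hI => hψr I (cop_ideal hI (absNorm_mem Q))) v
    (fun h' => by
      have h1 : (absNorm Q : 𝓞 k) ∈ v.asIdeal.under (𝓞 k) := by
        rwa [Ideal.mem_under, map_natCast]
      by_cases h2 : absNorm Q ∣ absNorm (v.asIdeal.under (𝓞 k))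
      · exact hqQ (Q.mem_of_dvd (Nat.cast_dvd_cast h2) (absNorm_mem Q))
      · obtain ⟨c1, c2, h3⟩ := Nat.Coprime.cast (R := 𝓞 k) ((hp.coprime_iff_not_dvd).mpr h2)
        exact hq.ne_top ((eq_top_iff_one _).mpr (h3 ▸ add_mem (mul_mem_left _ _ h1)
          (mul_mem_left _ _ (absNorm_mem _)))))
    hψq hY0 (fun s hs I hI1 hI2 z => by
      obtain ⟨δ, h1, h2, rfl⟩ := hI2.ray hA hI1.1
        (cop_ideal (cop_of_dvd (dvd_mul_right _ _) hI1) (absNorm_mem f)) hs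
      have h3 : Ideal.Quotient.mk Q δ ≠ 0 := fun h' => by
        have h4 := cop_ideal (cop_of_dvd ((dvd_mul_left _ _).mul_left _) hI1) (absNorm_mem Q)
        rw [isCoprime_iff_sup_eq, sup_eq_right.mpr ((span_singleton_le_iff_mem _).mpr
          (Ideal.Quotient.eq_zero_iff_mem.mp h'))] at h4
        exact hQ.ne_top h4
      rw [hψc]
      exact hY2 (s : Ω →* Ω) (Units.mk0 _ h3)
        (hsh s δ _ h2 hI2.1 (by simpa using hL _ h1) rfl) z)
  have h1 : (b ^ orderOf g) ^ n1 = (a ^ (2 * absNorm Q ^ 3 * orderOf g)) ^ n1 := by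
    apply φ.injective
    rw [map_pow, map_pow, map_pow, map_pow, ha, ← hpt3, ← hι, hb1, ← map_pow, hY1, map_prod]
    simp only [hβ]
  have h2 := congrArg (fun y => WithZero.log (v.valuation K y)) h1
  simp only [map_pow, WithZero.log_pow, nsmul_eq_mul] at h2
  have h3 := mul_left_cancel₀ (Nat.cast_ne_zero.mpr hn1) h2
  push_cast at h3
  have h4 : WithZero.log (v.valuation K b) =
      ((2 * absNorm Q ^ 3 : ℕ) : ℤ) * WithZero.log (v.valuation K a) :=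
    mul_left_cancel₀ (a := (orderOf g : ℤ)) (Nat.cast_ne_zero.mpr hm) (by push_cast; linarith)
  rw [h4] at hb2
  refine ((Nat.prime_iff_prime_int.mp hr).dvd_or_dvd hb2).resolve_left fun h5 => ?_
  rcases (Nat.Prime.dvd_mul hr).mp (Int.natCast_dvd_natCast.mp h5) with h6 | h6
  · exact absurd (Nat.le_of_dvd two_pos h6) (by omega)
  · have h7 := (Nat.dvd_sub_iff_right hp.one_le (hr.dvd_of_dvd_pow h6)).mp hrp
    exact hr.one_lt.ne' (Nat.dvd_one.mp h7)

end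

end Pool.Agent.P.MP_29cb78_nt.D
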