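import Pool.Agent.P.MP_29cb78_nt.F.Top
import Pool.Agent.P.MP_29cb78_nt.E.KZeta
import Pool.Agent.P.MP_29cb78_nt.E.KFib
import Pool.Agent.P.MP_29cb78_nt.E.KEmb

/-! The zeta function of a narrow ray class at the exact level. -/

namespace Pool.Agent.P.MP_29cb78_nt.D

open NumberField NumberField.InfinitePlace E F
open scoped Classical

theorem embx (k : Type) [Field k] [NumberField k] (h3 : Module.finrank ℚ k = 3)
    (h1 : nrComplexPlaces k = 1) (σ : k →+* ℂ) (hσ : ¬ ComplexEmbedding.IsReal σ) :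
    ∃ ρ : k →+* ℝ, Emb ρ σ := by
  obtain ⟨ρ, τ, h⟩ := k_emb k h3 h1
  have hτ : ¬ ComplexEmbedding.IsReal τ := fun hr => by
    have : (⊤ : IntermediateField ℚ k) = ⊥ := by
      refine eq_bot_iff.2 fun x _ => ?_
      obtain ⟨c, hc⟩ := h.rat x (Complex.conj_eq_iff_im.1
        (RingHom.congr_fun (ComplexEmbedding.isReal_iff.1 hr) x))
      exact IntermediateField.mem_bot.2 ⟨c, by rw [hc, eq_ratCast]⟩
    have h2 := IntermediateField.finrank_top' (F := ℚ) (E := k)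
    rw [this, IntermediateField.finrank_bot, h3] at h2
    omega
  obtain ⟨v, uv⟩ := Fintype.card_eq_one_iff.1 h1
  have e : mk τ = mk σ := congrArg Subtype.val
    ((uv ⟨mk τ, τ, hτ, rfl⟩).trans (uv ⟨mk σ, σ, hσ, rfl⟩).symm)
  rcases mk_eq_iff.1 e with rfl | rfl
  · exact ⟨ρ, h⟩
  · refine ⟨ρ, h.rank, h.rk, h.uniq, fun x => ?_, fun x hx => h.rat x ?_, fun B => ?_⟩
    · rw [ComplexEmbedding.conjugate_coe_eq, Complex.norm_conj]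
      exact h.norm x
    · rw [ComplexEmbedding.conjugate_coe_eq, Complex.conj_im, neg_eq_zero] at hx
      exact hx
    · simpa only [ComplexEmbedding.conjugate_coe_eq, Complex.norm_conj] using h.fin B

namespace ZetaX

variable {k : Type} [Field k] [NumberField k] {ρ : k →+* ℝ} {σ : k →+* ℂ}

/-- The real embedding on the units. -/
noncomputable def ru (ρ : k →+* ℝ) : (𝓞 k)ˣ →* ℝ :=
  (ρ.comp (algebraMap (𝓞 k) k)).toMonoidHom.comp (Units.coeHom _)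

omit [NumberField k] in
lemma ru_eq (η : (𝓞 k)ˣ) : ru ρ η = ρ (η : 𝓞 k) := rfl

lemma genu (hE : Emb ρ σ) {f : Ideal (𝓞 k)} (hf : f ≠ ⊥) : ∃ ε ∈ KFib.un f, 1 < ru ρ ε ∧
    ∀ η ∈ KFib.un f, 0 < ru ρ η → ∃ j : ℤ, η = ε ^ j := by
  obtain ⟨u, hu, h6⟩ := k_unit k ρ σ hE f hf
  have fin : {η : (𝓞 k)ˣ | η ∈ KFib.un f ∧ 1 < ru ρ η ∧ ru ρ η ≤ ru ρ u}.Finite := by
    refine ((hE.fin (ru ρ u)).preimage Units.val_injective.injOn).subset fun η ⟨_, a1, a2⟩ =>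
      ⟨by rw [← ru_eq, abs_of_pos (by linarith)]; exact a2, ?_⟩
    have a3 : |ρ (η : 𝓞 k) * ‖σ (η : 𝓞 k)‖ ^ 2| = 1 := by
      rw [← hE.norm]; exact_mod_cast Units.norm k η
    rw [← ru_eq, abs_of_nonneg (by positivity)] at a3
    have a4 : ‖σ (η : 𝓞 k)‖ ^ 2 ≤ 1 := by nlinarith [sq_nonneg ‖σ (η : 𝓞 k)‖]
    exact ((sq_le_one_iff₀ (norm_nonneg _)).1 a4).trans (by linarith)
  obtain ⟨ε, ⟨e1, e2, e3⟩, hm⟩ := Set.exists_min_image _ (ru ρ) fin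
    ⟨u, KFib.mem_un.2 hu, by rw [ru_eq]; linarith, le_rfl⟩
  refine ⟨ε, e1, e2, fun η h1 h2 => ?_⟩
  have e0 : 0 < ru ρ ε := by linarith
  obtain ⟨j, j1, j2⟩ := exists_mem_Ico_zpow h2 e2
  have hz := zpow_pos e0 j
  have hv : ru ρ (η * ε ^ (-j)) = ru ρ η / ru ρ ε ^ j := by
    rw [map_mul, map_zpow, zpow_neg, div_eq_mul_inv]
  have b1 : 1 ≤ ru ρ (η * ε ^ (-j)) := by rw [hv, one_le_div hz]; exact j1
  have b2 : ru ρ (η * ε ^ (-j)) < ru ρ ε := by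
    rw [hv, div_lt_iff₀ hz, mul_comm, ← zpow_add_one₀ e0.ne']; exact j2
  have b3 : ru ρ (η * ε ^ (-j)) = 1 := by
    by_contra h
    exact absurd (hm _ ⟨mul_mem h1 (zpow_mem e1 _), lt_of_le_of_ne b1 (Ne.symm h), by linarith⟩)
      (not_le.2 b2)
  have b4 : η * ε ^ (-j) = 1 := by
    refine Units.ext (RingOfIntegers.coe_injective (ρ.injective ?_))
    rw [ru_eq] at b3
    simpa using b3
  exact ⟨j, by rw [zpow_neg, mul_inv_eq_one] at b4; exact b4⟩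

omit [NumberField k] in
lemma fibx {f c : Ideal (𝓞 k)} {ν : 𝓞 k} {ε : (𝓞 k)ˣ} (hν : ν - 1 ∈ f) (hνc : ν ∈ c)
    (e1 : ε ∈ KFib.un f) (e2 : 1 < ru ρ ε)
    (hg : ∀ η ∈ KFib.un f, 0 < ru ρ η → ∃ j : ℤ, η = ε ^ j) (m : ℕ) (β₀ : 𝓞 k)
    (hβ : β₀ - ν ∈ f * c) (hp : 0 < ρ β₀) :
    Nat.card {β : 𝓞 k // β - ν ∈ f * c ∧ 1 ≤ ρ β ∧ ρ β < ρ ((ε ^ m : (𝓞 k)ˣ) : 𝓞 k) ∧
      Ideal.span {β} = Ideal.span {β₀}} = m := by
  have e0 : 0 < ru ρ ε := by linarith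
  obtain ⟨j, j1, j2⟩ := exists_mem_Ico_zpow hp e2
  have hc : β₀ ∈ c := by simpa using c.add_mem (Ideal.mul_le_right hβ) hνc
  have hf : β₀ - 1 ∈ f := by simpa using f.add_mem (Ideal.mul_le_left hβ) hν
  have hm : ∀ η : (𝓞 k)ˣ, ρ ((β₀ * η : 𝓞 k) : k) = ρ β₀ * ru ρ η := fun η => by
    rw [ru_eq, ← map_mul]; rfl
  have lo : ∀ i : ℤ, 1 ≤ ρ β₀ * ru ρ ε ^ i ↔ 0 ≤ i + j := fun i => by
    have hz := zpow_pos e0 i
    constructor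
    · intro h
      have : ru ρ ε ^ (0 : ℤ) < ru ρ ε ^ (j + 1 + i) := by
        rw [zpow_zero, zpow_add₀ e0.ne']; nlinarith
      rw [zpow_lt_zpow_iff_right₀ e2] at this
      omega
    · intro h
      have := one_le_zpow₀ e2.le h
      rw [zpow_add₀ e0.ne'] at this
      nlinarith
  have hi : ∀ i : ℤ, ρ β₀ * ru ρ ε ^ i < ru ρ ε ^ m ↔ i + j < m := fun i => by
    have := (lo (i - m)).not
    rw [not_le, not_le, zpow_sub₀ e0.ne', ← mul_div_assoc, div_lt_one (zpow_pos e0 _),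
      zpow_natCast] at this
    rw [this]
    omega
  have key : ∀ i : Fin m, β₀ * (ε ^ ((i : ℤ) - j) : (𝓞 k)ˣ) - ν ∈ f * c ∧
      1 ≤ ρ (β₀ * (ε ^ ((i : ℤ) - j) : (𝓞 k)ˣ) : 𝓞 k) ∧
      ρ (β₀ * (ε ^ ((i : ℤ) - j) : (𝓞 k)ˣ) : 𝓞 k) < ρ ((ε ^ m : (𝓞 k)ˣ) : 𝓞 k) ∧
      Ideal.span {β₀ * (ε ^ ((i : ℤ) - j) : (𝓞 k)ˣ)} = Ideal.span {β₀} := fun i => by
    refine ⟨?_, ?_, ?_, Ideal.span_singleton_mul_right_unit (Units.isUnit _) _⟩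
    · convert (f * c).add_mem (Ideal.mul_mem_mul (KFib.mem_un.1 (zpow_mem e1 ((i : ℤ) - j))) hc)
        hβ using 1
      ring
    · rw [hm, map_zpow, lo]; omega
    · rw [hm, ← ru_eq, map_zpow, map_pow, hi]; omega
  rw [← Nat.card_congr (Equiv.ofBijective (fun i => ⟨_, key i⟩) ⟨fun i i' h => ?_, fun β => ?_⟩),
    Nat.card_fin]
  · have h0 : β₀ ≠ 0 := by rintro rfl; simp at hp
    have := congrArg (ru ρ) (Units.ext (mul_left_cancel₀ h0 (congrArg Subtype.val h)))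
    rw [map_zpow, map_zpow, zpow_right_inj₀ e0 e2.ne'] at this
    exact Fin.ext (by omega)
  · obtain ⟨β, b1, b2, b3, b4⟩ := β
    obtain ⟨η, rfl⟩ := Ideal.span_singleton_eq_span_singleton.1 b4.symm
    have h1 : η ∈ KFib.un f := KFib.mem_un.2 (by
      convert f.sub_mem (Ideal.mul_le_left ((f * c).sub_mem b1 hβ))
        (f.mul_mem_left ((η : 𝓞 k) - 1) hf) using 1
      ring)
    rw [hm] at b2 b3
    obtain ⟨i, rfl⟩ := hg η h1 ((mul_pos_iff_of_pos_left hp).1 (one_pos.trans_le b2))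
    rw [map_zpow, lo] at b2
    rw [← ru_eq, map_zpow, map_pow, hi] at b3
    refine ⟨⟨(i + j).toNat, by omega⟩, Subtype.ext ?_⟩
    have : (((i + j).toNat : ℕ) : ℤ) - j = i := by omega
    simp only [this]

lemma zeta (hE : Emb ρ σ) {f b c : Ideal (𝓞 k)} {ν : 𝓞 k} {u : (𝓞 k)ˣ} {r : ℂ →+ ℝ} {e : ℕ}
    (hc : c ≠ ⊥) (hr : ∀ x : k, r (σ x) = ρ x)
    (hN : ∀ I, NRay f I b ↔ ∃ β : 𝓞 k, β - ν ∈ f * c ∧ 0 < ρ β ∧ I * c = Ideal.span {β})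
    (hI : ∀ β : 𝓞 k, β - ν ∈ f * c → ∃ I, I * c = Ideal.span {β}) (he : e ≠ 0)
    (hfib : ∀ β₀ : 𝓞 k, β₀ - ν ∈ f * c → 0 < ρ β₀ →
      Nat.card {β : 𝓞 k // β - ν ∈ f * c ∧ 1 ≤ ρ β ∧ ρ β < ρ (u : 𝓞 k) ∧
        Ideal.span {β} = Ideal.span {β₀}} = e) {s : ℂ} (hs : 1 < s.re) :
    Zv (latt σ (f * c)) (σ ν) r (ρ (u : 𝓞 k)) s * (Ideal.absNorm c : ℂ) ^ s = rayZ f b s * e := by
  obtain ⟨d1, -, d3⟩ := diri k s hs
  choose π hπ using hI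
  have uq : ∀ {I I' : Ideal (𝓞 k)}, I * c = I' * c → I = I' := mul_right_cancel₀ hc
  let B := {β : 𝓞 k // β - ν ∈ f * c ∧ 1 ≤ ρ β ∧ ρ β < ρ (u : 𝓞 k)}
  let p : B → {I // NRay f I b} := fun β =>
    ⟨π β β.2.1, (hN _).2 ⟨β, β.2.1, one_pos.trans_le β.2.2.1, hπ _ _⟩⟩
  have hp : ∀ I, Nat.card {β // p β = I} = e := fun I => by
    obtain ⟨β₀, b1, b2, b3⟩ := (hN _).1 I.2
    rw [← hfib β₀ b1 b2]
    refine Nat.card_congr ((Equiv.subtypeSubtypeEquivSubtypeExists _ _).trans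
      (Equiv.subtypeEquivRight fun β => ⟨fun ⟨x, y⟩ => ⟨x.1, x.2.1, x.2.2, ?_⟩,
        fun x => ⟨⟨x.1, x.2.1, x.2.2.1⟩, Subtype.ext (uq ?_)⟩⟩))
    · rw [← b3, ← y]; exact (hπ _ x.1).symm
    · exact ((hπ _ x.1).trans x.2.2.2).trans b3.symm
  have hm : ∀ β : 𝓞 k, σ β - σ ν ∈ latt σ (f * c) ↔ β - ν ∈ f * c := fun β => by
    refine ⟨fun ⟨x, hx, h⟩ => ?_, fun h => ⟨_, h, by simp⟩⟩
    have : algebraMap _ k x = algebraMap _ k (β - ν) := σ.injective (by simpa using h)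
    rwa [← RingOfIntegers.coe_injective this]
  let E : B → {z : ℂ // z - σ ν ∈ latt σ (f * c) ∧ 1 ≤ r z ∧ r z < ρ (u : 𝓞 k)} := fun β =>
    ⟨σ β.1, (hm _).2 β.2.1, by rw [hr]; exact β.2.2⟩
  have hEb : Function.Bijective E := by
    refine ⟨fun x y h => Subtype.ext (RingOfIntegers.coe_injective
      (σ.injective (congrArg Subtype.val h))), fun ⟨z, ⟨x, hx, h⟩, h2⟩ => ?_⟩
    obtain rfl : z = σ ((x + ν : 𝓞 k) : k) := by rw [← sub_add_cancel z (σ ν), ← h]; simp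
    exact ⟨⟨x + ν, by simpa using hx, by rwa [hr] at h2⟩, rfl⟩
  have hc' : (Ideal.absNorm c : ℂ) ≠ 0 := by simpa [Ideal.absNorm_eq_zero_iff] using hc
  have hz : Zv (latt σ (f * c)) (σ ν) r (ρ (u : 𝓞 k)) s =
      (∑' β : B, (Ideal.absNorm (p β).1 : ℂ) ^ (-s)) * (Ideal.absNorm c : ℂ) ^ (-s) := by
    rw [Zv, ← (Equiv.ofBijective E hEb).tsum_eq, ← tsum_mul_right]
    refine tsum_congr fun β => ?_
    change ((r (σ β.1) * ‖σ β.1‖ ^ 2 : ℝ) : ℂ) ^ (-s) = (Ideal.absNorm (π β β.2.1) : ℂ) ^ (-s) * _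
    rw [hr, KZeta.nrm hE _ (one_pos.trans_le β.2.2.1), ← hπ _ β.2.1, map_mul,
      ← Complex.natCast_mul_natCast_cpow, Complex.ofReal_natCast, Nat.cast_mul]
  have h2 : (Ideal.absNorm c : ℂ) ^ s ≠ 0 := by simp [hc']
  rw [hz, KZeta.fib p he hp (g := fun I => (Ideal.absNorm I.1 : ℂ) ^ (-s)) (d1.subtype _), rayZ, d3,
    Lser, Complex.cpow_neg (Ideal.absNorm c : ℂ) s]
  erw [tsum_subtype {I | NRay f I b} fun I => (Ideal.absNorm I : ℂ) ^ (-s)]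
  field_simp
  exact tsum_congr fun I => by simp [Set.indicator_apply]

lemma exr (σ : k →+* ℂ) (ρ : k →+* ℝ) : ∃ r : ℂ →+ ℝ, ∀ y, r (σ y) = ρ y := by
  obtain ⟨g, hg⟩ := LinearMap.exists_leftInverse_of_injective σ.toRatAlgHom.toLinearMap
    (LinearMap.ker_eq_bot.2 σ.injective)
  refine ⟨ρ.toAddMonoidHom.comp g.toAddMonoidHom, fun y => ?_⟩
  exact congrArg ρ (LinearMap.congr_fun hg y)

end ZetaX

open ZetaX in
/-- The derivative at zero of the zeta function of a narrow ray class. -/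
theorem zetax {k : Type} [Field k] [NumberField k] {ρ : k →+* ℝ} {σ : k →+* ℂ} (hE : Emb ρ σ)
    {AL : Ideal (𝓞 k) → (𝓞 k)ˣ → ℕ → k → ℂ} (hA : Inv ρ σ AL) {f : Ideal (𝓞 k)} (hf : f ≠ ⊥) :
    ∃ u₁ u₂ : (𝓞 k)ˣ, (u₁ : 𝓞 k) - 1 ∈ f ∧ (u₂ : 𝓞 k) - 1 ∈ f ∧ 6 < ρ (u₁ : 𝓞 k) ∧
      6 < ρ (u₂ : 𝓞 k) ∧ ∀ (b c : Ideal (𝓞 k)) (ν : 𝓞 k) (N : ℕ), c ≠ ⊥ → ν - 1 ∈ f → ν ∈ c →
        (∀ I, NRay f I b ↔ ∃ β : 𝓞 k, β - ν ∈ f * c ∧ 0 < ρ β ∧ I * c = Ideal.span {β}) →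
        (∀ β : 𝓞 k, β - ν ∈ f * c → ∃ I, I * c = Ideal.span {β}) →
        Ad ρ (f * c) u₁ N ν → Ad ρ (f * c) u₂ N ν →
        Cont (rayZ f b) ((Real.log (‖AL (f * c) u₂ N ν / AL (f * c) u₁ N ν‖ ^ 2) /
          (12 * (N : ℝ) ^ 3) : ℝ) : ℂ) := by
  obtain ⟨ε, e1, e2, hg⟩ := genu hE hf
  obtain ⟨n, hn⟩ := pow_unbounded_of_one_lt 6 e2
  have n0 : n ≠ 0 := by rintro rfl; norm_num at hn
  obtain ⟨r, hr⟩ := exr σ ρ
  refine ⟨ε ^ n, ε ^ (n + 1), KFib.mem_un.1 (pow_mem e1 _), KFib.mem_un.1 (pow_mem e1 _),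
    by rw [← ru_eq, map_pow]; exact hn,
    by rw [← ru_eq, map_pow]; exact hn.trans (pow_lt_pow_right₀ e2 n.lt_succ_self),
    fun b c ν N hc hν hνc hN hI a1 a2 => ?_⟩
  have hcn : (Ideal.absNorm c : ℂ) ≠ 0 := by simpa [Ideal.absNorm_eq_zero_iff] using hc
  have hent : Differentiable ℂ fun s : ℂ => (Ideal.absNorm c : ℂ) ^ s :=
    differentiable_id.const_cpow (Or.inl hcn)
  refine (((hA.klf _ _ _ _ r a2 hr).mul_entire hent).add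
    (((hA.klf _ _ _ _ r a1 hr).mul_entire hent).const_mul (-1))).congr (fun s hs => ?_) ?_
  · rw [zeta hE hc hr hN hI n0 (fibx hν hνc e1 e2 hg n) hs,
      zeta hE hc hr hN hI n.succ_ne_zero (fibx hν hνc e1 e2 hg (n + 1)) hs]
    push_cast
    ring
  · have z1 := norm_ne_zero_iff.2 (hA.ne _ _ _ _ a1)
    have z2 := norm_ne_zero_iff.2 (hA.ne _ _ _ _ a2)
    rw [norm_div, div_pow, Real.log_div (pow_ne_zero _ z2) (pow_ne_zero _ z1), Complex.cpow_zero]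
    push_cast
    ring

end Pool.Agent.P.MP_29cb78_nt.D
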