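import Pool.Agent.P.MP_29cb78_nt.D.UBasic
import Pool.Agent.P.MP_29cb78_nt.E.KFib
import Pool.Agent.P.MP_29cb78_nt.E.KZeta
import Pool.Agent.P.MP_29cb78_nt.E.KEmb

/-! The limit formula with the exact exponent. -/

namespace Pool.Agent.P.MP_29cb78_nt.D

open NumberField NumberField.InfinitePlace E F
open scoped Classical

noncomputable section

variable {k : Type} [Field k] [NumberField k] {ρ : k →+* ℝ} {σ : k →+* ℂ} {f : Ideal (𝓞 k)}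

theorem emb_of (h3 : Module.finrank ℚ k = 3) (hc : nrComplexPlaces k = 1)
    (h : ¬ ComplexEmbedding.IsReal σ) : ∃ ρ, Emb ρ σ := by
  obtain ⟨ρ, τ, hE⟩ := k_emb k h3 hc
  have nr : ¬ ComplexEmbedding.IsReal τ := fun hr => by
    have h1 : (⊥ : IntermediateField ℚ k) = ⊤ := top_unique fun x _ => by
      obtain ⟨c, rfl⟩ := hE.rat x (Complex.conj_eq_iff_im.1 (RingHom.congr_fun hr x))
      exact IntermediateField.mem_bot.2 ⟨c, rfl⟩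
    rw [IntermediateField.bot_eq_top_iff_finrank_eq_one, h3] at h1
    omega
  obtain ⟨v, uv⟩ := Fintype.card_eq_one_iff.1 hc
  have h1 : mk τ = mk σ := congrArg Subtype.val ((uv ⟨mk τ, τ, nr, rfl⟩).trans
    (uv ⟨mk σ, σ, h, rfl⟩).symm)
  rcases mk_eq_iff.1 h1 with rfl | rfl
  · exact ⟨ρ, hE⟩
  · have e : ∀ x, ‖ComplexEmbedding.conjugate τ x‖ = ‖τ x‖ := fun x => by
      rw [ComplexEmbedding.conjugate_coe_eq, Complex.norm_conj]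
    refine ⟨ρ, hE.rank, hE.rk, hE.uniq, fun x => by rw [e, hE.norm], fun x hx => hE.rat x ?_,
      fun B => by simpa only [e] using hE.fin B⟩
    simpa using hx

/-- A generator of the positive units that are congruent to one. -/
theorem ex_gen (hE : Emb ρ σ) (hf : f ≠ ⊥) : ∃ ε : (𝓞 k)ˣ, (ε : 𝓞 k) - 1 ∈ f ∧
    1 < ρ (ε : 𝓞 k) ∧ ∀ η : (𝓞 k)ˣ, (η : 𝓞 k) - 1 ∈ f → 0 < ρ (η : 𝓞 k) → ∃ m : ℤ, η = ε ^ m := by
  obtain ⟨u, hu, h6⟩ := k_unit k ρ σ hE f hf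
  let φ : (𝓞 k)ˣ →* ℝ := (ρ.comp (algebraMap (𝓞 k) k)).toMonoidHom.comp (Units.coeHom _)
  have hφ : ∀ η : (𝓞 k)ˣ, φ η = ρ (η : 𝓞 k) := fun _ => rfl
  have hn : ∀ η : (𝓞 k)ˣ, 1 ≤ φ η → ‖σ (η : 𝓞 k)‖ ≤ 1 := fun η a1 => by
    rw [hφ] at a1
    have a2 : |ρ (η : 𝓞 k) * ‖σ (η : 𝓞 k)‖ ^ 2| = 1 := by
      rw [← hE.norm]; exact_mod_cast Units.norm k η
    rw [abs_of_nonneg (by positivity)] at a2
    exact (sq_le_one_iff₀ (norm_nonneg _)).1 (by nlinarith [sq_nonneg ‖σ (η : 𝓞 k)‖])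
  have hfin : {η : (𝓞 k)ˣ | η ∈ KFib.un f ∧ 1 < φ η ∧ φ η ≤ φ u}.Finite :=
    ((hE.fin (φ u)).preimage (Units.val_injective (α := 𝓞 k)).injOn).subset fun η h =>
      ⟨by rw [← hφ, abs_of_pos (one_pos.trans h.2.1)]; exact h.2.2,
        (hn η h.2.1.le).trans (h.2.1.le.trans h.2.2)⟩
  obtain ⟨ε, ⟨e1, e2, e3⟩, e4⟩ := Set.exists_min_image _ φ hfin
    ⟨u, KFib.mem_un.2 hu, by rw [hφ]; linarith, le_rfl⟩
  refine ⟨ε, KFib.mem_un.1 e1, e2, fun η h1 h2 => ?_⟩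
  obtain ⟨m, m1, m2⟩ := exists_mem_Ico_zpow (show 0 < φ η from h2) e2
  have p0 : 0 < φ ε := one_pos.trans e2
  have pm := zpow_pos p0 m
  have a : φ (η * ε ^ (-m)) = φ η / φ ε ^ m := by rw [map_mul, map_zpow, zpow_neg, div_eq_mul_inv]
  have b : φ (η * ε ^ (-m)) < φ ε := by
    rwa [a, div_lt_iff₀ pm, mul_comm, ← zpow_add_one₀ p0.ne']
  have c : φ (η * ε ^ (-m)) = 1 := le_antisymm (not_lt.1 fun h => b.not_ge (e4 _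
    ⟨mul_mem (KFib.mem_un.2 h1) (zpow_mem e1 _), h, b.le.trans e3⟩))
    (by rwa [a, one_le_div pm])
  refine ⟨m, ?_⟩
  rw [← mul_inv_eq_one, ← zpow_neg]
  rw [hφ, ← map_one ρ] at c
  exact Units.ext (RingOfIntegers.ext (ρ.injective c))

omit [NumberField k] in
theorem card_gen {ε : (𝓞 k)ˣ} (h1 : (ε : 𝓞 k) - 1 ∈ f) (h2 : 1 < ρ (ε : 𝓞 k))
    (h3 : ∀ η : (𝓞 k)ˣ, (η : 𝓞 k) - 1 ∈ f → 0 < ρ (η : 𝓞 k) → ∃ m : ℤ, η = ε ^ m)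
    {c : Ideal (𝓞 k)} {ν : 𝓞 k} (hν : ν - 1 ∈ f) (hνc : ν ∈ c) (n : ℕ) (β₀ : 𝓞 k)
    (hβ : β₀ - ν ∈ f * c) (hp : 0 < ρ β₀) :
    Nat.card {β : 𝓞 k // β - ν ∈ f * c ∧ 1 ≤ ρ β ∧ ρ β < ρ ((ε ^ n : (𝓞 k)ˣ) : 𝓞 k) ∧
      Ideal.span {β} = Ideal.span {β₀}} = n := by
  let φ : (𝓞 k)ˣ →* ℝ := (ρ.comp (algebraMap (𝓞 k) k)).toMonoidHom.comp (Units.coeHom _)
  have hφ : ∀ η : (𝓞 k)ˣ, φ η = ρ (η : 𝓞 k) := fun _ => rfl
  rw [← hφ] at h2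
  have p0 : 0 < φ ε := one_pos.trans h2
  obtain ⟨m, m1, m2⟩ := exists_mem_Ico_zpow hp h2
  have hc : β₀ ∈ c := by simpa using c.add_mem (Ideal.mul_le_right hβ) hνc
  have hf : β₀ - 1 ∈ f := by simpa using f.add_mem (Ideal.mul_le_left hβ) hν
  have h0 : β₀ ≠ 0 := by rintro rfl; simp at hp
  have hm : ∀ j : ℤ, ρ ((β₀ * (ε ^ j : (𝓞 k)ˣ) : 𝓞 k) : k) = ρ β₀ * φ ε ^ j := fun j => by
    rw [← map_zpow, hφ, ← map_mul]; rfl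
  have hn : ρ ((ε ^ n : (𝓞 k)ˣ) : 𝓞 k) = φ ε ^ (n : ℤ) := by rw [← hφ, map_pow, zpow_natCast]
  have lo : ∀ j i : ℤ, φ ε ^ i ≤ ρ β₀ * φ ε ^ j ↔ i ≤ m + j := fun j i => by
    have pj := zpow_pos p0 j
    refine ⟨fun h => Int.lt_add_one_iff.1 ((zpow_lt_zpow_iff_right₀ h2).1 (h.trans_lt ?_)),
      fun h => ((zpow_le_zpow_iff_right₀ h2).2 h).trans ?_⟩
    · rw [add_right_comm, zpow_add₀ p0.ne']
      exact mul_lt_mul_of_pos_right m2 pj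
    · rw [zpow_add₀ p0.ne']
      exact mul_le_mul_of_nonneg_right m1 pj.le
  have key : ∀ i : Fin n, β₀ * (ε ^ ((i : ℕ) - m : ℤ) : (𝓞 k)ˣ) - ν ∈ f * c ∧
      1 ≤ ρ (β₀ * (ε ^ ((i : ℕ) - m : ℤ) : (𝓞 k)ˣ) : 𝓞 k) ∧
      ρ (β₀ * (ε ^ ((i : ℕ) - m : ℤ) : (𝓞 k)ˣ) : 𝓞 k) < ρ ((ε ^ n : (𝓞 k)ˣ) : 𝓞 k) ∧
      Ideal.span {β₀ * (ε ^ ((i : ℕ) - m : ℤ) : (𝓞 k)ˣ)} = Ideal.span {β₀} := fun i => by
    refine ⟨?_, ?_, ?_, Ideal.span_singleton_mul_right_unit (Units.isUnit _) _⟩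
    · convert (f * c).add_mem (Ideal.mul_mem_mul (KFib.mem_un.1
        (zpow_mem (KFib.mem_un.2 h1) ((i : ℕ) - m : ℤ))) hc) hβ using 1
      ring
    · rw [hm, ← zpow_zero (φ ε), lo]; omega
    · rw [hm, hn, ← not_le, lo]; omega
  refine (Nat.card_congr (Equiv.ofBijective (fun i : Fin n => ⟨_, key i⟩)
    ⟨fun i j h => ?_, fun β => ?_⟩)).symm.trans (Nat.card_fin n)
  · have e := congrArg (fun x : 𝓞 k => ρ x) (congrArg Subtype.val h)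
    simp only [hm] at e
    have := zpow_right_injective₀ p0 h2.ne' (mul_left_cancel₀ hp.ne' e)
    exact Fin.ext (by omega)
  · obtain ⟨β, b1, b2, b3, b4⟩ := β
    obtain ⟨η, rfl⟩ := Ideal.span_singleton_eq_span_singleton.1 b4.symm
    obtain ⟨j, rfl⟩ := h3 η (by
      convert f.sub_mem (Ideal.mul_le_left ((f * c).sub_mem b1 hβ))
        (f.mul_mem_left ((η : 𝓞 k) - 1) hf) using 1
      ring) (by
      have : ρ ((β₀ * η : 𝓞 k) : k) = ρ β₀ * ρ (η : 𝓞 k) := by rw [← map_mul]; rfl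
      exact (mul_pos_iff_of_pos_left hp).1 (this ▸ one_pos.trans_le b2))
    rw [hm, ← zpow_zero (φ ε), lo] at b2
    rw [hm, hn, ← not_le, lo] at b3
    refine ⟨⟨(m + j).toNat, by omega⟩, Subtype.ext ?_⟩
    have : (((m + j).toNat : ℕ) - m : ℤ) = j := by omega
    simp only [this]

theorem zeta_eq (hE : Emb ρ σ) {b c : Ideal (𝓞 k)} {ν : 𝓞 k} {u : (𝓞 k)ˣ} {r : ℂ →+ ℝ} (hc : c ≠ ⊥)
    (hr : ∀ x : k, r (σ x) = ρ x)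
    (hN : ∀ I, NRay f I b ↔ ∃ β : 𝓞 k, β - ν ∈ f * c ∧ 0 < ρ β ∧ I * c = Ideal.span {β})
    (hI : ∀ β : 𝓞 k, β - ν ∈ f * c → ∃ I, I * c = Ideal.span {β}) {e : ℕ} (he : e ≠ 0)
    (hfib : ∀ β₀ : 𝓞 k, β₀ - ν ∈ f * c → 0 < ρ β₀ →
      Nat.card {β : 𝓞 k // β - ν ∈ f * c ∧ 1 ≤ ρ β ∧ ρ β < ρ (u : 𝓞 k) ∧
        Ideal.span {β} = Ideal.span {β₀}} = e) {s : ℂ} (hs : 1 < s.re) :
    Zv (latt σ (f * c)) (σ ν) r (ρ (u : 𝓞 k)) s * (Ideal.absNorm c : ℂ) ^ s = rayZ f b s * e := by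
  obtain ⟨d1, -, d3⟩ := diri k s hs
  choose π hπ using hI
  have uq : ∀ {I I' : Ideal (𝓞 k)}, I * c = I' * c → I = I' := mul_right_cancel₀ hc
  let B := {β : 𝓞 k // β - ν ∈ f * c ∧ 1 ≤ ρ β ∧ ρ β < ρ (u : 𝓞 k)}
  let p : B → {I // NRay f I b} := fun β =>
    ⟨π β β.2.1, (hN _).2 ⟨β, β.2.1, one_pos.trans_le β.2.2.1, hπ _ _⟩⟩
  have hp : ∀ I, Nat.card {β // p β = I} = e := fun I => by
    obtain ⟨β₀, b1, b2, b3⟩ := (hN _).1 I.2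
    rw [← hfib β₀ b1 b2]
    refine Nat.card_congr ((Equiv.subtypeSubtypeEquivSubtypeExists _ _).trans
      (Equiv.subtypeEquivRight fun β => ⟨fun ⟨x, y⟩ => ⟨x.1, x.2.1, x.2.2, ?_⟩,
        fun x => ⟨⟨x.1, x.2.1, x.2.2.1⟩, Subtype.ext (uq ?_)⟩⟩))
    · rw [← b3, ← y]; exact (hπ _ x.1).symm
    · exact ((hπ _ x.1).trans x.2.2.2).trans b3.symm
  have hm : ∀ β : 𝓞 k, σ β - σ ν ∈ latt σ (f * c) ↔ β - ν ∈ f * c := fun β => by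
    refine ⟨fun ⟨x, hx, h⟩ => ?_, fun h => ⟨_, h, by simp⟩⟩
    have : algebraMap _ k x = algebraMap _ k (β - ν) := σ.injective (by simpa using h)
    rwa [← RingOfIntegers.coe_injective this]
  let E : B → {z : ℂ // z - σ ν ∈ latt σ (f * c) ∧ 1 ≤ r z ∧ r z < ρ (u : 𝓞 k)} := fun β =>
    ⟨σ β.1, (hm _).2 β.2.1, by rw [hr]; exact β.2.2⟩
  have hEb : Function.Bijective E := by
    refine ⟨fun x y h => Subtype.ext (RingOfIntegers.coe_injective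
      (σ.injective (congrArg Subtype.val h))), fun ⟨z, ⟨x, hx, h⟩, h2⟩ => ?_⟩
    obtain rfl : z = σ ((x + ν : 𝓞 k) : k) := by rw [← sub_add_cancel z (σ ν), ← h]; simp
    exact ⟨⟨x + ν, by simpa using hx, by rwa [hr] at h2⟩, rfl⟩
  have hc' : (Ideal.absNorm c : ℂ) ≠ 0 := by simpa [Ideal.absNorm_eq_zero_iff] using hc
  have hz : Zv (latt σ (f * c)) (σ ν) r (ρ (u : 𝓞 k)) s =
      (∑' β : B, (Ideal.absNorm (p β).1 : ℂ) ^ (-s)) * (Ideal.absNorm c : ℂ) ^ (-s) := by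
    rw [Zv, ← (Equiv.ofBijective E hEb).tsum_eq, ← tsum_mul_right]
    refine tsum_congr fun β => ?_
    change ((r (σ β.1) * ‖σ β.1‖ ^ 2 : ℝ) : ℂ) ^ (-s) = (Ideal.absNorm (π β β.2.1) : ℂ) ^ (-s) * _
    rw [hr, KZeta.nrm hE _ (one_pos.trans_le β.2.2.1), ← hπ _ β.2.1, map_mul,
      ← Complex.natCast_mul_natCast_cpow, Complex.ofReal_natCast, Nat.cast_mul]
  have h2 : (Ideal.absNorm c : ℂ) ^ s ≠ 0 := by simp [hc']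
  rw [hz, KZeta.fib p he hp (g := fun I => (Ideal.absNorm I.1 : ℂ) ^ (-s)) (d1.subtype _), rayZ, d3,
    Lser, Complex.cpow_neg (Ideal.absNorm c : ℂ) s, inv_mul_cancel_right₀ h2]
  erw [tsum_subtype {I | NRay f I b} fun I => (Ideal.absNorm I : ℂ) ^ (-s)]
  congr 1
  exact tsum_congr fun I => by simp [Set.indicator_apply]

omit [NumberField k] in
theorem ad_mk {c : Ideal (𝓞 k)} {u : (𝓞 k)ˣ} {N : ℕ} {ν : 𝓞 k} (hf : f ≠ ⊥) (hf' : f ≠ ⊤)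
    (h1 : (u : 𝓞 k) - 1 ∈ f) (h2 : 6 < ρ (u : 𝓞 k)) (h3 : N ≠ 0) (h4 : (N : 𝓞 k) ∈ f)
    (h5 : ν ∈ c) (h6 : ν - 1 ∈ f) : Ad ρ (f * c) u N ν := by
  have hn : ν ∉ f := fun h => hf' ((Ideal.eq_top_iff_one f).2 (by simpa using f.sub_mem h h6))
  refine ⟨mul_ne_zero hf fun h => hn ?_, h2, h3, ⟨_, Ideal.mul_mem_mul h1 h5, by simp⟩,
    ⟨_, Ideal.mul_mem_mul h4 h5, by simp⟩, fun h => hn (Ideal.mul_le_left (mem_coe.1 h))⟩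
  rw [h] at h5
  exact (Ideal.mem_bot.1 h5) ▸ f.zero_mem

/-- The limit formula for the quotient of the invariants of two consecutive powers. -/
theorem zl (hE : Emb ρ σ) {AL : Fam k} (hI : Inv ρ σ AL) (hf : f ≠ ⊥) (hf' : f ≠ ⊤) :
    ∃ (u u' : (𝓞 k)ˣ) (N : ℕ), ((u : 𝓞 k) - 1 ∈ f ∧ 6 < ρ (u : 𝓞 k)) ∧
      ((u' : 𝓞 k) - 1 ∈ f ∧ 6 < ρ (u' : 𝓞 k)) ∧ N ≠ 0 ∧ (N : 𝓞 k) ∈ f ∧ ∀ b, IsCoprime b f →
      ∃ (c : Ideal (𝓞 k)) (β : 𝓞 k), β - 1 ∈ f ∧ 0 < ρ β ∧ b * c = Ideal.span {β} ∧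
        Cont (rayZ f b) ((Real.log (‖AL (f * c) u N β / AL (f * c) u' N β‖ ^ 2) /
          (12 * (N : ℝ) ^ 3) : ℝ) : ℂ) := by
  obtain ⟨ε, e1, e2, e3⟩ := ex_gen hE hf
  obtain ⟨n, hn⟩ := pow_unbounded_of_one_lt 6 e2
  have hpw : ∀ m : ℕ, ρ ((ε ^ m : (𝓞 k)ˣ) : 𝓞 k) = ρ (ε : 𝓞 k) ^ m := fun m => by
    rw [Units.val_pow_eq_pow_val, RingOfIntegers.coe_eq_algebraMap, map_pow, map_pow]
  have hlev : ∀ m, n ≤ m → ((ε ^ m : (𝓞 k)ˣ) : 𝓞 k) - 1 ∈ f ∧ 6 < ρ ((ε ^ m : (𝓞 k)ˣ) : 𝓞 k) :=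
    fun m hm => ⟨KFib.mem_un.1 (pow_mem (KFib.mem_un.2 e1) m),
      by rw [hpw]; exact hn.trans_le (pow_le_pow_right₀ e2.le hm)⟩
  have hn0 : n ≠ 0 := by rintro rfl; norm_num at hn
  have hN : Ideal.absNorm f ≠ 0 := Ideal.absNorm_eq_zero_iff.not.2 hf
  refine ⟨ε ^ (n + 1), ε ^ n, Ideal.absNorm f, hlev _ n.le_succ, hlev _ le_rfl, hN,
    Ideal.absNorm_mem f, fun b hb => ?_⟩
  have hb0 : b ≠ ⊥ := by
    rintro rfl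
    exact hf' (by simpa using Ideal.isCoprime_iff_sup_eq.1 hb)
  obtain ⟨c, ν, hc0, hν1, hνc, -, hray, hdiv⟩ := k_cls k ρ σ hE f b hf hf' hb0 hb
  obtain ⟨β, b1, b2, b3⟩ := (hray b).1 ⟨1, 1, by
    rw [Ideal.span_singleton_one, ← Ideal.one_eq_top]; exact isCoprime_one_left, by simp,
    by simp, rfl⟩
  obtain ⟨π, hπ⟩ := LinearMap.exists_leftInverse_of_injective σ.toRatAlgHom.toLinearMap
    (LinearMap.ker_eq_bot.2 σ.injective)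
  have hr : ∀ x, (ρ.toAddMonoidHom.comp π.toAddMonoidHom) (σ x) = ρ x := fun x =>
    congrArg ρ (LinearMap.congr_fun hπ x)
  have hcn : (Ideal.absNorm c : ℂ) ≠ 0 := by
    exact_mod_cast Ideal.absNorm_eq_zero_iff.not.2 hc0
  have ad : ∀ m, n ≤ m → Ad ρ (f * c) (ε ^ m) (Ideal.absNorm f) ν := fun m hm =>
    ad_mk hf hf' (hlev m hm).1 (hlev m hm).2 hN (Ideal.absNorm_mem f) hνc hν1
  have key : ∀ m, n ≤ m → Cont (fun s => rayZ f b s * m) ((Real.log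
      (‖AL (f * c) (ε ^ m) (Ideal.absNorm f) ν‖ ^ 2) / (12 * (Ideal.absNorm f : ℝ) ^ 3) : ℝ) : ℂ) :=
    fun m hm => ((hI.klf _ _ _ _ _ (ad m hm) hr).mul_entire (E := fun s => (Ideal.absNorm c : ℂ) ^ s)
      (differentiable_id.const_cpow (Or.inl hcn))).congr (fun s hs => zeta_eq hE hc0 hr hray hdiv
        (by omega) (card_gen e1 e2 e3 hν1 hνc m) hs) (by rw [Complex.cpow_zero, mul_one])
  have per : ∀ m, n ≤ m → AL (f * c) (ε ^ m) (Ideal.absNorm f) β =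
      AL (f * c) (ε ^ m) (Ideal.absNorm f) ν := fun m hm =>
    hI.per _ _ _ _ _ (ad m hm) ⟨_, b1, by simp⟩
  refine ⟨c, β, by simpa using f.add_mem (Ideal.mul_le_left b1) hν1, b2, b3, ?_⟩
  refine ((key _ n.le_succ).add ((key _ le_rfl).const_mul (-1))).congr (fun s _ => ?_) ?_
  · push_cast
    ring
  · rw [per _ n.le_succ, per _ le_rfl, norm_div, div_pow, Real.log_div
      (pow_ne_zero _ (norm_ne_zero_iff.2 (hI.ne _ _ _ _ (ad _ n.le_succ))))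
      (pow_ne_zero _ (norm_ne_zero_iff.2 (hI.ne _ _ _ _ (ad _ le_rfl))))]
    push_cast
    ring

end

end Pool.Agent.P.MP_29cb78_nt.D
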